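import Pool.Agent.Work.MP_23451d_me.Interface

set_option autoImplicit false

namespace Pool.L2B

open MeasureTheory SimpleGraph
open scoped ENNReal

theorem stmt_BON : Stmt_BON := by
  intro Ω _ μ _ ι _ s F hF
  induction s using Finset.induction_on with
  | empty => simp
  | insert a s ha ih =>
    have hF' : ∀ i ∈ s, MeasurableSet (F i) := fun i hi => hF i (Finset.mem_insert_of_mem hi)
    have hU : MeasurableSet (⋃ i ∈ s, F i) := Finset.measurableSet_biUnion _ hF'
    have h1 := ih hF'
    have h2 : (μ (⋃ i ∈ insert a s, F i)).toReal + (μ ((⋃ i ∈ s, F i) ∩ F a)).toReal =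
        (μ (⋃ i ∈ s, F i)).toReal + (μ (F a)).toReal := by
      rw [Finset.set_biUnion_insert, Set.union_comm]
      have := measureReal_union_add_inter (μ := μ) (s := ⋃ i ∈ s, F i) (t := F a)
        (hF a (Finset.mem_insert_self _ _)) (measure_ne_top μ _) (measure_ne_top μ _)
      simpa [Measure.real] using this
    have h3 : (μ ((⋃ i ∈ s, F i) ∩ F a)).toReal ≤ ∑ j ∈ s, (μ (F a ∩ F j)).toReal := by
      have e : (⋃ i ∈ s, F i) ∩ F a = ⋃ i ∈ s, (F a ∩ F i) := by
        ext x
        simp only [Set.mem_inter_iff, Set.mem_iUnion, exists_prop]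
        constructor
        · rintro ⟨⟨i, hi, hx⟩, h⟩
          exact ⟨i, hi, h, hx⟩
        · rintro ⟨i, hi, h, hx⟩
          exact ⟨⟨i, hi, hx⟩, h⟩
      rw [e]
      have := measureReal_biUnion_finset_le (μ := μ) s (fun i => F a ∩ F i)
      simpa [Measure.real] using this
    rw [Finset.sum_insert ha, Finset.sum_insert ha, Finset.erase_insert ha]
    have h4 : ∑ i ∈ s, ∑ j ∈ s.erase i, (μ (F i ∩ F j)).toReal ≤
        ∑ i ∈ s, ∑ j ∈ (insert a s).erase i, (μ (F i ∩ F j)).toReal := by
      refine Finset.sum_le_sum fun i hi => ?_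
      refine Finset.sum_le_sum_of_subset_of_nonneg
        (Finset.erase_subset_erase _ (Finset.subset_insert _ _)) fun j _ _ => ENNReal.toReal_nonneg
    linarith

end Pool.L2B
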