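import Pool.Agent.Work.MP_23451d_me.Interface

/-!
# Block CME: connection events are measurable
-/

set_option autoImplicit false

namespace Pool.L2B

open MeasureTheory SimpleGraph
open scoped ENNReal

theorem countable_walk {V : Type} [Countable V] (G : SimpleGraph V) (u v : V) :
    Countable (G.Walk u v) := by
  have hinj : Function.Injective (fun w : G.Walk u v => w.support) := by
    intro w w' h
    exact Walk.ext_support h
  exact hinj.countable

theorem stmt_CME : Stmt_CME := by
  intro V _ G p u v
  have : Countable (G.Walk u v) := countable_walk G u v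
  have hset : {ω : Sym2 V → unitInterval | Conn G p ω u v} =
      ⋃ w : G.Walk u v, ⋂ e ∈ {e | e ∈ w.edges},
        {ω : Sym2 V → unitInterval | ((ω e : unitInterval) : ℝ) < p} := by
    ext ω
    simp [Conn]
  rw [hset]
  refine @MeasurableSet.iUnion _ _ (sig G.edgeSet) _ _ (fun w => ?_)
  have hc : ({e | e ∈ w.edges} : Set (Sym2 V)).Countable := (List.finite_toSet w.edges).countable
  refine @MeasurableSet.biInter _ _ (sig G.edgeSet) _ _ hc (fun e he => ?_)
  have he' : e ∈ G.edgeSet := w.edges_subset_edgeSet he
  have hle : MeasurableSpace.comap (fun ω : Sym2 V → unitInterval => ω e) inferInstance ≤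
      sig G.edgeSet := le_iSup₂_of_le e he' le_rfl
  refine hle _ ?_
  refine ⟨{x : unitInterval | (x : ℝ) < p}, ?_, rfl⟩
  exact measurableSet_lt measurable_subtype_coe measurable_const

end Pool.L2B
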