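import Pool.Agent.Work.MP_23451d_me.Interface

set_option autoImplicit false

namespace Pool.L2B

open MeasureTheory SimpleGraph
open scoped ENNReal

theorem stmt_CNT : Stmt_CNT := by
  intro V G hG hd
  classical
  obtain ⟨x⟩ := hG.nonempty
  have hball : ∀ n : ℕ, {y | G.dist x y ≤ n}.Finite := by
    intro n
    induction n with
    | zero =>
      have h : {y | G.dist x y ≤ 0} = {x} := by
        ext y
        simp only [Set.mem_ofPred_eq, Nat.le_zero, Set.mem_singleton_iff, hG.dist_eq_zero_iff]
        exact eq_comm
      rw [h]
      exact Set.finite_singleton x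
    | succ n ih =>
      refine (ih.biUnion (t := fun z => insert z (G.neighborSet z))
        fun z _ => (hd z).insert z).subset ?_
      intro y hy
      have hy' : G.dist x y ≤ n + 1 := hy
      simp only [Set.mem_iUnion, exists_prop]
      rcases Nat.lt_or_ge n (G.dist x y) with h1 | h1
      · obtain ⟨p, hp⟩ := hG.exists_walk_length_eq_dist y x
        cases p with
        | nil => simp at h1
        | cons h q =>
          rename_i z
          refine ⟨z, ?_, Or.inr h.symm⟩
          have h2 : G.dist x z ≤ q.length := by
            rw [SimpleGraph.dist_comm]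
            exact SimpleGraph.dist_le q
          rw [SimpleGraph.Walk.length_cons, SimpleGraph.dist_comm] at hp
          exact (show G.dist x z ≤ n by omega)
      · exact ⟨y, h1, Or.inl rfl⟩
  rw [← Set.countable_univ_iff]
  refine (Set.countable_iUnion fun n : ℕ => (hball n).countable).mono ?_
  intro y _
  exact Set.mem_iUnion.2 ⟨G.dist x y, (le_refl (G.dist x y) : G.dist x y ≤ G.dist x y)⟩

end Pool.L2B
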