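import Pool.Agent.Work.MP_23451d_me.Interface

/-!
# Block DCTI (MP_23451d_pr): the increment inequality of Duminil-Copin and Tassion
-/

set_option autoImplicit false

namespace Pool.L2B

open MeasureTheory SimpleGraph
open scoped ENNReal

namespace DCTI

variable {V : Type}

/-- all labels in `J` are at least `p` -/
def BB (p : ℝ) (J : Set (Sym2 V)) : Set (Sym2 V → unitInterval) :=
  {ω | ∀ j ∈ J, p ≤ ((ω j : unitInterval) : ℝ)}

/-- the label of `j` is in `[p, p + ε)` -/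
def WW (p ε : ℝ) (j : Sym2 V) : Set (Sym2 V → unitInterval) :=
  {ω | p ≤ ((ω j : unitInterval) : ℝ) ∧ ((ω j : unitInterval) : ℝ) < p + ε}

theorem meas_ge (hLAB : Stmt_LAB) (p : ℝ) (j : Sym2 V) :
    MeasurableSet[sig {j}] {ω : Sym2 V → unitInterval | p ≤ ((ω j : unitInterval) : ℝ)} := by
  have h := @MeasurableSet.compl _ _ (sig {j}) (hLAB V j p).1
  have e : {ω : Sym2 V → unitInterval | p ≤ ((ω j : unitInterval) : ℝ)} =
      {ω : Sym2 V → unitInterval | ((ω j : unitInterval) : ℝ) < p}ᶜ := by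
    ext ω
    simp
  rw [e]
  exact h

theorem meas_W (hLAB : Stmt_LAB) (p ε : ℝ) (j : Sym2 V) : MeasurableSet[sig {j}] (WW p ε j) :=
  @MeasurableSet.inter _ (sig {j}) _ _ (meas_ge hLAB p j) (hLAB V j (p + ε)).1

theorem meas_B (hLAB : Stmt_LAB) (hSIG : Stmt_SIG) (p : ℝ) (J : Finset (Sym2 V)) :
    MeasurableSet[sig (J : Set (Sym2 V))] (BB p (J : Set (Sym2 V))) := by
  have e : BB p (J : Set (Sym2 V)) =
      ⋂ j ∈ J, {ω : Sym2 V → unitInterval | p ≤ ((ω j : unitInterval) : ℝ)} := by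
    ext ω
    simp [BB]
  rw [e]
  refine @Finset.measurableSet_biInter _ _ (sig (J : Set (Sym2 V))) _ J fun j hj => ?_
  exact (hSIG V).2.1 _ _ (by simpa using hj) _ (meas_ge hLAB p j)

theorem mu_ge (hLAB : Stmt_LAB) (hSIG : Stmt_SIG) (p : ℝ) (hp0 : 0 ≤ p) (hp1 : p ≤ 1)
    (j : Sym2 V) :
    (mu V {ω : Sym2 V → unitInterval | p ≤ ((ω j : unitInterval) : ℝ)}).toReal = 1 - p := by
  have e : {ω : Sym2 V → unitInterval | p ≤ ((ω j : unitInterval) : ℝ)} =
      {ω : Sym2 V → unitInterval | ((ω j : unitInterval) : ℝ) < p}ᶜ := by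
    ext ω
    simp
  rw [e, prob_compl_eq_one_sub ((hSIG V).1 _ _ (hLAB V j p).1), (hLAB V j p).2 hp0 hp1,
    ENNReal.toReal_sub_of_le _ ENNReal.one_ne_top, ENNReal.toReal_one, ENNReal.toReal_ofReal hp0]
  rw [← ENNReal.ofReal_one]
  exact ENNReal.ofReal_le_ofReal hp1

theorem mu_W (hLAB : Stmt_LAB) (hSIG : Stmt_SIG) (p ε : ℝ) (hp0 : 0 ≤ p) (hε : 0 ≤ ε)
    (hp1 : p + ε ≤ 1) (j : Sym2 V) : (mu V (WW p ε j)).toReal = ε := by
  have e : (WW p ε j : Set (Sym2 V → unitInterval)) =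
      {ω : Sym2 V → unitInterval | ((ω j : unitInterval) : ℝ) < p + ε} \
      {ω : Sym2 V → unitInterval | ((ω j : unitInterval) : ℝ) < p} := by
    ext ω
    simp [WW, and_comm]
  have hsub : {ω : Sym2 V → unitInterval | ((ω j : unitInterval) : ℝ) < p} ⊆
      {ω : Sym2 V → unitInterval | ((ω j : unitInterval) : ℝ) < p + ε} := by
    intro ω (hω : ((ω j : unitInterval) : ℝ) < p)
    show ((ω j : unitInterval) : ℝ) < p + ε
    linarith
  rw [e, measure_sdiff hsub ((hSIG V).1 _ _ (hLAB V j p).1).nullMeasurableSet (measure_ne_top _ _),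
    (hLAB V j p).2 hp0 (by linarith), (hLAB V j (p + ε)).2 (by linarith) hp1,
    ENNReal.toReal_sub_of_le (ENNReal.ofReal_le_ofReal (by linarith)) ENNReal.ofReal_ne_top,
    ENNReal.toReal_ofReal hp0, ENNReal.toReal_ofReal (by linarith)]
  ring

theorem B_insert (p : ℝ) (J : Set (Sym2 V)) (j : Sym2 V) :
    BB p (insert j J) = BB p J ∩ {ω | p ≤ ((ω j : unitInterval) : ℝ)} := by
  ext ω
  simp only [BB, Set.mem_insert_iff, Set.mem_ofPred_eq, forall_eq_or_imp, Set.mem_inter_iff]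
  exact and_comm

theorem mu_insert (hLAB : Stmt_LAB) (hSIG : Stmt_SIG) (p : ℝ) (hp0 : 0 ≤ p) (hp1 : p ≤ 1)
    (J : Finset (Sym2 V)) (j : Sym2 V) (hj : j ∉ J) :
    (mu V (BB p (insert j (J : Set (Sym2 V))))).toReal =
      (mu V (BB p (J : Set (Sym2 V)))).toReal * (1 - p) := by
  rw [B_insert, (hSIG V).2.2 (J : Set (Sym2 V)) {j} (by simpa using hj) _ _
    (meas_B hLAB hSIG p J) (meas_ge hLAB p j), ENNReal.toReal_mul, mu_ge hLAB hSIG p hp0 hp1 j]

/-- one boundary edge -/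
theorem mu_one (hLAB : Stmt_LAB) (hSIG : Stmt_SIG) (p ε : ℝ) (hp0 : 0 ≤ p) (hε : 0 ≤ ε)
    (hp1 : p + ε < 1) (J : Finset (Sym2 V)) (j : Sym2 V) (hj : j ∉ J) (I : Set (Sym2 V))
    (hI : Disjoint (insert j (J : Set (Sym2 V))) I) (X : Set (Sym2 V → unitInterval))
    (hX : MeasurableSet[sig I] X) :
    (mu V (BB p (insert j (J : Set (Sym2 V))) ∩
      (X ∩ {ω | ((ω j : unitInterval) : ℝ) < p + ε}))).toReal =
      (mu V (BB p (insert j (J : Set (Sym2 V))))).toReal * (ε / (1 - p) * (mu V X).toReal) := by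
  have e : BB p (insert j (J : Set (Sym2 V))) ∩ (X ∩ {ω | ((ω j : unitInterval) : ℝ) < p + ε}) =
      (BB p (J : Set (Sym2 V)) ∩ WW p ε j) ∩ X := by
    rw [B_insert]
    ext ω
    simp only [Set.mem_inter_iff, Set.mem_ofPred_eq, WW]
    tauto
  have hJ : Disjoint (J : Set (Sym2 V)) {j} := by simpa using hj
  have m1 : MeasurableSet[sig (insert j (J : Set (Sym2 V)))] (BB p (J : Set (Sym2 V)) ∩ WW p ε j) :=
    @MeasurableSet.inter _ (sig (insert j (J : Set (Sym2 V)))) _ _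
      ((hSIG V).2.1 _ _ (Set.subset_insert _ _) _ (meas_B hLAB hSIG p J))
      ((hSIG V).2.1 _ _ (by simp) _ (meas_W hLAB p ε j))
  rw [e, (hSIG V).2.2 _ _ hI _ _ m1 hX, (hSIG V).2.2 _ _ hJ _ _ (meas_B hLAB hSIG p J)
    (meas_W hLAB p ε j), ENNReal.toReal_mul, ENNReal.toReal_mul,
    mu_W hLAB hSIG p ε hp0 hε hp1.le j, mu_insert hLAB hSIG p hp0 (by linarith) J j hj]
  have : (1 - p) ≠ 0 := by linarith
  field_simp

/-- two boundary edges -/
theorem mu_two (hLAB : Stmt_LAB) (hSIG : Stmt_SIG) (p ε : ℝ) (hp0 : 0 ≤ p) (hε : 0 ≤ ε)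
    (hp1 : p + ε < 1) (J : Finset (Sym2 V)) (i j : Sym2 V) (hi : i ∉ J) (hj : j ∉ J) (hij : i ≠ j) :
    (mu V (BB p (insert i (insert j (J : Set (Sym2 V)))) ∩
      ({ω | ((ω i : unitInterval) : ℝ) < p + ε} ∩ {ω | ((ω j : unitInterval) : ℝ) < p + ε}))).toReal =
      (mu V (BB p (insert i (insert j (J : Set (Sym2 V)))))).toReal * (ε / (1 - p)) ^ 2 := by
  classical
  have e : BB p (insert i (insert j (J : Set (Sym2 V)))) ∩
      ({ω | ((ω i : unitInterval) : ℝ) < p + ε} ∩ {ω | ((ω j : unitInterval) : ℝ) < p + ε}) =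
      (BB p (J : Set (Sym2 V)) ∩ WW p ε j) ∩ WW p ε i := by
    rw [B_insert, B_insert]
    ext ω
    simp only [Set.mem_inter_iff, Set.mem_ofPred_eq, WW]
    tauto
  have hJ : Disjoint (J : Set (Sym2 V)) {j} := by simpa using hj
  have hI : Disjoint (insert j (J : Set (Sym2 V))) {i} := by
    rw [Set.disjoint_singleton_right]
    simp [hi, hij]
  have m1 : MeasurableSet[sig (insert j (J : Set (Sym2 V)))] (BB p (J : Set (Sym2 V)) ∩ WW p ε j) :=
    @MeasurableSet.inter _ (sig (insert j (J : Set (Sym2 V)))) _ _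
      ((hSIG V).2.1 _ _ (Set.subset_insert _ _) _ (meas_B hLAB hSIG p J))
      ((hSIG V).2.1 _ _ (by simp) _ (meas_W hLAB p ε j))
  have h2 := mu_insert hLAB hSIG p hp0 (by linarith) (insert j J) i (by simp [hi, hij])
  rw [Finset.coe_insert] at h2
  rw [e, (hSIG V).2.2 _ _ hI _ _ m1 (meas_W hLAB p ε i), (hSIG V).2.2 _ _ hJ _ _
    (meas_B hLAB hSIG p J) (meas_W hLAB p ε j), ENNReal.toReal_mul, ENNReal.toReal_mul,
    mu_W hLAB hSIG p ε hp0 hε hp1.le j, mu_W hLAB hSIG p ε hp0 hε hp1.le i, h2,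
    mu_insert hLAB hSIG p hp0 (by linarith) J j hj]
  have : (1 - p) ≠ 0 := by linarith
  field_simp

theorem conn_append {G : SimpleGraph V} {p : ℝ} {ω : Sym2 V → unitInterval} {u v w : V}
    (h1 : Conn G p ω u v) (h2 : Conn G p ω v w) : Conn G p ω u w := by
  obtain ⟨w1, k1⟩ := h1
  obtain ⟨w2, k2⟩ := h2
  refine ⟨w1.append w2, fun e he => ?_⟩
  rw [Walk.edges_append, List.mem_append] at he
  rcases he with he | he
  · exact k1 e he
  · exact k2 e he

theorem conn_edge {G : SimpleGraph V} {p : ℝ} {ω : Sym2 V → unitInterval} {u v : V}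
    (h : G.Adj u v) (hp : ((ω s(u, v) : unitInterval) : ℝ) < p) : Conn G p ω u v := by
  refine ⟨Walk.cons h Walk.nil, fun e he => ?_⟩
  simp only [Walk.edges_cons, Walk.edges_nil, List.mem_cons, List.not_mem_nil, or_false] at he
  rw [he]
  exact hp

theorem conn_mono {G G' : SimpleGraph V} (hG : G ≤ G') {p p' : ℝ} (hp : p ≤ p')
    {ω : Sym2 V → unitInterval} {u v : V} (h : Conn G p ω u v) : Conn G' p' ω u v := by
  obtain ⟨w, hw⟩ := h
  refine ⟨w.mapLe hG, fun e he => ?_⟩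
  rw [Walk.edges_mapLe_eq_edges] at he
  exact lt_of_lt_of_le (hw e he) hp

/-- the conditional estimate for one set `S` -/
theorem one_set (hLAB : Stmt_LAB) (hSIG : Stmt_SIG) (hCME : Stmt_CME) (hEXO : Stmt_EXO)
    (hBON : Stmt_BON) [Countable V] (G : SimpleGraph V) (Λ S : Finset V) (x : V)
    (hS : S ⊆ Λ) (p ε : ℝ) (hp0 : 0 ≤ p) (hε : 0 < ε) (hp1 : p + ε < 1)
    (hyp : (∀ a ∈ S, ∀ b, G.Adj a b → b ∈ Λ) → 1 ≤ phi G p (S : Set V) x) :
    (mu V ({ω | ∀ z ∈ Λ, (z ∈ S ↔ ¬ Reach G (Λ : Set V) p ω z)} ∩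
      {ω | ¬ Reach G (Λ : Set V) (p + ε) ω x})).toReal ≤
    (mu V {ω | ∀ z ∈ Λ, (z ∈ S ↔ ¬ Reach G (Λ : Set V) p ω z)}).toReal *
      (1 - ε + (Λ.card : ℝ) ^ 4 * (ε / (1 - p)) ^ 2) := by
  classical
  obtain ⟨e1, e2⟩ := hEXO V G Λ S p hS
  by_cases hnb : ∀ a ∈ S, ∀ b, G.Adj a b → b ∈ Λ
  swap
  · rw [e2 hnb]
    simp
  obtain ⟨A, hA, hES⟩ := e1 hnb
  have hphi := hyp hnb
  obtain ⟨hpi, hmono, hind⟩ := hSIG V
  set Bd : Finset (V × V) := (Λ ×ˢ Λ).filter (fun e => e ∈ bdE G (S : Set V)) with hBd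
  have hBdmem : ∀ e, e ∈ Bd ↔ e ∈ bdE G (S : Set V) := by
    intro e
    rw [hBd, Finset.mem_filter, Finset.mem_product]
    constructor
    · exact fun h => h.2
    · rintro h
      have h1 : e.1 ∈ S := h.1
      exact ⟨⟨hS h1, hnb _ h1 _ h.2.2⟩, h⟩
  set J : Finset (Sym2 V) := Bd.image (fun e => s(e.1, e.2)) with hJ
  set B0 : Set (Sym2 V → unitInterval) := BB p (J : Set (Sym2 V)) with hB0
  have hB0eq : {ω : Sym2 V → unitInterval | ∀ e ∈ bdE G (S : Set V),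
      p ≤ ((ω s(e.1, e.2) : unitInterval) : ℝ)} = B0 := by
    ext ω
    simp only [hB0, BB, hJ, Finset.coe_image, Set.mem_image, Set.mem_ofPred_eq, Finset.mem_coe]
    constructor
    · rintro h j ⟨e, he, rfl⟩
      exact h e ((hBdmem e).1 he)
    · intro h e he
      exact h _ ⟨e, (hBdmem e).2 he, rfl⟩
  rw [hB0eq] at hES
  -- the events `F e`
  set X : V × V → Set (Sym2 V → unitInterval) := fun e => {ω | Conn (within G (S : Set V)) p ω x e.1}
    with hX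
  set F : V × V → Set (Sym2 V → unitInterval) := fun e =>
    X e ∩ {ω | ((ω s(e.1, e.2) : unitInterval) : ℝ) < p + ε} with hF
  have hXm : ∀ e, MeasurableSet[sig (within G (S : Set V)).edgeSet] (X e) := fun e =>
    hCME V (within G (S : Set V)) p x e.1
  have hFm : ∀ e, MeasurableSet (F e) := fun e =>
    (hpi _ _ (hXm e)).inter (hpi _ _ (hLAB V s(e.1, e.2) (p + ε)).1)
  have hinj : ∀ e ∈ Bd, ∀ f ∈ Bd, s(e.1, e.2) = s(f.1, f.2) → e = f := by
    intro e he f hf hef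
    rw [hBdmem] at he hf
    rw [Sym2.eq_iff] at hef
    rcases hef with ⟨h1, h2⟩ | ⟨h1, h2⟩
    · exact Prod.ext h1 h2
    · exact absurd (h1 ▸ he.1) hf.2.1
  -- inclusion
  have hincl : ({ω | ∀ z ∈ Λ, (z ∈ S ↔ ¬ Reach G (Λ : Set V) p ω z)} ∩
      {ω | ¬ Reach G (Λ : Set V) (p + ε) ω x}) ⊆ A ∩ (B0 \ ⋃ e ∈ Bd, F e) := by
    rintro ω ⟨h1, h2⟩
    have h3 := h1
    rw [hES] at h3
    refine ⟨h3.1, h3.2, fun h4 => h2 ?_⟩
    simp only [Set.mem_iUnion] at h4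
    obtain ⟨e, he, h5, h6⟩ := h4
    rw [hBdmem] at he
    have he1 : e.1 ∈ S := he.1
    have he2 : e.2 ∉ S := he.2.1
    have he2' : e.2 ∈ Λ := hnb _ he1 _ he.2.2
    have h7 : Reach G (Λ : Set V) p ω e.2 := by
      by_contra hcon
      exact he2 ((h1 e.2 he2').2 hcon)
    obtain ⟨g, hg, h8⟩ := h7
    refine ⟨g, hg, ?_⟩
    have hle : within G (S : Set V) ≤ within G (Λ : Set V) := fun a b h =>
      ⟨h.1, hS h.2.1, hS h.2.2⟩
    refine conn_append (conn_mono hle (by linarith) h5) (conn_append (conn_edge ?_ h6)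
      (conn_mono le_rfl (by linarith) h8))
    exact ⟨he.2.2, hS he1, he2'⟩
  -- index sets
  set IS : Set (Sym2 V) := {e | e ∈ G.edgeSet ∧ ∃ v ∈ (S : Set V), v ∈ e} with hIS
  have hJIS : (J : Set (Sym2 V)) ⊆ IS := by
    intro j hj
    rw [hJ, Finset.coe_image] at hj
    obtain ⟨e, he, rfl⟩ := hj
    have he' := (hBdmem e).1 he
    exact ⟨he'.2.2, e.1, he'.1, Sym2.mem_mk_left _ _⟩
  have hSIS : (within G (S : Set V)).edgeSet ⊆ IS := by
    intro j
    refine Sym2.ind (fun a b => ?_) j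
    intro h
    rw [SimpleGraph.mem_edgeSet] at h
    exact ⟨h.1, a, h.2.1, Sym2.mem_mk_left _ _⟩
  have hdis : Disjoint (within G ((Λ : Set V) \ (S : Set V))).edgeSet IS := by
    rw [Set.disjoint_left]
    intro j
    refine Sym2.ind (fun a b => ?_) j
    rintro h1 ⟨_, v, hv, h2⟩
    rw [SimpleGraph.mem_edgeSet] at h1
    rw [Sym2.mem_iff] at h2
    rcases h2 with h2 | h2
    · exact h1.2.1.2 (h2 ▸ hv)
    · exact h1.2.2.2 (h2 ▸ hv)
  have hB0m : MeasurableSet[sig IS] B0 := hmono _ _ hJIS _ (meas_B hLAB hSIG p J)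
  have hFISm : ∀ e ∈ Bd, MeasurableSet[sig IS] (F e) := by
    intro e he
    refine @MeasurableSet.inter _ (sig IS) _ _ (hmono _ _ hSIS _ (hXm e)) ?_
    refine hmono {s(e.1, e.2)} IS ?_ _ (hLAB V s(e.1, e.2) (p + ε)).1
    rw [Set.singleton_subset_iff]
    apply hJIS
    rw [hJ, Finset.coe_image]
    exact ⟨e, he, rfl⟩
  have hUm : MeasurableSet[sig IS] (⋃ e ∈ Bd, F e) :=
    @Finset.measurableSet_biUnion _ _ (sig IS) _ Bd hFISm
  have hDm : MeasurableSet[sig IS] (B0 \ ⋃ e ∈ Bd, F e) :=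
    @MeasurableSet.diff _ (sig IS) _ _ hB0m hUm
  -- real numbers
  set b : ℝ := (mu V B0).toReal with hb
  have hb0 : 0 ≤ b := ENNReal.toReal_nonneg
  set δ : ℝ := ε / (1 - p) with hδ
  have h1p : 0 < 1 - p := by linarith
  have hδ0 : 0 ≤ δ := by positivity
  have hδε : ε ≤ δ := by
    rw [hδ, le_div_iff₀ h1p]
    nlinarith
  have hone : ∀ e ∈ Bd, ((mu V).restrict B0 (F e)).toReal = b * (δ * (mu V (X e)).toReal) := by
    intro e he
    rw [Measure.restrict_apply (hFm e), Set.inter_comm, hb]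
    have hj : s(e.1, e.2) ∈ J := by
      rw [hJ, Finset.mem_image]
      exact ⟨e, he, rfl⟩
    have hins : (J : Set (Sym2 V)) = insert s(e.1, e.2) ((J.erase s(e.1, e.2) : Finset (Sym2 V)) :
        Set (Sym2 V)) := by
      rw [← Finset.coe_insert, Finset.insert_erase hj]
    rw [hB0, hins]
    refine mu_one hLAB hSIG p ε hp0 hε.le hp1 _ _ (Finset.notMem_erase _ _)
      (within G (S : Set V)).edgeSet ?_ _ (hXm e)
    rw [← hins, Set.disjoint_left]
    intro j hj hj'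
    rw [hJ, Finset.coe_image] at hj
    obtain ⟨f, hf, rfl⟩ := hj
    have hf' := (hBdmem f).1 hf
    rw [SimpleGraph.mem_edgeSet] at hj'
    exact hf'.2.1 hj'.2.2
  have htwo : ∀ e ∈ Bd, ∀ f ∈ Bd.erase e, ((mu V).restrict B0 (F e ∩ F f)).toReal ≤ b * δ ^ 2 := by
    intro e he f hf
    rw [Finset.mem_erase] at hf
    obtain ⟨hfe, hf⟩ := hf
    have hne : s(e.1, e.2) ≠ s(f.1, f.2) := fun h => hfe (hinj e he f hf h).symm
    have hje : s(e.1, e.2) ∈ J := by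
      rw [hJ, Finset.mem_image]
      exact ⟨e, he, rfl⟩
    have hjf : s(f.1, f.2) ∈ J := by
      rw [hJ, Finset.mem_image]
      exact ⟨f, hf, rfl⟩
    set J' : Finset (Sym2 V) := (J.erase s(e.1, e.2)).erase s(f.1, f.2) with hJ'
    have hins : (J : Set (Sym2 V)) = insert s(e.1, e.2) (insert s(f.1, f.2) (J' : Set (Sym2 V))) := by
      rw [← Finset.coe_insert, ← Finset.coe_insert, hJ', Finset.insert_erase
        (Finset.mem_erase.2 ⟨hne.symm, hjf⟩), Finset.insert_erase hje]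
    have h1 := mu_two hLAB hSIG p ε hp0 hε.le hp1 J' s(e.1, e.2) s(f.1, f.2)
      (by simp [hJ']) (by simp [hJ']) hne
    rw [← hins] at h1
    rw [Measure.restrict_apply ((hFm e).inter (hFm f)), hb, hδ, ← h1]
    refine ENNReal.toReal_mono (measure_ne_top _ _) (measure_mono ?_)
    rintro ω ⟨⟨⟨_, h2⟩, _, h3⟩, h4⟩
    exact ⟨h4, h2, h3⟩
  have hbon := hBON (Sym2 V → unitInterval) ((mu V).restrict B0) (V × V) Bd F (fun e _ => hFm e)
  have hcardBd : (Bd.card : ℝ) ≤ (Λ.card : ℝ) ^ 2 := by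
    have h1 : Bd.card ≤ (Λ ×ˢ Λ).card := Finset.card_filter_le _ _
    rw [Finset.card_product] at h1
    rw [pow_two]
    exact_mod_cast h1
  have hsum2 : ∑ e ∈ Bd, ∑ f ∈ Bd.erase e, ((mu V).restrict B0 (F e ∩ F f)).toReal ≤
      (Λ.card : ℝ) ^ 4 * (b * δ ^ 2) := by
    have hnn : 0 ≤ b * δ ^ 2 := by positivity
    calc ∑ e ∈ Bd, ∑ f ∈ Bd.erase e, ((mu V).restrict B0 (F e ∩ F f)).toReal
        ≤ ∑ e ∈ Bd, ∑ f ∈ Bd.erase e, b * δ ^ 2 :=
          Finset.sum_le_sum fun e he => Finset.sum_le_sum fun f hf => htwo e he f hf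
      _ ≤ ∑ e ∈ Bd, (Λ.card : ℝ) ^ 2 * (b * δ ^ 2) := by
          refine Finset.sum_le_sum fun e he => ?_
          rw [Finset.sum_const, nsmul_eq_mul]
          apply mul_le_mul_of_nonneg_right _ hnn
          refine le_trans ?_ hcardBd
          exact_mod_cast Finset.card_erase_le
      _ = (Bd.card : ℝ) * ((Λ.card : ℝ) ^ 2 * (b * δ ^ 2)) := by
          rw [Finset.sum_const, nsmul_eq_mul]
      _ ≤ (Λ.card : ℝ) ^ 2 * ((Λ.card : ℝ) ^ 2 * (b * δ ^ 2)) := by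
          apply mul_le_mul_of_nonneg_right hcardBd
          positivity
      _ = (Λ.card : ℝ) ^ 4 * (b * δ ^ 2) := by ring
  have hsum1 : b * δ ≤ ∑ e ∈ Bd, ((mu V).restrict B0 (F e)).toReal := by
    rw [Finset.sum_congr rfl hone, ← Finset.mul_sum, ← Finset.mul_sum]
    have hs : 1 ≤ ∑ e ∈ Bd, (mu V (X e)).toReal := by
      have h1 : phi G p (S : Set V) x = ∑ e ∈ Bd, ENNReal.ofReal p * mu V (X e) := by
        unfold phi
        have hset : bdE G (S : Set V) = (Bd : Set (V × V)) := by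
          ext e
          rw [Finset.mem_coe]
          exact (hBdmem e).symm
        rw [hset]
        exact Finset.tsum_subtype Bd (fun e => ENNReal.ofReal p * mu V (X e))
      rw [h1, ← Finset.mul_sum] at hphi
      have h2 : ENNReal.ofReal p * ∑ e ∈ Bd, mu V (X e) ≤ ∑ e ∈ Bd, mu V (X e) := by
        calc ENNReal.ofReal p * ∑ e ∈ Bd, mu V (X e) ≤ 1 * ∑ e ∈ Bd, mu V (X e) := by
              gcongr
              rw [← ENNReal.ofReal_one]
              exact ENNReal.ofReal_le_ofReal (by linarith)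
          _ = _ := one_mul _
      have h3 := hphi.trans h2
      have h4 : (∑ e ∈ Bd, mu V (X e)).toReal = ∑ e ∈ Bd, (mu V (X e)).toReal :=
        ENNReal.toReal_sum fun e _ => measure_ne_top _ _
      rw [← h4, ← ENNReal.toReal_one]
      refine ENNReal.toReal_mono ?_ h3
      exact ENNReal.sum_ne_top.2 fun e _ => measure_ne_top _ _
    nlinarith [mul_nonneg hb0 hδ0]
  have hU : b * (δ - (Λ.card : ℝ) ^ 4 * δ ^ 2) ≤ (mu V (B0 ∩ ⋃ e ∈ Bd, F e)).toReal := by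
    have h1 : (mu V).restrict B0 (⋃ e ∈ Bd, F e) = mu V (B0 ∩ ⋃ e ∈ Bd, F e) := by
      rw [Measure.restrict_apply (hpi _ _ hUm), Set.inter_comm]
    rw [h1] at hbon
    nlinarith
  have hdiff : (mu V (B0 \ ⋃ e ∈ Bd, F e)).toReal ≤ b * (1 - ε + (Λ.card : ℝ) ^ 4 * δ ^ 2) := by
    have h1 : mu V (B0 ∩ ⋃ e ∈ Bd, F e) + mu V (B0 \ ⋃ e ∈ Bd, F e) = mu V B0 :=
      measure_inter_add_sdiff B0 (hpi _ _ hUm)
    have h2 : (mu V (B0 ∩ ⋃ e ∈ Bd, F e)).toReal + (mu V (B0 \ ⋃ e ∈ Bd, F e)).toReal = b := by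
      rw [← ENNReal.toReal_add (measure_ne_top _ _) (measure_ne_top _ _), h1]
    have h3 : b * ε ≤ b * δ := mul_le_mul_of_nonneg_left hδε hb0
    nlinarith
  calc (mu V ({ω | ∀ z ∈ Λ, (z ∈ S ↔ ¬ Reach G (Λ : Set V) p ω z)} ∩
      {ω | ¬ Reach G (Λ : Set V) (p + ε) ω x})).toReal
      ≤ (mu V (A ∩ (B0 \ ⋃ e ∈ Bd, F e))).toReal :=
        ENNReal.toReal_mono (measure_ne_top _ _) (measure_mono hincl)
    _ = (mu V A).toReal * (mu V (B0 \ ⋃ e ∈ Bd, F e)).toReal := by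
        rw [hind _ _ hdis _ _ hA hDm, ENNReal.toReal_mul]
    _ ≤ (mu V A).toReal * (b * (1 - ε + (Λ.card : ℝ) ^ 4 * δ ^ 2)) :=
        mul_le_mul_of_nonneg_left hdiff ENNReal.toReal_nonneg
    _ = (mu V {ω | ∀ z ∈ Λ, (z ∈ S ↔ ¬ Reach G (Λ : Set V) p ω z)}).toReal *
        (1 - ε + (Λ.card : ℝ) ^ 4 * (ε / (1 - p)) ^ 2) := by
        rw [hES, hind _ _ hdis _ _ hA hB0m, ENNReal.toReal_mul]
        ring

end DCTI

theorem stmt_DCTI (hLAB : Stmt_LAB) (hSIG : Stmt_SIG) (hCME : Stmt_CME) (hEXO : Stmt_EXO)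
    (hBON : Stmt_BON) : Stmt_DCTI := by
  classical
  intro V _ G Λ x hx p ε hp0 hε hp1 hyp
  obtain ⟨hpi, hmono, hind⟩ := hSIG V
  have hRm : ∀ (p' : ℝ) (z : V), MeasurableSet {ω | Reach G (Λ : Set V) p' ω z} := by
    intro p' z
    have e : {ω | Reach G (Λ : Set V) p' ω z} =
        ⋃ e : bdE G (Λ : Set V), {ω | Conn (within G (Λ : Set V)) p' ω z e.1.1} := by
      ext ω
      simp only [Set.mem_ofPred_eq, Reach, Set.mem_iUnion, Subtype.exists]
      constructor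
      · rintro ⟨e, he, h⟩
        exact ⟨e, he, h⟩
      · rintro ⟨e, he, h⟩
        exact ⟨e, he, h⟩
    rw [e]
    exact MeasurableSet.iUnion fun e => hpi _ _ (hCME V _ p' z e.1.1)
  have hcompl : ∀ p' : ℝ, 1 - (mu V {ω | Reach G (Λ : Set V) p' ω x}).toReal =
      (mu V {ω | ¬ Reach G (Λ : Set V) p' ω x}).toReal := by
    intro p'
    have h1 := prob_compl_eq_one_sub (μ := mu V) (hRm p' x)
    have h2 : {ω | ¬ Reach G (Λ : Set V) p' ω x} = {ω | Reach G (Λ : Set V) p' ω x}ᶜ := rfl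
    rw [h2, h1, ENNReal.toReal_sub_of_le prob_le_one ENNReal.one_ne_top, ENNReal.toReal_one]
  rw [hcompl, hcompl]
  set E : Finset V → Set (Sym2 V → unitInterval) := fun S =>
    {ω | ∀ z ∈ Λ, (z ∈ S ↔ ¬ Reach G (Λ : Set V) p ω z)} with hE
  set PS : Finset (Finset V) := Λ.powerset.filter (fun S => x ∈ S) with hPS
  have hEm : ∀ S, MeasurableSet (E S) := by
    intro S
    have e : E S = ⋂ z ∈ Λ, {ω | z ∈ S ↔ ¬ Reach G (Λ : Set V) p ω z} := by
      ext ω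
      simp [hE]
    rw [e]
    refine Finset.measurableSet_biInter Λ fun z _ => ?_
    by_cases hz : z ∈ S
    · have e2 : {ω | z ∈ S ↔ ¬ Reach G (Λ : Set V) p ω z} = {ω | Reach G (Λ : Set V) p ω z}ᶜ := by
        ext ω
        simp [hz]
      rw [e2]
      exact (hRm p z).compl
    · have e2 : {ω | z ∈ S ↔ ¬ Reach G (Λ : Set V) p ω z} = {ω | Reach G (Λ : Set V) p ω z} := by
        ext ω
        simp [hz]
      rw [e2]
      exact hRm p z
  have hdisj : ∀ S ∈ PS, ∀ S' ∈ PS, S ≠ S' → Disjoint (E S) (E S') := by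
    intro S hS S' hS' hne
    rw [Set.disjoint_left]
    intro ω h1 h2
    apply hne
    rw [hPS, Finset.mem_filter, Finset.mem_powerset] at hS hS'
    ext z
    constructor
    · intro hz
      exact (h2 z (hS.1 hz)).2 ((h1 z (hS.1 hz)).1 hz)
    · intro hz
      exact (h1 z (hS'.1 hz)).2 ((h2 z (hS'.1 hz)).1 hz)
  have hcov : ∀ ω, ¬ Reach G (Λ : Set V) p ω x → ∃ S ∈ PS, ω ∈ E S := by
    intro ω hω
    refine ⟨Λ.filter (fun z => ¬ Reach G (Λ : Set V) p ω z), ?_, ?_⟩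
    · rw [hPS, Finset.mem_filter, Finset.mem_powerset]
      exact ⟨Finset.filter_subset _ _, Finset.mem_filter.2 ⟨hx, hω⟩⟩
    · intro z hz
      rw [Finset.mem_filter]
      exact ⟨fun h => h.2, fun h => ⟨hz, h⟩⟩
  have hup : (mu V {ω | ¬ Reach G (Λ : Set V) (p + ε) ω x}).toReal ≤
      ∑ S ∈ PS, (mu V (E S ∩ {ω | ¬ Reach G (Λ : Set V) (p + ε) ω x})).toReal := by
    have h1 : {ω | ¬ Reach G (Λ : Set V) (p + ε) ω x} ⊆
        ⋃ S ∈ PS, (E S ∩ {ω | ¬ Reach G (Λ : Set V) (p + ε) ω x}) := by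
      intro ω hω
      have h2 : ¬ Reach G (Λ : Set V) p ω x := by
        rintro ⟨e, he, h3⟩
        exact hω ⟨e, he, DCTI.conn_mono le_rfl (by linarith) h3⟩
      obtain ⟨S, hS, h3⟩ := hcov ω h2
      simp only [Set.mem_iUnion]
      exact ⟨S, hS, h3, hω⟩
    have h2 := (measure_mono h1).trans (measure_biUnion_finset_le (μ := mu V) PS
      (fun S => E S ∩ {ω | ¬ Reach G (Λ : Set V) (p + ε) ω x}))
    rw [← ENNReal.toReal_sum fun S _ => measure_ne_top _ _]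
    exact ENNReal.toReal_mono (ENNReal.sum_ne_top.2 fun S _ => measure_ne_top _ _) h2
  have hlow : ∑ S ∈ PS, (mu V (E S)).toReal = (mu V {ω | ¬ Reach G (Λ : Set V) p ω x}).toReal := by
    rw [← ENNReal.toReal_sum fun S _ => measure_ne_top _ _, ← measure_biUnion_finset]
    · congr 2
      ext ω
      simp only [Set.mem_iUnion, Set.mem_ofPred_eq]
      constructor
      · rintro ⟨S, hS, h1⟩
        rw [hPS, Finset.mem_filter] at hS
        exact (h1 x hx).1 hS.2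
      · intro h1
        obtain ⟨S, hS, h2⟩ := hcov ω h1
        exact ⟨S, hS, h2⟩
    · intro S hS S' hS' hne
      exact hdisj S hS S' hS' hne
    · intro S _
      exact hEm S
  calc (mu V {ω | ¬ Reach G (Λ : Set V) (p + ε) ω x}).toReal
      ≤ ∑ S ∈ PS, (mu V (E S ∩ {ω | ¬ Reach G (Λ : Set V) (p + ε) ω x})).toReal := hup
    _ ≤ ∑ S ∈ PS, (mu V (E S)).toReal * (1 - ε + (Λ.card : ℝ) ^ 4 * (ε / (1 - p)) ^ 2) := by
        refine Finset.sum_le_sum fun S hS => ?_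
        rw [hPS, Finset.mem_filter, Finset.mem_powerset] at hS
        exact DCTI.one_set hLAB hSIG hCME hEXO hBON G Λ S x hS.1 p ε hp0 hε hp1
          (hyp S hS.2 hS.1)
    _ = (mu V {ω | ¬ Reach G (Λ : Set V) p ω x}).toReal *
        (1 - ε + (Λ.card : ℝ) ^ 4 * (ε / (1 - p)) ^ 2) := by
        rw [← Finset.sum_mul, hlow]

end Pool.L2B
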