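import Pool.Agent.Work.MP_23451d_me.Interface

/-!
# Block DCTL: percolation above `p` if `φ_p (S, x) ≥ 1` for all finite sets `S`
-/

set_option autoImplicit false

namespace Pool.L2B

open MeasureTheory SimpleGraph
open scoped ENNReal

namespace DCTL

/-- `phi` is monotone in `p` -/
theorem phi_mono (hTAU : Stmt_TAU) {V : Type} [Countable V] (G : SimpleGraph V) {p p' : ℝ}
    (h : p ≤ p') (S : Set V) (x : V) : phi G p S x ≤ phi G p' S x := by
  unfold phi
  refine ENNReal.tsum_le_tsum fun e => ?_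
  exact mul_le_mul' (ENNReal.ofReal_le_ofReal h)
    ((hTAU V (within G S) (within G S) p p' x e.1.1).2.2.2.1 h)

/-- the bound in a finite volume -/
theorem fin_bound (hTAU : Stmt_TAU) (hDCTI : Stmt_DCTI) {V : Type} [Countable V]
    (G : SimpleGraph V) {p p₁ : ℝ} (hp : 0 ≤ p) (hpp : p < p₁) (hp₁ : p₁ < 1) {x : V}
    (hphi : ∀ S : Finset V, x ∈ S → 1 ≤ phi G p (S : Set V) x) (Λ : Finset V) (hx : x ∈ Λ) :
    1 - (mu V {ω | Reach G (Λ : Set V) p₁ ω x}).toReal ≤ Real.exp (-(p₁ - p) / 2) := by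
  set s : ℝ := p₁ - p with hs
  have hs0 : 0 < s := by rw [hs]; linarith
  set c : ℝ := (Λ.card : ℝ) ^ 4 / (1 - p₁) ^ 2 with hc
  have hc0 : 0 ≤ c := by rw [hc]; positivity
  obtain ⟨K, hK⟩ := exists_nat_gt (2 * c * s)
  have hK0 : (0 : ℝ) < K := lt_of_le_of_lt (by positivity) hK
  have hK1 : (1 : ℝ) ≤ K := by
    have : 0 < K := by exact_mod_cast hK0
    exact_mod_cast this
  set ε : ℝ := s / K with hε
  have hε0 : 0 < ε := by rw [hε]; positivity
  have hKε : (K : ℝ) * ε = s := by rw [hε]; field_simp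
  have hε1 : ε ≤ s := by
    rw [hε]
    exact div_le_self hs0.le hK1
  have hs1 : s < 1 := by rw [hs]; linarith
  have hfac : 0 ≤ 1 - ε + c * ε ^ 2 := by
    have : 0 ≤ c * ε ^ 2 := by positivity
    linarith
  have hle1 : ∀ q : ℝ, (mu V {ω | Reach G (Λ : Set V) q ω x}).toReal ≤ 1 := by
    intro q
    exact ENNReal.toReal_le_of_le_ofReal zero_le_one (by simpa using prob_le_one)
  have key : ∀ j : ℕ, j ≤ K →
      1 - (mu V {ω | Reach G (Λ : Set V) (p + j * ε) ω x}).toReal ≤ (1 - ε + c * ε ^ 2) ^ j := by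
    intro j
    induction j with
    | zero =>
      intro _
      have : 0 ≤ (mu V {ω | Reach G (Λ : Set V) (p + (0 : ℕ) * ε) ω x}).toReal :=
        ENNReal.toReal_nonneg
      simp only [pow_zero]
      linarith
    | succ j ih =>
      intro hj
      have hjK : ((j : ℝ) + 1) ≤ K := by exact_mod_cast hj
      have hjε : ((j : ℝ) + 1) * ε ≤ s := by
        rw [← hKε]
        exact mul_le_mul_of_nonneg_right hjK hε0.le
      have hj0 : (0 : ℝ) ≤ j * ε := by positivity
      have hp' : p + j * ε ≤ p₁ := by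
        have : (j : ℝ) * ε ≤ s := by nlinarith
        linarith
      have hstep := hDCTI V G Λ x hx (p + j * ε) ε (by linarith) hε0 (by nlinarith) (by
        intro S hxS _ _
        exact (hphi S hxS).trans (phi_mono hTAU G (by linarith) _ _))
      have hre : p + ((j + 1 : ℕ) : ℝ) * ε = p + j * ε + ε := by push_cast; ring
      rw [hre]
      refine hstep.trans ?_
      have hθ : 0 ≤ 1 - (mu V {ω | Reach G (Λ : Set V) (p + j * ε) ω x}).toReal := by
        have := hle1 (p + j * ε)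
        linarith
      have hf : 1 - ε + (Λ.card : ℝ) ^ 4 * (ε / (1 - (p + j * ε))) ^ 2 ≤ 1 - ε + c * ε ^ 2 := by
        have h1 : (0 : ℝ) < 1 - p₁ := by linarith
        have h2 : 1 - p₁ ≤ 1 - (p + j * ε) := by linarith
        have h3 : (ε / (1 - (p + j * ε))) ^ 2 ≤ (ε / (1 - p₁)) ^ 2 := by
          apply pow_le_pow_left₀
          · exact div_nonneg hε0.le (by linarith)
          · exact div_le_div_of_nonneg_left hε0.le h1 h2
        have h4 : (Λ.card : ℝ) ^ 4 * (ε / (1 - p₁)) ^ 2 = c * ε ^ 2 := by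
          rw [hc, div_pow]
          ring
        have h5 : (Λ.card : ℝ) ^ 4 * (ε / (1 - (p + j * ε))) ^ 2 ≤
            (Λ.card : ℝ) ^ 4 * (ε / (1 - p₁)) ^ 2 := mul_le_mul_of_nonneg_left h3 (by positivity)
        linarith
      rw [pow_succ]
      calc (1 - (mu V {ω | Reach G (Λ : Set V) (p + j * ε) ω x}).toReal) *
            (1 - ε + (Λ.card : ℝ) ^ 4 * (ε / (1 - (p + j * ε))) ^ 2)
          ≤ (1 - (mu V {ω | Reach G (Λ : Set V) (p + j * ε) ω x}).toReal) *
            (1 - ε + c * ε ^ 2) := mul_le_mul_of_nonneg_left hf hθ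
        _ ≤ (1 - ε + c * ε ^ 2) ^ j * (1 - ε + c * ε ^ 2) :=
            mul_le_mul_of_nonneg_right (ih (by omega)) hfac
  have hfin := key K le_rfl
  rw [hKε] at hfin
  have hpp1 : p + s = p₁ := by rw [hs]; ring
  rw [hpp1] at hfin
  refine hfin.trans ?_
  have h1 : 1 - ε + c * ε ^ 2 ≤ Real.exp (-ε + c * ε ^ 2) := by
    have := Real.add_one_le_exp (-ε + c * ε ^ 2)
    linarith
  calc (1 - ε + c * ε ^ 2) ^ K ≤ (Real.exp (-ε + c * ε ^ 2)) ^ K :=
        pow_le_pow_left₀ hfac h1 K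
    _ = Real.exp (K * (-ε + c * ε ^ 2)) := by rw [← Real.exp_nat_mul]
    _ ≤ Real.exp (-s / 2) := by
        apply Real.exp_le_exp.mpr
        have h2 : (K : ℝ) * (-ε + c * ε ^ 2) = -s + c * s * ε := by
          have : (K : ℝ) * (-ε + c * ε ^ 2) = -((K : ℝ) * ε) + c * ((K : ℝ) * ε) * ε := by ring
          rw [this, hKε]
        rw [h2]
        have h3 : c * s * ε ≤ s / 2 := by
          have : 2 * (c * s) * ε ≤ K * ε := by
            apply mul_le_mul_of_nonneg_right _ hε0.le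
            linarith
          rw [hKε] at this
          linarith
        linarith

/-- a walk in a larger region which starts inside reaches the boundary of the smaller region -/
theorem walk_shrink {V : Type} (G : SimpleGraph V) {Λ Λ' : Set V} (hΛ : Λ ⊆ Λ') {u v : V}
    (w : (within G Λ').Walk u v) :
    u ∈ Λ → (∃ b, b ∉ Λ' ∧ G.Adj v b) →
    ∃ e ∈ bdE G Λ, ∃ w' : (within G Λ).Walk u e.1, ∀ f ∈ w'.edges, f ∈ w.edges := by
  induction w with
  | nil =>
    rintro hu ⟨b, hb, hvb⟩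
    exact ⟨(_, b), ⟨hu, fun h => hb (hΛ h), hvb⟩, Walk.nil, by simp⟩
  | @cons u u' v h w ih =>
    rintro hu hb
    by_cases hu' : u' ∈ Λ
    · obtain ⟨e, he, w', hw'⟩ := ih hu' hb
      refine ⟨e, he, Walk.cons (show (within G Λ).Adj u u' from ⟨h.1, hu, hu'⟩) w', ?_⟩
      intro f hf
      rw [Walk.edges_cons, List.mem_cons] at hf ⊢
      rcases hf with hf | hf
      · exact Or.inl hf
      · exact Or.inr (hw' f hf)
    · exact ⟨(u, u'), ⟨hu, hu', h.1⟩, Walk.nil, by simp⟩

theorem reach_anti {V : Type} (G : SimpleGraph V) {Λ Λ' : Set V} (hΛ : Λ ⊆ Λ') {p : ℝ} {x : V}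
    (hx : x ∈ Λ) (ω : Sym2 V → unitInterval) (h : Reach G Λ' p ω x) : Reach G Λ p ω x := by
  obtain ⟨e, he, w, hw⟩ := h
  obtain ⟨f, hf, w', hw'⟩ := walk_shrink G hΛ w hx ⟨e.2, he.2.1, he.2.2⟩
  exact ⟨f, hf, w', fun g hg => hw g (hw' g hg)⟩

theorem within_le {V : Type} (G : SimpleGraph V) (S : Set V) : within G S ≤ G :=
  fun _ _ h => h.1

end DCTL

open DCTL in
theorem stmt_DCTL (hTAU : Stmt_TAU) (hSIG : Stmt_SIG) (hCME : Stmt_CME) (hDCTI : Stmt_DCTI) :
    Stmt_DCTL := by
  intro V _ G hconn hlf p p₁ hp hpp hp₁ x hphi hzero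
  classical
  have : Nonempty V := ⟨x⟩
  obtain ⟨f, hf⟩ := exists_surjective_nat V
  let Λ : ℕ → Finset V := fun n => insert x ((Finset.range n).image f)
  have hΛmono : ∀ {n m : ℕ}, n ≤ m → Λ n ⊆ Λ m := by
    intro n m h v hv
    simp only [Λ, Finset.mem_insert, Finset.mem_image, Finset.mem_range] at hv ⊢
    rcases hv with hv | ⟨i, hi, hv⟩
    · exact Or.inl hv
    · exact Or.inr ⟨i, by omega, hv⟩
  have hxΛ : ∀ n, x ∈ Λ n := fun n => by simp [Λ]
  have hex : ∀ F : Set V, F.Finite → ∃ n, F ⊆ (Λ n : Set V) := by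
    intro F hF
    induction F, hF using Set.Finite.induction_on with
    | empty => exact ⟨0, by simp⟩
    | @insert a s _ _ ih =>
      obtain ⟨n, hn⟩ := ih
      obtain ⟨i, hi⟩ := hf a
      refine ⟨max n (i + 1), ?_⟩
      intro v hv
      rcases hv with rfl | hv
      · simp only [Λ, Finset.coe_insert, Set.mem_insert_iff, Finset.coe_image, Set.mem_image,
          Finset.coe_range, Set.mem_Iio]
        exact Or.inr ⟨i, by omega, hi⟩
      · exact hΛmono (le_max_left _ _) (hn hv)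
  set R : ℕ → Set (Sym2 V → unitInterval) :=
    fun n => {ω | Reach G (Λ n : Set V) p₁ ω x} with hR
  have hRmeas : ∀ n, MeasurableSet (R n) := by
    intro n
    have : R n = ⋃ e : V × V, ⋃ _ : e ∈ bdE G (Λ n : Set V),
        {ω | Conn (within G (Λ n : Set V)) p₁ ω x e.1} := by
      ext ω
      simp only [hR, Reach, Set.mem_ofPred_eq, Set.mem_iUnion, exists_prop]
    rw [this]
    refine MeasurableSet.iUnion fun e => MeasurableSet.iUnion fun _ => ?_
    exact (hSIG V).1 _ _ (hCME V (within G (Λ n : Set V)) p₁ x e.1)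
  have hanti : Antitone R := by
    intro n m h ω hω
    exact reach_anti G (by exact_mod_cast hΛmono h) (by exact_mod_cast hxΛ n) ω hω
  have hinter : mu V (⋂ n, R n) = ⨅ n, mu V (R n) :=
    hanti.measure_iInter (fun n => (hRmeas n).nullMeasurableSet) ⟨0, measure_ne_top _ _⟩
  set δ : ℝ := 1 - Real.exp (-(p₁ - p) / 2) with hδ
  have hδ0 : 0 < δ := by
    have : Real.exp (-(p₁ - p) / 2) < 1 := by
      rw [Real.exp_lt_one_iff]
      linarith
    rw [hδ]; linarith
  have hlow : ∀ n, ENNReal.ofReal δ ≤ mu V (R n) := by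
    intro n
    have h := fin_bound hTAU hDCTI G hp hpp hp₁ hphi (Λ n) (hxΛ n)
    rw [← ENNReal.ofReal_toReal (measure_ne_top (mu V) (R n))]
    apply ENNReal.ofReal_le_ofReal
    simp only [hR]
    rw [hδ]
    linarith
  have hpos : ENNReal.ofReal δ ≤ mu V (⋂ n, R n) := by
    rw [hinter]
    exact le_iInf hlow
  have hsub : (⋂ n, R n) ⊆ {ω | Set.Infinite {v | Conn G p₁ ω x v}} := by
    intro ω hω
    simp only [Set.mem_ofPred_eq]
    intro hfin
    have hfin2 : (⋃ v ∈ {v | Conn G p₁ ω x v}, G.neighborSet v).Finite :=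
      hfin.biUnion fun v _ => hlf v
    obtain ⟨n, hn⟩ := hex _ hfin2
    have hRn : Reach G (Λ n : Set V) p₁ ω x := Set.mem_iInter.mp hω n
    obtain ⟨e, he, w, hw⟩ := hRn
    apply he.2.1
    apply hn
    simp only [Set.mem_iUnion]
    refine ⟨e.1, ?_, he.2.2⟩
    refine ⟨w.mapLe (within_le G _), ?_⟩
    intro g hg
    rw [Walk.edges_mapLe_eq_edges] at hg
    exact hw g hg
  have := measure_mono (μ := mu V) hsub
  rw [hzero] at this
  have h0 : ENNReal.ofReal δ ≤ 0 := hpos.trans this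
  have : ENNReal.ofReal δ ≠ 0 := by
    rw [Ne, ENNReal.ofReal_eq_zero]
    linarith
  exact this (le_antisymm h0 zero_le)

end Pool.L2B
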