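import Pool.Agent.Work.MP_23451d_me.EXP

/-! # Block EXO: exploration from outside -/

set_option autoImplicit false

namespace Pool.L2B

open MeasureTheory SimpleGraph
open scoped ENNReal

open EXPp in
theorem stmt_EXO (_ : Stmt_LAB) (_ : Stmt_SIG) (hCME : Stmt_CME) (hLEX : Stmt_LEX) :
    Stmt_EXO := by
  classical
  intro V _ G Λ S p hSΛ
  constructor
  · intro hnb
    refine ⟨{ω | ∀ z ∈ Λ, z ∉ S → ∃ e ∈ bdE G (Λ : Set V),
      Conn (within G ((Λ : Set V) \ (S : Set V))) p ω z e.1}, ?_, ?_⟩
    · set I := (within G ((Λ : Set V) \ (S : Set V))).edgeSet with hI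
      have e1 : {ω : Sym2 V → unitInterval | ∀ z ∈ Λ, z ∉ S → ∃ e ∈ bdE G (Λ : Set V),
          Conn (within G ((Λ : Set V) \ (S : Set V))) p ω z e.1} =
          ⋂ z, ⋂ (_ : z ∈ Λ), ⋂ (_ : z ∉ S), ⋃ e : V × V, ⋃ (_ : e ∈ bdE G (Λ : Set V)),
            {ω | Conn (within G ((Λ : Set V) \ (S : Set V))) p ω z e.1} := by
        ext ω; simp
      rw [e1]
      refine @MeasurableSet.iInter _ _ (sig I) _ _ fun z => ?_
      refine @MeasurableSet.iInter _ _ (sig I) _ _ fun _ => ?_
      refine @MeasurableSet.iInter _ _ (sig I) _ _ fun _ => ?_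
      refine @MeasurableSet.iUnion _ _ (sig I) _ _ fun e => ?_
      refine @MeasurableSet.iUnion _ _ (sig I) _ _ fun _ => ?_
      exact hCME V (within G ((Λ : Set V) \ (S : Set V))) p z e.1
    · ext ω
      simp only [Set.mem_ofPred_eq, Set.mem_inter_iff]
      constructor
      · intro h
        constructor
        · intro z hz hzS
          have hR : Reach G (Λ : Set V) p ω z := by
            by_contra hc
            exact hzS ((h z hz).mpr hc)
          obtain ⟨e, he, w, hw⟩ := hR
          refine ⟨e, he, ?_⟩
          have hsup : ∀ y ∈ w.support, y ∈ (Λ : Set V) \ (S : Set V) := by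
            intro y hy
            have hyR : Reach G (Λ : Set V) p ω y :=
              ⟨e, he, w.dropUntil y hy, fun f hf => hw f (w.edges_dropUntil_subset_edges hy hf)⟩
            have hyΛ : y ∈ Λ := by
              by_cases hyz : y = z
              · rw [hyz]; exact hz
              · have hne : ¬ (w.takeUntil y hy).Nil := by
                  intro hn
                  exact hyz hn.eq.symm
                have hmem := Walk.end_mem_tail_support hne
                obtain ⟨f, hf1, hf2⟩ : ∃ f ∈ (w.takeUntil y hy).edges, y ∈ f :=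
                  (Walk.mem_support_iff_exists_mem_edges_of_not_nil hne).mp (Walk.end_mem_support _)
                induction f with
                | _ a b =>
                  have hab := (w.takeUntil y hy).adj_of_mem_edges hf1
                  rcases Sym2.mem_iff.mp hf2 with rfl | rfl
                  · exact hab.2.1
                  · exact hab.2.2
            exact ⟨hyΛ, fun hyS => ((h y hyΛ).mp hyS) hyR⟩
          have := conn_within w hw hsup
          have hle : within (within G (Λ : Set V)) ((Λ : Set V) \ (S : Set V)) ≤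
              within G ((Λ : Set V) \ (S : Set V)) := fun a b hab => ⟨hab.1.1, hab.2⟩
          exact conn_mono hle this
        · intro e he
          have ha : e.1 ∈ S := he.1
          have hb : e.2 ∉ S := he.2.1
          have hab : G.Adj e.1 e.2 := he.2.2
          have hbΛ := hnb e.1 ha e.2 hab
          by_contra hc
          push Not at hc
          have hR : Reach G (Λ : Set V) p ω e.2 := by
            by_contra hc'
            exact hb ((h e.2 hbΛ).mpr hc')
          obtain ⟨f, hf, hf2⟩ := hR
          refine (h e.1 (hSΛ ha)).mp ha ⟨f, hf, conn_trans (conn_edge ?_ hc) hf2⟩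
          exact ⟨hab, hSΛ ha, hbΛ⟩
      · rintro ⟨hA, hB⟩ z hz
        constructor
        · rintro hzS ⟨e, he, w, hw⟩
          have heS : e.1 ∉ S := fun h' => he.2.1 (hnb e.1 h' e.2 he.2.2)
          obtain ⟨a, ha, b, hb, hab, hmem, _⟩ :=
            (hLEX V (within G (Λ : Set V)) (S : Set V) z e.1 w hzS heS).1
          exact absurd (hw _ hmem) (not_lt.mpr (hB (a, b) ⟨ha, hb, hab.1⟩))
        · intro hR
          by_contra hzS
          obtain ⟨e, he, h⟩ := hA z hz hzS
          exact hR ⟨e, he, conn_mono (within_mono G Set.sdiff_subset) h⟩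
  · intro hn
    push Not at hn
    obtain ⟨a, ha, b, hab, hb⟩ := hn
    ext ω
    simp only [Set.mem_ofPred_eq, Set.mem_empty_iff_false, iff_false]
    intro h
    exact (h a (hSΛ ha)).mp ha ⟨(a, b), ⟨hSΛ ha, hb, hab⟩, conn_refl _ _ _ _⟩

end Pool.L2B
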