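import Pool.Agent.Work.MP_23451d_me.Interface

/-!
# Block LEX (MP_23451d_pr): last and first exit of a walk
-/

set_option autoImplicit false

namespace Pool.L2B

open SimpleGraph

namespace LEX

theorem start_notMem {V : Type} (G : SimpleGraph V) (S : Set V) {z y : V} (hy : y ∉ S)
    (w : (within G Sᶜ).Walk z y) : z ∉ S := by
  cases w with
  | nil => exact hy
  | cons h _ => exact h.2.1

theorem last {V : Type} (G : SimpleGraph V) (S : Set V) {x y : V} (w : G.Walk x y) (hy : y ∉ S) :
    (∃ w' : (within G Sᶜ).Walk x y, ∀ e ∈ w'.edges, e ∈ w.edges) ∨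
    (∃ a ∈ S, ∃ b, b ∉ S ∧ G.Adj a b ∧ s(a, b) ∈ w.edges ∧
      ∃ w' : (within G Sᶜ).Walk b y, ∀ e ∈ w'.edges, e ∈ w.edges) := by
  induction w with
  | nil => exact Or.inl ⟨Walk.nil, by simp⟩
  | @cons x z y h w ih =>
    rcases ih hy with ⟨w', hw'⟩ | ⟨a, ha, b, hb, hab, he, w', hw'⟩
    · have hz := start_notMem G S hy w'
      by_cases hx : x ∈ S
      · right
        refine ⟨x, hx, z, hz, h, ?_, w', fun e he => ?_⟩
        · rw [Walk.edges_cons]
          exact List.mem_cons_self
        · rw [Walk.edges_cons]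
          exact List.mem_cons_of_mem _ (hw' e he)
      · left
        refine ⟨Walk.cons (show (within G Sᶜ).Adj x z from ⟨h, hx, hz⟩) w', fun e he => ?_⟩
        rw [Walk.edges_cons, List.mem_cons] at he ⊢
        rcases he with he | he
        · exact Or.inl he
        · exact Or.inr (hw' e he)
    · right
      refine ⟨a, ha, b, hb, hab, ?_, w', fun e he => ?_⟩
      · rw [Walk.edges_cons]
        exact List.mem_cons_of_mem _ he
      · rw [Walk.edges_cons]
        exact List.mem_cons_of_mem _ (hw' e he)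

theorem first {V : Type} (G : SimpleGraph V) (S : Set V) {x y : V} (w : G.Walk x y) (hx : x ∈ S)
    (hy : y ∉ S) :
    ∃ a ∈ S, ∃ b, b ∉ S ∧ G.Adj a b ∧ s(a, b) ∈ w.edges ∧
      ∃ w' : (within G S).Walk x a, ∀ e ∈ w'.edges, e ∈ w.edges := by
  induction w with
  | nil => exact absurd hx hy
  | @cons x z y h w ih =>
    by_cases hz : z ∈ S
    · obtain ⟨a, ha, b, hb, hab, he, w', hw'⟩ := ih hz hy
      refine ⟨a, ha, b, hb, hab, ?_, Walk.cons (show (within G S).Adj x z from ⟨h, hx, hz⟩) w',
        fun e he => ?_⟩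
      · rw [Walk.edges_cons]
        exact List.mem_cons_of_mem _ he
      · rw [Walk.edges_cons, List.mem_cons] at he ⊢
        rcases he with he | he
        · exact Or.inl he
        · exact Or.inr (hw' e he)
    · refine ⟨x, hx, z, hz, h, ?_, Walk.nil, fun e he => ?_⟩
      · rw [Walk.edges_cons]
        exact List.mem_cons_self
      · simp at he

end LEX

theorem stmt_LEX : Stmt_LEX := by
  intro V G S x y w hx hy
  refine ⟨?_, LEX.first G S w hx hy⟩
  rcases LEX.last G S w hy with ⟨w', _⟩ | h
  · exact absurd hx (LEX.start_notMem G S hy w')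
  · exact h

end Pool.L2B
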