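import Pool.Agent.Work.MP_23451d_me.Interface

set_option autoImplicit false

namespace Pool.L2B

open MeasureTheory SimpleGraph
open scoped ENNReal

theorem SCH_fin {V : Type} (t : V → V → ℝ≥0∞) (e : ℝ) (h : V → ℝ) (hh : ∀ x, 0 < h x)
    (c : ℝ≥0∞) (hc : c ≠ ⊤)
    (hb : ∀ x, ∑' y, t x y * ENNReal.ofReal (h y ^ e) ≤ c * ENNReal.ofReal (h x ^ e)) (x : V)
    (S : Finset V) : ∑ y ∈ S, (t x y).toReal * h y ^ e ≤ c.toReal * h x ^ e := by
  have h1 : ∑ y ∈ S, t x y * ENNReal.ofReal (h y ^ e) ≤ c * ENNReal.ofReal (h x ^ e) :=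
    (ENNReal.sum_le_tsum S).trans (hb x)
  have h2 : c * ENNReal.ofReal (h x ^ e) ≠ ⊤ := ENNReal.mul_ne_top hc ENNReal.ofReal_ne_top
  have h3 := ENNReal.toReal_mono h2 h1
  rw [ENNReal.toReal_sum, ENNReal.toReal_mul, ENNReal.toReal_ofReal (Real.rpow_nonneg (hh x).le _)]
    at h3
  · calc ∑ y ∈ S, (t x y).toReal * h y ^ e
        = ∑ y ∈ S, (t x y * ENNReal.ofReal (h y ^ e)).toReal := by
          apply Finset.sum_congr rfl
          intro y _
          rw [ENNReal.toReal_mul, ENNReal.toReal_ofReal (Real.rpow_nonneg (hh y).le _)]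
      _ ≤ _ := h3
  · intro y hy
    exact ne_top_of_le_ne_top h2
      ((Finset.single_le_sum (f := fun y => t x y * ENNReal.ofReal (h y ^ e))
        (fun _ _ => zero_le) hy).trans h1)

theorem stmt_SCH : Stmt_SCH := by
  intro V t hsymm q hq h hh c hc h1 h2
  have hq0 : (0 : ℝ) < q := by linarith
  have hq1 : (0 : ℝ) < q - 1 := by linarith
  refine ⟨c.toReal ^ (q - 1) * c.toReal, ?_⟩
  intro S T f
  have hc0 : 0 ≤ c.toReal := ENNReal.toReal_nonneg
  have key : ∀ u, |∑ v ∈ S, (t u v).toReal * f v| ^ q ≤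
      c.toReal ^ (q - 1) * (h u ^ q * ∑ v ∈ S, (t u v).toReal * (|f v| ^ q * h v ^ (-q))) := by
    intro u
    have hT : ∀ v, 0 ≤ (t u v).toReal := fun v => ENNReal.toReal_nonneg
    have e1 : |∑ v ∈ S, (t u v).toReal * f v| ≤
        ∑ v ∈ S, ((t u v).toReal * h v ^ (q / (q - 1))) * (|f v| * h v ^ (-(q / (q - 1)))) := by
      refine (Finset.abs_sum_le_sum_abs _ _).trans (le_of_eq ?_)
      apply Finset.sum_congr rfl
      intro v _
      rw [abs_mul, abs_of_nonneg (hT v)]
      have : h v ^ (q / (q - 1)) * h v ^ (-(q / (q - 1))) = 1 := by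
        rw [← Real.rpow_add (hh v), add_neg_cancel, Real.rpow_zero]
      calc (t u v).toReal * |f v| = (t u v).toReal * |f v| * 1 := by ring
        _ = (t u v).toReal * |f v| * (h v ^ (q / (q - 1)) * h v ^ (-(q / (q - 1)))) := by rw [this]
        _ = _ := by ring
    have e2 := Real.inner_le_weight_mul_Lp_of_nonneg S hq.le
      (fun v => (t u v).toReal * h v ^ (q / (q - 1))) (fun v => |f v| * h v ^ (-(q / (q - 1))))
      (fun v => mul_nonneg (hT v) (Real.rpow_nonneg (hh v).le _))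
      (fun v => mul_nonneg (abs_nonneg _) (Real.rpow_nonneg (hh v).le _))
    have e3 : ∀ v, (t u v).toReal * h v ^ (q / (q - 1)) * (|f v| * h v ^ (-(q / (q - 1)))) ^ q =
        (t u v).toReal * (|f v| ^ q * h v ^ (-q)) := by
      intro v
      rw [Real.mul_rpow (abs_nonneg _) (Real.rpow_nonneg (hh v).le _), ← Real.rpow_mul (hh v).le]
      have : h v ^ (q / (q - 1)) * h v ^ (-(q / (q - 1)) * q) = h v ^ (-q) := by
        rw [← Real.rpow_add (hh v)]
        apply congrArg
        field_simp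
        ring
      calc (t u v).toReal * h v ^ (q / (q - 1)) * (|f v| ^ q * h v ^ (-(q / (q - 1)) * q))
          = (t u v).toReal * (|f v| ^ q * (h v ^ (q / (q - 1)) * h v ^ (-(q / (q - 1)) * q))) := by
            ring
        _ = _ := by rw [this]
    simp only [e3] at e2
    have hA0 : 0 ≤ ∑ v ∈ S, (t u v).toReal * h v ^ (q / (q - 1)) :=
      Finset.sum_nonneg (fun v _ => mul_nonneg (hT v) (Real.rpow_nonneg (hh v).le _))
    have hB0 : 0 ≤ ∑ v ∈ S, (t u v).toReal * (|f v| ^ q * h v ^ (-q)) :=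
      Finset.sum_nonneg (fun v _ => mul_nonneg (hT v) (mul_nonneg
        (Real.rpow_nonneg (abs_nonneg _) _) (Real.rpow_nonneg (hh v).le _)))
    have e4 : |∑ v ∈ S, (t u v).toReal * f v| ^ q ≤
        ((∑ v ∈ S, (t u v).toReal * h v ^ (q / (q - 1))) ^ (1 - q⁻¹) *
          (∑ v ∈ S, (t u v).toReal * (|f v| ^ q * h v ^ (-q))) ^ q⁻¹) ^ q :=
      Real.rpow_le_rpow (abs_nonneg _) (e1.trans e2) hq0.le
    rw [Real.mul_rpow (Real.rpow_nonneg hA0 _) (Real.rpow_nonneg hB0 _), ← Real.rpow_mul hA0,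
      ← Real.rpow_mul hB0, inv_mul_cancel₀ hq0.ne', Real.rpow_one] at e4
    have e5 : (1 - q⁻¹) * q = q - 1 := by
      field_simp
    rw [e5] at e4
    have e6 : (∑ v ∈ S, (t u v).toReal * h v ^ (q / (q - 1))) ^ (q - 1) ≤
        c.toReal ^ (q - 1) * h u ^ q := by
      have := Real.rpow_le_rpow hA0 (SCH_fin t (q / (q - 1)) h hh c hc h2 u S) hq1.le
      rw [Real.mul_rpow hc0 (Real.rpow_nonneg (hh u).le _), ← Real.rpow_mul (hh u).le,
        div_mul_cancel₀ _ hq1.ne'] at this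
      exact this
    calc |∑ v ∈ S, (t u v).toReal * f v| ^ q ≤ _ := e4
      _ ≤ c.toReal ^ (q - 1) * h u ^ q * ∑ v ∈ S, (t u v).toReal * (|f v| ^ q * h v ^ (-q)) :=
        mul_le_mul_of_nonneg_right e6 hB0
      _ = _ := by ring
  calc ∑ u ∈ T, |∑ v ∈ S, (t u v).toReal * f v| ^ q
      ≤ ∑ u ∈ T, c.toReal ^ (q - 1) *
          (h u ^ q * ∑ v ∈ S, (t u v).toReal * (|f v| ^ q * h v ^ (-q))) :=
        Finset.sum_le_sum (fun u _ => key u)
    _ = c.toReal ^ (q - 1) * ∑ v ∈ S, (|f v| ^ q * h v ^ (-q)) *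
          ∑ u ∈ T, (t v u).toReal * h u ^ q := by
        rw [← Finset.mul_sum]
        congr 1
        simp only [Finset.mul_sum]
        rw [Finset.sum_comm]
        apply Finset.sum_congr rfl
        intro v _
        apply Finset.sum_congr rfl
        intro u _
        rw [hsymm u v]
        ring
    _ ≤ c.toReal ^ (q - 1) * ∑ v ∈ S, (|f v| ^ q * h v ^ (-q)) * (c.toReal * h v ^ q) := by
        apply mul_le_mul_of_nonneg_left _ (Real.rpow_nonneg hc0 _)
        apply Finset.sum_le_sum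
        intro v _
        exact mul_le_mul_of_nonneg_left (SCH_fin t q h hh c hc h1 v T)
          (mul_nonneg (Real.rpow_nonneg (abs_nonneg _) _) (Real.rpow_nonneg (hh v).le _))
    _ = c.toReal ^ (q - 1) * c.toReal * ∑ v ∈ S, |f v| ^ q := by
        rw [mul_assoc, Finset.mul_sum (a := c.toReal)]
        congr 1
        apply Finset.sum_congr rfl
        intro v _
        have : h v ^ (-q) * h v ^ q = 1 := by
          rw [← Real.rpow_add (hh v), neg_add_cancel, Real.rpow_zero]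
        calc |f v| ^ q * h v ^ (-q) * (c.toReal * h v ^ q)
            = c.toReal * |f v| ^ q * (h v ^ (-q) * h v ^ q) := by ring
          _ = _ := by rw [this, mul_one]

end Pool.L2B
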