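import Pool.Agent.Work.MP_23451d_me.Interface

/-!
# Block SIG: sigma algebras of disjoint sets of labels are independent
-/

set_option autoImplicit false

namespace Pool.L2B

open MeasureTheory SimpleGraph ProbabilityTheory
open scoped ENNReal

theorem sig_le_pi (V : Type) (I : Set (Sym2 V)) :
    sig I ≤ (MeasurableSpace.pi : MeasurableSpace (Sym2 V → unitInterval)) := by
  refine iSup₂_le fun e _ => ?_
  exact (measurable_pi_apply e).comap_le

theorem sig_mono' (V : Type) (I J : Set (Sym2 V)) (h : I ⊆ J) : sig I ≤ sig J :=
  biSup_mono h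

theorem sig_iIndep (V : Type) :
    iIndep (fun e : Sym2 V => MeasurableSpace.comap
      (fun ω : Sym2 V → unitInterval => ω e) inferInstance) (mu V) := by
  have h := iIndepFun_infinitePi (P := fun _ : Sym2 V => (volume : Measure unitInterval))
    (X := fun _ : Sym2 V => (id : unitInterval → unitInterval)) (fun _ => measurable_id)
  exact h.iIndep

theorem stmt_SIG : Stmt_SIG := by
  intro V
  refine ⟨sig_le_pi V, sig_mono' V, ?_⟩
  intro I J hIJ A B hA hB
  have h := indep_iSup_of_disjoint (fun e : Sym2 V =>
    (measurable_pi_apply (X := fun _ : Sym2 V => unitInterval) e).comap_le) (sig_iIndep V) hIJ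
  rw [Indep_iff] at h
  exact h A B hA hB

end Pool.L2B
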