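import Pool.Agent.Work.MP_23451d_me.Interface

set_option autoImplicit false

namespace Pool.L2B

open MeasureTheory SimpleGraph
open scoped ENNReal

theorem stmt_TAU (hLAB : Stmt_LAB) : Stmt_TAU := by
  intro V _ G G' p p' u v
  refine ⟨prob_le_one, ?_, ?_, ?_, ?_, ?_⟩
  · have h : {ω : Sym2 V → unitInterval | Conn G p ω u u} = Set.univ := by
      ext ω
      simp only [Set.mem_ofPred_eq, Set.mem_univ, iff_true]
      exact ⟨SimpleGraph.Walk.nil, by simp⟩
    unfold tau
    rw [h]
    exact measure_univ
  · have h : {ω : Sym2 V → unitInterval | Conn G p ω u v} = {ω | Conn G p ω v u} := by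
      ext ω
      constructor
      · rintro ⟨w, hw⟩
        exact ⟨w.reverse, fun e he => hw e (by
          rw [SimpleGraph.Walk.edges_reverse, List.mem_reverse] at he
          exact he)⟩
      · rintro ⟨w, hw⟩
        exact ⟨w.reverse, fun e he => hw e (by
          rw [SimpleGraph.Walk.edges_reverse, List.mem_reverse] at he
          exact he)⟩
    unfold tau
    rw [h]
  · intro hp
    refine measure_mono ?_
    rintro ω ⟨w, hw⟩
    exact ⟨w, fun e he => (hw e he).trans_le hp⟩
  · intro hG
    refine measure_mono ?_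
    rintro ω ⟨w, hw⟩
    refine ⟨w.mapLe hG, fun e he => hw e ?_⟩
    rw [SimpleGraph.Walk.edges_mapLe_eq_edges] at he
    exact he
  · intro h0 h1 hadj
    rw [← (hLAB V s(u, v) p).2 h0 h1]
    refine measure_mono ?_
    intro ω hω
    refine ⟨SimpleGraph.Walk.cons hadj SimpleGraph.Walk.nil, fun e he => ?_⟩
    simp only [SimpleGraph.Walk.edges_cons, SimpleGraph.Walk.edges_nil, List.mem_singleton] at he
    rw [he]
    exact hω

end Pool.L2B
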