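import Pool.Agent.Work.MP_23451d_me.Interface

set_option autoImplicit false

namespace Pool.L2B

open MeasureTheory SimpleGraph
open scoped ENNReal

theorem stmt_BAL : Stmt_BAL := by
  intro V G d hG hd x n
  classical
  induction n with
  | zero =>
    have h : {y | G.dist x y ≤ 0} = {x} := by
      ext y
      simp only [Set.mem_ofPred_eq, Nat.le_zero, Set.mem_singleton_iff, hG.dist_eq_zero_iff]
      exact eq_comm
    rw [h]
    simp
  | succ n ih =>
    obtain ⟨hf, hc⟩ := ih
    let s : Finset V := hf.toFinset
    let N : V → Finset V := fun z => insert z (hd z).1.toFinset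
    have hN : ∀ z, (N z).card ≤ d + 1 := fun z =>
      (Finset.card_insert_le _ _).trans (Nat.add_le_add_right
        ((Set.ncard_eq_toFinset_card _ (hd z).1).symm.le.trans (hd z).2) 1)
    have hsub : {y | G.dist x y ≤ n + 1} ⊆ (s.biUnion N : Finset V) := by
      intro y hy
      have hy' : G.dist x y ≤ n + 1 := hy
      simp only [Finset.coe_biUnion, Set.mem_iUnion, Finset.mem_coe, exists_prop]
      rcases Nat.lt_or_ge n (G.dist x y) with h1 | h1
      · obtain ⟨p, hp⟩ := hG.exists_walk_length_eq_dist y x
        cases p with
        | nil => simp at h1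
        | cons h q =>
          rename_i z
          refine ⟨z, ?_, ?_⟩
          · have h2 : G.dist x z ≤ q.length := by
              rw [SimpleGraph.dist_comm]
              exact SimpleGraph.dist_le q
            rw [SimpleGraph.Walk.length_cons, SimpleGraph.dist_comm] at hp
            have h3 : G.dist x z ≤ n := by omega
            simpa [s] using h3
          · have h4 : y ∈ G.neighborSet z := h.symm
            simp only [N, Finset.mem_insert, Set.Finite.mem_toFinset]
            exact Or.inr h4
      · refine ⟨y, ?_, ?_⟩
        · simpa [s] using h1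
        · simp [N]
    refine ⟨(Finset.finite_toSet _).subset hsub, ?_⟩
    refine (Set.ncard_le_ncard hsub (Finset.finite_toSet _)).trans ?_
    rw [Set.ncard_coe_finset]
    refine (Finset.card_biUnion_le_card_mul _ _ _ fun z _ => hN z).trans ?_
    rw [pow_succ]
    refine Nat.mul_le_mul_right _ ?_
    exact (Set.ncard_eq_toFinset_card _ hf).symm.le.trans hc

end Pool.L2B
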