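import Pool.Agent.Work.MP_23451d_me.Interface

/-! # Block BAS (helper85) -/

set_option autoImplicit false

namespace Pool.L2B

open SimpleGraph
open scoped ENNReal

namespace BASh

theorem base_spec {V : Type} [Nonempty V] (G : SimpleGraph V) (A : Set V)
    (h : (bdE G A).Nonempty) : ∃ u, (base G A, u) ∈ bdE G A := by
  obtain ⟨⟨a, b⟩, he⟩ := h
  have h1 : ∃ v, ∃ u, (v, u) ∈ bdE G A := ⟨a, b, he⟩
  exact Classical.epsilon_spec h1

end BASh

open BASh in
theorem stmt_BAS : Stmt_BAS := by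
  classical
  intro V _ G C d L D R k hG p₀ θ τ hK
  have h1 : ∀ x y, p₀ ^ G.dist x y ≤ τ x y := by
    have hw : ∀ x y (w : G.Walk x y), p₀ ^ w.length ≤ τ x y := by
      intro x y w
      induction w with
      | nil => rw [hK.refl]; simp
      | cons h p ih =>
        rename_i u v w
        rw [SimpleGraph.Walk.length_cons, pow_succ, mul_comm]
        exact (mul_le_mul' (hK.edge _ _ h) ih).trans (hK.har _ _ _)
    intro x y
    obtain ⟨w, hw'⟩ := hG.conn.exists_walk_length_eq_dist x y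
    rw [← hw']
    exact hw x y w
  have hbs : ∀ A ∈ C, ∃ u, (base G A, u) ∈ bdE G A := fun A hA => base_spec G A (hG.bd A hA).2.1
  have hp1 : p₀ ≤ 1 := by
    obtain ⟨A, hA⟩ := hG.ne
    obtain ⟨u, hu⟩ := hbs A hA
    exact (hK.edge _ _ hu.2.2).trans (hK.le_one _ _)
  have h3 : ∀ A ∈ C, ∀ e ∈ bdE G A, p₀ ^ D ≤ τ (base G A) e.1 := by
    intro A hA e he
    obtain ⟨u, hu⟩ := hbs A hA
    have h4 := hG.diam A hA _ hu e he
    exact (pow_le_pow_right_of_le_one' hp1 h4).trans (h1 _ _)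
  have him : ∀ (φ : G ≃g G) (A : Set V), ∀ e ∈ bdE G A, (φ e.1, φ e.2) ∈ bdE G (φ '' A) := by
    rintro φ A ⟨a, b⟩ ⟨ha, hb, hab⟩
    refine ⟨⟨a, ha, rfl⟩, ?_, φ.map_rel_iff.2 hab⟩
    rintro ⟨c, hc, hcb⟩
    exact hb (φ.injective hcb ▸ hc)
  refine ⟨h1, fun A hA => ?_, h3, ?_, ?_⟩
  · obtain ⟨u, hu⟩ := hbs A hA
    exact hu.1
  · intro φ A hA B hB
    obtain ⟨u, hu⟩ := hbs A hA
    obtain ⟨v, hv⟩ := hbs B hB
    have e1 : p₀ ^ D ≤ τ (base G (φ '' A)) (φ (base G A)) :=
      h3 (φ '' A) (hG.inv φ A hA) _ (him φ A _ hu)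
    have e2 : p₀ ^ D ≤ τ (φ (base G B)) (base G (φ '' B)) := by
      rw [hK.symm]
      exact h3 (φ '' B) (hG.inv φ B hB) _ (him φ B _ hv)
    calc p₀ ^ (2 * D) * τ (base G A) (base G B)
        = p₀ ^ D * τ (φ (base G A)) (φ (base G B)) * p₀ ^ D := by rw [hK.inv]; ring
      _ ≤ τ (base G (φ '' A)) (φ (base G A)) * τ (φ (base G A)) (φ (base G B)) *
          τ (φ (base G B)) (base G (φ '' B)) := mul_le_mul' (mul_le_mul' e1 le_rfl) e2
      _ ≤ τ (base G (φ '' A)) (φ (base G B)) * τ (φ (base G B)) (base G (φ '' B)) :=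
          mul_le_mul' (hK.har _ _ _) le_rfl
      _ ≤ _ := hK.har _ _ _
  · intro y
    obtain ⟨hf, hc⟩ := hG.deg y
    let N : Finset V := hf.toFinset
    have hN : N.card ≤ d := by
      rw [← Set.ncard_eq_toFinset_card _ hf]
      exact hc
    have hfs : ∀ u ∈ N, (sep C y u).Finite := by
      intro u hu
      have : G.Adj y u := by simpa [N] using hu
      exact (hG.lf y u this).1
    let F : V → Finset (Set V) := fun u => if h : (sep C y u).Finite then h.toFinset else ∅
    have hF : ∀ u ∈ N, (F u).card ≤ L := by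
      intro u hu
      have hadj : G.Adj y u := by simpa [N] using hu
      simp only [F, dif_pos (hfs u hu)]
      rw [← Set.ncard_eq_toFinset_card _ (hfs u hu)]
      exact (hG.lf y u hadj).2
    have hsub : {A | A ∈ C ∧ base G A = y} ⊆ ((N.biUnion F : Finset (Set V)) : Set (Set V)) := by
      rintro A ⟨hA, rfl⟩
      obtain ⟨u, hu⟩ := hbs A hA
      have huN : u ∈ N := by
        simp only [N, Set.Finite.mem_toFinset]
        exact hu.2.2
      rw [Finset.mem_coe, Finset.mem_biUnion]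
      refine ⟨u, huN, ?_⟩
      simp only [F, dif_pos (hfs u huN), Set.Finite.mem_toFinset]
      exact ⟨hA, hu.1, hu.2.1⟩
    have hcard : (N.biUnion F).card ≤ d * L :=
      (Finset.card_biUnion_le_card_mul N F L hF).trans (Nat.mul_le_mul_right L hN)
    refine ⟨?_, (Finset.finite_toSet _).subset hsub⟩
    refine (Set.ncard_le_ncard hsub (Finset.finite_toSet _)).trans ?_
    rw [Set.ncard_coe_finset]
    exact hcard

end Pool.L2B
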