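import Pool.Agent.Work.MP_23451d_me.Interface

/-! # Block BEY (helper70) -/

set_option autoImplicit false

namespace Pool.L2B

open SimpleGraph

/-- a walk which leaves `W` passes an inner end of a boundary edge -/
theorem BEY_leave {V : Type} {G : SimpleGraph V} (hG : G.Connected) (W : Set V) :
    ∀ (x y : V) (w : G.Walk x y), x ∈ W → y ∉ W → ∃ e ∈ bdE G W, G.dist x e.1 ≤ w.length := by
  intro x y w
  induction w with
  | nil => intro h1 h2; exact absurd h1 h2
  | cons h w' ih =>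
    rename_i a b c
    intro h1 h2
    by_cases hb : b ∈ W
    · obtain ⟨e, he, hd⟩ := ih hb h2
      refine ⟨e, he, ?_⟩
      have t1 : G.dist a e.1 ≤ G.dist a b + G.dist b e.1 := hG.dist_triangle
      have t2 : G.dist a b ≤ 1 := by
        rw [SimpleGraph.dist_eq_one_iff_adj.2 h]
      rw [SimpleGraph.Walk.length_cons]
      omega
    · exact ⟨(a, b), ⟨h1, hb, h⟩, by simp⟩

/-- in an infinite set `W` with finite boundary there is a boundary edge of a cut with both ends in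
`W`, the inner end avoiding a given finite set -/
theorem BEY_near (hBAL : Stmt_BAL) {V : Type} {G : SimpleGraph V} {C : Set (Set V)}
    {d L D R k : ℕ} (h : Geo0 G C d L D R k) (W : Set V) (hW : W.Infinite)
    (hb : (bdE G W).Finite) (T : Set V) (hT : T.Finite) :
    ∃ K ∈ C, ∃ f ∈ bdE G K, f.1 ∈ W ∧ f.2 ∈ W ∧ f.1 ∉ T := by
  classical
  set T' : Set V := T ∪ (fun e : V × V => e.1) '' bdE G W with hT'
  have hT'f : T'.Finite := hT.union (hb.image _)
  have hU : (⋃ t ∈ T', {y | G.dist t y ≤ R}).Finite :=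
    hT'f.biUnion fun t _ => (hBAL V G d h.conn h.deg t R).1
  obtain ⟨x, hxW, hx⟩ := hW.exists_notMem_finite hU
  have hx' : ∀ t ∈ T', ¬ G.dist x t ≤ R := by
    intro t ht hd
    apply hx
    simp only [Set.mem_iUnion]
    refine ⟨t, ht, ?_⟩
    change G.dist t x ≤ R
    rwa [SimpleGraph.dist_comm]
  obtain ⟨K, hK, f, hf, hd⟩ := h.near x
  have h1 : f.1 ∈ W := by
    by_contra hc
    obtain ⟨w, hw⟩ := h.conn.exists_walk_length_eq_dist x f.1
    obtain ⟨e, he, hde⟩ := BEY_leave h.conn W x f.1 w hxW hc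
    exact hx' e.1 (Or.inr ⟨e, he, rfl⟩) (hde.trans (hw.le.trans hd))
  refine ⟨K, hK, f, hf, h1, ?_, ?_⟩
  · by_contra hc
    exact hx' f.1 (Or.inr ⟨f, ⟨h1, hc, hf.2.2⟩, rfl⟩) hd
  · intro hc
    exact hx' f.1 (Or.inl hc) hd

theorem stmt_BEY (hBAL : Stmt_BAL) : Stmt_BEY := by
  intro V G C d L D R k h A hA
  obtain ⟨K, hK, f, hf, h1, h2, -⟩ := BEY_near hBAL h A (h.inf A hA) (h.bd A hA).1 ∅ Set.finite_empty
  rcases h.nest K hK A hA with hn | hn | hn | hn
  · exact ⟨K, hK, hn, fun hc => hf.2.1 (hc h2)⟩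
  · exact absurd h1 (hn hf.1)
  · exact ⟨Kᶜ, h.compl K hK, hn, fun hc => (hc h1) hf.1⟩
  · exact absurd h2 (hn hf.2.1)

end Pool.L2B
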