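import Pool.Agent.Work.MP_23451d_me.BEY

/-! # Block BRA (helper70) -/

set_option autoImplicit false

namespace Pool.L2B

open SimpleGraph

theorem stmt_BRA (hBAL : Stmt_BAL) (hLEV : Stmt_LEV) : Stmt_BRA := by
  classical
  intro V G C d L D R k h hc
  obtain ⟨c, hc0, hc⟩ := hc
  refine { toGeo0 := h, branch := ?_ }
  intro A hA
  by_contra hno
  push Not at hno
  obtain ⟨lev1, -, lev3, lev4, -, -⟩ := hLEV V G C d L D R k h
  have hcomp : ∀ B ∈ C, ∀ B' ∈ C, B ⊆ A → B' ⊆ A → B ⊆ B' ∨ B' ⊆ B := by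
    intro B hB B' hB' hBA hB'A
    rcases h.nest B hB B' hB' with hn | hn | hn | hn
    · exact Or.inl hn
    · exact absurd (Set.disjoint_left.2 fun x hx hx' => hn hx hx') (hno B hB B' hB' hBA hB'A)
    · exfalso
      obtain ⟨z, hz⟩ := (h.inf Aᶜ (h.compl A hA)).nonempty
      exact hz (hB'A (hn fun hzB => hz (hBA hzB)))
    · exact Or.inr (Set.compl_subset_compl.1 hn)
  choose B hB using fun n => lev4 A hA n
  have hBC : ∀ n, B n ∈ C := fun n => (hB n).1
  have hBA : ∀ n, B n ⊆ A := fun n => (hB n).2.1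
  have hBc : ∀ n, (btw C (B n) A).ncard = n + 1 := fun n => (hB n).2.2
  have hfinb : ∀ n, (btw C (B n) A).Finite := fun n => (lev1 A hA (B n) (hBC n) (hBA n)).1
  have hstep : ∀ n, B (n + 1) ⊂ B n := by
    intro n
    have h1 : ¬ B n ⊆ B (n + 1) := by
      intro hs
      have h2 : btw C (B (n + 1)) A ⊆ btw C (B n) A := fun X hX => ⟨hX.1, hs.trans hX.2.1, hX.2.2⟩
      have h3 := Set.ncard_le_ncard h2 (hfinb n)
      rw [hBc, hBc] at h3
      omega
    refine ⟨?_, h1⟩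
    rcases hcomp (B (n + 1)) (hBC _) (B n) (hBC _) (hBA _) (hBA _) with h2 | h2
    · exact h2
    · exact absurd h2 h1
  -- the boundary of the difference
  have hbsub : ∀ n, bdE G (A \ B n) ⊆ bdE G A ∪ Prod.swap '' bdE G (B n) := by
    rintro n ⟨a, b⟩ ⟨h1, h2, h3⟩
    by_cases hb : b ∈ A
    · right
      have hbB : b ∈ B n := by
        by_contra hbB
        exact h2 ⟨hb, hbB⟩
      exact ⟨(b, a), ⟨hbB, h1.2, h3.symm⟩, rfl⟩
    · exact Or.inl ⟨h1.1, hb, h3⟩
  have hbfin : ∀ n, (bdE G (A \ B n)).Finite := fun n =>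
    ((h.bd A hA).1.union ((h.bd (B n) (hBC n)).1.image _)).subset (hbsub n)
  have hbcard : ∀ n, (bdE G (A \ B n)).ncard ≤ 2 * k := by
    intro n
    have h1 := Set.ncard_le_ncard (hbsub n) ((h.bd A hA).1.union ((h.bd (B n) (hBC n)).1.image _))
    have h2 := Set.ncard_union_le (bdE G A) (Prod.swap '' bdE G (B n))
    have h3 := Set.ncard_image_le (f := Prod.swap) (h.bd (B n) (hBC n)).1
    have h4 := (h.bd A hA).2.2
    have h5 := (h.bd (B n) (hBC n)).2.2
    omega
  have hWfin : ∀ n, (A \ B n).Finite := by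
    intro n
    by_contra hinf
    set T : Set V := ⋃ X ∈ btw C (B n) A,
      ((fun e : V × V => e.1) '' bdE G X ∪ (fun e : V × V => e.2) '' bdE G X) with hTdef
    have hTf : T.Finite := by
      refine (hfinb n).biUnion fun X hX => ?_
      exact ((h.bd X hX.1).1.image _).union ((h.bd X hX.1).1.image _)
    obtain ⟨K, hK, f, hf, h1, h2, h3⟩ := BEY_near hBAL h (A \ B n) hinf (hbfin n) T hTf
    have hT1 : ∀ X ∈ btw C (B n) A, f ∉ bdE G X := by
      intro X hX hfX
      apply h3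
      simp only [hTdef, Set.mem_iUnion]
      exact ⟨X, hX, Or.inl ⟨f, hfX, rfl⟩⟩
    have hT2 : ∀ X ∈ btw C (B n) A, (f.2, f.1) ∉ bdE G X := by
      intro X hX hfX
      apply h3
      simp only [hTdef, Set.mem_iUnion]
      exact ⟨X, hX, Or.inr ⟨(f.2, f.1), hfX, rfl⟩⟩
    rcases h.nest K hK A hA with hn | hn | hn | hn
    · rcases hcomp K hK (B n) (hBC n) hn (hBA n) with h4 | h4
      · exact h1.2 (h4 hf.1)
      · exact hT1 K ⟨hK, h4, hn⟩ hf
    · exact hn hf.1 h1.1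
    · rcases hcomp Kᶜ (h.compl K hK) (B n) (hBC n) hn (hBA n) with h4 | h4
      · exact h2.2 (h4 hf.2.1)
      · exact hT2 Kᶜ ⟨h.compl K hK, h4, hn⟩ ⟨hf.2.1, fun hc => hc hf.1, hf.2.2.symm⟩
    · exact hn hf.2.1 h2.1
  have hgrow : ∀ n, n ≤ (A \ B n).ncard := by
    intro n
    induction n with
    | zero => exact Nat.zero_le _
    | succ n ih =>
      have h1 : A \ B n ⊂ A \ B (n + 1) := by
        refine ⟨fun x hx => ⟨hx.1, fun hc => hx.2 ((hstep n).1 hc)⟩, fun hs => ?_⟩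
        apply (hstep n).2
        intro x hx
        by_contra hx'
        exact (hs ⟨hBA n hx, hx'⟩).2 hx
      have h2 := Set.ncard_lt_ncard h1 (hWfin (n + 1))
      omega
  obtain ⟨N, hN⟩ := exists_nat_gt ((2 * k : ℝ) / c)
  have h1 := hgrow (N + 1)
  have h2 := hc (hWfin (N + 1)).toFinset (by
    rw [Set.Finite.toFinset_nonempty]
    apply (Set.ncard_pos (hWfin (N + 1))).1
    omega)
  rw [Set.Finite.coe_toFinset, ← Set.ncard_eq_toFinset_card _ (hWfin (N + 1))] at h2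
  have h3 := hbcard (N + 1)
  have h4 : ((bdE G (A \ B (N + 1))).ncard : ℝ) ≤ 2 * k := by exact_mod_cast h3
  have h5 : (2 * k : ℝ) < N * c := by
    rwa [div_lt_iff₀ hc0] at hN
  have h6 : (N : ℝ) ≤ ((A \ B (N + 1)).ncard : ℝ) := by
    exact_mod_cast (Nat.le_succ N).trans h1
  nlinarith

end Pool.L2B
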