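import Pool.Agent.Work.MP_23451d_me.Interface

/-!
# Block CHI (MP_23451d_pr): finite susceptibility from the finite volume criterion
-/

set_option autoImplicit false

namespace Pool.L2B

open MeasureTheory SimpleGraph
open scoped ENNReal

theorem stmt_CHI (hTAU : Stmt_TAU) (hCUT : Stmt_CUT) : Stmt_CHI := by
  classical
  intro V _ G p hp0 hp1 _ M η hη hS x₀
  have hbound : ∀ Λ : Finset V, ∀ x, ∑ y ∈ Λ, tau G p x y ≤ (M : ℝ≥0∞) / (1 - η) := by
    intro Λ
    set m : ℝ≥0∞ := ⨆ x, ∑ y ∈ Λ, tau G p x y with hm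
    have hmle : m ≤ (Λ.card : ℝ≥0∞) := by
      refine iSup_le fun x => ?_
      calc ∑ y ∈ Λ, tau G p x y ≤ ∑ y ∈ Λ, (1 : ℝ≥0∞) :=
            Finset.sum_le_sum fun y _ => (hTAU V G G p p x y).1
        _ = (Λ.card : ℝ≥0∞) := by simp
    have hmtop : m ≠ ⊤ := ne_top_of_le_ne_top (ENNReal.natCast_ne_top _) hmle
    have hX : ∀ x, ∑ y ∈ Λ, tau G p x y ≤ (M : ℝ≥0∞) + η * m := by
      intro x
      obtain ⟨S, hxS, hcard, hphi⟩ := hS x
      have hsplit : ∑ y ∈ Λ, tau G p x y =
          ∑ y ∈ Λ.filter (fun y => y ∈ S), tau G p x y +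
          ∑ y ∈ Λ.filter (fun y => ¬ y ∈ S), tau G p x y :=
        (Finset.sum_filter_add_sum_filter_not Λ (fun y => y ∈ S) _).symm
      have h1 : ∑ y ∈ Λ.filter (fun y => y ∈ S), tau G p x y ≤ (M : ℝ≥0∞) := by
        calc ∑ y ∈ Λ.filter (fun y => y ∈ S), tau G p x y
            ≤ ∑ y ∈ Λ.filter (fun y => y ∈ S), (1 : ℝ≥0∞) :=
              Finset.sum_le_sum fun y _ => (hTAU V G G p p x y).1
          _ = ((Λ.filter (fun y => y ∈ S)).card : ℝ≥0∞) := by simp
          _ ≤ (M : ℝ≥0∞) := by
              have : (Λ.filter (fun y => y ∈ S)).card ≤ M :=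
                le_trans (Finset.card_le_card (fun y hy => (Finset.mem_filter.1 hy).2)) hcard
              exact_mod_cast this
      have h2 : ∑ y ∈ Λ.filter (fun y => ¬ y ∈ S), tau G p x y ≤ η * m := by
        calc ∑ y ∈ Λ.filter (fun y => ¬ y ∈ S), tau G p x y
            ≤ ∑ y ∈ Λ.filter (fun y => ¬ y ∈ S), ∑' e : bdE G (S : Set V),
                tau (within G (S : Set V)) p x e.1.1 * ENNReal.ofReal p * tau G p e.1.2 y := by
              refine Finset.sum_le_sum fun y hy => ?_
              refine hCUT V G p hp0 hp1 (S : Set V) x (by exact_mod_cast hxS) y ?_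
              have := (Finset.mem_filter.1 hy).2
              exact_mod_cast this
          _ = ∑' e : bdE G (S : Set V), ∑ y ∈ Λ.filter (fun y => ¬ y ∈ S),
                tau (within G (S : Set V)) p x e.1.1 * ENNReal.ofReal p * tau G p e.1.2 y := by
              rw [Summable.tsum_finsetSum]
              intro y _
              exact ENNReal.summable
          _ ≤ ∑' e : bdE G (S : Set V),
                (ENNReal.ofReal p * tau (within G (S : Set V)) p x e.1.1) * m := by
              refine ENNReal.tsum_le_tsum fun e => ?_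
              rw [← Finset.mul_sum, mul_comm (tau (within G (S : Set V)) p x e.1.1)]
              refine mul_le_mul_right ?_ _
              refine le_trans (Finset.sum_le_sum_of_subset (Finset.filter_subset _ _)) ?_
              exact le_iSup (fun z => ∑ y ∈ Λ, tau G p z y) e.1.2
          _ = phi G p (S : Set V) x * m := by
              rw [ENNReal.tsum_mul_right]
              rfl
          _ ≤ η * m := mul_le_mul_left hphi _
      rw [hsplit]
      exact add_le_add h1 h2
    have hm2 : m ≤ (M : ℝ≥0∞) + η * m := iSup_le hX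
    have hpos : (1 : ℝ≥0∞) - η ≠ 0 := (tsub_pos_of_lt hη).ne'
    have hmfin : m ≤ (M : ℝ≥0∞) / (1 - η) := by
      rw [ENNReal.le_div_iff_mul_le (Or.inl hpos)
        (Or.inl (ne_top_of_le_ne_top ENNReal.one_ne_top tsub_le_self))]
      rw [mul_comm, ENNReal.sub_mul (fun _ _ => hmtop), one_mul]
      exact tsub_le_iff_right.2 hm2
    intro x
    exact le_trans (le_iSup (fun z => ∑ y ∈ Λ, tau G p z y) x) hmfin
  rw [ENNReal.tsum_eq_iSup_sum]
  exact iSup_le fun Λ => hbound Λ x₀

end Pool.L2B
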