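import Pool.Agent.Work.MP_23451d_me.Interface

set_option autoImplicit false

namespace Pool.L2B

open SimpleGraph

namespace CONL

variable {V : Type} {G : SimpleGraph V}

theorem dist_le_map (hG : G.Connected) (φ : G ≃g G) (x y : V) :
    G.dist (φ x) (φ y) ≤ G.dist x y := by
  obtain ⟨w, hw⟩ := hG.exists_walk_length_eq_dist x y
  rw [← hw]
  have h := dist_le (w.map φ.toHom)
  rw [Walk.length_map] at h
  exact h

theorem dist_map (hG : G.Connected) (φ : G ≃g G) (x y : V) :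
    G.dist (φ x) (φ y) = G.dist x y := by
  refine le_antisymm (dist_le_map hG φ x y) ?_
  have h := dist_le_map hG φ.symm (φ x) (φ y)
  simpa using h

theorem mem_bd_map (φ : G ≃g G) (A : Set V) (a b : V) :
    (a, b) ∈ bdE G (φ '' A) ↔ (φ.symm a, φ.symm b) ∈ bdE G A := by
  have key : ∀ c, c ∈ φ '' A ↔ φ.symm c ∈ A := by
    intro c
    constructor
    · rintro ⟨z, hz, rfl⟩
      simpa using hz
    · intro h
      exact ⟨_, h, by simp⟩
  have hadj : G.Adj a b ↔ G.Adj (φ.symm a) (φ.symm b) := (φ.symm.map_adj_iff).symm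
  simp only [bdE, Set.mem_ofPred_eq]
  rw [key, key, hadj]

theorem bounded {B : Set (V × V)} (hB : B.Finite) (f : V × V → V × V → ℕ) :
    ∃ D : ℕ, ∀ e ∈ B, ∀ e' ∈ B, f e e' ≤ D := by
  obtain ⟨D, hD⟩ := ((hB.prod hB).image (fun q => f q.1 q.2)).bddAbove
  refine ⟨D, fun e he e' he' => hD ?_⟩
  exact ⟨(e, e'), ⟨he, he'⟩, rfl⟩

theorem unif {F : Finset V} {P : V → ℕ → Prop} (hm : ∀ v n m, n ≤ m → P v n → P v m)
    (h : ∀ v, ∃ n, P v n) : ∃ N, ∀ v ∈ F, P v N := by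
  classical
  choose n hn using h
  exact ⟨F.sup n, fun v hv => hm v _ _ (Finset.le_sup hv) (hn v)⟩

theorem sep_map {C : Set (Set V)} (hinv : ∀ φ : G ≃g G, ∀ A ∈ C, φ '' A ∈ C) (φ : G ≃g G)
    (x y : V) : sep C (φ x) (φ y) = (fun A => φ '' A) '' sep C x y := by
  have key : ∀ (A : Set V) c, c ∈ φ.symm '' A ↔ φ c ∈ A := by
    intro A c
    constructor
    · rintro ⟨z, hz, rfl⟩
      simpa using hz
    · intro h
      exact ⟨_, h, by simp⟩
  ext A
  constructor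
  · rintro ⟨h1, h2, h3⟩
    refine ⟨φ.symm '' A, ⟨hinv _ _ h1, (key A x).2 h2, fun h => h3 ((key A y).1 h)⟩, ?_⟩
    change φ '' (φ.symm '' A) = A
    rw [← Set.image_comp]
    have : (φ ∘ φ.symm : V → V) = id := by
      funext z; simp
    rw [this, Set.image_id]
  · rintro ⟨B, ⟨h1, h2, h3⟩, rfl⟩
    refine ⟨hinv _ _ h1, ⟨x, h2, rfl⟩, ?_⟩
    rintro ⟨z, hz, hzy⟩
    have : z = y := φ.injective hzy
    subst this
    exact h3 hz

end CONL

open CONL in
theorem stmt_CON : Stmt_CON := by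
  classical
  intro V G hG hfin hQT C k hne hcompl hinv hone hbd hnest hlf
  obtain ⟨F, hF⟩ := hQT
  obtain ⟨A₀, hA₀, hone⟩ := hone
  -- degrees
  obtain ⟨d, hd⟩ := unif (F := F) (P := fun v n => (G.neighborSet v).ncard ≤ n)
    (fun v n m hnm h => le_trans h hnm) (fun v => ⟨_, le_rfl⟩)
  -- cuts through an edge
  obtain ⟨L, hL⟩ := unif (F := F) (P := fun v n => ∀ w, G.Adj v w → (sep C v w).ncard ≤ n)
    (fun v n m hnm h w hw => le_trans (h w hw) hnm) (fun v => by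
      obtain ⟨n, hn⟩ := ((hfin v).image (fun w => (sep C v w).ncard)).bddAbove
      exact ⟨n, fun w hw => hn ⟨w, hw, rfl⟩⟩)
  -- diameters
  obtain ⟨D₁, hD₁⟩ := bounded (hbd A₀ hA₀).2.1 (fun e f => G.dist e.1 f.1)
  obtain ⟨D₂, hD₂⟩ := bounded (hbd _ (hcompl _ hA₀)).2.1 (fun e f => G.dist e.1 f.1)
  -- nearby cuts
  obtain ⟨e₀, he₀⟩ := (hbd A₀ hA₀).2.2.1
  obtain ⟨R, hR⟩ := unif (F := F) (P := fun v n => G.dist v e₀.1 ≤ n)
    (fun v n m hnm h => le_trans h hnm) (fun v => ⟨_, le_rfl⟩)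
  refine ⟨d, L + 1, max D₁ D₂, R, ?_⟩
  refine { conn := hG, deg := ?_, ne := hne, inf := fun A hA => (hbd A hA).1, compl := hcompl,
           inv := hinv, one := ⟨A₀, hA₀, hone⟩, bd := fun A hA => (hbd A hA).2, nest := hnest,
           hL := by omega, lf := ?_, diam := ?_, near := ?_ }
  · intro v
    refine ⟨hfin v, ?_⟩
    obtain ⟨φ, u, hu, rfl⟩ := hF v
    have h1 : (G.neighborSet (φ u)).ncard = (G.neighborSet u).ncard :=
      (Nat.card_congr (φ.mapNeighborSet u)).symm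
    rw [h1]
    exact hd u hu
  · intro x y hxy
    refine ⟨hlf x y hxy, ?_⟩
    obtain ⟨φ, u, hu, rfl⟩ := hF x
    have h2 : G.Adj u (φ.symm y) := by
      have h3 := (φ.symm.map_adj_iff (v := φ u) (w := y)).2 hxy
      simpa using h3
    have h4 : sep C (φ u) y = (fun A => φ '' A) '' sep C u (φ.symm y) := by
      have h5 := sep_map hinv φ u (φ.symm y)
      rw [RelIso.apply_symm_apply] at h5
      exact h5
    rw [h4]
    have h6 := Set.ncard_image_le (f := fun A : Set V => φ '' A) (hlf u (φ.symm y) h2)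
    have h7 := hL u hu _ h2
    omega
  · intro A hA e he f hf
    obtain ⟨φ, h⟩ := hone A hA
    have h1 : ∀ g : V × V, (φ (φ.symm g.1)) = g.1 := fun g => by simp
    have h2 : G.dist e.1 f.1 = G.dist (φ.symm e.1) (φ.symm f.1) := by
      rw [← dist_map hG φ (φ.symm e.1) (φ.symm f.1), h1, h1]
    rw [h2]
    rcases h with h | h
    · rw [h] at he hf
      exact le_trans (hD₁ _ ((mem_bd_map φ A₀ e.1 e.2).1 he) _ ((mem_bd_map φ A₀ f.1 f.2).1 hf))
        (le_max_left _ _)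
    · rw [h] at he hf
      exact le_trans (hD₂ _ ((mem_bd_map φ A₀ᶜ e.1 e.2).1 he) _
        ((mem_bd_map φ A₀ᶜ f.1 f.2).1 hf)) (le_max_right _ _)
  · intro x
    obtain ⟨φ, u, hu, rfl⟩ := hF x
    refine ⟨φ '' A₀, hinv φ A₀ hA₀, (φ e₀.1, φ e₀.2), ?_, ?_⟩
    · rw [mem_bd_map]
      simpa using he₀
    · change G.dist (φ u) (φ e₀.1) ≤ R
      rw [dist_map hG]
      exact hR u hu

end Pool.L2B
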