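import Pool.Agent.Work.MP_23451d_me.Interface

set_option autoImplicit false

namespace Pool.L2B

open SimpleGraph

theorem h73_within_of_support {V : Type} {G : SimpleGraph V} (T : Set V) {a b : V}
    (w : G.Walk a b) (h : ∀ x ∈ w.support, x ∈ T) : (within G T).Reachable a b := by
  induction w with
  | nil => exact Reachable.refl _
  | @cons a c b hac w ih =>
    have ha : a ∈ T := h a (by simp)
    have hc : c ∈ T := h c (by simp)
    have hadj : (within G T).Adj a c := ⟨hac, ha, hc⟩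
    exact hadj.reachable.trans (ih (fun x hx => h x (by simp [hx])))

theorem stmt_CRF (hFINB : Stmt_FINB) (hNAR : Stmt_NAR) : Stmt_CRF := by
  classical
  intro V G hG k A hA
  have hfin : (bdE G A).Finite := hA.1.2.2
  obtain ⟨e₀, he₀⟩ := (hNAR V G hG k A hA).2.1
  have hw : ∀ x : V, ∃ w : G.Walk e₀.1 x, True := fun x => by
    obtain ⟨w⟩ := hG.preconnected e₀.1 x
    exact ⟨w, trivial⟩
  choose w _ using hw
  obtain ⟨T, hT⟩ : ∃ T : Set V, T = ⋃ e ∈ bdE G A, ({y | y ∈ (w e.1).support} ∪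
    {y | y ∈ (w e.2).support}) := ⟨_, rfl⟩
  have hTfin : T.Finite := by
    rw [hT]
    exact Set.Finite.biUnion hfin (fun e _ =>
      (List.finite_toSet (w e.1).support).union (List.finite_toSet (w e.2).support))
  have hT1 : ∀ e ∈ bdE G A, e.1 ∈ T ∧ e.2 ∈ T := by
    intro e he
    rw [hT]
    simp only [Set.mem_iUnion]
    exact ⟨⟨e, he, Or.inl (by simp)⟩, ⟨e, he, Or.inr (by simp)⟩⟩
  have hsupp : ∀ e ∈ bdE G A, (∀ y ∈ (w e.1).support, y ∈ T) ∧ ∀ y ∈ (w e.2).support, y ∈ T := by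
    intro e he
    rw [hT]
    simp only [Set.mem_iUnion]
    exact ⟨fun y hy => ⟨e, he, Or.inl hy⟩, fun y hy => ⟨e, he, Or.inr hy⟩⟩
  have hTr0 : ∀ x, (∀ y ∈ (w x).support, y ∈ T) → ∀ y ∈ (w x).support,
      (within G T).Reachable e₀.1 y := by
    intro x hx y hy
    refine h73_within_of_support T ((w x).takeUntil y hy) ?_
    intro z hz
    exact hx z ((w x).support_takeUntil_subset_support hy hz)
  have hTr : ∀ y ∈ T, (within G T).Reachable e₀.1 y := by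
    intro y hy
    rw [hT] at hy
    simp only [Set.mem_iUnion] at hy
    obtain ⟨e, he, hy⟩ := hy
    rcases hy with hy | hy
    · exact hTr0 _ (hsupp e he).1 y hy
    · exact hTr0 _ (hsupp e he).2 y hy
  refine Set.Finite.subset (Set.Finite.biUnion
    (Set.Finite.subset (hTfin.prod hTfin) (fun (p : V × V) (hp : p ∈ {p : V × V | p.1 ∈ T ∧
      p.2 ∈ T ∧ G.Adj p.1 p.2}) => ⟨hp.1, hp.2.1⟩)) (fun p hp => hFINB V G hG k p.1 p.2 hp.2.2)) ?_
  rintro B ⟨hB, ⟨x₁, hx₁⟩, ⟨x₂, hx₂⟩, ⟨x₃, hx₃⟩, ⟨x₄, hx₄⟩⟩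
  obtain ⟨hBc, -, hB1⟩ := hNAR V G hG k B hB
  have hB2 := (hNAR V G hG k Bᶜ hBc).2.2
  have key : ∀ (X : Set V) (x y : V), x ∈ A → y ∉ A → (within G X).Reachable x y →
      ∃ z ∈ T, z ∈ X := by
    intro X x y hx hy hr
    obtain ⟨P⟩ := hr
    obtain ⟨d, -, hd1, hd2⟩ := P.exists_boundary_dart A hx hy
    have h1 : (d.fst, d.snd) ∈ bdE G A := ⟨hd1, hd2, d.adj.1⟩
    exact ⟨d.fst, (hT1 _ h1).1, d.adj.2.1⟩
  obtain ⟨u, huT, huB⟩ := key B x₁ x₃ hx₁.1 hx₃.1 (hB1 _ hx₁.2 _ hx₃.2)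
  obtain ⟨v, hvT, hvB⟩ := key Bᶜ x₂ x₄ hx₂.1 hx₄.1 (hB2 _ hx₂.2 _ hx₄.2)
  obtain ⟨P⟩ := (hTr u huT).symm.trans (hTr v hvT)
  obtain ⟨d, -, hd1, hd2⟩ := P.exists_boundary_dart B huB hvB
  simp only [Set.mem_iUnion]
  exact ⟨(d.fst, d.snd), ⟨d.adj.2.1, d.adj.2.2, d.adj.1⟩, hd1, hd2, hB.1.2.2, hB.2.1.le, hB1, hB2⟩

end Pool.L2B
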