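import Pool.Agent.Work.MP_23451d_me.Interface

/-!
# Block CUT (MP_23451d_pr): the exploration inequality
-/

set_option autoImplicit false

namespace Pool.L2B

open MeasureTheory SimpleGraph
open scoped ENNReal

namespace CUT

/-- a vertex which is joined to `x` inside `H` is `x` or lies in `H` -/
theorem walk_mem {V : Type} (G : SimpleGraph V) (H : Set V) (x z : V)
    (w : (within G H).Walk x z) : z = x ∨ z ∈ H := by
  induction w with
  | nil => exact Or.inl rfl
  | cons h w ih =>
    rcases ih with h1 | h1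
    · right
      rw [h1]
      exact h.2.2
    · exact Or.inr h1

/-- independence of three events -/
theorem ind3 (hSIG : Stmt_SIG) {V : Type} (I1 I2 I3 : Set (Sym2 V)) (h12 : Disjoint I1 I2)
    (h3 : Disjoint (I1 ∪ I2) I3) (A1 A2 A3 : Set (Sym2 V → unitInterval))
    (m1 : MeasurableSet[sig I1] A1) (m2 : MeasurableSet[sig I2] A2)
    (m3 : MeasurableSet[sig I3] A3) :
    mu V (A1 ∩ A2 ∩ A3) = mu V A1 * mu V A2 * mu V A3 := by
  obtain ⟨_, hmono, hind⟩ := hSIG V
  rw [hind _ _ h3 _ _ ?_ m3, hind _ _ h12 _ _ m1 m2]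
  exact @MeasurableSet.inter _ (sig (I1 ∪ I2)) _ _ (hmono _ _ Set.subset_union_left _ m1)
    (hmono _ _ Set.subset_union_right _ m2)

theorem within_le {V : Type} (G : SimpleGraph V) (H : Set V) : within G H ≤ G := fun _ _ h => h.1

theorem conn_append {V : Type} {G : SimpleGraph V} {p : ℝ} {ω : Sym2 V → unitInterval} {u v w : V}
    (h1 : Conn G p ω u v) (h2 : Conn G p ω v w) : Conn G p ω u w := by
  obtain ⟨w1, k1⟩ := h1
  obtain ⟨w2, k2⟩ := h2
  refine ⟨w1.append w2, fun e he => ?_⟩
  rw [Walk.edges_append, List.mem_append] at he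
  rcases he with he | he
  · exact k1 e he
  · exact k2 e he

theorem conn_edge {V : Type} {G : SimpleGraph V} {p : ℝ} {ω : Sym2 V → unitInterval} {u v : V}
    (h : G.Adj u v) (hp : ((ω s(u, v) : unitInterval) : ℝ) < p) : Conn G p ω u v := by
  refine ⟨Walk.cons h Walk.nil, fun e he => ?_⟩
  simp only [Walk.edges_cons, Walk.edges_nil, List.mem_cons, List.not_mem_nil, or_false] at he
  rw [he]
  exact hp

/-- the finite volume inequality -/
theorem fin_cut (hLAB : Stmt_LAB) (hSIG : Stmt_SIG) (hCME : Stmt_CME) (hTAU : Stmt_TAU)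
    (hLEX : Stmt_LEX) (hEXP : Stmt_EXP) {V : Type} [Countable V] (G : SimpleGraph V) (p : ℝ)
    (hp0 : 0 ≤ p) (hp1 : p ≤ 1) (H : Set V) (x : V) (hx : x ∈ H) (y : V) (hy : y ∉ H)
    (Λ : Finset V) :
    tau (within G (Λ : Set V)) p x y ≤ ∑' e : bdE G H,
        tau (within G H) p x e.1.1 * ENNReal.ofReal p * tau G p e.1.2 y := by
  classical
  set K : SimpleGraph V := within (within G (Λ : Set V)) H with hK
  set T : Finset V := insert x Λ with hT
  set B : Finset (V × V) := (Λ ×ˢ Λ).filter (fun e => e ∈ bdE G H) with hB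
  set PS : V → Finset (Finset V) := fun a =>
    T.powerset.filter (fun S : Finset V => a ∈ S ∧ (S : Set V) ⊆ H) with hPS
  -- the event `C = S`
  set E : Set V → Set (Sym2 V → unitInterval) := fun S => {ω | {z | Conn K p ω x z} = S} with hE
  have hKG : K ≤ within G H := fun a b h => ⟨h.1.1, h.2⟩
  -- the cover
  have hcov : {ω | Conn (within G (Λ : Set V)) p ω x y} ⊆
      ⋃ e ∈ B, ⋃ S ∈ PS e.1,
        (E (S : Set V) ∩ {ω | ((ω s(e.1, e.2) : unitInterval) : ℝ) < p} ∩
          {ω | Conn (within (within G (Λ : Set V)) (S : Set V)ᶜ) p ω e.2 y}) := by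
    intro ω hω
    obtain ⟨w, hw⟩ := hω
    have hCT : {z | Conn K p ω x z} ⊆ (T : Set V) := by
      rintro z ⟨w', _⟩
      have h1 := walk_mem G (Λ : Set V) x z (w'.mapLe (within_le _ _))
      rw [hT]
      simpa using h1
    have hCH : {z | Conn K p ω x z} ⊆ H := by
      rintro z ⟨w', _⟩
      rcases walk_mem _ H x z w' with h1 | h1
      · rw [h1]; exact hx
      · exact h1
    have hfin : {z | Conn K p ω x z}.Finite := T.finite_toSet.subset hCT
    obtain ⟨S, hS⟩ := hfin.exists_finset_coe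
    have hxS : x ∈ (S : Set V) := by
      rw [hS]
      exact ⟨Walk.nil, by simp⟩
    have hyS : y ∉ (S : Set V) := by
      rw [hS]
      exact fun h => hy (hCH h)
    obtain ⟨⟨a, ha, b, hb, hab, he, w', hw'⟩, _⟩ := hLEX V _ (S : Set V) x y w hxS hyS
    have hbH : b ∉ H := by
      intro hbH
      apply hb
      rw [hS] at ha ⊢
      exact conn_append ha (conn_edge ⟨hab, hCH ha, hbH⟩ (hw _ he))
    have haH : a ∈ H := by
      rw [hS] at ha
      exact hCH ha
    simp only [Set.mem_iUnion]
    refine ⟨(a, b), ?_, S, ?_, ⟨?_, ?_⟩, ?_⟩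
    · rw [hB, Finset.mem_filter, Finset.mem_product]
      exact ⟨⟨hab.2.1, hab.2.2⟩, haH, hbH, hab.1⟩
    · rw [Finset.mem_filter, Finset.mem_powerset]
      refine ⟨?_, ha, ?_⟩
      · rw [← Finset.coe_subset, hS]
        exact hCT
      · rw [hS]
        exact hCH
    · exact hS.symm
    · exact hw _ he
    · exact ⟨w', fun e he => hw _ (hw' e he)⟩
  obtain ⟨hpi, hmono, hind⟩ := hSIG V
  -- one term
  have hterm : ∀ e ∈ B, ∀ S ∈ PS e.1,
      mu V (E (S : Set V) ∩ {ω | ((ω s(e.1, e.2) : unitInterval) : ℝ) < p} ∩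
          {ω | Conn (within (within G (Λ : Set V)) (S : Set V)ᶜ) p ω e.2 y}) ≤
        mu V (E (S : Set V)) * (ENNReal.ofReal p * tau G p e.2 y) := by
    intro e he S hS
    rw [Finset.mem_filter] at he hS
    obtain ⟨_, heS, hSH⟩ := hS
    obtain ⟨_, he1, he2, he3⟩ := he
    have m1 := (hEXP V K p x (S : Set V)).1
    have m2 := (hLAB V s(e.1, e.2) p).1
    have m3 := hCME V (within (within G (Λ : Set V)) (S : Set V)ᶜ) p e.2 y
    rw [ind3 hSIG _ _ _ ?_ ?_ _ _ _ m1 m2 m3, (hLAB V s(e.1, e.2) p).2 hp0 hp1, mul_assoc]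
    · gcongr
      exact (hTAU V (within (within G (Λ : Set V)) (S : Set V)ᶜ) G p p e.2 y).2.2.2.2.1
        (fun a b h => h.1.1)
    · rw [Set.disjoint_singleton_right]
      rintro ⟨h1, _⟩
      rw [SimpleGraph.mem_edgeSet] at h1
      exact he2 h1.2.2
    · rw [Set.disjoint_left]
      intro f hf hf'
      rcases hf with ⟨_, v, hv, hvf⟩ | hf
      · revert hf' hvf
        refine Sym2.ind (fun a b => ?_) f
        intro h1 h2
        rw [SimpleGraph.mem_edgeSet] at h1
        rw [Sym2.mem_iff] at h2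
        rcases h2 with h2 | h2
        · exact h1.2.1 (h2 ▸ hv)
        · exact h1.2.2 (h2 ▸ hv)
      · rw [Set.mem_singleton_iff] at hf
        rw [hf, SimpleGraph.mem_edgeSet] at hf'
        exact hf'.2.1 heS
  -- the sum over `S`
  have hsum : ∀ e ∈ B, ∑ S ∈ PS e.1,
      mu V (E (S : Set V)) ≤ tau (within G H) p x e.1 := by
    intro e _
    rw [← measure_biUnion_finset]
    · calc mu V (⋃ S ∈ PS e.1, E (S : Set V))
          ≤ tau K p x e.1 := by
            apply measure_mono
            intro ω hω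
            simp only [Set.mem_iUnion] at hω
            obtain ⟨S, hS, hω⟩ := hω
            rw [Finset.mem_filter] at hS
            have h1 : {z | Conn K p ω x z} = (S : Set V) := hω
            have h2 : e.1 ∈ {z | Conn K p ω x z} := by
              rw [h1]
              exact hS.2.1
            exact h2
        _ ≤ tau (within G H) p x e.1 := (hTAU V K (within G H) p p x e.1).2.2.2.2.1 hKG
    · intro S _ S' _ hne
      rw [Function.onFun, Set.disjoint_left]
      intro ω h1 h2
      apply hne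
      have h3 : (S : Set V) = (S' : Set V) := (show {z | Conn K p ω x z} = (S : Set V) from h1).symm.trans h2
      exact_mod_cast h3
    · intro S _
      exact hpi _ _ (hEXP V K p x (S : Set V)).1
  calc tau (within G (Λ : Set V)) p x y
      ≤ mu V (⋃ e ∈ B, ⋃ S ∈ PS e.1,
        (E (S : Set V) ∩ {ω | ((ω s(e.1, e.2) : unitInterval) : ℝ) < p} ∩
          {ω | Conn (within (within G (Λ : Set V)) (S : Set V)ᶜ) p ω e.2 y})) :=
        measure_mono hcov
    _ ≤ ∑ e ∈ B, ∑ S ∈ PS e.1,
        mu V (E (S : Set V)) * (ENNReal.ofReal p * tau G p e.2 y) := by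
        refine (measure_biUnion_finset_le _ _).trans (Finset.sum_le_sum fun e he => ?_)
        exact (measure_biUnion_finset_le _ _).trans (Finset.sum_le_sum fun S hS => hterm e he S hS)
    _ ≤ ∑ e ∈ B, tau (within G H) p x e.1 * ENNReal.ofReal p * tau G p e.2 y := by
        refine Finset.sum_le_sum fun e he => ?_
        rw [← Finset.sum_mul, mul_assoc]
        gcongr
        exact hsum e he
    _ = ∑' e : (B : Set (V × V)), tau (within G H) p x e.1.1 * ENNReal.ofReal p * tau G p e.1.2 y :=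
        (Finset.tsum_subtype B
          (fun e => tau (within G H) p x e.1 * ENNReal.ofReal p * tau G p e.2 y)).symm
    _ ≤ ∑' e : bdE G H, tau (within G H) p x e.1.1 * ENNReal.ofReal p * tau G p e.1.2 y := by
        refine ENNReal.tsum_mono_subtype
          (fun e : V × V => tau (within G H) p x e.1 * ENNReal.ofReal p * tau G p e.2 y) ?_
        intro e he
        rw [hB, Finset.coe_filter] at he
        exact he.2

end CUT

theorem stmt_CUT (hLAB : Stmt_LAB) (hSIG : Stmt_SIG) (hCME : Stmt_CME) (hTAU : Stmt_TAU)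
    (hLIM : Stmt_LIM) (hLEX : Stmt_LEX) (hEXP : Stmt_EXP) : Stmt_CUT := by
  intro V _ G p hp0 hp1 H x hx y hy
  rw [hLIM V G p x y]
  exact iSup_le fun Λ => CUT.fin_cut hLAB hSIG hCME hTAU hLEX hEXP G p hp0 hp1 H x hx y hy Λ

end Pool.L2B
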