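import Pool.Agent.Work.MP_23451d_me.Interface

/-! # Block DEC: disjoint separating sets of edges -/

set_option autoImplicit false

namespace Pool.L2B

open MeasureTheory SimpleGraph
open scoped ENNReal

/-- all labels of a finite set are at least `p` -/
theorem mu_all_ge_DEC (hLAB : Stmt_LAB) {V : Type} (e₀ : Sym2 V) (p : ℝ) (hp0 : 0 ≤ p) (hp1 : p ≤ 1)
    (T : Finset (Sym2 V)) :
    mu V {ω | ∀ e ∈ T, p ≤ ((ω e : unitInterval) : ℝ)} = ENNReal.ofReal (1 - p) ^ T.card := by
  classical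
  have hms : MeasurableSet {x : unitInterval | p ≤ (x : ℝ)} :=
    measurableSet_le measurable_const measurable_subtype_coe
  have hms' : MeasurableSet {x : unitInterval | (x : ℝ) < p} :=
    measurableSet_lt measurable_subtype_coe measurable_const
  have h1 : (volume : Measure unitInterval) {x : unitInterval | (x : ℝ) < p} = ENNReal.ofReal p := by
    rw [← (hLAB V e₀ p).2 hp0 hp1]
    have e1 : {ω : Sym2 V → unitInterval | ((ω e₀ : unitInterval) : ℝ) < p} =
        Set.pi (({e₀} : Finset (Sym2 V)) : Set (Sym2 V)) (fun _ => {x : unitInterval | (x : ℝ) < p}) := by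
      ext ω; simp
    rw [e1]
    unfold mu
    rw [Measure.infinitePi_pi _ (fun _ _ => hms')]
    simp
  have h2 : (volume : Measure unitInterval) {x : unitInterval | p ≤ (x : ℝ)}
      = ENNReal.ofReal (1 - p) := by
    have e2 : {x : unitInterval | p ≤ (x : ℝ)} = {x : unitInterval | (x : ℝ) < p}ᶜ := by
      ext x; simp
    rw [e2, prob_compl_eq_one_sub hms', h1, ENNReal.ofReal_sub _ hp0, ENNReal.ofReal_one]
  have e3 : {ω : Sym2 V → unitInterval | ∀ e ∈ T, p ≤ ((ω e : unitInterval) : ℝ)} =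
      Set.pi (T : Set (Sym2 V)) (fun _ => {x : unitInterval | p ≤ (x : ℝ)}) := by
    ext ω; simp
  rw [e3]
  unfold mu
  rw [Measure.infinitePi_pi _ (fun _ _ => hms), Finset.prod_const, h2]

theorem stmt_DEC (hLAB : Stmt_LAB) (hSIG : Stmt_SIG) : Stmt_DEC := by
  classical
  intro V _ G p x y n k E hp0 hp1 hcard hdisj hsep
  set F : Fin n → Set (Sym2 V → unitInterval) :=
    fun i => {ω | ∃ e ∈ E i, ((ω e : unitInterval) : ℝ) < p} with hF
  have hFm : ∀ i, MeasurableSet[sig (E i : Set (Sym2 V))] (F i) := by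
    intro i
    have e1 : F i = ⋃ e ∈ E i, {ω : Sym2 V → unitInterval | ((ω e : unitInterval) : ℝ) < p} := by
      ext ω; simp [hF]
    rw [e1]
    refine @Finset.measurableSet_biUnion _ _ (sig (E i : Set (Sym2 V))) _ (E i) ?_
    intro e he
    exact (hSIG V).2.1 {e} (E i : Set (Sym2 V)) (by simpa using he) _ (hLAB V e p).1
  have hFb : ∀ i, mu V (F i) ≤ ENNReal.ofReal (1 - (1 - p) ^ k) := by
    intro i
    have e1 : F i = {ω | ∀ e ∈ E i, p ≤ ((ω e : unitInterval) : ℝ)}ᶜ := by
      ext ω; simp [hF]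
    have hm : MeasurableSet {ω : Sym2 V → unitInterval | ∀ e ∈ E i, p ≤ ((ω e : unitInterval) : ℝ)} := by
      have := ((hSIG V).1 _ _ (hFm i)).compl
      rw [e1, compl_compl] at this
      exact this
    rw [e1, prob_compl_eq_one_sub hm, mu_all_ge_DEC hLAB s(x, x) p hp0 hp1,
      ← ENNReal.ofReal_pow (by linarith), ← ENNReal.ofReal_one,
      ← ENNReal.ofReal_sub _ (by positivity [sub_nonneg.mpr hp1])]
    apply ENNReal.ofReal_le_ofReal
    have : (1 - p) ^ k ≤ (1 - p) ^ (E i).card :=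
      pow_le_pow_of_le_one (by linarith) (by linarith) (hcard i)
    linarith
  have key : ∀ s : Finset (Fin n),
      MeasurableSet[sig {e | ∃ i ∈ s, e ∈ E i}] {ω | ∀ i ∈ s, ω ∈ F i} ∧
      mu V {ω | ∀ i ∈ s, ω ∈ F i} ≤ ENNReal.ofReal (1 - (1 - p) ^ k) ^ s.card := by
    intro s
    induction s using Finset.induction_on with
    | empty =>
      constructor
      · simp
      · simp
    | insert a s ha ih =>
      have e1 : {ω | ∀ i ∈ insert a s, ω ∈ F i} = F a ∩ {ω | ∀ i ∈ s, ω ∈ F i} := by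
        ext ω; simp
      have hd : Disjoint (E a : Set (Sym2 V)) {e | ∃ i ∈ s, e ∈ E i} := by
        rw [Set.disjoint_left]
        rintro e he ⟨i, hi, hei⟩
        have hai : a ≠ i := by rintro rfl; exact ha hi
        exact Finset.disjoint_left.mp (hdisj a i hai) he hei
      constructor
      · rw [e1]
        refine @MeasurableSet.inter _ (sig {e | ∃ i ∈ insert a s, e ∈ E i}) _ _ ?_ ?_
        · refine (hSIG V).2.1 (E a : Set (Sym2 V)) _ ?_ _ (hFm a)
          intro e he
          exact ⟨a, Finset.mem_insert_self a s, he⟩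
        · refine (hSIG V).2.1 {e | ∃ i ∈ s, e ∈ E i} _ ?_ _ ih.1
          rintro e ⟨i, hi, he⟩
          exact ⟨i, Finset.mem_insert_of_mem hi, he⟩
      · rw [e1, (hSIG V).2.2 _ _ hd _ _ (hFm a) ih.1, Finset.card_insert_of_notMem ha, pow_succ,
          mul_comm]
        exact mul_le_mul' ih.2 (hFb a)
  have hsub : {ω : Sym2 V → unitInterval | Conn G p ω x y} ⊆
      {ω | ∀ i ∈ (Finset.univ : Finset (Fin n)), ω ∈ F i} := by
    rintro ω ⟨w, hw⟩ i _
    obtain ⟨e, he, hei⟩ := hsep w i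
    exact ⟨e, hei, hw e he⟩
  calc tau G p x y ≤ mu V {ω | ∀ i ∈ (Finset.univ : Finset (Fin n)), ω ∈ F i} := measure_mono hsub
    _ ≤ ENNReal.ofReal (1 - (1 - p) ^ k) ^ (Finset.univ : Finset (Fin n)).card := (key _).2
    _ = _ := by simp

end Pool.L2B
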