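import Pool.Agent.Work.MP_23451d_me.Interface

/-!
# DIS: disjoint edge boundaries along a chain of separating cuts
-/

set_option autoImplicit false

namespace Pool.L2B

open MeasureTheory SimpleGraph
open scoped ENNReal

theorem stmt_DIS (hSEP : Stmt_SEP) : Stmt_DIS := by
  intro V G C d L D R k hG x y
  obtain ⟨h1, _, _, _, h5⟩ := hSEP V G C d L D R k hG
  classical
  have hfin := h1 x y
  have hL := hG.hL
  set S := sep C x y with hS
  set f : Set V → ℕ := fun A => {X | X ∈ S ∧ X ⊂ A}.ncard with hf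
  have hmono : ∀ A ∈ S, ∀ B ∈ S, A ⊂ B → f A < f B := by
    intro A hA B hB hAB
    apply Set.ncard_lt_ncard
    · refine ⟨fun X hX => ⟨hX.1, hX.2.trans hAB⟩, ?_⟩
      intro hcon
      have h2 : A ∈ {X | X ∈ S ∧ X ⊂ A} := hcon ⟨hA, hAB⟩
      exact h2.2.2 (subset_refl A)
    · exact hfin.subset (fun X hX => hX.1)
  have hinj : ∀ A ∈ S, ∀ B ∈ S, f A = f B → A = B := by
    intro A hA B hB hAB
    by_contra hne
    rcases h5 x y A hA B hB with h | h
    · exact absurd hAB (hmono A hA B hB (h.ssubset_of_ne hne)).ne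
    · exact absurd hAB (hmono B hB A hA (h.ssubset_of_ne (Ne.symm hne))).ne'
  have hlt : ∀ A ∈ S, f A < S.ncard := by
    intro A hA
    apply Set.ncard_lt_ncard
    · refine ⟨fun X hX => hX.1, fun hcon => ?_⟩
      exact (hcon hA).2.2 (subset_refl A)
    · exact hfin
  have hsurj : ∀ j < S.ncard, ∃ A ∈ S, f A = j := by
    intro j hj
    have himg : (hfin.toFinset.image f) = Finset.range S.ncard := by
      apply Finset.eq_of_subset_of_card_le
      · intro n hn
        simp only [Finset.mem_image, Set.Finite.mem_toFinset] at hn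
        obtain ⟨A, hA, rfl⟩ := hn
        exact Finset.mem_range.mpr (hlt A hA)
      · rw [Finset.card_range, Finset.card_image_of_injOn, Set.ncard_eq_toFinset_card S hfin]
        intro A hA B hB hAB
        have hA' : A ∈ S := hfin.mem_toFinset.mp hA
        have hB' : B ∈ S := hfin.mem_toFinset.mp hB
        exact hinj A hA' B hB' hAB
    have h3 : j ∈ hfin.toFinset.image f := by rw [himg]; exact Finset.mem_range.mpr hj
    obtain ⟨A, hA, hAj⟩ := Finset.mem_image.mp h3
    exact ⟨A, hfin.mem_toFinset.mp hA, hAj⟩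
  choose! A hA hfA using hsurj
  have hcut : ∀ j, j < S.ncard → A j ∈ C ∧ x ∈ A j ∧ y ∉ A j := fun j hj => hA j hj
  have hsub : ∀ i j, i ≤ j → j < S.ncard → A i ⊆ A j := by
    intro i j hij hj
    have hi : i < S.ncard := by omega
    rcases h5 x y (A i) (hA i hi) (A j) (hA j hj) with h | h
    · exact h
    · by_contra hcon
      have hss : A j ⊂ A i := ⟨h, fun h' => hcon h'⟩
      have h4 := hmono _ (hA j hj) _ (hA i hi) hss
      rw [hfA j hj, hfA i hi] at h4
      omega
  have hidx : ∀ i : Fin (S.ncard / L), i.1 * L < S.ncard := by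
    intro i
    have h6 : (i.1 + 1) * L ≤ S.ncard / L * L := Nat.mul_le_mul_right L i.2
    have h7 : S.ncard / L * L ≤ S.ncard := Nat.div_mul_le_self _ _
    have h8 : (i.1 + 1) * L = i.1 * L + L := by ring
    omega
  have hbf : ∀ i : Fin (S.ncard / L), (bdE G (A (i.1 * L))).Finite := fun i =>
    (hG.bd _ (hcut _ (hidx i)).1).1
  have key : ∀ i j : Fin (S.ncard / L), i.1 < j.1 → ∀ e : Sym2 V,
      e ∈ (hbf i).toFinset.image (fun e => s(e.1, e.2)) →
      e ∈ (hbf j).toFinset.image (fun e => s(e.1, e.2)) → False := by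
    intro i j hij e hi hj
    obtain ⟨⟨a, b⟩, hab, rfl⟩ := Finset.mem_image.mp hi
    obtain ⟨⟨a', b'⟩, hab', heq⟩ := Finset.mem_image.mp hj
    have hab2 : a ∈ A (i.1 * L) ∧ b ∉ A (i.1 * L) ∧ G.Adj a b := (hbf i).mem_toFinset.mp hab
    have hab2' : a' ∈ A (j.1 * L) ∧ b' ∉ A (j.1 * L) ∧ G.Adj a' b' :=
      (hbf j).mem_toFinset.mp hab'
    have hLij : i.1 * L + L ≤ j.1 * L := by
      have h6 : (i.1 + 1) * L ≤ j.1 * L := Nat.mul_le_mul_right L hij
      have h8 : (i.1 + 1) * L = i.1 * L + L := by ring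
      omega
    have hsubij : A (i.1 * L) ⊆ A (j.1 * L) := hsub _ _ (by omega) (hidx j)
    have hb : b ∉ A (j.1 * L) := by
      rcases Sym2.eq_iff.mp heq with ⟨h, h'⟩ | ⟨h, h'⟩
      · change a' = a at h
        change b' = b at h'
        rw [← h']
        exact hab2'.2.1
      · change a' = b at h
        change b' = a at h'
        exact absurd (hsubij hab2.1) (h' ▸ hab2'.2.1)
    have hmem : ∀ l, i.1 * L ≤ l → l ≤ j.1 * L → A l ∈ sep C a b := by
      intro l hl hl'
      have hlN : l < S.ncard := lt_of_le_of_lt hl' (hidx j)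
      exact ⟨(hcut l hlN).1, hsub _ _ hl hlN hab2.1, fun h => hb (hsub _ _ hl' (hidx j) h)⟩
    have hlf := hG.lf a b hab2.2.2
    have hc1 : ((Finset.Icc (i.1 * L) (j.1 * L)).image A).card ≤ (sep C a b).ncard := by
      rw [Set.ncard_eq_toFinset_card _ hlf.1]
      apply Finset.card_le_card
      intro X hX
      obtain ⟨l, hl, rfl⟩ := Finset.mem_image.mp hX
      rw [Finset.mem_Icc] at hl
      exact hlf.1.mem_toFinset.mpr (hmem l hl.1 hl.2)
    have hc2 : ((Finset.Icc (i.1 * L) (j.1 * L)).image A).card = j.1 * L + 1 - i.1 * L := by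
      rw [Finset.card_image_of_injOn, Nat.card_Icc]
      intro l hl m hm hlm
      have hl' := (Finset.mem_Icc.mp (Finset.mem_coe.mp hl)).2
      have hm' := (Finset.mem_Icc.mp (Finset.mem_coe.mp hm)).2
      have h9 := hfA l (lt_of_le_of_lt hl' (hidx j))
      have h10 := hfA m (lt_of_le_of_lt hm' (hidx j))
      have hlm' : A l = A m := hlm
      rw [hlm', h10] at h9
      exact h9.symm
    have h11 := hlf.2
    omega
  refine ⟨fun i => (hbf i).toFinset.image (fun e => s(e.1, e.2)), ?_, ?_, ?_⟩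
  · intro i
    refine Finset.card_image_le.trans ?_
    rw [← Set.ncard_eq_toFinset_card _ (hbf i)]
    exact (hG.bd _ (hcut _ (hidx i)).1).2.2
  · intro i j hij
    rw [Finset.disjoint_left]
    intro e hi hj
    rcases Nat.lt_or_gt_of_ne (fun h => hij (Fin.ext h)) with h | h
    · exact key i j h e hi hj
    · exact key j i h e hj hi
  · intro w i
    obtain ⟨dd, hdd, h12, h13⟩ := w.exists_boundary_dart (A (i.1 * L)) (hcut _ (hidx i)).2.1
      (hcut _ (hidx i)).2.2
    refine ⟨dd.edge, ?_, ?_⟩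
    · exact List.mem_map.mpr ⟨dd, hdd, rfl⟩
    · exact Finset.mem_image.mpr ⟨(dd.fst, dd.snd),
        (hbf i).mem_toFinset.mpr ⟨h12, h13, dd.adj⟩, rfl⟩

end Pool.L2B
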