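import Pool.Agent.Work.MP_23451d_me.Interface

/-!
# Block DUN: the theorem of Dunwoody on nested narrow cuts
-/

set_option autoImplicit false

namespace Pool.L2B

open MeasureTheory SimpleGraph
open scoped ENNReal

namespace DUNblock

variable {V : Type} {G : SimpleGraph V}

/-- the number of narrow cuts crossing `X` -/
noncomputable def cr (G : SimpleGraph V) (k : ℕ) (X : Set V) : ℕ :=
  {Y | Narrow G k Y ∧ Cross X Y}.ncard

theorem cross_compl (A B : Set V) : Cross Aᶜ B ↔ Cross A B := by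
  unfold Cross
  rw [compl_compl]
  tauto

theorem image_compl' (φ : G ≃g G) (A : Set V) : (φ '' A)ᶜ = φ '' Aᶜ :=
  (Set.image_compl_eq φ.bijective).symm

theorem bdE_image (φ : G ≃g G) (A : Set V) :
    bdE G (φ '' A) = (Prod.map φ φ) '' bdE G A := by
  ext ⟨a, b⟩
  constructor
  · rintro ⟨h1, h2, h3⟩
    obtain ⟨a', ha', rfl⟩ := h1
    obtain ⟨b', rfl⟩ := φ.surjective b
    refine ⟨(a', b'), ⟨ha', ?_, ?_⟩, rfl⟩
    · intro hb
      exact h2 ⟨b', hb, rfl⟩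
    · exact φ.map_adj_iff.1 h3
  · rintro ⟨⟨a', b'⟩, ⟨h1, h2, h3⟩, h4⟩
    simp only [Prod.map_apply, Prod.mk.injEq] at h4
    obtain ⟨rfl, rfl⟩ := h4
    refine ⟨⟨a', h1, rfl⟩, ?_, ?_⟩
    · rintro ⟨c, hc, hc2⟩
      have : c = b' := φ.injective hc2
      exact h2 (this ▸ hc)
    · exact φ.map_adj_iff.2 h3

theorem prodMap_inj (φ : G ≃g G) : Function.Injective (Prod.map φ φ) :=
  φ.injective.prodMap φ.injective

theorem isCut_image (φ : G ≃g G) {A : Set V} (h : IsCut G A) : IsCut G (φ '' A) := by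
  refine ⟨h.1.image φ.injective.injOn, ?_, ?_⟩
  · rw [image_compl']
    exact h.2.1.image φ.injective.injOn
  · rw [bdE_image]
    exact h.2.2.image _

theorem narrow_image (φ : G ≃g G) {k : ℕ} {A : Set V} (h : Narrow G k A) :
    Narrow G k (φ '' A) := by
  refine ⟨isCut_image φ h.1, ?_, h.2.2⟩
  rw [bdE_image, Set.ncard_image_of_injective _ (prodMap_inj φ)]
  exact h.2.1

theorem symm_image (φ : G ≃g G) (A : Set V) : φ '' (φ.symm '' A) = A := by
  ext x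
  constructor
  · rintro ⟨_, ⟨y, hy, rfl⟩, rfl⟩
    rwa [RelIso.apply_symm_apply]
  · intro hx
    exact ⟨φ.symm x, ⟨x, hx, rfl⟩, RelIso.apply_symm_apply φ x⟩

theorem cross_image (φ : G ≃g G) {A B : Set V} (h : Cross A B) : Cross (φ '' A) (φ '' B) := by
  unfold Cross at h ⊢
  rw [image_compl', image_compl', ← Set.image_inter φ.injective, ← Set.image_inter φ.injective,
    ← Set.image_inter φ.injective, ← Set.image_inter φ.injective]
  exact ⟨h.1.image _, h.2.1.image _, h.2.2.1.image _, h.2.2.2.image _⟩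

theorem cr_image (φ : G ≃g G) (k : ℕ) (X : Set V) : cr G k (φ '' X) = cr G k X := by
  unfold cr
  have h : {Y | Narrow G k Y ∧ Cross (φ '' X) Y} = (fun Y => φ '' Y) '' {Y | Narrow G k Y ∧ Cross X Y} := by
    ext Y
    constructor
    · rintro ⟨h1, h2⟩
      refine ⟨φ.symm '' Y, ⟨narrow_image φ.symm h1, ?_⟩, symm_image φ Y⟩
      have h3 := cross_image φ.symm h2
      have h4 : φ.symm '' (φ '' X) = X := symm_image φ.symm X
      rwa [h4] at h3
    · rintro ⟨Z, ⟨h1, h2⟩, rfl⟩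
      exact ⟨narrow_image φ h1, cross_image φ h2⟩
  rw [h]
  apply Set.ncard_image_of_injective
  exact Set.image_injective.2 φ.injective

theorem cr_compl (k : ℕ) (X : Set V) : cr G k Xᶜ = cr G k X := by
  unfold cr
  congr 1
  ext Y
  simp only [Set.mem_ofPred_eq, cross_compl]

theorem nest_of_not_cross {A B : Set V} (h : ¬ Cross A B) :
    A ⊆ B ∨ A ⊆ Bᶜ ∨ Aᶜ ⊆ B ∨ Aᶜ ⊆ Bᶜ := by
  by_contra hc
  push Not at hc
  obtain ⟨h1, h2, h3, h4⟩ := hc
  apply h
  rw [Set.not_subset] at h1 h2 h3 h4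
  obtain ⟨a, ha, ha'⟩ := h1
  obtain ⟨b, hb, hb'⟩ := h2
  obtain ⟨c, hc, hc'⟩ := h3
  obtain ⟨d, hd, hd'⟩ := h4
  exact ⟨⟨b, hb, not_not.1 hb'⟩, ⟨a, ha, ha'⟩, ⟨d, hd, not_not.1 hd'⟩, ⟨c, hc, hc'⟩⟩

end DUNblock

open DUNblock in
theorem stmt_DUN (hFINB : Stmt_FINB) (hNAR : Stmt_NAR) (hOPT : Stmt_OPT) : Stmt_DUN := by
  classical
  intro V G hG hex
  -- the smallest boundary
  have hex1 : ∃ n, ∃ A : Set V, IsCut G A ∧ (bdE G A).ncard = n := by
    obtain ⟨A, hA⟩ := hex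
    exact ⟨_, A, hA, rfl⟩
  obtain ⟨A1, hA1, hA1k⟩ := Nat.find_spec hex1
  set k := Nat.find hex1 with hk
  have hmin : ∀ B, IsCut G B → k ≤ (bdE G B).ncard := fun B hB => Nat.find_min' hex1 ⟨B, hB, rfl⟩
  have hN1 : Narrow G k A1 := ⟨hA1, hA1k, hmin⟩
  -- the smallest number of crossings
  have hex2 : ∃ n, ∃ A : Set V, Narrow G k A ∧ cr G k A = n := ⟨_, A1, hN1, rfl⟩
  obtain ⟨A0, hA0, hA0c⟩ := Nat.find_spec hex2
  have hmin2 : ∀ X, Narrow G k X → cr G k A0 ≤ cr G k X := by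
    intro X hX
    rw [hA0c]
    exact Nat.find_min' hex2 ⟨X, hX, rfl⟩
  -- the family
  set C : Set (Set V) := {X | ∃ φ : G ≃g G, X = φ '' A0 ∨ X = φ '' A0ᶜ} with hC
  have hA0n : Narrow G k A0ᶜ := (hNAR V G hG k A0 hA0).1
  have hnar : ∀ X ∈ C, Narrow G k X := by
    rintro X ⟨φ, rfl | rfl⟩
    · exact narrow_image φ hA0
    · exact narrow_image φ hA0n
  have hcr : ∀ X ∈ C, cr G k X = cr G k A0 := by
    rintro X ⟨φ, rfl | rfl⟩
    · exact cr_image φ k A0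
    · rw [cr_image, cr_compl]
  have hmemA0 : A0 ∈ C := ⟨RelIso.refl _, Or.inl (by
    ext x
    simp)⟩
  refine ⟨C, k, ⟨A0, hmemA0⟩, ?_, ?_, ⟨A0, hmemA0, fun A hA => hA⟩, ?_, ?_, ?_⟩
  · rintro X ⟨φ, rfl | rfl⟩
    · exact ⟨φ, Or.inr (image_compl' φ A0)⟩
    · refine ⟨φ, Or.inl ?_⟩
      rw [image_compl', compl_compl]
  · rintro ψ X ⟨φ, rfl | rfl⟩
    · refine ⟨φ.trans ψ, Or.inl ?_⟩
      rw [← Set.image_comp]
      rfl
    · refine ⟨φ.trans ψ, Or.inr ?_⟩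
      rw [← Set.image_comp]
      rfl
  · intro A hA
    have h := hnar A hA
    exact ⟨h.1.1, h.1.2.2, (hNAR V G hG k A h).2.1, h.2.1.le⟩
  · intro A hA B hB
    apply nest_of_not_cross
    apply hOPT V G hG k A B (hnar A hA) (hnar B hB)
    · intro X hX
      have := hmin2 X hX
      rw [← hcr A hA] at this
      exact this
    · intro X hX
      have := hmin2 X hX
      rw [← hcr B hB] at this
      exact this
  · intro u v huv
    refine (hFINB V G hG k u v huv).subset ?_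
    rintro A ⟨hA, hu, hv⟩
    have h := hnar A hA
    have h2 := hNAR V G hG k A h
    exact ⟨hu, hv, h.1.2.2, h.2.1.le, h2.2.2, (hNAR V G hG k Aᶜ h2.1).2.2⟩

end Pool.L2B
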