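import Mathlib

/-!
# Percolation on graphs with more than one end (MP_23451d_pr): definitions

The probability space and the events are literally those of the frozen statement.
-/

set_option autoImplicit false

namespace Pool.L2B

open MeasureTheory SimpleGraph
open scoped ENNReal

/-- the probability space of the problem: independent uniform labels on the pairs of vertices -/
noncomputable def mu (V : Type) : Measure (Sym2 V → unitInterval) :=
  Measure.infinitePi (fun _ : Sym2 V => (volume : Measure unitInterval))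

instance (V : Type) : IsProbabilityMeasure (mu V) := by
  unfold mu
  infer_instance

/-- `u` and `v` are joined by a walk of `G` all of whose edges have label `< p` -/
def Conn {V : Type} (G : SimpleGraph V) (p : ℝ) (ω : Sym2 V → unitInterval) (u v : V) : Prop :=
  ∃ w : G.Walk u v, ∀ e ∈ w.edges, ((ω e : unitInterval) : ℝ) < p

/-- the two-point function -/
noncomputable def tau {V : Type} (G : SimpleGraph V) (p : ℝ) (u v : V) : ℝ≥0∞ :=
  mu V {ω | Conn G p ω u v}

/-- the edges of `G` with both ends in `H` (on the same vertex set) -/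
def within {V : Type} (G : SimpleGraph V) (H : Set V) : SimpleGraph V where
  Adj a b := G.Adj a b ∧ a ∈ H ∧ b ∈ H
  symm := ⟨fun _ _ h => ⟨h.1.symm, h.2.2, h.2.1⟩⟩
  loopless := ⟨fun _ h => G.loopless.irrefl _ h.1⟩

/-- the oriented edge boundary of `A` -/
def bdE {V : Type} (G : SimpleGraph V) (A : Set V) : Set (V × V) :=
  {x | x.1 ∈ A ∧ x.2 ∉ A ∧ G.Adj x.1 x.2}

/-- the sigma algebra of the labels of the pairs in `I` -/
@[reducible] def sig {V : Type} (I : Set (Sym2 V)) : MeasurableSpace (Sym2 V → unitInterval) :=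
  ⨆ e ∈ I, MeasurableSpace.comap (fun ω => ω e) inferInstance

/-- `φ_p (S, x)`: `p` times the expected number of boundary edges of `S` whose inner end is joined to
`x` inside `S` -/
noncomputable def phi {V : Type} (G : SimpleGraph V) (p : ℝ) (S : Set V) (x : V) : ℝ≥0∞ :=
  ∑' e : bdE G S, ENNReal.ofReal p * tau (within G S) p x e.1.1

/-- the inner vertex boundary of `S` is reached from `x` inside `S` -/
def Reach {V : Type} (G : SimpleGraph V) (S : Set V) (p : ℝ) (ω : Sym2 V → unitInterval) (x : V) :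
    Prop :=
  ∃ e ∈ bdE G S, Conn (within G S) p ω x e.1

/-- the cuts of the family `C` which contain `x` and not `y` -/
def sep {V : Type} (C : Set (Set V)) (x y : V) : Set (Set V) := {A | A ∈ C ∧ x ∈ A ∧ y ∉ A}

/-- the cuts of the family `C` between `B` and `A` -/
def btw {V : Type} (C : Set (Set V)) (B A : Set V) : Set (Set V) := {X | X ∈ C ∧ B ⊆ X ∧ X ⊆ A}

/-- the cuts `B` of the family `C` at level `n` below `A` (`n = 0`: only `A` itself) -/
def LL {V : Type} (C : Set (Set V)) (A : Set V) (n : ℕ) : Set (Set V) :=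
  {B | B ∈ C ∧ B ⊆ A ∧ (btw C B A).ncard = n + 1}

/-- **Nested cuts**: an automorphism invariant, complement closed, nested family of cuts of `G` with at
most two orbits, with all the constants we need -/
structure Geo0 {V : Type} (G : SimpleGraph V) (C : Set (Set V)) (d L D R k : ℕ) : Prop where
  conn : G.Connected
  deg : ∀ v, (G.neighborSet v).Finite ∧ (G.neighborSet v).ncard ≤ d
  ne : C.Nonempty
  inf : ∀ A ∈ C, A.Infinite
  compl : ∀ A ∈ C, Aᶜ ∈ C
  inv : ∀ (φ : G ≃g G), ∀ A ∈ C, φ '' A ∈ C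
  one : ∃ A₀ ∈ C, ∀ A ∈ C, ∃ φ : G ≃g G, A = φ '' A₀ ∨ A = φ '' A₀ᶜ
  bd : ∀ A ∈ C, (bdE G A).Finite ∧ (bdE G A).Nonempty ∧ (bdE G A).ncard ≤ k
  nest : ∀ A ∈ C, ∀ B ∈ C, A ⊆ B ∨ A ⊆ Bᶜ ∨ Aᶜ ⊆ B ∨ Aᶜ ⊆ Bᶜ
  hL : 1 ≤ L
  lf : ∀ u v, G.Adj u v → (sep C u v).Finite ∧ (sep C u v).ncard ≤ L
  diam : ∀ A ∈ C, ∀ e ∈ bdE G A, ∀ f ∈ bdE G A, G.dist e.1 f.1 ≤ D
  near : ∀ x, ∃ A ∈ C, ∃ e ∈ bdE G A, G.dist x e.1 ≤ R

/-- nested cuts which branch: below every cut there are two disjoint cuts (more than two ends) -/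
structure Geo {V : Type} (G : SimpleGraph V) (C : Set (Set V)) (d L D R k : ℕ) : Prop
    extends Geo0 G C d L D R k where
  branch : ∀ A ∈ C, ∃ B₁ ∈ C, ∃ B₂ ∈ C, B₁ ⊆ A ∧ B₂ ⊆ A ∧ Disjoint B₁ B₂

/-- the properties of the two-point function used in the analytic part; `p₀ ≤` value on edges,
`θ` = decay over `L` cuts -/
structure Kern {V : Type} (G : SimpleGraph V) (C : Set (Set V)) (L : ℕ) (p₀ θ : ℝ≥0∞)
    (τ : V → V → ℝ≥0∞) : Prop where
  refl : ∀ x, τ x x = 1
  le_one : ∀ x y, τ x y ≤ 1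
  symm : ∀ x y, τ x y = τ y x
  har : ∀ x y z, τ x y * τ y z ≤ τ x z
  inv : ∀ (φ : G ≃g G) (x y : V), τ (φ x) (φ y) = τ x y
  edge : ∀ x y, G.Adj x y → p₀ ≤ τ x y
  cut : ∀ A ∈ C, ∀ x ∈ A, ∀ y ∉ A, τ x y ≤ ∑' e : bdE G A, τ x e.1.1 * τ e.1.2 y
  dec : ∀ x y, τ x y ≤ θ ^ ((sep C x y).ncard / L)
  fin : ∀ x, ∑' y, τ x y ≠ ⊤

/-- a base vertex of a cut: the inner end of some boundary edge -/
noncomputable def base {V : Type} [Nonempty V] (G : SimpleGraph V) (A : Set V) : V :=
  Classical.epsilon (fun v => ∃ u, (v, u) ∈ bdE G A)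

/-- the sum of the two-point function over the cuts at level `n` below `A` -/
noncomputable def an {V : Type} [Nonempty V] (G : SimpleGraph V) (C : Set (Set V)) (τ : V → V → ℝ≥0∞)
    (A : Set V) (n : ℕ) : ℝ≥0∞ :=
  ∑' B : LL C A n, τ (base G A) (base G B.1)

/-- a class of cuts which is closed under passing to smaller cuts and in which every cut contains a
copy of every other cut -/
structure Cls {V : Type} (G : SimpleGraph V) (C K : Set (Set V)) : Prop where
  sub : K ⊆ C
  ne : K.Nonempty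
  down : ∀ A ∈ K, ∀ B ∈ C, B ⊆ A → B ∈ K
  inv : ∀ (φ : G ≃g G), ∀ A ∈ K, φ '' A ∈ K
  irr : ∀ A ∈ K, ∀ B ∈ K, ∃ φ : G ≃g G, φ '' B ⊂ A

end Pool.L2B
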