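import Pool.Agent.Work.MP_23451d_me.Interface

/-! # Block EXP: exploration of a cluster -/

set_option autoImplicit false

namespace Pool.L2B

open MeasureTheory SimpleGraph
open scoped ENNReal

namespace EXPp

theorem conn_mono {V : Type} {G G' : SimpleGraph V} (h : G ≤ G') {p : ℝ}
    {ω : Sym2 V → unitInterval} {u v : V} (hc : Conn G p ω u v) : Conn G' p ω u v := by
  obtain ⟨w, hw⟩ := hc
  exact ⟨w.mapLe h, by rwa [Walk.edges_mapLe_eq_edges]⟩

theorem within_mono {V : Type} (G : SimpleGraph V) {S T : Set V} (h : S ⊆ T) :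
    within G S ≤ within G T := fun _ _ hab => ⟨hab.1, h hab.2.1, h hab.2.2⟩

theorem within_le {V : Type} (G : SimpleGraph V) (S : Set V) : within G S ≤ G :=
  fun _ _ hab => hab.1

theorem conn_refl {V : Type} (G : SimpleGraph V) (p : ℝ) (ω : Sym2 V → unitInterval) (u : V) :
    Conn G p ω u u := ⟨Walk.nil, by simp⟩

theorem conn_trans {V : Type} {G : SimpleGraph V} {p : ℝ} {ω : Sym2 V → unitInterval} {u v w : V}
    (h : Conn G p ω u v) (h' : Conn G p ω v w) : Conn G p ω u w := by
  obtain ⟨a, ha⟩ := h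
  obtain ⟨b, hb⟩ := h'
  refine ⟨a.append b, ?_⟩
  intro e he
  rw [Walk.edges_append, List.mem_append] at he
  rcases he with he | he
  · exact ha e he
  · exact hb e he

theorem conn_edge {V : Type} {G : SimpleGraph V} {p : ℝ} {ω : Sym2 V → unitInterval} {u v : V}
    (h : G.Adj u v) (h' : ((ω s(u, v) : unitInterval) : ℝ) < p) : Conn G p ω u v := by
  refine ⟨h.toWalk, ?_⟩
  intro e he
  simp at he
  rw [he]; exact h'

/-- a walk all of whose vertices are in `S` lives in `within G S` -/
theorem conn_within {V : Type} {G : SimpleGraph V} {p : ℝ} {ω : Sym2 V → unitInterval} {u v : V}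
    {S : Set V} (w : G.Walk u v) (hw : ∀ e ∈ w.edges, ((ω e : unitInterval) : ℝ) < p)
    (hS : ∀ z ∈ w.support, z ∈ S) : Conn (within G S) p ω u v := by
  refine ⟨w.transfer _ ?_, ?_⟩
  · intro e he
    induction e with
    | _ a b =>
      rw [mem_edgeSet]
      exact ⟨w.adj_of_mem_edges he, hS a (w.fst_mem_support_of_mem_edges he),
        hS b (w.snd_mem_support_of_mem_edges he)⟩
  · rw [Walk.edges_transfer]; exact hw

theorem conn_prefix {V : Type} {G : SimpleGraph V} {p : ℝ} {ω : Sym2 V → unitInterval} {u v : V}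
    (w : G.Walk u v) (hw : ∀ e ∈ w.edges, ((ω e : unitInterval) : ℝ) < p) {z : V}
    (hz : z ∈ w.support) : Conn G p ω u z := by
  classical
  exact ⟨w.takeUntil z hz, fun e he => hw e (w.edges_takeUntil_subset_edges hz he)⟩

theorem meas_ge (hLAB : Stmt_LAB) (hSIG : Stmt_SIG) {V : Type} [Countable V] (p : ℝ)
    (I : Set (Sym2 V)) (P : V → V → Prop) (h : ∀ a b, P a b → s(a, b) ∈ I) :
    MeasurableSet[sig I] {ω : Sym2 V → unitInterval |
      ∀ a b, P a b → p ≤ ((ω s(a, b) : unitInterval) : ℝ)} := by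
  have e1 : {ω : Sym2 V → unitInterval | ∀ a b, P a b → p ≤ ((ω s(a, b) : unitInterval) : ℝ)} =
      ⋂ a, ⋂ b, ⋂ (_ : P a b), {ω | ((ω s(a, b) : unitInterval) : ℝ) < p}ᶜ := by
    ext ω; simp
  rw [e1]
  refine @MeasurableSet.iInter _ _ (sig I) _ _ fun a => ?_
  refine @MeasurableSet.iInter _ _ (sig I) _ _ fun b => ?_
  refine @MeasurableSet.iInter _ _ (sig I) _ _ fun hab => ?_
  refine @MeasurableSet.compl _ _ (sig I) ?_
  exact (hSIG V).2.1 {s(a, b)} I (by simpa using h a b hab) _ (hLAB V s(a, b) p).1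

/-- description of the event `C = S` -/
theorem desc (hLEX : Stmt_LEX) {V : Type} (G : SimpleGraph V) (p : ℝ) (x : V) (S : Set V)
    (hx : x ∈ S) (ω : Sym2 V → unitInterval) :
    {z | Conn G p ω x z} = S ↔ (∀ z ∈ S, Conn (within G S) p ω x z) ∧
      ∀ a ∈ S, ∀ b, b ∉ S → G.Adj a b → p ≤ ((ω s(a, b) : unitInterval) : ℝ) := by
  constructor
  · intro h
    have hm : ∀ z, Conn G p ω x z ↔ z ∈ S := fun z => by
      rw [← h]; rfl
    constructor
    · intro z hz
      obtain ⟨w, hw⟩ := (hm z).mpr hz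
      exact conn_within w hw (fun y hy => (hm y).mp (conn_prefix w hw hy))
    · intro a ha b hb hab
      by_contra hc
      push Not at hc
      exact hb ((hm b).mp (conn_trans ((hm a).mpr ha) (conn_edge hab hc)))
  · rintro ⟨h1, h2⟩
    ext z
    constructor
    · rintro ⟨w, hw⟩
      by_contra hz
      obtain ⟨a, ha, b, hb, hab, he, _⟩ := (hLEX V G S x z w hx hz).1
      exact absurd (hw _ he) (not_lt.mpr (h2 a ha b hb hab))
    · intro hz
      exact conn_mono (within_le G S) (h1 z hz)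

end EXPp

open EXPp in
theorem stmt_EXP (hLAB : Stmt_LAB) (hSIG : Stmt_SIG) (hCME : Stmt_CME) (hLEX : Stmt_LEX) :
    Stmt_EXP := by
  intro V _ G p x S
  by_cases hx : x ∈ S
  · have hconn : ∀ I : Set (Sym2 V), (within G S).edgeSet ⊆ I →
        MeasurableSet[sig I] {ω | ∀ z ∈ S, Conn (within G S) p ω x z} := by
      intro I hI
      have e1 : {ω : Sym2 V → unitInterval | ∀ z ∈ S, Conn (within G S) p ω x z} =
          ⋂ z, ⋂ (_ : z ∈ S), {ω | Conn (within G S) p ω x z} := by
        ext ω; simp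
      rw [e1]
      refine @MeasurableSet.iInter _ _ (sig I) _ _ fun z => ?_
      refine @MeasurableSet.iInter _ _ (sig I) _ _ fun _ => ?_
      exact (hSIG V).2.1 _ I hI _ (hCME V (within G S) p x z)
    constructor
    · have e1 : {ω : Sym2 V → unitInterval | {z | Conn G p ω x z} = S} =
          {ω | ∀ z ∈ S, Conn (within G S) p ω x z} ∩
          {ω | ∀ a b, (a ∈ S ∧ b ∉ S ∧ G.Adj a b) → p ≤ ((ω s(a, b) : unitInterval) : ℝ)} := by
        ext ω
        simp only [Set.mem_ofPred_eq, Set.mem_inter_iff]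
        rw [desc hLEX G p x S hx ω]
        constructor
        · rintro ⟨h1, h2⟩
          exact ⟨h1, fun a b h => h2 a h.1 b h.2.1 h.2.2⟩
        · rintro ⟨h1, h2⟩
          exact ⟨h1, fun a ha b hb hab => h2 a b ⟨ha, hb, hab⟩⟩
      rw [e1]
      refine @MeasurableSet.inter _ (sig _) _ _ (hconn _ ?_) (meas_ge hLAB hSIG p _ _ ?_)
      · intro e he
        induction e with
        | _ a b =>
          rw [mem_edgeSet] at he
          exact ⟨he.1, a, he.2.1, by simp⟩
      · intro a b h
        exact ⟨h.2.2, a, h.1, by simp⟩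
    · intro a ha b hb hab
      refine ⟨{ω | ∀ z ∈ S, Conn (within G S) p ω x z} ∩
          {ω | ∀ a' b', (a' ∈ S ∧ b' ∉ S ∧ G.Adj a' b' ∧ s(a', b') ≠ s(a, b)) →
            p ≤ ((ω s(a', b') : unitInterval) : ℝ)}, ?_, ?_⟩
      · refine @MeasurableSet.inter _ (sig _) _ _ (hconn _ ?_) (meas_ge hLAB hSIG p _ _ ?_)
        · intro e he
          induction e with
          | _ c d =>
            rw [mem_edgeSet] at he
            refine ⟨⟨he.1, c, he.2.1, by simp⟩, ?_⟩
            rw [Set.mem_singleton_iff, Sym2.eq_iff]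
            rintro (⟨rfl, rfl⟩ | ⟨rfl, rfl⟩)
            · exact hb he.2.2
            · exact hb he.2.1
        · intro c d h
          exact ⟨⟨h.2.2.1, c, h.1, by simp⟩, h.2.2.2⟩
      · ext ω
        simp only [Set.mem_ofPred_eq, Set.mem_inter_iff]
        rw [desc hLEX G p x S hx ω]
        constructor
        · rintro ⟨h1, h2⟩
          exact ⟨⟨h1, fun c d h => h2 c h.1 d h.2.1 h.2.2.1⟩, h2 a ha b hb hab⟩
        · rintro ⟨⟨h1, h2⟩, h3⟩
          refine ⟨h1, fun c hc d hd hcd => ?_⟩
          by_cases he : s(c, d) = s(a, b)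
          · rw [he]; exact h3
          · exact h2 c d ⟨hc, hd, hcd, he⟩
  · have e0 : {ω : Sym2 V → unitInterval | {z | Conn G p ω x z} = S} = ∅ := by
      ext ω
      simp only [Set.mem_ofPred_eq, Set.mem_empty_iff_false, iff_false]
      intro h
      apply hx
      rw [← h]
      exact conn_refl G p ω x
    constructor
    · rw [e0]; exact @MeasurableSet.empty _ (sig _)
    · intro a _ b _ _
      exact ⟨∅, @MeasurableSet.empty _ (sig _), by rw [e0]; simp⟩

end Pool.L2B
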