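import Pool.Agent.Work.MP_23451d_me.Interface

set_option autoImplicit false

namespace Pool.L2B

open SimpleGraph

theorem stmt_FINB : Stmt_FINB := by
  intro V G hG k
  induction k generalizing G with
  | zero =>
    intro u v huv
    convert Set.finite_empty
    ext A
    simp only [Set.mem_ofPred_eq, Set.mem_empty_iff_false, iff_false]
    rintro ⟨hu, hv, hf, hn, -, -⟩
    have h1 : bdE G A = ∅ := by
      rw [← Set.ncard_eq_zero hf]; omega
    have h2 : (u, v) ∈ bdE G A := ⟨hu, hv, huv⟩
    rw [h1] at h2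
    exact h2
  | succ k ih =>
    intro u v huv
    obtain ⟨G', hG'⟩ : ∃ G', G' = G.deleteEdges {s(u, v)} := ⟨_, rfl⟩
    have hadj : ∀ a b, G'.Adj a b ↔ G.Adj a b ∧ s(a, b) ≠ s(u, v) := by
      intro a b
      rw [hG', deleteEdges_adj]
      simp
    have hle : ∀ A : Set V, (¬ (u ∈ A ∧ v ∈ A)) → within G A ≤ within G' A := by
      intro A hA a b h
      refine ⟨(hadj a b).2 ⟨h.1, fun he => ?_⟩, h.2.1, h.2.2⟩
      rw [Sym2.eq_iff] at he
      rcases he with ⟨rfl, rfl⟩ | ⟨rfl, rfl⟩
      · exact hA ⟨h.2.1, h.2.2⟩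
      · exact hA ⟨h.2.2, h.2.1⟩
    have hle' : ∀ A : Set V, within G' A ≤ G' := fun A a b h => h.1
    by_cases hc : G'.Connected
    · obtain ⟨P⟩ := hc.preconnected u v
      refine Set.Finite.subset (Set.Finite.biUnion (List.finite_toSet P.darts)
        (fun d _ => ih G' hc d.fst d.snd d.adj)) ?_
      rintro A ⟨hu, hv, hf, hn, h1, h2⟩
      obtain ⟨d, hd, hd1, hd2⟩ := P.exists_boundary_dart A hu hv
      simp only [Set.mem_iUnion]
      refine ⟨d, hd, hd1, hd2, ?_⟩
      have hb : bdE G' A = bdE G A \ {(u, v)} := by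
        ext ⟨x, y⟩
        simp only [bdE, Set.mem_ofPred_eq, Set.mem_sdiff, Set.mem_singleton_iff, Prod.mk.injEq]
        constructor
        · rintro ⟨hx, hy, hxy⟩
          rw [hadj] at hxy
          refine ⟨⟨hx, hy, hxy.1⟩, ?_⟩
          rintro ⟨rfl, rfl⟩
          exact hxy.2 rfl
        · rintro ⟨⟨hx, hy, hxy⟩, hne⟩
          refine ⟨hx, hy, (hadj x y).2 ⟨hxy, fun he => ?_⟩⟩
          rw [Sym2.eq_iff] at he
          rcases he with ⟨rfl, rfl⟩ | ⟨rfl, rfl⟩
          · exact hne ⟨rfl, rfl⟩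
          · exact hv hx
      refine ⟨?_, ?_, ?_, ?_⟩
      · rw [hb]; exact hf.subset Set.sdiff_subset
      · have h3 : (u, v) ∈ bdE G A := ⟨hu, hv, huv⟩
        have h4 := Set.ncard_sdiff_singleton_add_one h3 hf
        rw [hb]
        omega
      · intro a ha b hb
        exact (h1 a ha b hb).mono (hle A (fun h => hv h.2))
      · intro a ha b hb
        exact (h2 a ha b hb).mono (hle Aᶜ (fun h => h.1 hu))
    · refine Set.Finite.subset (Set.finite_singleton {w | G'.Reachable u w}) ?_
      rintro A ⟨hu, hv, hf, hn, h1, h2⟩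
      rw [Set.mem_singleton_iff]
      have hA : ∀ a ∈ A, G'.Reachable u a := fun a ha =>
        ((h1 u hu a ha).mono (hle A (fun h => hv h.2))).mono (hle' A)
      have hA' : ∀ a ∉ A, G'.Reachable v a := fun a ha =>
        ((h2 v hv a ha).mono (hle Aᶜ (fun h => h.1 hu))).mono (hle' Aᶜ)
      ext w
      refine ⟨fun hw => hA w hw, fun hw => ?_⟩
      by_contra hwA
      apply hc
      have huv' : G'.Reachable u v := hw.trans (hA' w hwA).symm
      have hall : ∀ a, G'.Reachable u a := by
        intro a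
        by_cases ha : a ∈ A
        · exact hA a ha
        · exact huv'.trans (hA' a ha)
      have : Nonempty V := ⟨u⟩
      exact ⟨fun a b => (hall a).symm.trans (hall b)⟩

end Pool.L2B
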