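import Pool.Agent.Work.MP_23451d_me.Interface

/-!
# Block HAR (helper63): the inequality of Harris for connections
-/

set_option autoImplicit false

namespace Pool.L2B

open MeasureTheory SimpleGraph
open scoped ENNReal

namespace HAR

/-- the open edges among the edges of `E` -/
noncomputable def opn {V : Type} (E : Finset (Sym2 V)) (p : ℝ) (ω : Sym2 V → unitInterval) :
    E → Bool := by
  classical
  exact fun e => decide (((ω e.1 : unitInterval) : ℝ) < p)

theorem opn_iff {V : Type} (E : Finset (Sym2 V)) (p : ℝ) (ω : Sym2 V → unitInterval) (e : E) :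
    opn E p ω e = true ↔ ((ω e.1 : unitInterval) : ℝ) < p := by
  unfold opn
  exact decide_eq_true_iff

/-- the weight of the value `b` -/
noncomputable def W (p : ℝ) (b : Bool) : ℝ≥0∞ :=
  (volume : Measure unitInterval) {x | ((x : ℝ) < p) ↔ b = true}

theorem meas_W (p : ℝ) (b : Bool) : MeasurableSet {x : unitInterval | ((x : ℝ) < p) ↔ b = true} := by
  have h1 : MeasurableSet {x : unitInterval | (x : ℝ) < p} :=
    measurableSet_lt measurable_subtype_coe measurable_const
  cases b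
  · have : {x : unitInterval | ((x : ℝ) < p) ↔ false = true} = {x : unitInterval | (x : ℝ) < p}ᶜ := by
      ext x; simp
    rw [this]; exact h1.compl
  · have : {x : unitInterval | ((x : ℝ) < p) ↔ true = true} = {x : unitInterval | (x : ℝ) < p} := by
      ext x; simp
    rw [this]; exact h1

theorem opn_set {V : Type} (E : Finset (Sym2 V)) (p : ℝ) (b : E → Bool) :
    {ω | opn E p ω = b} = Set.pi (E : Set (Sym2 V)) (fun e => {x : unitInterval | ((x : ℝ) < p) ↔
      ∃ h : e ∈ E, b ⟨e, h⟩ = true}) := by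
  ext ω
  rw [Set.mem_ofPred_eq, Set.mem_pi]
  constructor
  · intro h e he
    rw [Set.mem_ofPred_eq, ← h]
    constructor
    · intro h1
      exact ⟨he, (opn_iff E p ω ⟨e, he⟩).2 h1⟩
    · rintro ⟨_, h1⟩
      exact (opn_iff E p ω ⟨e, he⟩).1 h1
  · intro h
    funext e
    have h1 := h e.1 e.2
    rw [Set.mem_ofPred_eq, ← opn_iff E p ω e] at h1
    have h2 : (opn E p ω e = true) ↔ (b e = true) :=
      h1.trans ⟨fun ⟨_, h3⟩ => h3, fun h3 => ⟨e.2, h3⟩⟩
    exact Bool.eq_iff_iff.2 h2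

theorem opn_meas {V : Type} (E : Finset (Sym2 V)) (p : ℝ) (b : E → Bool) :
    MeasurableSet {ω | opn E p ω = b} := by
  rw [opn_set]
  refine MeasurableSet.pi E.countable_toSet fun e he => ?_
  have h1 := meas_W p (b ⟨e, he⟩)
  have h2 : {x : unitInterval | ((x : ℝ) < p) ↔ ∃ h : e ∈ E, b ⟨e, h⟩ = true} =
      {x : unitInterval | ((x : ℝ) < p) ↔ b ⟨e, he⟩ = true} := by
    ext x
    rw [Set.mem_ofPred_eq, Set.mem_ofPred_eq]
    exact ⟨fun h3 => h3.trans ⟨fun ⟨_, h4⟩ => h4, fun h4 => ⟨he, h4⟩⟩,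
      fun h3 => h3.trans ⟨fun h4 => ⟨he, h4⟩, fun ⟨_, h4⟩ => h4⟩⟩
  rw [h2]
  exact h1

theorem opn_mu {V : Type} (E : Finset (Sym2 V)) (p : ℝ) (b : E → Bool) :
    mu V {ω | opn E p ω = b} = ∏ e : E, W p (b e) := by
  have h0 : ∀ e (he : e ∈ E), {x : unitInterval | ((x : ℝ) < p) ↔ ∃ h : e ∈ E, b ⟨e, h⟩ = true} =
      {x : unitInterval | ((x : ℝ) < p) ↔ b ⟨e, he⟩ = true} := by
    intro e he
    ext x
    rw [Set.mem_ofPred_eq, Set.mem_ofPred_eq]
    exact ⟨fun h3 => h3.trans ⟨fun ⟨_, h4⟩ => h4, fun h4 => ⟨he, h4⟩⟩,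
      fun h3 => h3.trans ⟨fun h4 => ⟨he, h4⟩, fun ⟨_, h4⟩ => h4⟩⟩
  rw [opn_set]
  unfold mu
  rw [Measure.infinitePi_pi _ (fun e he => by rw [h0 e he]; exact meas_W p _)]
  rw [← Finset.prod_coe_sort E (fun e => (volume : Measure unitInterval)
    {x : unitInterval | ((x : ℝ) < p) ↔ ∃ h : e ∈ E, b ⟨e, h⟩ = true})]
  refine Finset.prod_congr rfl fun e _ => ?_
  rw [h0 e.1 e.2]
  rfl

open Classical in
theorem sum_opn {V : Type} (E : Finset (Sym2 V)) (p : ℝ) (Q : (E → Bool) → Prop)
    [DecidablePred Q] :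
    (mu V {ω | Q (opn E p ω)}).toReal =
      ∑ b : E → Bool, (mu V {ω | opn E p ω = b}).toReal * (if Q b then 1 else 0) := by
  classical
  have h1 : {ω : Sym2 V → unitInterval | Q (opn E p ω)} =
      ⋃ b ∈ Finset.univ.filter Q, {ω | opn E p ω = b} := by
    ext ω
    simp only [Set.mem_ofPred_eq, Set.mem_iUnion, Finset.mem_filter, Finset.mem_univ, true_and,
      exists_prop, exists_eq_right']
  rw [h1, measure_biUnion_finset (fun b _ b' _ hbb => by
      refine Set.disjoint_left.2 fun ω hω hω' => hbb ?_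
      rw [Set.mem_ofPred_eq] at hω hω'
      rw [← hω, ← hω']) (fun b _ => opn_meas E p b),
    ENNReal.toReal_sum (fun b _ => measure_ne_top _ _), Finset.sum_filter]
  refine Finset.sum_congr rfl fun b _ => ?_
  split <;> simp

/-- connection inside an open set of edges -/
def Cn {V : Type} (G : SimpleGraph V) (E : Finset (Sym2 V)) (b : E → Bool) (x y : V) : Prop :=
  ∃ w : G.Walk x y, ∀ e ∈ w.edges, ∃ h : e ∈ E, b ⟨e, h⟩ = true

theorem conn_iff {V : Type} {G : SimpleGraph V} {E : Finset (Sym2 V)} (hE : G.edgeSet ⊆ E)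
    (p : ℝ) (ω : Sym2 V → unitInterval) (x y : V) :
    Conn G p ω x y ↔ Cn G E (opn E p ω) x y := by
  constructor
  · rintro ⟨w, hw⟩
    exact ⟨w, fun e he => ⟨hE (w.edges_subset_edgeSet he),
      (opn_iff E p ω ⟨e, _⟩).2 (hw e he)⟩⟩
  · rintro ⟨w, hw⟩
    refine ⟨w, fun e he => ?_⟩
    obtain ⟨h1, h2⟩ := hw e he
    exact (opn_iff E p ω ⟨e, h1⟩).1 h2

theorem Cn_mono {V : Type} {G : SimpleGraph V} {E : Finset (Sym2 V)} {b b' : E → Bool}
    (h : b ≤ b') {x y : V} (hc : Cn G E b x y) : Cn G E b' x y := by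
  obtain ⟨w, hw⟩ := hc
  refine ⟨w, fun e he => ?_⟩
  obtain ⟨h1, h2⟩ := hw e he
  exact ⟨h1, top_le_iff.1 (h2.symm.le.trans (h ⟨e, h1⟩))⟩

theorem Cn_trans {V : Type} {G : SimpleGraph V} {E : Finset (Sym2 V)} {b : E → Bool}
    {x y z : V} (h1 : Cn G E b x y) (h2 : Cn G E b y z) : Cn G E b x z := by
  obtain ⟨w, hw⟩ := h1
  obtain ⟨w', hw'⟩ := h2
  refine ⟨w.append w', fun e he => ?_⟩
  rw [Walk.edges_append, List.mem_append] at he
  rcases he with he | he
  · exact hw e he
  · exact hw' e he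

theorem fin_har {V : Type} (G : SimpleGraph V) (E : Finset (Sym2 V)) (hE : G.edgeSet ⊆ E) (p : ℝ)
    (x y z : V) : tau G p x y * tau G p y z ≤ tau G p x z := by
  classical
  have ht : ∀ x y, (tau G p x y).toReal = ∑ b : E → Bool,
      (mu V {ω | opn E p ω = b}).toReal * (if Cn G E b x y then 1 else 0) := by
    intro x y
    rw [← sum_opn E p (fun b => Cn G E b x y)]
    unfold tau
    congr 2
    ext ω
    exact conn_iff hE p ω x y
  have htop : ∀ x y, tau G p x y ≠ ⊤ := fun x y => measure_ne_top _ _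
  have h1 : ∑ b : E → Bool, (mu V {ω | opn E p ω = b}).toReal = 1 := by
    have := sum_opn E p (fun _ => True)
    simp only [Set.ofPred_true, measure_univ, ENNReal.toReal_one, if_true, mul_one] at this
    exact this.symm
  have hfkg := fkg (α := E → Bool) (β := ℝ)
    (μ := fun b => (mu V {ω | opn E p ω = b}).toReal)
    (f := fun b => if Cn G E b x y then 1 else 0) (g := fun b => if Cn G E b y z then 1 else 0)
    (fun b => ENNReal.toReal_nonneg)
    (fun b => by dsimp only; split <;> norm_num) (fun b => by dsimp only; split <;> norm_num)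
    (fun b b' hbb => by
      dsimp only
      by_cases h : Cn G E b x y
      · rw [if_pos h, if_pos (Cn_mono hbb h)]
      · rw [if_neg h]; split <;> norm_num)
    (fun b b' hbb => by
      dsimp only
      by_cases h : Cn G E b y z
      · rw [if_pos h, if_pos (Cn_mono hbb h)]
      · rw [if_neg h]; split <;> norm_num)
    (fun a b => by
      rw [opn_mu, opn_mu, opn_mu, opn_mu, ← ENNReal.toReal_mul, ← ENNReal.toReal_mul,
        ← Finset.prod_mul_distrib, ← Finset.prod_mul_distrib]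
      apply le_of_eq
      congr 1
      refine Finset.prod_congr rfl fun e _ => ?_
      rw [Pi.inf_apply, Pi.sup_apply]
      cases a e <;> cases b e <;> first | rfl | exact mul_comm _ _)
  rw [h1, one_mul, ← ht x y, ← ht y z, ← ENNReal.toReal_mul] at hfkg
  rw [← ENNReal.toReal_le_toReal (ENNReal.mul_ne_top (htop _ _) (htop _ _)) (htop _ _), ht x z]
  refine hfkg.trans (Finset.sum_le_sum fun b _ => mul_le_mul_of_nonneg_left ?_
    ENNReal.toReal_nonneg)
  by_cases ha : Cn G E b x y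
  · by_cases hb : Cn G E b y z
    · rw [if_pos ha, if_pos hb, if_pos (Cn_trans ha hb)]
      norm_num
    · rw [if_neg hb, mul_zero]
      split <;> norm_num
  · rw [if_neg ha, zero_mul]
    split <;> norm_num

end HAR

open HAR in
theorem stmt_HAR (hTAU : Stmt_TAU) (hLIM : Stmt_LIM) : Stmt_HAR := by
  intro V _ G p x y z
  have hfin : ∀ Λ : Finset V, tau (within G (Λ : Set V)) p x y * tau (within G (Λ : Set V)) p y z ≤
      tau (within G (Λ : Set V)) p x z := by
    intro Λ
    classical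
    refine fin_har _ Λ.sym2 (fun e he => ?_) p x y z
    induction e using Sym2.ind with
    | _ a b =>
      rw [SimpleGraph.mem_edgeSet] at he
      rw [Finset.mem_coe, Finset.mk_mem_sym2_iff]
      exact ⟨by exact_mod_cast he.2.1, by exact_mod_cast he.2.2⟩
  have hmono : ∀ Λ Λ' : Finset V, Λ ⊆ Λ' → within G (Λ : Set V) ≤ within G (Λ' : Set V) := by
    intro Λ Λ' h a b hab
    exact ⟨hab.1, h hab.2.1, h hab.2.2⟩
  have hle : ∀ Λ : Finset V, within G (Λ : Set V) ≤ G := fun Λ a b hab => hab.1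
  rw [hLIM V G p x y, hLIM V G p y z, ENNReal.iSup_mul]
  refine iSup_le fun Λ => ?_
  rw [ENNReal.mul_iSup]
  refine iSup_le fun Λ' => ?_
  classical
  have m1 := (hTAU V (within G (Λ : Set V)) (within G ((Λ ∪ Λ' : Finset V) : Set V)) p p x y
    ).2.2.2.2.1 (hmono _ _ Finset.subset_union_left)
  have m2 := (hTAU V (within G (Λ' : Set V)) (within G ((Λ ∪ Λ' : Finset V) : Set V)) p p y z
    ).2.2.2.2.1 (hmono _ _ Finset.subset_union_right)
  have m3 := (hTAU V (within G ((Λ ∪ Λ' : Finset V) : Set V)) G p p x z).2.2.2.2.1 (hle _)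
  exact (mul_le_mul' m1 m2).trans ((hfin _).trans m3)

end Pool.L2B
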