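import Pool.Agent.Work.MP_23451d_me.Interface

/-! # Block INV: invariance under isomorphisms -/

set_option autoImplicit false

namespace Pool.L2B

open MeasureTheory SimpleGraph
open scoped ENNReal

/-- pull back of labels along a bijection of the vertices -/
def pullS {V : Type} (f : V → V) (ω : Sym2 V → unitInterval) : Sym2 V → unitInterval :=
  fun e => ω (Sym2.map f e)

theorem measurable_pullS {V : Type} (f : V → V) : Measurable (pullS (V := V) f) :=
  measurable_pi_lambda _ fun _ => measurable_pi_apply _

theorem map_pullS {V : Type} (f : V → V) (hf : Function.Bijective f) :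
    (mu V).map (pullS f) = mu V := by
  classical
  unfold mu
  apply Measure.eq_infinitePi
  intro s t ht
  have hinj : Function.Injective (Sym2.map f) := Sym2.map.injective hf.injective
  have hpre : pullS f ⁻¹' (Set.pi (s : Set (Sym2 V)) t) =
      Set.pi ((s.image (Sym2.map f) : Finset (Sym2 V)) : Set (Sym2 V))
        (fun e => t (Sym2.map (Function.surjInv hf.surjective) e)) := by
    ext ω
    simp only [Set.mem_preimage, Set.mem_pi, Finset.mem_coe, Finset.mem_image]
    constructor
    · rintro h e ⟨e', he', rfl⟩
      have := h e' he'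
      rw [Sym2.map_map, (Function.leftInverse_surjInv hf).comp_eq_id, Sym2.map_id]
      exact this
    · intro h e he
      have := h (Sym2.map f e) ⟨e, he, rfl⟩
      rw [Sym2.map_map, (Function.leftInverse_surjInv hf).comp_eq_id, Sym2.map_id] at this
      exact this
  rw [Measure.map_apply (measurable_pullS f)
    (MeasurableSet.pi s.countable_toSet fun i _ => ht i), hpre,
    Measure.infinitePi_pi _ (fun i _ => ht _), Finset.prod_image (fun a _ b _ h => hinj h)]
  apply Finset.prod_congr rfl
  intro e _
  rw [Sym2.map_map, (Function.leftInverse_surjInv hf).comp_eq_id, Sym2.map_id]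
  rfl

theorem conn_pull {V : Type} {G G' : SimpleGraph V} (f : G →g G') {p : ℝ}
    {ω : Sym2 V → unitInterval} {u v : V} (h : Conn G p (pullS f ω) u v) :
    Conn G' p ω (f u) (f v) := by
  obtain ⟨w, hw⟩ := h
  refine ⟨w.map f, ?_⟩
  intro e he
  rw [Walk.edges_map, List.mem_map] at he
  obtain ⟨e', he', rfl⟩ := he
  exact hw e' he'

theorem stmt_INV (hCME : Stmt_CME) (hSIG : Stmt_SIG) : Stmt_INV := by
  intro V _ G G' φ p u v
  have hset : {ω : Sym2 V → unitInterval | Conn G' p ω (φ u) (φ v)}
      = pullS φ ⁻¹' {ω | Conn G p ω u v} := by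
    ext ω
    simp only [Set.mem_ofPred_eq, Set.mem_preimage]
    constructor
    · intro h
      have hω : ω = pullS φ.symm (pullS φ ω) := by
        funext e
        unfold pullS
        rw [Sym2.map_map]
        have : (φ ∘ φ.symm : V → V) = id := by
          funext a; simp
        rw [this, Sym2.map_id]; rfl
      rw [hω] at h
      have := conn_pull (G := G') (G' := G) φ.symm.toHom (ω := pullS φ ω) h
      simpa using this
    · intro h
      exact conn_pull φ.toHom h
  have hm : MeasurableSet {ω : Sym2 V → unitInterval | Conn G p ω u v} :=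
    (hSIG V).1 _ _ (hCME V G p u v)
  unfold tau
  rw [hset, ← Measure.map_apply (measurable_pullS _) hm, map_pullS _ φ.bijective]

end Pool.L2B
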