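import Pool.Agent.Work.MP_23451d_me.Interface

set_option autoImplicit false

namespace Pool.L2B

open SimpleGraph
open scoped ENNReal

theorem stmt_KBND (hLEV : Stmt_LEV) (hTRA : Stmt_TRA) (hUNI : Stmt_UNI) (hBAS : Stmt_BAS)
    (hKSUM : Stmt_KSUM) (hKFIN : Stmt_KFIN) : Stmt_KBND := by
  intro V _ G C d L D R k hG K hK p₀ hp₀
  obtain ⟨⟨D1, hD1⟩, hU2⟩ := hUNI V G C d L D R k hG
  obtain ⟨D2, s, hD2⟩ := hU2 K hK
  obtain ⟨_, _, hL0, _, hL4, _⟩ := hLEV V G C d L D R k hG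
  refine ⟨((p₀ ^ D1) ^ s * (p₀ ^ D2 * p₀ ^ (2 * D)))⁻¹, ?_, ?_⟩
  · rw [ENNReal.inv_ne_top]
    exact mul_ne_zero (pow_ne_zero _ (pow_ne_zero _ hp₀))
      (mul_ne_zero (pow_ne_zero _ hp₀) (pow_ne_zero _ hp₀))
  intro θ τ hτ B hB n
  obtain ⟨b1, _, _, b4, _⟩ := hBAS V G C d L D R k hG p₀ θ τ hτ
  have hp1 : p₀ ≤ 1 := by
    obtain ⟨A, hA⟩ := hG.ne
    obtain ⟨e, he⟩ := (hG.bd A hA).2.1
    exact (hτ.edge _ _ he.2.2).trans (hτ.le_one _ _)
  have han0 : ∀ A ∈ C, an G C τ A 0 = 1 := by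
    intro A hA
    unfold an
    rw [hL0 A hA, tsum_singleton A (fun B => τ (base G A) (base G B)), hτ.refl]
  -- (a)
  have ha : ∀ m, 1 ≤ m → ∃ A ∈ K, an G C τ A m < 1 := by
    intro m hm
    by_contra hcon
    push Not at hcon
    obtain ⟨A, hA⟩ := hK.ne
    have hAC := hK.sub hA
    have h1 : ∀ j, 1 ≤ an G C τ A (j * m) := by
      intro j
      induction j with
      | zero => rw [Nat.zero_mul, han0 A hAC]
      | succ j ih =>
        have h2 := hKSUM V G C d L D R k hG p₀ θ τ hτ A hAC (j * m) m 1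
          (fun B hB => hcon B (hK.down A hA B hB.1 hB.2.1))
        rw [mul_one] at h2
        rw [Nat.succ_mul]
        exact ih.trans h2
    have h3 := hKFIN V G C d L D R k hG p₀ θ τ hτ A hAC
    apply h3
    rw [eq_top_iff]
    calc (⊤ : ℝ≥0∞) = ∑' _ : ℕ, (1 : ℝ≥0∞) :=
          (ENNReal.tsum_const_eq_top_of_ne_zero one_ne_zero).symm
      _ ≤ ∑' j : ℕ, an G C τ A (j * m) := ENNReal.tsum_le_tsum h1
      _ ≤ ∑' n, an G C τ A n :=
          ENNReal.tsum_comp_le_tsum_of_injective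
            (fun a b hab => Nat.eq_of_mul_eq_mul_right (by omega) hab) (fun n => an G C τ A n)
  -- (b)
  have hb : ∀ A ∈ C, ∀ n, an G C τ A n * p₀ ^ D1 ≤ an G C τ A (n + 1) := by
    intro A hA n
    apply hKSUM V G C d L D R k hG p₀ θ τ hτ A hA n 1
    intro B hB
    obtain ⟨B', hB', hd⟩ := hD1 B hB.1
    calc p₀ ^ D1 ≤ p₀ ^ G.dist (base G B) (base G B') := pow_le_pow_right_of_le_one' hp1 hd
      _ ≤ τ (base G B) (base G B') := b1 _ _
      _ ≤ an G C τ B 1 :=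
        ENNReal.le_tsum (f := fun X : LL C B 1 => τ (base G B) (base G X.1)) ⟨B', hB'⟩
  have hb' : ∀ A ∈ C, ∀ n j, an G C τ A n * (p₀ ^ D1) ^ j ≤ an G C τ A (n + j) := by
    intro A hA n j
    induction j with
    | zero => simp
    | succ j ih =>
      calc an G C τ A n * (p₀ ^ D1) ^ (j + 1) = an G C τ A n * (p₀ ^ D1) ^ j * p₀ ^ D1 := by
            rw [pow_succ, mul_assoc]
        _ ≤ an G C τ A (n + j) * p₀ ^ D1 := mul_le_mul_left ih _
        _ ≤ an G C τ A (n + (j + 1)) := hb A hA (n + j)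
  -- (c)
  have hc : ∀ A ∈ K, p₀ ^ D2 * p₀ ^ (2 * D) * (p₀ ^ D1) ^ s * an G C τ B n ≤
      an G C τ A (s + n) := by
    intro A hA
    obtain ⟨φ, s0, _, hs0, hφ, hdist⟩ := hD2 A hA B hB
    have hφC : φ '' B ∈ C := hφ.1
    have h1 : p₀ ^ (2 * D) * an G C τ B n ≤ an G C τ (φ '' B) n := by
      unfold an
      rw [← ENNReal.tsum_mul_left]
      have hinj : Function.Injective (fun Y : LL C B n =>
          (⟨φ '' Y.1, (hTRA V G C d L D R k hG φ).2.2.1 B n Y.1 Y.2⟩ : LL C (φ '' B) n)) := by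
        intro X Y hXY
        have h2 : φ '' X.1 = φ '' Y.1 := congrArg Subtype.val hXY
        exact Subtype.ext ((Set.image_injective.2 φ.injective) h2)
      refine le_trans (ENNReal.tsum_le_tsum (fun Y => ?_))
        (ENNReal.tsum_comp_le_tsum_of_injective hinj
          (fun X : LL C (φ '' B) n => τ (base G (φ '' B)) (base G X.1)))
      exact b4 φ B (hK.sub hB) Y.1 Y.2.1
    have h2 : τ (base G A) (base G (φ '' B)) * an G C τ (φ '' B) n ≤ an G C τ A (s0 + n) := by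
      unfold an
      rw [← ENNReal.tsum_mul_left]
      refine le_trans (ENNReal.tsum_le_tsum (fun Y => ?_))
        (ENNReal.tsum_mono_subtype (fun X => τ (base G A) (base G X))
          (fun X hX => hL4 A (hK.sub hA) s0 n (φ '' B) hφ X hX))
      exact hτ.har _ _ _
    have h3 : p₀ ^ D2 ≤ τ (base G A) (base G (φ '' B)) :=
      (pow_le_pow_right_of_le_one' hp1 hdist).trans (b1 _ _)
    have h4 := hb' A (hK.sub hA) (s0 + n) (s - s0)
    have h5 : (p₀ ^ D1) ^ s ≤ (p₀ ^ D1) ^ (s - s0) :=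
      pow_le_pow_right_of_le_one' (pow_le_one' hp1 _) (Nat.sub_le _ _)
    have h6 : s0 + n + (s - s0) = s + n := by omega
    rw [h6] at h4
    calc p₀ ^ D2 * p₀ ^ (2 * D) * (p₀ ^ D1) ^ s * an G C τ B n
        = p₀ ^ D2 * (p₀ ^ (2 * D) * an G C τ B n) * (p₀ ^ D1) ^ s := by ring
      _ ≤ τ (base G A) (base G (φ '' B)) * an G C τ (φ '' B) n * (p₀ ^ D1) ^ (s - s0) := by
        gcongr
      _ ≤ an G C τ A (s0 + n) * (p₀ ^ D1) ^ (s - s0) := by gcongr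
      _ ≤ _ := h4
  have hs : 1 ≤ s + n := by
    obtain ⟨_, s0, h1, h2, _⟩ := hD2 B hB B hB
    omega
  obtain ⟨A, hA, hlt⟩ := ha (s + n) hs
  have h7 := (hc A hA).trans hlt.le
  have hne : (p₀ ^ D1) ^ s * (p₀ ^ D2 * p₀ ^ (2 * D)) ≠ 0 :=
    mul_ne_zero (pow_ne_zero _ (pow_ne_zero _ hp₀))
      (mul_ne_zero (pow_ne_zero _ hp₀) (pow_ne_zero _ hp₀))
  have hnt : (p₀ ^ D1) ^ s * (p₀ ^ D2 * p₀ ^ (2 * D)) ≠ ⊤ := by
    have hpt : p₀ ≠ ⊤ := ne_top_of_le_ne_top ENNReal.one_ne_top hp1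
    exact ENNReal.mul_ne_top (ENNReal.pow_ne_top (ENNReal.pow_ne_top hpt))
      (ENNReal.mul_ne_top (ENNReal.pow_ne_top hpt) (ENNReal.pow_ne_top hpt))
  rw [← one_div]
  rw [ENNReal.le_div_iff_mul_le (Or.inl hne) (Or.inl hnt)]
  calc an G C τ B n * ((p₀ ^ D1) ^ s * (p₀ ^ D2 * p₀ ^ (2 * D)))
      = p₀ ^ D2 * p₀ ^ (2 * D) * (p₀ ^ D1) ^ s * an G C τ B n := by ring
    _ ≤ 1 := h7

end Pool.L2B
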