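import Pool.Agent.Work.MP_23451d_me.Interface

/-!
# Block KFIN (MP_23451d_pr): the sum over all levels is finite
-/

set_option autoImplicit false

namespace Pool.L2B

open MeasureTheory SimpleGraph
open scoped ENNReal

theorem stmt_KFIN (hBAS : Stmt_BAS) : Stmt_KFIN := by
  intro V _ G C d L D R k hG p₀ θ τ hK A hA
  obtain ⟨-, -, -, -, hfib⟩ := hBAS V G C d L D R k hG p₀ θ τ hK
  let F : (Σ n : ℕ, LL C A n) → (Σ y : V, {B : Set V | B ∈ C ∧ base G B = y}) :=
    fun p => ⟨base G p.2.1, ⟨p.2.1, p.2.2.1, rfl⟩⟩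
  have hinj : Function.Injective F := by
    rintro ⟨n, ⟨B, hB⟩⟩ ⟨m, ⟨B', hB'⟩⟩ h
    have h1 : B = B' := by
      have h2 := congrArg (fun q : (Σ y : V, {B : Set V | B ∈ C ∧ base G B = y}) => q.2.1) h
      exact h2
    subst h1
    have h3 : n = m := by
      have e1 := hB.2.2
      have e2 := hB'.2.2
      omega
    subst h3
    rfl
  have hle : ∑' n, an G C τ A n ≤ ((d * L : ℕ) : ℝ≥0∞) * ∑' y, τ (base G A) y := by
    calc ∑' n, an G C τ A n
        = ∑' p : (Σ n : ℕ, LL C A n), τ (base G A) (F p).1 := by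
          rw [ENNReal.tsum_sigma']
          rfl
      _ ≤ ∑' q : (Σ y : V, {B : Set V | B ∈ C ∧ base G B = y}), τ (base G A) q.1 :=
          ENNReal.tsum_comp_le_tsum_of_injective hinj
            (fun q : (Σ y : V, {B : Set V | B ∈ C ∧ base G B = y}) => τ (base G A) q.1)
      _ = ∑' y : V, ∑' _ : {B : Set V | B ∈ C ∧ base G B = y}, τ (base G A) y := by
          rw [ENNReal.tsum_sigma']
      _ ≤ ∑' y : V, ((d * L : ℕ) : ℝ≥0∞) * τ (base G A) y := by
          refine ENNReal.tsum_le_tsum fun y => ?_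
          rw [ENNReal.tsum_set_const]
          refine mul_le_mul_left ?_ _
          obtain ⟨h1, h2⟩ := hfib y
          rw [← h2.cast_ncard_eq]
          exact_mod_cast h1
      _ = ((d * L : ℕ) : ℝ≥0∞) * ∑' y, τ (base G A) y := ENNReal.tsum_mul_left
  exact ne_top_of_le_ne_top
    (ENNReal.mul_ne_top (ENNReal.natCast_ne_top _) (hK.fin _)) hle

end Pool.L2B
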