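import Pool.Agent.Work.MP_23451d_me.Interface

/-!
# Block KPC: divergence near `p = 1`
-/

set_option autoImplicit false

namespace Pool.L2B

open MeasureTheory SimpleGraph
open scoped ENNReal

/-- the sum of the kernel over all cuts below `A` -/
noncomputable def SS {V : Type} [Nonempty V] (G : SimpleGraph V) (C : Set (Set V))
    (τ : V → V → ℝ≥0∞) (A : Set V) : ℝ≥0∞ :=
  ∑' B : {B : Set V | B ∈ C ∧ B ⊆ A}, τ (base G A) (base G B.1)

theorem SS_ne_top {V : Type} [Nonempty V] (G : SimpleGraph V) (C : Set (Set V))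
    {d L D R k : ℕ} (hG : Geo0 G C d L D R k) (hBAS : Stmt_BAS) (p₀ θ : ℝ≥0∞)
    (τ : V → V → ℝ≥0∞) (hK : Kern G C L p₀ θ τ) (A : Set V) : SS G C τ A ≠ ⊤ := by
  obtain ⟨-, -, -, -, hfib⟩ := hBAS V G C d L D R k hG p₀ θ τ hK
  have h1 : SS G C τ A ≤ ∑' B : {B : Set V | B ∈ C ∧ base G B = base G B},
      τ (base G A) (base G B.1) := by
    unfold SS
    let f : {B : Set V | B ∈ C ∧ B ⊆ A} → {B : Set V | B ∈ C ∧ base G B = base G B} :=
      fun B => ⟨B.1, B.2.1, rfl⟩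
    have hf : Function.Injective f := by
      intro x y h
      apply Subtype.ext
      exact congrArg (fun z => z.1) h
    exact ENNReal.tsum_comp_le_tsum_of_injective hf
      (fun B : {B : Set V | B ∈ C ∧ base G B = base G B} => τ (base G A) (base G B.1))
  have h2 : ∑' B : {B : Set V | B ∈ C ∧ base G B = base G B}, τ (base G A) (base G B.1) ≤
      ∑' y : V, ((d * L : ℕ) : ℝ≥0∞) * τ (base G A) y := by
    let e : {B : Set V | B ∈ C ∧ base G B = base G B} ≃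
        (Σ y : V, {B : Set V | B ∈ C ∧ base G B = y}) :=
      { toFun := fun B => ⟨base G B.1, B.1, B.2.1, rfl⟩
        invFun := fun x => ⟨x.2.1, x.2.2.1, rfl⟩
        left_inv := fun B => rfl
        right_inv := by
          rintro ⟨y, B, hB, rfl⟩
          rfl }
    have h3 : ∑' B : {B : Set V | B ∈ C ∧ base G B = base G B}, τ (base G A) (base G B.1) =
        ∑' x : (Σ y : V, {B : Set V | B ∈ C ∧ base G B = y}), τ (base G A) x.1 := by
      rw [← e.tsum_eq]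
      rfl
    rw [h3, ENNReal.tsum_sigma']
    refine ENNReal.tsum_le_tsum (fun y => ?_)
    obtain ⟨hc, hfin⟩ := hfib y
    have : Finite {B : Set V | B ∈ C ∧ base G B = y} := hfin
    show ∑' _ : {B : Set V | B ∈ C ∧ base G B = y}, τ (base G A) y ≤ _
    rw [ENNReal.tsum_const]
    gcongr
    rw [ENat.card_eq_coe_natCard]
    have h4 : Nat.card {B : Set V | B ∈ C ∧ base G B = y} ≤ d * L := by
      rw [Nat.card_coe_set_eq]
      exact hc
    simp only [ENat.toENNReal_coe]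
    exact_mod_cast h4
  have h5 : ∑' y : V, ((d * L : ℕ) : ℝ≥0∞) * τ (base G A) y ≠ ⊤ := by
    rw [ENNReal.tsum_mul_left]
    exact ENNReal.mul_ne_top (ENNReal.natCast_ne_top _) (hK.fin _)
  exact ne_top_of_le_ne_top h5 (h1.trans h2)

theorem one_le_SS {V : Type} [Nonempty V] (G : SimpleGraph V) (C : Set (Set V))
    {L : ℕ} (p₀ θ : ℝ≥0∞)
    (τ : V → V → ℝ≥0∞) (hK : Kern G C L p₀ θ τ) (A : Set V) (hA : A ∈ C) : 1 ≤ SS G C τ A := by
  unfold SS
  have h := ENNReal.le_tsum (f := fun B : {B : Set V | B ∈ C ∧ B ⊆ A} =>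
    τ (base G A) (base G B.1)) ⟨A, hA, subset_rfl⟩
  refine le_trans ?_ h
  simp only
  rw [hK.refl]

theorem SS_split {V : Type} [Nonempty V] (G : SimpleGraph V) (C : Set (Set V))
    {d L D R k : ℕ} (hG : Geo0 G C d L D R k) (p₀ θ : ℝ≥0∞)
    (τ : V → V → ℝ≥0∞) (hK : Kern G C L p₀ θ τ) (A B₁ B₂ : Set V)
    (h1 : B₁ ⊆ A) (h2 : B₂ ⊆ A) (hd : Disjoint B₁ B₂) :
    τ (base G A) (base G B₁) * SS G C τ B₁ + τ (base G A) (base G B₂) * SS G C τ B₂ ≤
      SS G C τ A := by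
  have hstep : ∀ B' : Set V, τ (base G A) (base G B') * SS G C τ B' ≤
      ∑' B : {B : Set V | B ∈ C ∧ B ⊆ B'}, τ (base G A) (base G B.1) := by
    intro B'
    unfold SS
    rw [← ENNReal.tsum_mul_left]
    exact ENNReal.tsum_le_tsum (fun B => hK.har _ _ _)
  refine (add_le_add (hstep B₁) (hstep B₂)).trans ?_
  have hdis : Disjoint {B : Set V | B ∈ C ∧ B ⊆ B₁} {B : Set V | B ∈ C ∧ B ⊆ B₂} := by
    rw [Set.disjoint_left]
    rintro B ⟨hB, hB1⟩ ⟨-, hB2⟩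
    obtain ⟨x, hx⟩ := (hG.inf B hB).nonempty
    exact (Set.disjoint_left.mp hd) (hB1 hx) (hB2 hx)
  have hun := ENNReal.summable.tsum_union_disjoint (f := fun B : Set V => τ (base G A) (base G B))
    hdis ENNReal.summable
  rw [← hun]
  exact ENNReal.tsum_mono_subtype (fun B : Set V => τ (base G A) (base G B)) (by
    rintro B (⟨hB, hB1⟩ | ⟨hB, hB1⟩)
    · exact ⟨hB, hB1.trans h1⟩
    · exact ⟨hB, hB1.trans h2⟩)

theorem branch_dist {V : Type} [Nonempty V] (G : SimpleGraph V) (C : Set (Set V))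
    {d L D R k : ℕ} (hG : Geo G C d L D R k) (hTRA : Stmt_TRA) :
    ∃ D₂ : ℕ, ∀ A ∈ C, ∃ B₁ ∈ C, ∃ B₂ ∈ C, B₁ ⊆ A ∧ B₂ ⊆ A ∧ Disjoint B₁ B₂ ∧
      G.dist (base G A) (base G B₁) ≤ D₂ ∧ G.dist (base G A) (base G B₂) ≤ D₂ := by
  obtain ⟨A₀, hA₀, hone⟩ := hG.one
  have key : ∀ A' ∈ C, ∃ E : ℕ, ∀ φ : G ≃g G, ∃ B₁ ∈ C, ∃ B₂ ∈ C, B₁ ⊆ φ '' A' ∧ B₂ ⊆ φ '' A' ∧
      Disjoint B₁ B₂ ∧ G.dist (base G (φ '' A')) (base G B₁) ≤ E ∧
      G.dist (base G (φ '' A')) (base G B₂) ≤ E := by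
    intro A' hA'
    obtain ⟨B₁, hB₁, B₂, hB₂, h1, h2, hd⟩ := hG.branch A' hA'
    have tri : ∀ (φ : G ≃g G) (B : Set V), B ∈ C →
        G.dist (base G (φ '' A')) (base G (φ '' B)) ≤
          D + G.dist (base G A') (base G B) + D := by
      intro φ B hB
      obtain ⟨t1, -, -, -, t5⟩ := hTRA V G C d L D R k hG.toGeo0 φ
      have a1 := hG.conn.dist_triangle (u := base G (φ '' A')) (v := φ (base G A'))
        (w := base G (φ '' B))
      have a2 := hG.conn.dist_triangle (u := φ (base G A')) (v := φ (base G B))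
        (w := base G (φ '' B))
      have a3 := t5 A' hA'
      have a4 := t5 B hB
      rw [SimpleGraph.dist_comm] at a4
      have a5 := t1 (base G A') (base G B)
      omega
    refine ⟨D + G.dist (base G A') (base G B₁) + D + (D + G.dist (base G A') (base G B₂) + D),
      fun φ => ⟨φ '' B₁, hG.inv φ _ hB₁, φ '' B₂, hG.inv φ _ hB₂, Set.image_mono h1,
        Set.image_mono h2, ?_, ?_, ?_⟩⟩
    · exact (Set.disjoint_image_iff φ.injective).mpr hd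
    · have := tri φ B₁ hB₁
      omega
    · have := tri φ B₂ hB₂
      omega
  obtain ⟨E₁, hE₁⟩ := key A₀ hA₀
  obtain ⟨E₂, hE₂⟩ := key A₀ᶜ (hG.compl _ hA₀)
  refine ⟨E₁ + E₂, fun A hA => ?_⟩
  obtain ⟨φ, rfl | rfl⟩ := hone A hA
  · obtain ⟨B₁, hB₁, B₂, hB₂, h1, h2, hd, h3, h4⟩ := hE₁ φ
    exact ⟨B₁, hB₁, B₂, hB₂, h1, h2, hd, by omega, by omega⟩
  · obtain ⟨B₁, hB₁, B₂, hB₂, h1, h2, hd, h3, h4⟩ := hE₂ φ
    exact ⟨B₁, hB₁, B₂, hB₂, h1, h2, hd, by omega, by omega⟩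

theorem stmt_KPC (hTRA : Stmt_TRA) (hBAS : Stmt_BAS) : Stmt_KPC := by
  intro V _ G C d L D R k hG
  obtain ⟨D₂, hD₂⟩ := branch_dist G C hG hTRA
  set x : ℝ := 1 / (2 * ((D₂ : ℝ) + 1)) with hx
  have hD0 : (0 : ℝ) ≤ (D₂ : ℝ) := Nat.cast_nonneg _
  have hx0 : 0 < x := by rw [hx]; positivity
  have hx1 : x ≤ 1 / 2 := by
    rw [hx]
    apply one_div_le_one_div_of_le (by norm_num)
    linarith
  refine ⟨1 - x, by linarith, by linarith, ?_⟩
  intro θ τ hK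
  have hη : (1 : ℝ) / 2 < (1 - x) ^ D₂ := by
    have hb := one_add_mul_le_pow (a := -x) (by linarith) D₂
    have h1 : (D₂ : ℝ) * x < 1 / 2 := by
      rw [hx, mul_one_div, div_lt_div_iff₀ (by positivity) (by norm_num)]
      linarith
    have h2 : (1 : ℝ) + (D₂ : ℝ) * (-x) ≤ (1 - x) ^ D₂ := by
      have h3 : (1 : ℝ) + -x = 1 - x := by ring
      rw [h3] at hb
      exact hb
    linarith
  have hη' : (1 : ℝ≥0∞) < 2 * (ENNReal.ofReal (1 - x)) ^ D₂ := by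
    rw [← ENNReal.ofReal_pow (by linarith)]
    have h2 : (2 : ℝ≥0∞) = ENNReal.ofReal 2 := by simp
    rw [h2, ← ENNReal.ofReal_mul (by norm_num)]
    rw [← ENNReal.ofReal_one]
    rw [ENNReal.ofReal_lt_ofReal_iff (by linarith)]
    linarith
  obtain ⟨hpow, -, -, -, -⟩ := hBAS V G C d L D R k hG.toGeo0 _ θ τ hK
  set η : ℝ≥0∞ := ENNReal.ofReal (1 - x) with hηdef
  have hη1 : η ≤ 1 := by
    rw [hηdef, ← ENNReal.ofReal_one]
    exact ENNReal.ofReal_le_ofReal (by linarith)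
  set s : ℝ≥0∞ := ⨅ A ∈ C, SS G C τ A with hs
  have hs1 : 1 ≤ s := by
    rw [hs]
    exact le_iInf₂ (fun A hA => one_le_SS G C _ θ τ hK A hA)
  have hstop : s ≠ ⊤ := by
    obtain ⟨A, hA⟩ := hG.ne
    exact ne_top_of_le_ne_top (SS_ne_top G C hG.toGeo0 hBAS _ θ τ hK A) (iInf₂_le A hA)
  have hmain : 2 * η ^ D₂ * s ≤ s := by
    conv_rhs => rw [hs]
    refine le_iInf₂ (fun A hA => ?_)
    obtain ⟨B₁, hB₁, B₂, hB₂, h1, h2, hd, h3, h4⟩ := hD₂ A hA
    refine le_trans ?_ (SS_split G C hG.toGeo0 _ θ τ hK A B₁ B₂ h1 h2 hd)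
    have e1 : ∀ B ∈ C, G.dist (base G A) (base G B) ≤ D₂ →
        η ^ D₂ * s ≤ τ (base G A) (base G B) * SS G C τ B := by
      intro B hB hdist
      refine mul_le_mul' ?_ (iInf₂_le B hB)
      exact (pow_le_pow_right_of_le_one' hη1 hdist).trans (hpow _ _)
    calc 2 * η ^ D₂ * s = η ^ D₂ * s + η ^ D₂ * s := by ring
      _ ≤ _ := add_le_add (e1 B₁ hB₁ h3) (e1 B₂ hB₂ h4)
  have hlt : s < 2 * η ^ D₂ * s := by
    have h0 : s ≠ 0 := (lt_of_lt_of_le one_pos hs1).ne'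
    calc s = 1 * s := (one_mul s).symm
      _ < 2 * η ^ D₂ * s := (ENNReal.mul_lt_mul_iff_left h0 hstop).mpr hη'
  exact absurd hmain (not_le.mpr hlt)

end Pool.L2B
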