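import Pool.Agent.Work.MP_23451d_me.Interface

/-!
# Block KSCH (helper63): the weighted Schur bound
-/

set_option autoImplicit false

namespace Pool.L2B

open MeasureTheory SimpleGraph
open scoped ENNReal

namespace KSCH

/-! ### a series -/

theorem series_ne_top {r θ : ℝ≥0∞} {L : ℕ} (hL : 1 ≤ L) (hr : r ≤ 1) (hr0 : r ≠ 0)
    (hθ : θ < r ^ L) : ∑' i : ℕ, (r⁻¹) ^ i * θ ^ (i / L) ≠ ⊤ := by
  have hL0 : NeZero L := ⟨by omega⟩
  have hrt : r ≠ ⊤ := ne_top_of_le_ne_top ENNReal.one_ne_top hr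
  have hinv : 1 ≤ r⁻¹ := ENNReal.one_le_inv.2 hr
  have hinvt : r⁻¹ ≠ ⊤ := ENNReal.inv_ne_top.2 hr0
  have hρ : (r⁻¹) ^ L * θ < 1 := by
    have h1 : (r⁻¹) ^ L * θ < (r⁻¹) ^ L * r ^ L := by
      refine (ENNReal.mul_lt_mul_iff_right ?_ ?_).2 hθ
      · exact pow_ne_zero _ (ENNReal.inv_ne_zero.2 hrt)
      · exact ENNReal.pow_ne_top hinvt
    rw [← mul_pow, ENNReal.inv_mul_cancel hr0 hrt, one_pow] at h1
    exact h1
  have h1 : ∑' i : ℕ, (r⁻¹) ^ i * θ ^ (i / L) ≤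
      ∑' q : ℕ, (L : ℝ≥0∞) * ((r⁻¹) ^ L * ((r⁻¹) ^ L * θ) ^ q) := by
    rw [← (Nat.divModEquiv L).symm.tsum_eq (fun i => (r⁻¹) ^ i * θ ^ (i / L)),
      ENNReal.tsum_prod (f := fun (q : ℕ) (s : Fin L) => (r⁻¹) ^ ((Nat.divModEquiv L).symm (q, s)) *
        θ ^ (((Nat.divModEquiv L).symm (q, s)) / L))]
    refine ENNReal.tsum_le_tsum fun q => ?_
    rw [tsum_fintype]
    have h2 : ∀ s : Fin L, (r⁻¹) ^ ((Nat.divModEquiv L).symm (q, s)) *
        θ ^ (((Nat.divModEquiv L).symm (q, s)) / L) ≤ (r⁻¹) ^ L * ((r⁻¹) ^ L * θ) ^ q := by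
      intro s
      have e1 : (Nat.divModEquiv L).symm (q, s) = q * L + s.1 := rfl
      have e2 : (q * L + s.1) / L = q := by
        rw [mul_comm, Nat.mul_add_div (by omega), Nat.div_eq_of_lt s.2, add_zero]
      rw [e1, e2]
      calc (r⁻¹) ^ (q * L + s.1) * θ ^ q = (r⁻¹) ^ s.1 * ((r⁻¹) ^ L * θ) ^ q := by
            rw [mul_pow, ← pow_mul, pow_add, mul_comm L q]; ring
        _ ≤ (r⁻¹) ^ L * ((r⁻¹) ^ L * θ) ^ q := by
            gcongr
            exact s.2.le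
    calc ∑ s : Fin L, (r⁻¹) ^ ((Nat.divModEquiv L).symm (q, s)) *
          θ ^ (((Nat.divModEquiv L).symm (q, s)) / L)
        ≤ ∑ _s : Fin L, (r⁻¹) ^ L * ((r⁻¹) ^ L * θ) ^ q := Finset.sum_le_sum fun s _ => h2 s
      _ = (L : ℝ≥0∞) * ((r⁻¹) ^ L * ((r⁻¹) ^ L * θ) ^ q) := by
          rw [Finset.sum_const, Finset.card_univ, Fintype.card_fin, nsmul_eq_mul]
  refine ne_top_of_le_ne_top ?_ h1
  rw [ENNReal.tsum_mul_left, ENNReal.tsum_mul_left, ENNReal.tsum_geometric]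
  refine ENNReal.mul_ne_top (ENNReal.natCast_ne_top L)
    (ENNReal.mul_ne_top (ENNReal.pow_ne_top hinvt) ?_)
  rw [ENNReal.inv_ne_top]
  exact (tsub_pos_of_lt hρ).ne'

/-- a sum of values of a series along an injective function -/
theorem sum_inj_le {ι : Type} (s : Finset ι) (f : ι → ℕ) (hf : Set.InjOn f s) (F : ℕ → ℝ≥0∞) :
    ∑ a ∈ s, F (f a) ≤ ∑' n, F n := by
  classical
  rw [← Finset.sum_image (f := F) (g := f) (s := s) hf]
  exact ENNReal.sum_le_tsum _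

theorem tsum_le_card {V : Type} {B : Set V} (hB : B.Finite) {k : ℕ} (hk : B.ncard ≤ k)
    (f : B → ℝ≥0∞) {c : ℝ≥0∞} (hf : ∀ e, f e ≤ c) : ∑' e, f e ≤ k * c := by
  have : Fintype B := hB.fintype
  rw [tsum_fintype]
  calc ∑ e, f e ≤ ∑ _e : B, c := Finset.sum_le_sum fun e _ => hf e
    _ = (Fintype.card B : ℝ≥0∞) * c := by
        rw [Finset.sum_const, Finset.card_univ, nsmul_eq_mul]
    _ ≤ k * c := by
        refine mul_le_mul_left ?_ c
        have : Fintype.card B = B.ncard := by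
          rw [← Nat.card_eq_fintype_card, Nat.card_coe_set_eq]
        rw [this]
        exact_mod_cast hk

section main
variable {V : Type} {G : SimpleGraph V} {C : Set (Set V)} {d L D R k : ℕ}

/-- cuts which contain `x`, not `y`, not `o` -/
def I (C : Set (Set V)) (x y o : V) : Set (Set V) := {A | A ∈ sep C x o ∧ y ∉ A}

/-- cuts which contain `y`, not `x`, not `o` -/
def J (C : Set (Set V)) (x y o : V) : Set (Set V) := {A | A ∈ sep C y o ∧ x ∉ A}

theorem J_eq (x y o : V) : J C x y o = I C y x o := rfl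

theorem card_yo (hfin : ∀ x y, (sep C x y).Finite) (x y o : V) :
    (sep C y o).ncard = ((sep C x o).ncard - (I C x y o).ncard) + (J C x y o).ncard := by
  have hI : I C x y o ⊆ sep C x o := fun A hA => hA.1
  have hJ : J C x y o ⊆ sep C y o := fun A hA => hA.1
  have h1 : sep C y o = (sep C x o \ I C x y o) ∪ J C x y o := by
    ext A
    constructor
    · intro hA
      by_cases hx : x ∈ A
      · exact Or.inl ⟨⟨hA.1, hx, hA.2.2⟩, fun h => h.2 hA.2.1⟩
      · exact Or.inr ⟨hA, hx⟩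
    · rintro (⟨hA, hn⟩ | hA)
      · refine ⟨hA.1, ?_, hA.2.2⟩
        by_contra hy
        exact hn ⟨hA, hy⟩
      · exact hA.1
  have hd : Disjoint (sep C x o \ I C x y o) (J C x y o) := by
    rw [Set.disjoint_left]
    intro A hA hA'
    exact hA'.2 hA.1.2.1
  have h2 := Set.ncard_union_eq hd ((hfin x o).subset Set.sdiff_subset)
    ((hfin y o).subset hJ)
  rw [← h1, Set.ncard_sdiff hI ((hfin x o).subset hI)] at h2
  exact h2

theorem card_yx (hc : ∀ A ∈ C, Aᶜ ∈ C) (hfin : ∀ x y, (sep C x y).Finite) (x y o : V) :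
    (sep C y x).ncard = (I C x y o).ncard + (J C x y o).ncard := by
  have h1 : sep C y x = (compl '' I C x y o) ∪ J C x y o := by
    ext A
    constructor
    · intro hA
      by_cases ho : o ∈ A
      · refine Or.inl ⟨Aᶜ, ⟨⟨hc A hA.1, hA.2.2, fun h => h ho⟩, fun h => h hA.2.1⟩,
          compl_compl A⟩
      · exact Or.inr ⟨⟨hA.1, hA.2.1, ho⟩, hA.2.2⟩
    · rintro (⟨B, hB, rfl⟩ | hA)
      · exact ⟨hc B hB.1.1, hB.2, fun h => h hB.1.2.1⟩
      · exact ⟨hA.1.1, hA.1.2.1, hA.2⟩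
  have hI : I C x y o ⊆ sep C x o := fun A hA => hA.1
  have hJ : J C x y o ⊆ sep C y o := fun A hA => hA.1
  have hd : Disjoint (compl '' I C x y o) (J C x y o) := by
    rw [Set.disjoint_left]
    rintro _ ⟨B, hB, rfl⟩ hA'
    exact hA'.1.2.2 hB.1.2.2
  have h2 := Set.ncard_union_eq hd (((hfin x o).subset hI).image _) ((hfin y o).subset hJ)
  rw [← h1, Set.ncard_image_of_injective _ compl_injective] at h2
  exact h2

/-- the claim: cuts which separate `y` from the outer end of a boundary edge of `A` -/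
theorem claim (hG : Geo0 G C d L D R k) (hfin : ∀ x y, (sep C x y).Finite) {x y o : V} {A : Set V}
    (hA : A ∈ sep C x o) (hy : y ∉ A) (hmax : ∀ B ∈ sep C x o, y ∉ B → B ⊆ A) {e : V × V}
    (he : e ∈ bdE G A) : (sep C y e.2).ncard ≤ (J C x y o).ncard + L := by
  obtain ⟨e1, e2, eadj⟩ := he
  have h1 : sep C y e.2 ⊆ J C x y o ∪ sep C e.1 e.2 := by
    intro B hB
    obtain ⟨hBC, hyB, heB⟩ := hB
    rcases hG.nest A hA.1 B hBC with h | h | h | h
    · exact Or.inr ⟨hBC, h e1, heB⟩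
    · left
      refine ⟨⟨hBC, hyB, fun ho => ?_⟩, fun hx => h hA.2.1 hx⟩
      have h2 : Bᶜ ⊆ A := hmax Bᶜ ⟨hG.compl B hBC, fun hx => h hA.2.1 hx, fun h3 => h3 ho⟩
        (fun h3 => h3 hyB)
      exact e2 (h2 heB)
    · exact absurd (h e2) heB
    · exact absurd (not_not.1 fun h2 => h h2 hyB) hy
  have hJ : (J C x y o).Finite := (hfin y o).subset fun A hA => hA.1
  obtain ⟨l1, l2⟩ := hG.lf e.1 e.2 eadj
  calc (sep C y e.2).ncard ≤ (J C x y o ∪ sep C e.1 e.2).ncard :=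
        Set.ncard_le_ncard h1 (hJ.union l1)
    _ ≤ (J C x y o).ncard + (sep C e.1 e.2).ncard := Set.ncard_union_le _ _
    _ ≤ (J C x y o).ncard + L := by omega

/-- the bound for one cut -/
theorem one_cut (hG : Geo0 G C d L D R k) (hfin : ∀ x y, (sep C x y).Finite)
    {p₀ θ r c : ℝ≥0∞} (hp : p₀ ≠ 0) (hr : r ≤ 1) (hr0 : r ≠ 0) (hθ : θ ≤ 1)
    {τ : V → V → ℝ≥0∞} (hK : Kern G C L p₀ θ τ)
    (hc : ∀ x : V, ∑' y, τ x y * r ^ (sep C y x).ncard ≤ c) {x o : V} {A : Set V}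
    (hA : A ∈ sep C x o) (g : V → ℝ≥0∞)
    (hg : ∀ y, g y ≠ 0 → y ∉ A ∧ (∀ B ∈ sep C x o, y ∉ B → B ⊆ A) ∧
      g y = τ x y * r ^ (sep C y o).ncard) :
    ∑' y, g y ≤ (k : ℝ≥0∞) * (p₀⁻¹ * (r⁻¹) ^ L * c) * r ^ (sep C x o).ncard *
      ((r⁻¹) ^ {B | B ∈ sep C x o ∧ B ⊆ A}.ncard * θ ^ ({B | B ∈ sep C x o ∧ B ⊆ A}.ncard / L)) := by
  have hrt : r ≠ ⊤ := ne_top_of_le_ne_top ENNReal.one_ne_top hr
  obtain ⟨i, hi⟩ : ∃ i : ℕ, i = {B | B ∈ sep C x o ∧ B ⊆ A}.ncard := ⟨_, rfl⟩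
  obtain ⟨m, hm⟩ : ∃ m : ℕ, m = (sep C x o).ncard := ⟨_, rfl⟩
  rw [← hi, ← hm]
  have him : i ≤ m := by
    rw [hi, hm]
    exact Set.ncard_le_ncard (fun B hB => hB.1) (hfin x o)
  have hsplit : r ^ (m - i) = r ^ m * (r⁻¹) ^ i := by
    have h1 : r ^ m = r ^ (m - i) * r ^ i := by rw [← pow_add]; congr 1; omega
    rw [h1, mul_assoc, ← mul_pow, ENNReal.mul_inv_cancel hr0 hrt, one_pow, mul_one]
  obtain ⟨Q, hQ⟩ : ∃ Q : ℝ≥0∞, Q = p₀⁻¹ * θ ^ (i / L) * (r⁻¹) ^ L * r ^ (m - i) := ⟨_, rfl⟩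
  have hpt : ∀ y, g y ≤ ∑' e : bdE G A, Q * (τ e.1.2 y * r ^ (sep C y e.1.2).ncard) := by
    intro y
    by_cases h0 : g y = 0
    · rw [h0]; exact zero_le
    · obtain ⟨hy, hmax, hgy⟩ := hg y h0
      rw [hgy]
      have hIi : (I C x y o).ncard = i := by
        rw [hi]
        congr 1
        ext B
        constructor
        · intro hB
          exact ⟨hB.1, hmax B hB.1 hB.2⟩
        · intro hB
          exact ⟨hB.1, fun h => hy (hB.2 h)⟩
      rw [card_yo hfin x y o, ← hm, hIi, pow_add]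
      calc τ x y * (r ^ (m - i) * r ^ (J C x y o).ncard)
          ≤ (∑' e : bdE G A, τ x e.1.1 * τ e.1.2 y) * (r ^ (m - i) * r ^ (J C x y o).ncard) :=
            mul_le_mul_left (hK.cut A hA.1 x hA.2.1 y hy) _
        _ = ∑' e : bdE G A, (τ x e.1.1 * τ e.1.2 y) * (r ^ (m - i) * r ^ (J C x y o).ncard) :=
            ENNReal.tsum_mul_right.symm
        _ ≤ ∑' e : bdE G A, Q * (τ e.1.2 y * r ^ (sep C y e.1.2).ncard) := by
            refine ENNReal.tsum_le_tsum fun e => ?_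
            obtain ⟨e, he⟩ := e
            dsimp only
            have hadj : G.Adj e.1 e.2 := he.2.2
            have h1 : τ x e.1 ≤ p₀⁻¹ * θ ^ (i / L) := by
              have h2 : τ x e.1 * p₀ ≤ θ ^ (i / L) := by
                calc τ x e.1 * p₀ ≤ τ x e.1 * τ e.1 e.2 :=
                      mul_le_mul_right (hK.edge _ _ hadj) _
                  _ ≤ τ x e.2 := hK.har _ _ _
                  _ ≤ θ ^ ((sep C x e.2).ncard / L) := hK.dec _ _
                  _ ≤ θ ^ (i / L) := by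
                      refine pow_le_pow_right_of_le_one' hθ (Nat.div_le_div_right ?_)
                      rw [hi]
                      refine Set.ncard_le_ncard (fun B hB => ?_) (hfin _ _)
                      exact ⟨hB.1.1, hB.1.2.1, fun h => he.2.1 (hB.2 h)⟩
              have hpt : p₀ ≠ ⊤ := ne_top_of_le_ne_top ENNReal.one_ne_top
                ((hK.edge _ _ hadj).trans (hK.le_one _ _))
              calc τ x e.1 = τ x e.1 * (p₀ * p₀⁻¹) := by
                    rw [ENNReal.mul_inv_cancel hp hpt, mul_one]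
                _ = (τ x e.1 * p₀) * p₀⁻¹ := (mul_assoc _ _ _).symm
                _ ≤ θ ^ (i / L) * p₀⁻¹ := mul_le_mul_left h2 _
                _ = p₀⁻¹ * θ ^ (i / L) := mul_comm _ _
            have h3 : r ^ (J C x y o).ncard ≤ (r⁻¹) ^ L * r ^ (sep C y e.2).ncard := by
              have h4 : r ^ ((J C x y o).ncard + L) ≤ r ^ (sep C y e.2).ncard :=
                pow_le_pow_right_of_le_one' hr (claim hG hfin hA hy hmax he)
              calc r ^ (J C x y o).ncard = (r⁻¹) ^ L * (r ^ (J C x y o).ncard * r ^ L) := by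
                    rw [mul_comm (r ^ (J C x y o).ncard), ← mul_assoc, ← mul_pow,
                      ENNReal.inv_mul_cancel hr0 hrt, one_pow, one_mul]
                _ ≤ (r⁻¹) ^ L * r ^ (sep C y e.2).ncard := by
                    rw [← pow_add]
                    exact mul_le_mul_right h4 _
            calc (τ x e.1 * τ e.2 y) * (r ^ (m - i) * r ^ (J C x y o).ncard)
                ≤ ((p₀⁻¹ * θ ^ (i / L)) * τ e.2 y) *
                    (r ^ (m - i) * ((r⁻¹) ^ L * r ^ (sep C y e.2).ncard)) :=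
                  mul_le_mul' (mul_le_mul_left h1 _) (mul_le_mul_right h3 _)
              _ = Q * (τ e.2 y * r ^ (sep C y e.2).ncard) := by
                  rw [hQ]; ring
  obtain ⟨b1, -, b3⟩ := hG.bd A hA.1
  calc ∑' y, g y ≤ ∑' y, ∑' e : bdE G A, Q * (τ e.1.2 y * r ^ (sep C y e.1.2).ncard) :=
        ENNReal.tsum_le_tsum hpt
    _ = ∑' e : bdE G A, ∑' y, Q * (τ e.1.2 y * r ^ (sep C y e.1.2).ncard) := ENNReal.tsum_comm
    _ ≤ k * (Q * c) := by
        refine tsum_le_card b1 b3 _ fun e => ?_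
        rw [ENNReal.tsum_mul_left]
        exact mul_le_mul_right (hc e.1.2) _
    _ = (k : ℝ≥0∞) * (p₀⁻¹ * (r⁻¹) ^ L * c) * r ^ m * ((r⁻¹) ^ i * θ ^ (i / L)) := by
        rw [hQ, hsplit]; ring

end main

end KSCH

open KSCH in
theorem stmt_KSCH (hSEP : Stmt_SEP) : Stmt_KSCH := by
  intro V _ G C d L D R k hG p₀ θ r c hp hr hθ hc
  classical
  obtain ⟨hfin, -, -, -, hchain⟩ := hSEP V G C d L D R k hG
  have hL := hG.hL
  have hr0 : r ≠ 0 := by
    rintro rfl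
    rw [zero_pow (by omega)] at hθ
    exact absurd hθ not_lt_zero
  have hθ1 : θ ≤ 1 := hθ.le.trans (pow_le_one' hr.le L)
  obtain ⟨c₁, hc₁⟩ : ∃ c₁ : ℝ≥0∞, c₁ = (k : ℝ≥0∞) * (p₀⁻¹ * (r⁻¹) ^ L * c) := ⟨_, rfl⟩
  have hc₁t : c₁ ≠ ⊤ := by
    rw [hc₁]
    exact ENNReal.mul_ne_top (ENNReal.natCast_ne_top k) (ENNReal.mul_ne_top (ENNReal.mul_ne_top
      (ENNReal.inv_ne_top.2 hp) (ENNReal.pow_ne_top (ENNReal.inv_ne_top.2 hr0))) hc)
  obtain ⟨F, hF⟩ : ∃ F : ℕ → ℝ≥0∞, F = fun i => (r⁻¹) ^ i * θ ^ (i / L) := ⟨_, rfl⟩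
  have hFt : ∑' i, F i ≠ ⊤ := by
    rw [hF]
    exact series_ne_top hL hr.le hr0 hθ
  refine ⟨c + c₁ * ∑' i, F i, ENNReal.add_ne_top.2 ⟨hc, ENNReal.mul_ne_top hc₁t hFt⟩, ?_⟩
  intro τ hK hcx o x
  obtain ⟨m, hm⟩ : ∃ m : ℕ, m = (sep C x o).ncard := ⟨_, rfl⟩
  obtain ⟨s, hs⟩ : ∃ s : Finset (Set V), s = (hfin x o).toFinset := ⟨_, rfl⟩
  have hsm : ∀ A, A ∈ s ↔ A ∈ sep C x o := fun A => by rw [hs]; exact (hfin x o).mem_toFinset
  obtain ⟨g, hg⟩ : ∃ g : Set V → V → ℝ≥0∞, g = fun A y =>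
    if y ∉ A ∧ (∀ B ∈ sep C x o, y ∉ B → B ⊆ A) then τ x y * r ^ (sep C y o).ncard else 0 :=
    ⟨_, rfl⟩
  -- pointwise
  have hpt : ∀ y, τ x y * r ^ (sep C y o).ncard ≤
      r ^ m * (τ x y * r ^ (sep C y x).ncard) + ∑ A ∈ s, g A y := by
    intro y
    by_cases h0 : I C x y o = ∅
    · have h1 := card_yo hfin x y o
      have h2 := card_yx hG.compl hfin x y o
      rw [h0, Set.ncard_empty, Nat.sub_zero, ← hm] at h1
      rw [h0, Set.ncard_empty, zero_add] at h2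
      rw [h1, h2, pow_add]
      refine le_trans (le_of_eq ?_) le_self_add
      ring
    · -- the largest cut
      have hne : (I C x y o).Nonempty := Set.nonempty_iff_ne_empty.2 h0
      have hIfin : (I C x y o).Finite := (hfin x o).subset fun A hA => hA.1
      obtain ⟨A, hA⟩ := hIfin.exists_maximal hne
      have hAI : A ∈ I C x y o := hA.prop
      have hAmax : ∀ B ∈ sep C x o, y ∉ B → B ⊆ A := by
        intro B hB hyB
        rcases hchain x o A hAI.1 B hB with h | h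
        · exact hA.le_of_ge ⟨hB, hyB⟩ h
        · exact h
      have h1 : g A y = τ x y * r ^ (sep C y o).ncard := by
        rw [hg]
        dsimp only
        rw [if_pos ⟨hAI.2, hAmax⟩]
      rw [← h1]
      refine le_trans ?_ le_add_self
      exact Finset.single_le_sum (f := fun A => g A y) (fun _ _ => zero_le)
        ((hsm A).2 hAI.1)
  have hcut : ∀ A ∈ s, ∑' y, g A y ≤ c₁ * r ^ m * F {B | B ∈ sep C x o ∧ B ⊆ A}.ncard := by
    intro A hA
    rw [hc₁, hm, hF]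
    refine one_cut hG hfin hp hr.le hr0 hθ1 hK hcx ((hsm A).1 hA) (g A) fun y hy => ?_
    rw [hg] at hy ⊢
    dsimp only at hy ⊢
    by_cases h : y ∉ A ∧ (∀ B ∈ sep C x o, y ∉ B → B ⊆ A)
    · rw [if_pos h]
      exact ⟨h.1, h.2, rfl⟩
    · rw [if_neg h] at hy
      exact absurd rfl hy
  have hinj : Set.InjOn (fun A : Set V => {B | B ∈ sep C x o ∧ B ⊆ A}.ncard) s := by
    have key : ∀ A ∈ sep C x o, ∀ A' ∈ sep C x o, A ⊆ A' →
        {B | B ∈ sep C x o ∧ B ⊆ A}.ncard = {B | B ∈ sep C x o ∧ B ⊆ A'}.ncard → A = A' := by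
      intro A hA A' hA' hAA h
      have hsub : {B | B ∈ sep C x o ∧ B ⊆ A} ⊆ {B | B ∈ sep C x o ∧ B ⊆ A'} :=
        fun B hB => ⟨hB.1, hB.2.trans hAA⟩
      have h2 := Set.eq_of_subset_of_ncard_le hsub h.ge ((hfin x o).subset fun B hB => hB.1)
      have h3 : A' ∈ {B | B ∈ sep C x o ∧ B ⊆ A} := by
        rw [h2]
        exact ⟨hA', subset_rfl⟩
      exact subset_antisymm hAA h3.2
    intro A hA A' hA' h
    have h1 := (hsm A).1 hA
    have h2 := (hsm A').1 hA'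
    rcases hchain x o A h1 A' h2 with h3 | h3
    · exact key A h1 A' h2 h3 h
    · exact (key A' h2 A h1 h3 h.symm).symm
  rw [← hm]
  calc ∑' y, τ x y * r ^ (sep C y o).ncard
      ≤ ∑' y, (r ^ m * (τ x y * r ^ (sep C y x).ncard) + ∑ A ∈ s, g A y) :=
        ENNReal.tsum_le_tsum hpt
    _ = r ^ m * (∑' y, τ x y * r ^ (sep C y x).ncard) + ∑ A ∈ s, ∑' y, g A y := by
        rw [ENNReal.tsum_add, ENNReal.tsum_mul_left]
        congr 1
        exact Summable.tsum_finsetSum fun A _ => ENNReal.summable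
    _ ≤ r ^ m * c + ∑ A ∈ s, c₁ * r ^ m * F {B | B ∈ sep C x o ∧ B ⊆ A}.ncard :=
        add_le_add (mul_le_mul_right (hcx x) _) (Finset.sum_le_sum hcut)
    _ = r ^ m * c + c₁ * r ^ m * ∑ A ∈ s, F {B | B ∈ sep C x o ∧ B ⊆ A}.ncard := by
        rw [Finset.mul_sum]
    _ ≤ r ^ m * c + c₁ * r ^ m * ∑' i, F i := by
        refine add_le_add le_rfl (mul_le_mul_right ?_ _)
        exact sum_inj_le s (fun A => {B | B ∈ sep C x o ∧ B ⊆ A}.ncard) hinj F
    _ = (c + c₁ * ∑' i, F i) * r ^ m := by ring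

end Pool.L2B
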