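import Pool.Agent.Work.MP_23451d_me.Interface

/-!
# Block KSUM (MP_23451d_pr): supermultiplicativity
-/

set_option autoImplicit false

namespace Pool.L2B

open MeasureTheory SimpleGraph
open scoped ENNReal

theorem stmt_KSUM (hLEV : Stmt_LEV) : Stmt_KSUM := by
  intro V _ G C d L D R k hG p₀ θ τ hK A hA n m x hx
  obtain ⟨-, -, -, -, hcomp, huniq⟩ := hLEV V G C d L D R k hG
  have hmem : ∀ p : (Σ B : LL C A n, LL C B.1 m), p.2.1 ∈ LL C A (n + m) := fun p =>
    hcomp A hA n m p.1.1 p.1.2 p.2.1 p.2.2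
  let F : (Σ B : LL C A n, LL C B.1 m) → LL C A (n + m) := fun p => ⟨p.2.1, hmem p⟩
  have hinj : Function.Injective F := by
    rintro ⟨⟨B, hB⟩, ⟨B', hB'⟩⟩ ⟨⟨Y, hY⟩, ⟨Y', hY'⟩⟩ h
    have h1 : B' = Y' := congrArg Subtype.val h
    subst h1
    obtain ⟨X, -, -, hX⟩ := huniq A hA n m B' (hcomp A hA n m B hB B' hB')
    have h2 : B = X := hX B hB hB'.2.1
    have h3 : Y = X := hX Y hY hY'.2.1
    subst h2
    subst h3
    rfl
  calc an G C τ A n * x
      = ∑' B : LL C A n, τ (base G A) (base G B.1) * x := by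
        rw [an, ENNReal.tsum_mul_right]
    _ ≤ ∑' B : LL C A n, ∑' B' : LL C B.1 m, τ (base G A) (base G B'.1) := by
        refine ENNReal.tsum_le_tsum fun B => ?_
        calc τ (base G A) (base G B.1) * x
            ≤ τ (base G A) (base G B.1) * ∑' B' : LL C B.1 m, τ (base G B.1) (base G B'.1) :=
              mul_le_mul_right (hx B.1 B.2) _
          _ = ∑' B' : LL C B.1 m, τ (base G A) (base G B.1) * τ (base G B.1) (base G B'.1) := by
              rw [ENNReal.tsum_mul_left]
          _ ≤ ∑' B' : LL C B.1 m, τ (base G A) (base G B'.1) :=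
              ENNReal.tsum_le_tsum fun B' => hK.har _ _ _
    _ = ∑' p : (Σ B : LL C A n, LL C B.1 m), τ (base G A) (base G (F p).1) := by
        rw [ENNReal.tsum_sigma']
    _ ≤ ∑' B'' : LL C A (n + m), τ (base G A) (base G B''.1) :=
        ENNReal.tsum_comp_le_tsum_of_injective hinj
          (fun B'' : LL C A (n + m) => τ (base G A) (base G B''.1))
    _ = an G C τ A (n + m) := rfl

end Pool.L2B
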