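import Pool.Agent.Work.MP_23451d_me.Interface

/-!
# Block KUD: the cuts below a cut outside `K` in the case of a fixed end
-/

set_option autoImplicit false

namespace Pool.L2B

open MeasureTheory SimpleGraph
open scoped ENNReal

theorem stmt_KUD (hLEV : Stmt_LEV) (hTRA : Stmt_TRA) (hPAR : Stmt_PAR) : Stmt_KUD := by
  intro V _ G C d L D R k hG K hK hdich
  obtain ⟨l1, l2, l3, l4, l5, l6⟩ := hLEV V G C d L D R k hG
  obtain ⟨P, h1, h2, h3⟩ := hPAR V G C d L D R k hG K hK hdich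
  -- a base cut outside `K`
  obtain ⟨Q0, hQ0C, hQ0K, hQ0⟩ : ∃ Q0 ∈ C, Q0 ∉ K ∧ ∀ Q ∈ C, Q ∉ K → ∃ ψ : G ≃g G, Q = ψ '' Q0 := by
    obtain ⟨A₀, hA₀, hone⟩ := hG.one
    rcases hdich A₀ hA₀ with ⟨ha, hb⟩ | ⟨ha, hb⟩
    · refine ⟨A₀ᶜ, hG.compl _ hA₀, hb, ?_⟩
      intro Q hQ hQK
      obtain ⟨φ, h | h⟩ := hone Q hQ
      · exact absurd (h ▸ hK.inv φ _ ha) hQK
      · exact ⟨φ, h⟩
    · refine ⟨A₀, hA₀, ha, ?_⟩
      intro Q hQ hQK
      obtain ⟨φ, h | h⟩ := hone Q hQ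
      · exact ⟨φ, h⟩
      · exact absurd (h ▸ hK.inv φ _ hb) hQK
  refine ⟨2 * D + G.dist (base G Q0) (base G (P Q0)), ?_⟩
  have hdist : ∀ Q ∈ C, Q ∉ K →
      G.dist (base G Q) (base G (P Q)) ≤ 2 * D + G.dist (base G Q0) (base G (P Q0)) := by
    intro Q hQ hQK
    obtain ⟨ψ, rfl⟩ := hQ0 Q hQ hQK
    rw [h2 ψ Q0 hQ0C hQ0K]
    obtain ⟨t1, t2, t3, t4, t5⟩ := hTRA V G C d L D R k hG ψ
    have e1 := t5 Q0 hQ0C
    have e2 := t5 (P Q0) (hK.sub (h1 Q0 hQ0C hQ0K).1)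
    have e3 := t1 (base G Q0) (base G (P Q0))
    have c1 := hG.conn.dist_triangle (u := base G (ψ '' Q0)) (v := ψ (base G Q0))
      (w := base G (ψ '' P Q0))
    have c2 := hG.conn.dist_triangle (u := ψ (base G Q0)) (v := ψ (base G (P Q0)))
      (w := base G (ψ '' P Q0))
    have c3 : G.dist (ψ (base G (P Q0))) (base G (ψ '' P Q0)) =
        G.dist (base G (ψ '' P Q0)) (ψ (base G (P Q0))) := SimpleGraph.dist_comm
    omega
  intro A hA hAK
  choose Q hQ hQu using h3 A hA hAK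
  have hQ0' : Q 0 = A := by
    have := (hQ 0).1
    rw [l3 A hA] at this
    simpa using this
  have hQC : ∀ i, Q i ∈ C := fun i => (hQ i).1.1
  have hstep : ∀ i, Q (i + 1) ∈ LL C (Q i) 1 := by
    intro i
    obtain ⟨X, hX, hX1, -⟩ := l6 A hA i 1 (Q (i + 1)) (hQ (i + 1)).1
    have hXK : X ∉ K := fun hXK => (hQ (i + 1)).2 (hK.down X hXK _ (hQC _) hX1.2.1)
    have : X = Q i := hQu i X ⟨hX, hXK⟩
    rw [← this]
    exact hX1
  have hcompl : ∀ i, Q (i + 1) = (P (Q i))ᶜ := by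
    intro i
    rcases (h1 (Q i) (hQC i) (hQ i).2).2.2 (Q (i + 1)) (hstep i) with h | h
    · exact h
    · exact absurd h.1 (hQ (i + 1)).2
  refine ⟨Q, fun i => P (Q i), hQ0', fun i => ⟨(hQ i).1, (hstep i).2.1⟩,
    fun i => ⟨(h1 (Q i) (hQC i) (hQ i).2).1, hdist _ (hQC i) (hQ i).2⟩, ?_⟩
  intro n B hB
  have key : ∀ m, m ≤ n → B ∈ LL C (Q m) (n - m) ∨
      ∃ i < m, B ⊆ Q i ∧ B ∈ LL C (P (Q i)) (n - i) := by
    intro m
    induction m with
    | zero =>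
      intro _
      left
      rw [hQ0']
      simpa using hB
    | succ m ih =>
      intro hm
      rcases ih (by omega) with h | ⟨i, hi, h⟩
      · have hsplit : n - m = 1 + (n - (m + 1)) := by omega
        obtain ⟨X, hX, hBX, -⟩ := l6 (Q m) (hQC m) 1 (n - (m + 1)) B (by rw [← hsplit]; exact h)
        rcases (h1 (Q m) (hQC m) (hQ m).2).2.2 X hX with hx | ⟨-, hx⟩
        · left
          rw [hcompl m, ← hx]
          exact hBX
        · right
          refine ⟨m, by omega, h.2.1, ?_⟩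
          rw [hsplit]
          exact l5 (P (Q m)) (hK.sub (h1 (Q m) (hQC m) (hQ m).2).1) 1 (n - (m + 1)) X hx B hBX
      · right
        exact ⟨i, by omega, h⟩
  rcases key n le_rfl with h | h
  · left
    rw [Nat.sub_self, l3 (Q n) (hQC n)] at h
    simpa using h
  · right
    exact h

end Pool.L2B
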