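import Pool.Agent.Work.MP_23451d_me.Interface

set_option autoImplicit false

/-! # Block KUP (helper52) -/

namespace Pool.L2B

open MeasureTheory SimpleGraph
open scoped ENNReal

namespace KupAux

/-- the series of the exponents `(i + 1 - L) / L` converges -/
theorem geo_sum (L : ℕ) (hL : 1 ≤ L) (θ : ℝ≥0∞) (hθ : θ < 1) :
    ∑' i : ℕ, θ ^ ((i + 1 - L) / L) ≠ ⊤ := by
  have : NeZero L := ⟨by omega⟩
  have h1 : ∑' i : ℕ, θ ^ ((i + 1 - L) / L) =
      ∑' (q : ℕ) (j : Fin L), θ ^ (((Nat.divModEquiv L).symm (q, j) + 1 - L) / L) := by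
    rw [← ENNReal.tsum_prod]
    exact ((Nat.divModEquiv L).symm.tsum_eq (fun i : ℕ => θ ^ ((i + 1 - L) / L))).symm
  rw [h1]
  have h2 : ∀ (q : ℕ) (j : Fin L), θ ^ (((Nat.divModEquiv L).symm (q, j) + 1 - L) / L) ≤
      θ ^ (q - 1) := by
    intro q j
    refine pow_le_pow_right_of_le_one' hθ.le ?_
    have h3 : (Nat.divModEquiv L).symm (q, j) = q * L + j := by
      simp [Nat.divModEquiv]
    rw [h3, Nat.le_div_iff_mul_le (by omega), Nat.sub_mul, one_mul]
    omega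
  have h3 : ∑' (q : ℕ) (j : Fin L), θ ^ (((Nat.divModEquiv L).symm (q, j) + 1 - L) / L) ≤
      ∑' q : ℕ, (L : ℝ≥0∞) * θ ^ (q - 1) := by
    refine ENNReal.tsum_le_tsum fun q => ?_
    calc ∑' j : Fin L, θ ^ (((Nat.divModEquiv L).symm (q, j) + 1 - L) / L)
        ≤ ∑' _ : Fin L, θ ^ (q - 1) := ENNReal.tsum_le_tsum fun j => h2 q j
      _ = (L : ℝ≥0∞) * θ ^ (q - 1) := by
        rw [tsum_fintype, Finset.sum_const, Finset.card_univ, Fintype.card_fin, nsmul_eq_mul]
  refine ne_top_of_le_ne_top ?_ h3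
  rw [ENNReal.tsum_mul_left]
  refine ENNReal.mul_ne_top (by simp) ?_
  have h4 : ∑' q : ℕ, θ ^ (q - 1) = θ ^ (0 - 1) + ∑' q : ℕ, θ ^ (q + 1 - 1) :=
    tsum_eq_zero_add' ENNReal.summable
  rw [h4]
  simp only [Nat.zero_sub, pow_zero, Nat.add_sub_cancel]
  rw [ENNReal.tsum_geometric]
  refine ENNReal.add_ne_top.2 ⟨by simp, ?_⟩
  rw [ENNReal.inv_ne_top]
  exact (tsub_pos_iff_lt.2 hθ).ne'

end KupAux

open KupAux in
theorem stmt_KUP (hSEP : Stmt_SEP) (hBAS : Stmt_BAS) (hKUD : Stmt_KUD) (hKBND : Stmt_KBND) :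
    Stmt_KUP := by
  intro V _ G C d L D R k hG K hK hdich p₀ θ hp₀ hθ
  obtain ⟨D', hD'⟩ := hKUD V G C d L D R k hG K hK hdich
  obtain ⟨c₀, hc₀, hbnd⟩ := hKBND V G C d L D R k hG K hK p₀ hp₀
  obtain ⟨hs1, hs2, hs3, hs4, hs5⟩ := hSEP V G C d L D R k hG
  have hS := geo_sum L hG.hL θ hθ
  obtain ⟨S, hSdef⟩ : ∃ S, S = ∑' i : ℕ, θ ^ ((i + 1 - L) / L) := ⟨_, rfl⟩
  rw [← hSdef] at hS
  refine ⟨(1 + S * ((k + 1 : ℝ≥0∞) * c₀)) / p₀ ^ (D + D' + 1), ?_, ?_⟩
  · refine ENNReal.div_ne_top ?_ (pow_ne_zero _ hp₀)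
    refine ENNReal.add_ne_top.2 ⟨by simp, ENNReal.mul_ne_top hS (ENNReal.mul_ne_top ?_ hc₀)⟩
    exact ENNReal.add_ne_top.2 ⟨by simp, by simp⟩
  intro τ hτ A hA hAK n
  obtain ⟨hb1, hb2, hb3, hb4, hb5⟩ := hBAS V G C d L D R k hG p₀ θ τ hτ
  obtain ⟨Q, P, hQ0, hQ, hP, hdec⟩ := hD' A hA hAK
  -- `p₀ ≤ 1`
  obtain ⟨u, hu⟩ : ∃ u, (base G A, u) ∈ bdE G A := by
    obtain ⟨e, he⟩ := (hG.bd A hA).2.1
    exact Classical.epsilon_spec (p := fun v => ∃ u, (v, u) ∈ bdE G A) ⟨e.1, e.2, he⟩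
  have hp1 : p₀ ≤ 1 := (hτ.edge _ _ hu.2.2).trans (hτ.le_one _ _)
  have hpow0 : p₀ ^ (D + D' + 1) ≠ 0 := pow_ne_zero _ hp₀
  have hpowt : p₀ ^ (D + D' + 1) ≠ ⊤ := ENNReal.pow_ne_top (ne_top_of_le_ne_top (by simp) hp1)
  have hQC : ∀ i, Q i ∈ C := fun i => (hQ i).1.1
  have hQA : ∀ i, Q i ⊆ A := fun i => (hQ i).1.2.1
  have hanti : Antitone Q := antitone_nat_of_succ_le fun i => (hQ i).2
  have hinj : Function.Injective Q := by
    intro i j hij
    have h1 := (hQ i).1.2.2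
    have h2 := (hQ j).1.2.2
    rw [hij] at h1
    omega
  have hPd : ∀ i, p₀ ^ D' ≤ τ (base G (P i)) (base G (Q i)) := by
    intro i
    rw [hτ.symm]
    exact (pow_le_pow_right_of_le_one' hp1 (hP i).2).trans (hb1 _ _)
  -- transfer of the starting point
  have htr : ∀ i x y z, (x, y) ∈ bdE G (Q i) →
      p₀ ^ (D + D') * τ x z ≤ τ (base G (P i)) z := by
    intro i x y z hxy
    have h1 := hb3 (Q i) (hQC i) (x, y) hxy
    calc p₀ ^ (D + D') * τ x z = p₀ ^ D' * (p₀ ^ D * τ x z) := by ring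
      _ ≤ τ (base G (P i)) (base G (Q i)) * (τ (base G (Q i)) x * τ x z) :=
        mul_le_mul' (hPd i) (mul_le_mul' h1 le_rfl)
      _ ≤ τ (base G (P i)) (base G (Q i)) * τ (base G (Q i)) z :=
        mul_le_mul' le_rfl (hτ.har _ _ _)
      _ ≤ τ (base G (P i)) z := hτ.har _ _ _
  -- counting
  classical
  have hJ : ∀ i, ((Finset.range (i + 1)).filter (fun j => base G A ∈ Q j)).card ≤ L := by
    intro i
    have h1 := hG.lf _ _ hu.2.2
    refine le_trans ?_ h1.2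
    have h2 : (Q '' (((Finset.range (i + 1)).filter (fun j => base G A ∈ Q j) : Finset ℕ) : Set ℕ)) ⊆
        sep C (base G A) u := by
      rintro _ ⟨j, hj, rfl⟩
      have hj' : base G A ∈ Q j := by
        have := Finset.mem_coe.1 hj
        exact (Finset.mem_filter.1 this).2
      exact ⟨hQC j, hj', fun h => hu.2.1 (hQA j h)⟩
    have h3 := Set.ncard_le_ncard h2 h1.1
    rw [Set.ncard_image_of_injective _ hinj, Set.ncard_coe_finset] at h3
    exact h3
  have key : ∀ i, ∀ B ∈ C, B ⊆ Q i → τ (base G A) (base G B) * p₀ ^ (D + D' + 1) ≤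
      θ ^ ((i + 1 - L) / L) * ((k + 1 : ℝ≥0∞) * τ (base G (P i)) (base G B)) := by
    intro i B hB hBQ
    by_cases hbA : base G A ∈ Q i
    · have h1 : (Finset.range (i + 1)).filter (fun j => base G A ∈ Q j) = Finset.range (i + 1) := by
        refine Finset.filter_true_of_mem fun j hj => hanti ?_ hbA
        have := Finset.mem_range.1 hj
        omega
      have h2 := hJ i
      rw [h1, Finset.card_range] at h2
      have h3 : (i + 1 - L) / L = 0 := by
        have : i + 1 - L = 0 := by omega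
        rw [this, Nat.zero_div]
      rw [h3, pow_zero, one_mul]
      have h4 := htr i (base G A) u (base G B) ⟨hbA, fun h => hu.2.1 (hQA i h), hu.2.2⟩
      calc τ (base G A) (base G B) * p₀ ^ (D + D' + 1)
          = (p₀ ^ (D + D') * τ (base G A) (base G B)) * p₀ := by ring
        _ ≤ τ (base G (P i)) (base G B) * 1 := mul_le_mul' h4 hp1
        _ = 1 * τ (base G (P i)) (base G B) := by ring
        _ ≤ (k + 1 : ℝ≥0∞) * τ (base G (P i)) (base G B) := mul_le_mul' (by simp) le_rfl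
    · have hQc := hG.compl _ (hQC i)
      have h1 := hτ.cut _ hQc (base G A) hbA (base G B) (fun h => h (hBQ (hb2 B hB)))
      have h2 : ∀ e : bdE G (Q i)ᶜ, τ (base G A) e.1.1 * τ e.1.2 (base G B) * p₀ ^ (D + D' + 1) ≤
          θ ^ ((i + 1 - L) / L) * τ (base G (P i)) (base G B) := by
        rintro ⟨⟨a, b⟩, he⟩
        have hbQ : b ∈ Q i := by
          by_contra h
          exact he.2.1 h
        have h3 := htr i b a (base G B) ⟨hbQ, he.1, he.2.2.symm⟩
        have h4 : τ (base G A) a * p₀ ≤ τ (base G A) b :=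
          (mul_le_mul' le_rfl (hτ.edge _ _ he.2.2)).trans (hτ.har _ _ _)
        have h5 : i + 1 - L ≤ (sep C (base G A) b).ncard := by
          have h6 := hJ i
          have h7 := Finset.card_filter_add_card_filter_not (s := Finset.range (i + 1))
            (fun j => base G A ∈ Q j)
          rw [Finset.card_range] at h7
          have h8 : ((fun j => (Q j)ᶜ) ''
              (((Finset.range (i + 1)).filter (fun j => ¬ base G A ∈ Q j) : Finset ℕ) : Set ℕ)) ⊆
              sep C (base G A) b := by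
            rintro _ ⟨j, hj, rfl⟩
            have hj' := Finset.mem_filter.1 (Finset.mem_coe.1 hj)
            have hj2 : j ≤ i := by
              have := Finset.mem_range.1 hj'.1
              omega
            exact ⟨hG.compl _ (hQC j), hj'.2, fun h => h (hanti hj2 hbQ)⟩
          have h9 := Set.ncard_le_ncard h8 (hs1 _ _)
          rw [Set.ncard_image_of_injective _ (fun x y h => hinj (compl_injective h)),
            Set.ncard_coe_finset] at h9
          omega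
        have h6 : τ (base G A) b ≤ θ ^ ((i + 1 - L) / L) :=
          (hτ.dec _ _).trans (pow_le_pow_right_of_le_one' hθ.le (Nat.div_le_div_right h5))
        calc τ (base G A) a * τ b (base G B) * p₀ ^ (D + D' + 1)
            = (τ (base G A) a * p₀) * (p₀ ^ (D + D') * τ b (base G B)) := by ring
          _ ≤ θ ^ ((i + 1 - L) / L) * τ (base G (P i)) (base G B) :=
            mul_le_mul' (h4.trans h6) h3
      have hbd := hG.bd _ hQc
      calc τ (base G A) (base G B) * p₀ ^ (D + D' + 1)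
          ≤ (∑' e : bdE G (Q i)ᶜ, τ (base G A) e.1.1 * τ e.1.2 (base G B)) * p₀ ^ (D + D' + 1) :=
            mul_le_mul' h1 le_rfl
        _ = ∑' e : bdE G (Q i)ᶜ, τ (base G A) e.1.1 * τ e.1.2 (base G B) * p₀ ^ (D + D' + 1) :=
            ENNReal.tsum_mul_right.symm
        _ ≤ ∑' _ : bdE G (Q i)ᶜ, θ ^ ((i + 1 - L) / L) * τ (base G (P i)) (base G B) :=
            ENNReal.tsum_le_tsum h2
        _ = (((bdE G (Q i)ᶜ).ncard : ℕ) : ℝ≥0∞) *
              (θ ^ ((i + 1 - L) / L) * τ (base G (P i)) (base G B)) := by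
            have : Finite (bdE G (Q i)ᶜ) := hbd.1
            let _ := Fintype.ofFinite (bdE G (Q i)ᶜ)
            rw [tsum_fintype, Finset.sum_const, Finset.card_univ, nsmul_eq_mul,
              ← Nat.card_eq_fintype_card]
            rfl
        _ ≤ (k + 1 : ℝ≥0∞) * (θ ^ ((i + 1 - L) / L) * τ (base G (P i)) (base G B)) := by
            refine mul_le_mul' ?_ le_rfl
            have h3 : (((bdE G (Q i)ᶜ).ncard : ℕ) : ℝ≥0∞) ≤ (k : ℝ≥0∞) := by
              exact_mod_cast hbd.2.2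
            exact h3.trans (by simp)
        _ = θ ^ ((i + 1 - L) / L) * ((k + 1 : ℝ≥0∞) * τ (base G (P i)) (base G B)) := by ring
  -- decomposition
  rw [ENNReal.le_div_iff_mul_le (Or.inl hpow0) (Or.inl hpowt)]
  obtain ⟨T, hT⟩ : ∃ T : ℕ → Set (Set V), T = fun i => {B | B ∈ LL C (P i) (n - i) ∧ B ⊆ Q i} :=
    ⟨_, rfl⟩
  have hTm : ∀ i, ∀ B ∈ T i, B ∈ LL C (P i) (n - i) ∧ B ⊆ Q i := by
    rw [hT]
    exact fun i B hB => hB
  have hcov : LL C A n ⊆ {Q n} ∪ ⋃ i ∈ Finset.range n, T i := by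
    intro B hB
    rcases hdec n B hB with h | ⟨i, hi, h1, h2⟩
    · exact Or.inl h
    · right
      simp only [Set.mem_iUnion]
      refine ⟨i, Finset.mem_range.2 hi, ?_⟩
      rw [hT]
      exact ⟨h2, h1⟩
  obtain ⟨F, hF⟩ : ∃ F : Set V → ℝ≥0∞, F = fun B => τ (base G A) (base G B) := ⟨_, rfl⟩
  have h1 : an G C τ A n ≤ F (Q n) + ∑ i ∈ Finset.range n, ∑' B : T i, F B := by
    have h2 : an G C τ A n = ∑' B : LL C A n, F B := by rw [hF]; rfl
    rw [h2]
    refine (ENNReal.tsum_mono_subtype F hcov).trans ((ENNReal.tsum_union_le F _ _).trans ?_)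
    refine add_le_add ?_ (ENNReal.tsum_biUnion_le F _ _)
    rw [tsum_singleton (Q n) F]
  have h2 : ∀ i ∈ Finset.range n, (∑' B : T i, F B) * p₀ ^ (D + D' + 1) ≤
      θ ^ ((i + 1 - L) / L) * ((k + 1 : ℝ≥0∞) * c₀) := by
    intro i hi
    calc (∑' B : T i, F B) * p₀ ^ (D + D' + 1) = ∑' B : T i, F B * p₀ ^ (D + D' + 1) :=
          ENNReal.tsum_mul_right.symm
      _ ≤ ∑' B : T i, θ ^ ((i + 1 - L) / L) * ((k + 1 : ℝ≥0∞) *
            (fun X => τ (base G (P i)) (base G X)) (B : Set V)) := by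
          refine ENNReal.tsum_le_tsum fun B => ?_
          have hB := hTm i B.1 B.2
          rw [hF]
          exact key i B.1 hB.1.1 hB.2
      _ = θ ^ ((i + 1 - L) / L) * ((k + 1 : ℝ≥0∞) *
            ∑' B : T i, (fun X => τ (base G (P i)) (base G X)) (B : Set V)) := by
          rw [ENNReal.tsum_mul_left, ENNReal.tsum_mul_left]
      _ ≤ θ ^ ((i + 1 - L) / L) * ((k + 1 : ℝ≥0∞) * c₀) := by
          refine mul_le_mul' le_rfl (mul_le_mul' le_rfl ?_)
          have h3 : T i ⊆ LL C (P i) (n - i) := fun B hB => (hTm i B hB).1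
          exact (ENNReal.tsum_mono_subtype (fun X => τ (base G (P i)) (base G X)) h3).trans
            (hbnd θ τ hτ (P i) (hP i).1 (n - i))
  have h3 : F (Q n) * p₀ ^ (D + D' + 1) ≤ 1 := by
    have h4 : F (Q n) ≤ 1 := by rw [hF]; exact hτ.le_one _ _
    calc F (Q n) * p₀ ^ (D + D' + 1) ≤ 1 * 1 := mul_le_mul' h4 (pow_le_one' hp1 _)
      _ = 1 := one_mul 1
  calc an G C τ A n * p₀ ^ (D + D' + 1)
      ≤ (F (Q n) + ∑ i ∈ Finset.range n, ∑' B : T i, F B) * p₀ ^ (D + D' + 1) :=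
        mul_le_mul' h1 le_rfl
    _ = F (Q n) * p₀ ^ (D + D' + 1) +
        ∑ i ∈ Finset.range n, (∑' B : T i, F B) * p₀ ^ (D + D' + 1) := by
        rw [add_mul, Finset.sum_mul]
    _ ≤ 1 + ∑ i ∈ Finset.range n, θ ^ ((i + 1 - L) / L) * ((k + 1 : ℝ≥0∞) * c₀) :=
        add_le_add h3 (Finset.sum_le_sum h2)
    _ = 1 + (∑ i ∈ Finset.range n, θ ^ ((i + 1 - L) / L)) * ((k + 1 : ℝ≥0∞) * c₀) := by
        rw [Finset.sum_mul]
    _ ≤ 1 + S * ((k + 1 : ℝ≥0∞) * c₀) := by
        refine add_le_add le_rfl (mul_le_mul' ?_ le_rfl)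
        rw [hSdef]
        exact ENNReal.sum_le_tsum _

end Pool.L2B
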