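import Pool.Agent.Work.MP_23451d_me.Interface

/-!
# Block KVS (helper63): weighted sums over vertices
-/

set_option autoImplicit false

namespace Pool.L2B

open MeasureTheory SimpleGraph
open scoped ENNReal

namespace KVS

theorem base_spec {V : Type} [Nonempty V] {G : SimpleGraph V} {A : Set V}
    (h : (bdE G A).Nonempty) : ∃ u, (base G A, u) ∈ bdE G A := by
  obtain ⟨⟨v, u⟩, he⟩ := h
  exact Classical.epsilon_spec (p := fun v => ∃ u, (v, u) ∈ bdE G A) ⟨v, u, he⟩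

theorem bdE_compl {V : Type} {G : SimpleGraph V} {A : Set V} {e : V × V} (h : e ∈ bdE G A) :
    (e.2, e.1) ∈ bdE G Aᶜ := ⟨h.2.1, fun h1 => h1 h.1, h.2.2.symm⟩

theorem tsum_ball {V : Type} {B : Set V} (hB : B.Finite) {k : ℕ} (hk : B.ncard ≤ k)
    [DecidablePred (· ∈ B)] (c : ℝ≥0∞) : ∑' y, (if y ∈ B then c else 0) ≤ k * c := by
  classical
  have h1 : ∑' y, (if y ∈ B then c else 0) = ∑ y ∈ hB.toFinset, c := by
    rw [tsum_eq_sum (s := hB.toFinset) (fun y hy => by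
      rw [if_neg (fun h => hy (hB.mem_toFinset.2 h))])]
    refine Finset.sum_congr rfl fun y hy => ?_
    rw [if_pos (hB.mem_toFinset.1 hy)]
  rw [h1, Finset.sum_const, nsmul_eq_mul, ← Set.ncard_eq_toFinset_card B hB]
  refine mul_le_mul_left ?_ c
  exact_mod_cast hk

theorem geo_ne_top {r : ℝ≥0∞} (hr : r < 1) (c₀ : ℕ) : ∑' n : ℕ, r ^ (n + 1 - c₀) ≠ ⊤ := by
  obtain ⟨r', hr'⟩ : ∃ r' : ℝ≥0∞, r' = max r 2⁻¹ := ⟨_, rfl⟩
  have h0 : r' ≠ 0 := by
    rw [hr']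
    have : (0 : ℝ≥0∞) < max r 2⁻¹ := lt_of_lt_of_le (by simp) (le_max_right _ _)
    exact this.ne'
  have h1 : r' < 1 := by
    rw [hr']
    exact max_lt hr (by simp)
  have ht : r' ≠ ⊤ := (h1.trans ENNReal.one_lt_top).ne
  have h2 : ∀ n : ℕ, r ^ (n + 1 - c₀) ≤ (r'⁻¹) ^ c₀ * r' ^ n := by
    intro n
    have h3 : r ^ (n + 1 - c₀) ≤ r' ^ (n + 1 - c₀) :=
      pow_le_pow_left' (by rw [hr']; exact le_max_left _ _) _
    refine h3.trans ?_
    have h4 : r' ^ (n + 1 - c₀) = (r'⁻¹) ^ c₀ * (r' ^ c₀ * r' ^ (n + 1 - c₀)) := by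
      rw [← mul_assoc, ← mul_pow, ENNReal.inv_mul_cancel h0 ht, one_pow, one_mul]
    rw [h4, ← pow_add]
    exact mul_le_mul_right (pow_le_pow_right_of_le_one' h1.le (by omega)) _
  refine ne_top_of_le_ne_top ?_ (ENNReal.tsum_le_tsum h2)
  rw [ENNReal.tsum_mul_left, ENNReal.tsum_geometric]
  refine ENNReal.mul_ne_top (ENNReal.pow_ne_top (ENNReal.inv_ne_top.2 h0)) ?_
  rw [ENNReal.inv_ne_top]
  exact (tsub_pos_of_lt h1).ne'

section main
variable {V : Type} [Nonempty V] {G : SimpleGraph V} {C : Set (Set V)} {d L D R k : ℕ}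

/-- both sides of some cut have their base vertices near `x` -/
theorem near2 (hG : Geo0 G C d L D R k) (x : V) :
    ∃ A ∈ C, G.dist x (base G A) ≤ R + D + 1 ∧ G.dist x (base G Aᶜ) ≤ R + D + 1 := by
  obtain ⟨A, hA, e, he, hd⟩ := hG.near x
  refine ⟨A, hA, ?_, ?_⟩
  · obtain ⟨u, hu⟩ := base_spec (hG.bd A hA).2.1
    have h1 := hG.diam A hA e he _ hu
    have h2 := hG.conn.dist_triangle (u := x) (v := e.1) (w := base G A)
    dsimp only at h1
    omega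
  · obtain ⟨u, hu⟩ := base_spec (hG.bd _ (hG.compl A hA)).2.1
    have h1 := hG.diam _ (hG.compl A hA) _ (bdE_compl he) _ hu
    dsimp only at h1
    have h2 := hG.conn.dist_triangle (u := x) (v := e.1) (w := e.2)
    have h3 := hG.conn.dist_triangle (u := x) (v := e.2) (w := base G Aᶜ)
    have h4 : G.dist e.1 e.2 ≤ 1 := (SimpleGraph.dist_eq_one_iff_adj.2 he.2.2).le
    omega

end main

end KVS

open KVS in
theorem stmt_KVS (hBAL : Stmt_BAL) (hSEP : Stmt_SEP) (hLEV : Stmt_LEV) (hBAS : Stmt_BAS) :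
    Stmt_KVS := by
  intro V _ G C d L D R k hG p₀ r c hp hr hc
  classical
  obtain ⟨hfin, -, htri, hdist, -⟩ := hSEP V G C d L D R k hG
  obtain ⟨hbtw, -, -, -, -, -⟩ := hLEV V G C d L D R k hG
  obtain ⟨R1, hR1⟩ : ∃ R1 : ℕ, R1 = R + D + 1 := ⟨_, rfl⟩
  obtain ⟨c₀, hc₀⟩ : ∃ c₀ : ℕ, c₀ = L * (2 * R1 + 1) := ⟨_, rfl⟩
  obtain ⟨Kc, hKc⟩ : ∃ Kc : ℝ≥0∞, Kc = (p₀⁻¹) ^ (2 * R1) := ⟨_, rfl⟩
  have hKct : Kc ≠ ⊤ := by rw [hKc]; exact ENNReal.pow_ne_top (ENNReal.inv_ne_top.2 hp)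
  have hgeo := geo_ne_top hr c₀
  obtain ⟨S, hS⟩ : ∃ S : ℝ≥0∞, S = ∑' n : ℕ, r ^ (n + 1 - c₀) := ⟨_, rfl⟩
  refine ⟨2 * ((((d + 1) ^ R1 : ℕ) : ℝ≥0∞) * Kc * (S * c)), ?_, ?_⟩
  · refine ENNReal.mul_ne_top (by simp) (ENNReal.mul_ne_top (ENNReal.mul_ne_top
      (ENNReal.natCast_ne_top _) hKct) (ENNReal.mul_ne_top ?_ hc))
    rw [hS]; exact hgeo
  intro θ τ hK han x
  obtain ⟨b1, b2, -, -, -⟩ := hBAS V G C d L D R k hG p₀ θ τ hK
  -- `p₀ ≤ 1`
  obtain ⟨A₀, hA₀⟩ := hG.ne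
  obtain ⟨⟨v₀, u₀⟩, he₀⟩ := (hG.bd A₀ hA₀).2.1
  have hp1 : p₀ ≤ 1 := (hK.edge v₀ u₀ he₀.2.2).trans (hK.le_one _ _)
  have hpt : p₀ ≠ ⊤ := ne_top_of_le_ne_top ENNReal.one_ne_top hp1
  have hpR : ∀ a b : V, G.dist a b ≤ R1 → p₀ ^ R1 ≤ τ a b := fun a b h =>
    (pow_le_pow_right_of_le_one' hp1 h).trans (b1 a b)
  obtain ⟨Ax, hAx, hx1, hx2⟩ := near2 hG x
  rw [← hR1] at hx1 hx2
  have key : ∀ A ∈ C, G.dist x (base G A) ≤ R1 → ∀ B ∈ C, B ⊆ A → ∀ y,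
      G.dist y (base G B) ≤ R1 → ∃ n, B ∈ LL C A n ∧
      τ x y * r ^ (sep C y x).ncard ≤ Kc * τ (base G A) (base G B) * r ^ (n + 1 - c₀) := by
    intro A hA hxA B hB hBA y hyB
    obtain ⟨hf, h1⟩ := hbtw A hA B hB hBA
    refine ⟨(btw C B A).ncard - 1, ⟨hB, hBA, by omega⟩, ?_⟩
    obtain ⟨u, hu⟩ := base_spec (hG.bd A hA).2.1
    -- number of separating cuts
    have h2 : (btw C B A).ncard ≤ (sep C (base G B) u).ncard := by
      refine Set.ncard_le_ncard (fun X hX => ?_) (hfin _ _)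
      exact ⟨hX.1, hX.2.1 (b2 B hB), fun h => hu.2.1 (hX.2.2 h)⟩
    have h3 := htri (base G B) y u
    have h4 := htri y x u
    have h5 := hdist (base G B) y
    have h6 := hdist x u
    have h7 : G.dist x u ≤ R1 + 1 := by
      have h8 := hG.conn.dist_triangle (u := x) (v := base G A) (w := u)
      have h9 : G.dist (base G A) u ≤ 1 := (SimpleGraph.dist_eq_one_iff_adj.2 hu.2.2).le
      omega
    have h8 : G.dist (base G B) y ≤ R1 := by rw [SimpleGraph.dist_comm]; exact hyB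
    have h9 : L * G.dist (base G B) y ≤ L * R1 := Nat.mul_le_mul_left L h8
    have h10 : L * G.dist x u ≤ L * (R1 + 1) := Nat.mul_le_mul_left L h7
    have h11 : c₀ = L * R1 + L * (R1 + 1) := by rw [hc₀]; ring
    have h12 : (btw C B A).ncard - 1 + 1 - c₀ ≤ (sep C y x).ncard := by omega
    have h13 : r ^ (sep C y x).ncard ≤ r ^ ((btw C B A).ncard - 1 + 1 - c₀) :=
      pow_le_pow_right_of_le_one' hr.le h12
    -- the two-point function
    have t1 : p₀ ^ R1 * (τ x y * p₀ ^ R1) ≤ τ (base G A) (base G B) := by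
      calc p₀ ^ R1 * (τ x y * p₀ ^ R1)
          ≤ τ (base G A) x * (τ x y * τ y (base G B)) :=
            mul_le_mul' (hpR _ _ (by rw [SimpleGraph.dist_comm]; exact hxA))
              (mul_le_mul_right (hpR _ _ hyB) _)
        _ ≤ τ (base G A) x * τ x (base G B) := mul_le_mul_right (hK.har _ _ _) _
        _ ≤ τ (base G A) (base G B) := hK.har _ _ _
    have t2 : τ x y ≤ Kc * τ (base G A) (base G B) := by
      calc τ x y = ((p₀⁻¹) ^ R1 * p₀ ^ R1) * ((p₀⁻¹) ^ R1 * p₀ ^ R1) * τ x y := by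
            rw [← mul_pow, ENNReal.inv_mul_cancel hp hpt, one_pow, one_mul, one_mul]
        _ = Kc * (p₀ ^ R1 * (τ x y * p₀ ^ R1)) := by
            rw [hKc, two_mul, pow_add]; ring
        _ ≤ Kc * τ (base G A) (base G B) := mul_le_mul_right t1 _
    exact mul_le_mul' t2 h13
  obtain ⟨f, hf⟩ : ∃ f : Set V → V → ℝ≥0∞, f = fun A y => ∑' n : ℕ, ∑' B : LL C A n,
    (if y ∈ {z | G.dist (base G B.1) z ≤ R1} then
      Kc * τ (base G A) (base G B.1) * r ^ (n + 1 - c₀) else 0) := ⟨_, rfl⟩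
  have hle : ∀ A ∈ C, G.dist x (base G A) ≤ R1 → ∀ B ∈ C, B ⊆ A → ∀ y,
      G.dist y (base G B) ≤ R1 → τ x y * r ^ (sep C y x).ncard ≤ f A y := by
    intro A hA hxA B hB hBA y hyB
    obtain ⟨n, hBn, h1⟩ := key A hA hxA B hB hBA y hyB
    rw [hf]
    refine h1.trans (le_trans ?_ (ENNReal.le_tsum n))
    refine le_trans ?_ (ENNReal.le_tsum (⟨B, hBn⟩ : LL C A n))
    rw [if_pos (show y ∈ {z | G.dist (base G B) z ≤ R1} by
      show G.dist (base G B) y ≤ R1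
      rw [SimpleGraph.dist_comm]; exact hyB)]
  have hpt2 : ∀ y, τ x y * r ^ (sep C y x).ncard ≤ f Ax y + f Axᶜ y := by
    intro y
    obtain ⟨Ay, hAy, hy1, hy2⟩ := near2 hG y
    rw [← hR1] at hy1 hy2
    rcases hG.nest Ax hAx Ay hAy with h | h | h | h
    · exact (hle _ (hG.compl _ hAx) hx2 _ (hG.compl _ hAy) (Set.compl_subset_compl.2 h) y
        hy2).trans le_add_self
    · exact (hle _ (hG.compl _ hAx) hx2 _ hAy (Set.subset_compl_comm.1 h) y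
        hy1).trans le_add_self
    · exact (hle _ hAx hx1 _ (hG.compl _ hAy) (Set.compl_subset_comm.1 h) y
        hy2).trans le_self_add
    · exact (hle _ hAx hx1 _ hAy (Set.compl_subset_compl.1 h) y hy1).trans le_self_add
  have hsum : ∀ A ∈ C, ∑' y, f A y ≤ (((d + 1) ^ R1 : ℕ) : ℝ≥0∞) * Kc * (S * c) := by
    intro A hA
    rw [hf]
    dsimp only
    rw [ENNReal.tsum_comm]
    have h1 : ∀ n : ℕ, ∑' y, ∑' B : LL C A n, (if y ∈ {z | G.dist (base G B.1) z ≤ R1} then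
        Kc * τ (base G A) (base G B.1) * r ^ (n + 1 - c₀) else 0) ≤
        (((d + 1) ^ R1 : ℕ) : ℝ≥0∞) * Kc * (r ^ (n + 1 - c₀) * c) := by
      intro n
      rw [ENNReal.tsum_comm]
      calc ∑' B : LL C A n, ∑' y, (if y ∈ {z | G.dist (base G B.1) z ≤ R1} then
            Kc * τ (base G A) (base G B.1) * r ^ (n + 1 - c₀) else 0)
          ≤ ∑' B : LL C A n, (((d + 1) ^ R1 : ℕ) : ℝ≥0∞) *
              (Kc * τ (base G A) (base G B.1) * r ^ (n + 1 - c₀)) := by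
            refine ENNReal.tsum_le_tsum fun B => ?_
            obtain ⟨g1, g2⟩ := hBAL V G d hG.conn hG.deg (base G B.1) R1
            exact tsum_ball g1 g2 _
        _ = (((d + 1) ^ R1 : ℕ) : ℝ≥0∞) * Kc * (r ^ (n + 1 - c₀) * an G C τ A n) := by
            unfold an
            rw [← ENNReal.tsum_mul_left, ← ENNReal.tsum_mul_left]
            refine tsum_congr fun B => ?_
            ring
        _ ≤ (((d + 1) ^ R1 : ℕ) : ℝ≥0∞) * Kc * (r ^ (n + 1 - c₀) * c) :=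
            mul_le_mul_right (mul_le_mul_right (han A hA n) _) _
    refine (ENNReal.tsum_le_tsum h1).trans ?_
    rw [ENNReal.tsum_mul_left, ENNReal.tsum_mul_right, ← hS]
  calc ∑' y, τ x y * r ^ (sep C y x).ncard ≤ ∑' y, (f Ax y + f Axᶜ y) :=
        ENNReal.tsum_le_tsum hpt2
    _ = ∑' y, f Ax y + ∑' y, f Axᶜ y := ENNReal.tsum_add
    _ ≤ (((d + 1) ^ R1 : ℕ) : ℝ≥0∞) * Kc * (S * c) + (((d + 1) ^ R1 : ℕ) : ℝ≥0∞) * Kc * (S * c) :=
        add_le_add (hsum _ hAx) (hsum _ (hG.compl _ hAx))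
    _ = 2 * ((((d + 1) ^ R1 : ℕ) : ℝ≥0∞) * Kc * (S * c)) := (two_mul _).symm

end Pool.L2B
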