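import Pool.Agent.Work.MP_23451d_me.Interface

/-!
# Block LAB: one label
-/

set_option autoImplicit false

namespace Pool.L2B

open MeasureTheory SimpleGraph
open scoped ENNReal

theorem lab_set (V : Type) (e : Sym2 V) (p : ℝ) :
    {ω : Sym2 V → unitInterval | ((ω e : unitInterval) : ℝ) < p} =
      (fun ω : Sym2 V → unitInterval => ω e) ⁻¹' {x : unitInterval | (x : ℝ) < p} := rfl

theorem lab_meas (p : ℝ) : MeasurableSet {x : unitInterval | (x : ℝ) < p} :=
  measurableSet_lt measurable_subtype_coe measurable_const

theorem stmt_LAB : Stmt_LAB := by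
  intro V e p
  refine ⟨?_, ?_⟩
  · rw [lab_set]
    have h : MeasurableSet[MeasurableSpace.comap
        (fun ω : Sym2 V → unitInterval => ω e) inferInstance]
        ((fun ω : Sym2 V → unitInterval => ω e) ⁻¹' {x : unitInterval | (x : ℝ) < p}) :=
      ⟨_, lab_meas p, rfl⟩
    refine MeasurableSpace.le_def.1 ?_ _ h
    exact le_iSup₂_of_le e (Set.mem_singleton e) le_rfl
  · intro h0 h1
    rw [lab_set]
    have hmp : MeasurePreserving (fun ω : Sym2 V → unitInterval => ω e) (mu V)
        (volume : Measure unitInterval) :=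
      measurePreserving_eval_infinitePi (fun _ : Sym2 V => (volume : Measure unitInterval)) e
    rw [hmp.measure_preimage (lab_meas p).nullMeasurableSet]
    have hs : {x : unitInterval | (x : ℝ) < p} = Set.Iio (⟨p, h0, h1⟩ : unitInterval) := by
      ext x
      simp only [Set.mem_setOf_eq, Set.mem_Iio, ← Subtype.coe_lt_coe]
    rw [hs, unitInterval.volume_Iio]

end Pool.L2B
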