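import Pool.Agent.Work.MP_23451d_me.Interface

/-! # Block LEV (helper85) -/

set_option autoImplicit false

namespace Pool.L2B

open SimpleGraph

theorem stmt_LEV (hSEP : Stmt_SEP) (hBEY : Stmt_BEY) : Stmt_LEV := by
  classical
  intro V G C d L D R k hG
  obtain ⟨hfin, -, -, -, hchain⟩ := hSEP V G C d L D R k hG
  -- `btw` is contained in some `sep`
  have hsub : ∀ A ∈ C, ∀ B ∈ C, B ⊆ A → ∃ x y, btw C B A ⊆ sep C x y := by
    intro A hA B hB _
    obtain ⟨x, hx⟩ := (hG.inf B hB).nonempty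
    obtain ⟨y, hy⟩ := (hG.inf Aᶜ (hG.compl A hA)).nonempty
    exact ⟨x, y, fun X hX => ⟨hX.1, hX.2.1 hx, fun h => hy (hX.2.2 h)⟩⟩
  have h1 : ∀ A ∈ C, ∀ B ∈ C, B ⊆ A → (btw C B A).Finite ∧ 1 ≤ (btw C B A).ncard := by
    intro A hA B hB hBA
    obtain ⟨x, y, hs⟩ := hsub A hA B hB hBA
    have hf := (hfin x y).subset hs
    refine ⟨hf, ?_⟩
    exact (Set.ncard_pos hf).2 ⟨A, hA, hBA, le_rfl⟩
  have h2 : ∀ A ∈ C, ∀ B ∈ C, B ⊆ A → ∀ X ∈ btw C B A, ∀ Y ∈ btw C B A, X ⊆ Y ∨ Y ⊆ X := by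
    intro A hA B hB hBA X hX Y hY
    obtain ⟨x, y, hs⟩ := hsub A hA B hB hBA
    exact hchain x y X (hs hX) Y (hs hY)
  have hAA : ∀ A ∈ C, btw C A A = {A} := by
    intro A hA
    ext X
    constructor
    · rintro ⟨-, h, h'⟩
      exact Set.Subset.antisymm h' h
    · rintro rfl
      exact ⟨hA, le_rfl, le_rfl⟩
  have h3 : ∀ A ∈ C, LL C A 0 = {A} := by
    intro A hA
    ext B
    constructor
    · rintro ⟨hB, hBA, hc⟩
      obtain ⟨Z, hZ⟩ := Set.ncard_eq_one.1 hc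
      have e1 : A ∈ btw C B A := ⟨hA, hBA, le_rfl⟩
      have e2 : B ∈ btw C B A := ⟨hB, le_rfl, hBA⟩
      rw [hZ] at e1 e2
      rw [Set.mem_singleton_iff] at e1 e2 ⊢
      rw [e1, e2]
    · rintro rfl
      refine ⟨hA, le_rfl, ?_⟩
      rw [hAA _ hA, Set.ncard_singleton]
  -- additivity
  have hadd : ∀ A ∈ C, ∀ B ∈ C, ∀ X ∈ C, B ⊆ X → X ⊆ A →
      (btw C B A).ncard + 1 = (btw C B X).ncard + (btw C X A).ncard := by
    intro A hA B hB X hX hBX hXA
    have e1 : btw C B A = btw C B X ∪ btw C X A := by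
      ext Z
      constructor
      · intro hZ
        rcases h2 A hA B hB (hBX.trans hXA) Z hZ X ⟨hX, hBX, hXA⟩ with h | h
        · left; exact ⟨hZ.1, hZ.2.1, h⟩
        · right; exact ⟨hZ.1, h, hZ.2.2⟩
      · rintro (hZ | hZ)
        · exact ⟨hZ.1, hZ.2.1, hZ.2.2.trans hXA⟩
        · exact ⟨hZ.1, hBX.trans hZ.2.1, hZ.2.2⟩
    have e2 : btw C B X ∩ btw C X A = {X} := by
      ext Z
      constructor
      · rintro ⟨hZ, hZ'⟩
        exact Set.Subset.antisymm hZ.2.2 hZ'.2.1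
      · rintro rfl
        exact ⟨⟨hX, hBX, le_rfl⟩, ⟨hX, le_rfl, hXA⟩⟩
    have e3 := Set.ncard_union_add_ncard_inter (btw C B X) (btw C X A) (h1 X hX B hB hBX).1
      (h1 A hA X hX hXA).1
    rw [← e1, e2, Set.ncard_singleton] at e3
    exact e3
  have h5 : ∀ A ∈ C, ∀ n m, ∀ X ∈ LL C A n, ∀ B ∈ LL C X m, B ∈ LL C A (n + m) := by
    rintro A hA n m X ⟨hX, hXA, cX⟩ B ⟨hB, hBX, cB⟩
    refine ⟨hB, hBX.trans hXA, ?_⟩
    have := hadd A hA B hB X hX hBX hXA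
    omega
  have h6 : ∀ A ∈ C, ∀ n m, ∀ B ∈ LL C A (n + m), ∃ X ∈ LL C A n, B ∈ LL C X m ∧
      ∀ Y ∈ LL C A n, B ⊆ Y → Y = X := by
    rintro A hA n m B ⟨hB, hBA, cB⟩
    have hS := (h1 A hA B hB hBA).1
    -- injectivity of the level
    have hinj : ∀ X ∈ btw C B A, ∀ Y ∈ btw C B A, (btw C X A).ncard = (btw C Y A).ncard →
        X = Y := by
      have key : ∀ X ∈ btw C B A, ∀ Y ∈ btw C B A, X ⊆ Y →
          (btw C X A).ncard = (btw C Y A).ncard → X = Y := by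
        intro X hX Y hY hXY e
        have a1 := hadd A hA X hX.1 Y hY.1 hXY hY.2.2
        have a2 : (btw C X Y).ncard = 1 := by omega
        obtain ⟨Z, hZ⟩ := Set.ncard_eq_one.1 a2
        have e1 : X ∈ btw C X Y := ⟨hX.1, le_rfl, hXY⟩
        have e2 : Y ∈ btw C X Y := ⟨hY.1, hXY, le_rfl⟩
        rw [hZ] at e1 e2
        rw [Set.mem_singleton_iff] at e1 e2
        rw [e1, e2]
      intro X hX Y hY e
      rcases h2 A hA B hB hBA X hX Y hY with h | h
      · exact key X hX Y hY h e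
      · exact (key Y hY X hX h e.symm).symm
    let T : Finset (Set V) := hS.toFinset
    let f : Set V → ℕ := fun X => (btw C X A).ncard
    have hT : ∀ X, X ∈ T ↔ X ∈ btw C B A := fun X => hS.mem_toFinset
    have hcT : T.card = n + m + 1 := by
      rw [← cB, Set.ncard_eq_toFinset_card _ hS]
    have himg : T.image f = Finset.Icc 1 (n + m + 1) := by
      apply Finset.eq_of_subset_of_card_le
      · intro j hj
        obtain ⟨X, hX, rfl⟩ := Finset.mem_image.1 hj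
        rw [hT] at hX
        rw [Finset.mem_Icc]
        have a1 := hadd A hA B hB X hX.1 hX.2.1 hX.2.2
        have a2 := (h1 X hX.1 B hB hX.2.1).2
        have a3 := (h1 A hA X hX.1 hX.2.2).2
        refine ⟨a3, ?_⟩
        change (btw C X A).ncard ≤ n + m + 1
        omega
      · rw [Finset.card_image_of_injOn, hcT, Nat.card_Icc]
        · omega
        · intro X hX Y hY e
          exact hinj X ((hT X).1 hX) Y ((hT Y).1 hY) e
    have hn : n + 1 ∈ T.image f := by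
      rw [himg, Finset.mem_Icc]
      omega
    obtain ⟨X, hX, hfX⟩ := Finset.mem_image.1 hn
    rw [hT] at hX
    have hfX' : (btw C X A).ncard = n + 1 := hfX
    refine ⟨X, ⟨hX.1, hX.2.2, hfX'⟩, ⟨hB, hX.2.1, ?_⟩, ?_⟩
    · have a1 := hadd A hA B hB X hX.1 hX.2.1 hX.2.2
      omega
    · rintro Y ⟨hY, hYA, cY⟩ hBY
      exact hinj Y ⟨hY, hBY, hYA⟩ X hX (by rw [cY, hfX'])
  refine ⟨h1, h2, h3, ?_, h5, h6⟩
  intro A hA n
  induction n with
  | zero => exact ⟨A, by rw [h3 A hA]; rfl⟩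
  | succ n ih =>
    obtain ⟨B, hB⟩ := ih
    obtain ⟨B', hB', hss⟩ := hBEY V G C d L D R k hG B hB.1
    have hsub' : B' ⊆ B := hss.subset
    obtain ⟨hf, -⟩ := h1 B hB.1 B' hB' hsub'
    have hne : B' ≠ B := hss.ne
    have h2' : 2 ≤ (btw C B' B).ncard := by
      have e1 : ({B', B} : Set (Set V)) ⊆ btw C B' B := by
        rintro Z (rfl | rfl)
        · exact ⟨hB', le_rfl, hsub'⟩
        · exact ⟨hB.1, hsub', le_rfl⟩
      have := Set.ncard_le_ncard e1 hf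
      rwa [Set.ncard_pair hne] at this
    obtain ⟨t, ht⟩ := Nat.exists_eq_add_of_le h2'
    obtain ⟨X, hX, -, -⟩ := h6 B hB.1 1 t B' ⟨hB', hsub', by omega⟩
    exact ⟨X, h5 A hA n 1 B hB X hX⟩

end Pool.L2B
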