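import Pool.Agent.Work.MP_23451d_me.Interface

/-! # Block LIM: finite volume limit -/

set_option autoImplicit false

namespace Pool.L2B

open MeasureTheory SimpleGraph
open scoped ENNReal

theorem conn_mono_LIM {V : Type} {G G' : SimpleGraph V} (h : G ≤ G') {p : ℝ}
    {ω : Sym2 V → unitInterval} {u v : V} (hc : Conn G p ω u v) : Conn G' p ω u v := by
  obtain ⟨w, hw⟩ := hc
  exact ⟨w.mapLe h, by rwa [Walk.edges_mapLe_eq_edges]⟩

theorem within_mono_LIM {V : Type} (G : SimpleGraph V) {S T : Set V} (h : S ⊆ T) :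
    within G S ≤ within G T := fun _ _ hab => ⟨hab.1, h hab.2.1, h hab.2.2⟩

theorem within_le_LIM {V : Type} (G : SimpleGraph V) (S : Set V) : within G S ≤ G :=
  fun _ _ hab => hab.1

theorem stmt_LIM : Stmt_LIM := by
  classical
  intro V _ G p x y
  have hset : {ω : Sym2 V → unitInterval | Conn G p ω x y}
      = ⋃ Λ : Finset V, {ω | Conn (within G (Λ : Set V)) p ω x y} := by
    ext ω
    simp only [Set.mem_ofPred_eq, Set.mem_iUnion]
    constructor
    · rintro ⟨w, hw⟩
      refine ⟨w.support.toFinset, w.transfer _ ?_, ?_⟩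
      · intro e he
        induction e with
        | _ a b =>
          rw [mem_edgeSet]
          refine ⟨w.adj_of_mem_edges he, ?_, ?_⟩
          · simpa using w.fst_mem_support_of_mem_edges he
          · simpa using w.snd_mem_support_of_mem_edges he
      · rw [Walk.edges_transfer]; exact hw
    · rintro ⟨Λ, h⟩
      exact conn_mono_LIM (within_le_LIM G _) h
  unfold tau
  rw [hset]
  apply Directed.measure_iUnion
  intro Λ₁ Λ₂
  refine ⟨Λ₁ ∪ Λ₂, ?_, ?_⟩
  · intro ω hω
    exact conn_mono_LIM (within_mono_LIM G (by simp)) hω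
  · intro ω hω
    exact conn_mono_LIM (within_mono_LIM G (by simp)) hω

end Pool.L2B
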