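import Pool.Agent.Work.MP_23451d_me.Interface

set_option autoImplicit false

namespace Pool.L2B

open SimpleGraph

namespace OPTaux

variable {V : Type}

theorem cross_compl_left {A Y : Set V} (h : Cross A Y) : Cross Aᶜ Y := by
  obtain ⟨h1, h2, h3, h4⟩ := h
  refine ⟨h3, h4, ?_, ?_⟩
  · rw [compl_compl]; exact h1
  · rw [compl_compl]; exact h2

theorem cross_compl_iff {A Y : Set V} : Cross Aᶜ Y ↔ Cross A Y :=
  ⟨fun h => by simpa using cross_compl_left h, cross_compl_left⟩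

theorem cross_compl_right {A Y : Set V} (h : Cross A Y) : Cross A Yᶜ := by
  obtain ⟨h1, h2, h3, h4⟩ := h
  refine ⟨h2, ?_, h4, ?_⟩
  · rw [compl_compl]; exact h1
  · rw [compl_compl]; exact h3

theorem cross_inter {A B Y : Set V} (hAB : (Aᶜ ∩ Bᶜ).Nonempty) (h : Cross (A ∩ B) Y) :
    Cross A Y ∨ Cross B Y := by
  by_contra hc
  push Not at hc
  obtain ⟨hA, hB⟩ := hc
  obtain ⟨⟨a, ha⟩, ⟨b, hb⟩, ⟨c, hc⟩, ⟨d, hd⟩⟩ := h
  obtain ⟨e, he⟩ := hAB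
  have hA1 : (A ∩ Y).Nonempty := ⟨a, ha.1.1, ha.2⟩
  have hA2 : (A ∩ Yᶜ).Nonempty := ⟨b, hb.1.1, hb.2⟩
  have hB1 : (B ∩ Y).Nonempty := ⟨a, ha.1.2, ha.2⟩
  have hB2 : (B ∩ Yᶜ).Nonempty := ⟨b, hb.1.2, hb.2⟩
  have hA3 : ¬ (Aᶜ ∩ Y).Nonempty ∨ ¬ (Aᶜ ∩ Yᶜ).Nonempty := by
    by_contra hh
    push Not at hh
    exact hA ⟨hA1, hA2, hh.1, hh.2⟩
  have hB3 : ¬ (Bᶜ ∩ Y).Nonempty ∨ ¬ (Bᶜ ∩ Yᶜ).Nonempty := by
    by_contra hh
    push Not at hh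
    exact hB ⟨hB1, hB2, hh.1, hh.2⟩
  rcases hA3 with h1 | h1 <;> rcases hB3 with h2 | h2
  · have h3 : c ∈ A := by
      by_contra hh
      exact h1 ⟨c, hh, hc.2⟩
    have h4 : c ∈ B := by
      by_contra hh
      exact h2 ⟨c, hh, hc.2⟩
    exact hc.1 ⟨h3, h4⟩
  · by_cases hY : e ∈ Y
    · exact h1 ⟨e, he.1, hY⟩
    · exact h2 ⟨e, he.2, hY⟩
  · by_cases hY : e ∈ Y
    · exact h2 ⟨e, he.2, hY⟩
    · exact h1 ⟨e, he.1, hY⟩
  · have h3 : d ∈ A := by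
      by_contra hh
      exact h1 ⟨d, hh, hd.2⟩
    have h4 : d ∈ B := by
      by_contra hh
      exact h2 ⟨d, hh, hd.2⟩
    exact hd.1 ⟨h3, h4⟩

theorem cross_union {A B Y : Set V} (hAB : (A ∩ B).Nonempty) (h : Cross (A ∪ B) Y) :
    Cross A Y ∨ Cross B Y := by
  have h1 : Cross (Aᶜ ∩ Bᶜ) Y := by
    rw [← Set.compl_union]
    exact cross_compl_left h
  have h2 := cross_inter (A := Aᶜ) (B := Bᶜ) (by simpa using hAB) h1
  rwa [cross_compl_iff, cross_compl_iff] at h2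

theorem cross_both {A B Y : Set V} (h1 : Cross (A ∩ B) Y) (h2 : Cross (A ∪ B) Y) :
    Cross A Y ∧ Cross B Y := by
  obtain ⟨⟨a, ha⟩, ⟨b, hb⟩, _, _⟩ := h1
  obtain ⟨_, _, ⟨c, hc⟩, ⟨d, hd⟩⟩ := h2
  have hc1 : c ∉ A ∧ c ∉ B := ⟨fun h => hc.1 (Or.inl h), fun h => hc.1 (Or.inr h)⟩
  have hd1 : d ∉ A ∧ d ∉ B := ⟨fun h => hd.1 (Or.inl h), fun h => hd.1 (Or.inr h)⟩
  exact ⟨⟨⟨a, ha.1.1, ha.2⟩, ⟨b, hb.1.1, hb.2⟩, ⟨c, hc1.1, hc.2⟩, ⟨d, hd1.1, hd.2⟩⟩,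
    ⟨⟨a, ha.1.2, ha.2⟩, ⟨b, hb.1.2, hb.2⟩, ⟨c, hc1.2, hc.2⟩, ⟨d, hd1.2, hd.2⟩⟩⟩

theorem core (hS : Stmt_SUBM) (hF : Stmt_CRF) (G : SimpleGraph V) (hG : G.Connected) (k : ℕ)
    (A B : Set V) (hA : Narrow G k A) (hB : Narrow G k B)
    (mA : ∀ X, Narrow G k X →
      {Y | Narrow G k Y ∧ Cross A Y}.ncard ≤ {Y | Narrow G k Y ∧ Cross X Y}.ncard)
    (mB : ∀ X, Narrow G k X →
      {Y | Narrow G k Y ∧ Cross B Y}.ncard ≤ {Y | Narrow G k Y ∧ Cross X Y}.ncard)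
    (hc : Cross A B) (h1 : (A ∩ B).Infinite) (h2 : (Aᶜ ∩ Bᶜ).Infinite) : False := by
  obtain ⟨_, _, hf1, hf2, hle⟩ := hS V G A B hA.1.2.2 hB.1.2.2
  have c1 : IsCut G (A ∩ B) :=
    ⟨h1, hA.1.2.1.mono (by rw [Set.compl_inter]; exact Set.subset_union_left), hf1⟩
  have c2 : IsCut G (A ∪ B) :=
    ⟨hA.1.1.mono Set.subset_union_left, by rw [Set.compl_union]; exact h2, hf2⟩
  have k1 := hA.2.2 _ c1
  have k2 := hA.2.2 _ c2
  have kA := hA.2.1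
  have kB := hB.2.1
  have n1 : Narrow G k (A ∩ B) := ⟨c1, by omega, hA.2.2⟩
  have n2 : Narrow G k (A ∪ B) := ⟨c2, by omega, hA.2.2⟩
  have f1 := hF V G hG k _ n1
  have f2 := hF V G hG k _ n2
  have fA := hF V G hG k _ hA
  have fB := hF V G hG k _ hB
  have m1 := mA _ n1
  have m2 := mB _ n2
  have e1 := Set.ncard_union_add_ncard_inter {Y | Narrow G k Y ∧ Cross (A ∩ B) Y}
    {Y | Narrow G k Y ∧ Cross (A ∪ B) Y} f1 f2
  have e2 := Set.ncard_union_add_ncard_inter {Y | Narrow G k Y ∧ Cross A Y}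
    {Y | Narrow G k Y ∧ Cross B Y} fA fB
  have e3 : ({Y | Narrow G k Y ∧ Cross (A ∩ B) Y} ∩ {Y | Narrow G k Y ∧ Cross (A ∪ B) Y}).ncard ≤
      ({Y | Narrow G k Y ∧ Cross A Y} ∩ {Y | Narrow G k Y ∧ Cross B Y}).ncard := by
    apply Set.ncard_le_ncard _ (fA.inter_of_left _)
    rintro Y ⟨⟨hY, ha⟩, ⟨_, hb⟩⟩
    have := cross_both ha hb
    exact ⟨⟨hY, this.1⟩, ⟨hY, this.2⟩⟩
  have e4 : ({Y | Narrow G k Y ∧ Cross (A ∩ B) Y} ∪ {Y | Narrow G k Y ∧ Cross (A ∪ B) Y}).ncard <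
      ({Y | Narrow G k Y ∧ Cross A Y} ∪ {Y | Narrow G k Y ∧ Cross B Y}).ncard := by
    apply Set.ncard_lt_ncard _ (fA.union fB)
    refine ⟨?_, ?_⟩
    · rintro Y (⟨hY, ha⟩ | ⟨hY, ha⟩)
      · rcases cross_inter hc.2.2.2 ha with h | h
        · exact Or.inl ⟨hY, h⟩
        · exact Or.inr ⟨hY, h⟩
      · rcases cross_union hc.1 ha with h | h
        · exact Or.inl ⟨hY, h⟩
        · exact Or.inr ⟨hY, h⟩
    · intro hsub
      have hBA : Cross B A := by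
        obtain ⟨q1, q2, q3, q4⟩ := hc
        exact ⟨by rwa [Set.inter_comm], by rwa [Set.inter_comm], by rwa [Set.inter_comm],
          by rwa [Set.inter_comm]⟩
      have hmem : A ∈ {Y | Narrow G k Y ∧ Cross A Y} ∪ {Y | Narrow G k Y ∧ Cross B Y} :=
        Or.inr ⟨hA, hBA⟩
      rcases hsub hmem with ⟨_, h⟩ | ⟨_, h⟩
      · obtain ⟨x, hx⟩ := h.2.1
        exact hx.2 hx.1.1
      · obtain ⟨x, hx⟩ := h.2.2.1
        exact hx.1 (Or.inl hx.2)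
  omega

end OPTaux

open OPTaux in
theorem stmt_OPT (hS : Stmt_SUBM) (hF : Stmt_CRF) : Stmt_OPT := by
  intro V G hG k A B hA hB mA mB hc
  by_cases h1 : (A ∩ B).Infinite ∧ (Aᶜ ∩ Bᶜ).Infinite
  · exact core hS hF G hG k A B hA hB mA mB hc h1.1 h1.2
  by_cases h2 : (A ∩ Bᶜ).Infinite ∧ (Aᶜ ∩ B).Infinite
  · have hBc : Narrow G k Bᶜ := by
      obtain ⟨q1, q2, _⟩ := hS V G B B hB.1.2.2 hB.1.2.2
      exact ⟨⟨hB.1.2.1, by rw [compl_compl]; exact hB.1.1, q1⟩, q2.trans hB.2.1, hB.2.2⟩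
    refine core hS hF G hG k A Bᶜ hA hBc mA ?_ (cross_compl_right hc) h2.1
      (by rw [compl_compl]; exact h2.2)
    intro X hX
    simp only [cross_compl_iff]
    exact mB X hX
  · rw [not_and_or, Set.not_infinite, Set.not_infinite] at h1 h2
    have hAi : A = (A ∩ B) ∪ (A ∩ Bᶜ) := by
      rw [← Set.inter_union_distrib_left, Set.union_compl_self, Set.inter_univ]
    have hAc : Aᶜ = (Aᶜ ∩ B) ∪ (Aᶜ ∩ Bᶜ) := by
      rw [← Set.inter_union_distrib_left, Set.union_compl_self, Set.inter_univ]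
    have hBi : B = (A ∩ B) ∪ (Aᶜ ∩ B) := by
      rw [← Set.union_inter_distrib_right, Set.union_compl_self, Set.univ_inter]
    have hBc : Bᶜ = (A ∩ Bᶜ) ∪ (Aᶜ ∩ Bᶜ) := by
      rw [← Set.union_inter_distrib_right, Set.union_compl_self, Set.univ_inter]
    rcases h1 with h1 | h1 <;> rcases h2 with h2 | h2
    · exact hA.1.1 (hAi ▸ h1.union h2)
    · exact hB.1.1 (hBi ▸ h1.union h2)
    · exact hB.1.2.1 (hBc ▸ h2.union h1)
    · exact hA.1.2.1 (hAc ▸ h2.union h1)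

end Pool.L2B
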