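import Pool.Agent.Work.MP_23451d_me.Interface

/-!
# PAR: the parent of a cut in the case of a fixed end
-/

set_option autoImplicit false

namespace Pool.L2B

open MeasureTheory SimpleGraph
open scoped ENNReal

theorem stmt_PAR (hLEV : Stmt_LEV) (hTRA : Stmt_TRA) : Stmt_PAR := by
  intro V G C d L D R k hG K hK hdi
  have : Nonempty V := hG.conn.nonempty
  obtain ⟨l1, l2, l3, l4, l5, l6⟩ := hLEV V G C d L D R k hG
  have hne : ∀ A ∈ C, A.Nonempty := fun A hA => (hG.inf A hA).nonempty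
  have huniv : ∀ A ∈ C, ∀ X Y : Set V, X ⊆ A → Y ⊆ A → Xᶜ ⊆ Y → False := by
    intro A hA X Y hX hY hXY
    obtain ⟨z, hz⟩ := hne _ (hG.compl A hA)
    by_cases hzX : z ∈ X
    · exact hz (hX hzX)
    · exact hz (hY (hXY hzX))
  -- incomparability at the same level
  have hinc : ∀ A ∈ C, ∀ n, ∀ X ∈ LL C A n, ∀ Y ∈ LL C A n, X ⊆ Y → Y = X := by
    intro A hA n X hX Y hY hXY
    obtain ⟨X', hX', hXX', huq⟩ := l6 A hA n 0 X hX
    rw [l3 X' hX'.1] at hXX'
    have e : X = X' := hXX'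
    rw [huq Y hY hXY, ← e]
  have hup : ∀ Q ∈ C, Q ∉ K → ∀ Q' ∈ C, Q ⊆ Q' → Q' ∉ K :=
    fun Q hQ hQK Q' hQ' hs hK' => hQK (hK.down Q' hK' Q hQ hs)
  have hcK : ∀ Q ∈ C, Q ∉ K → Qᶜ ∈ K := by
    intro Q hQ hQK
    rcases hdi Q hQ with h | h
    · exact absurd h.1 hQK
    · exact h.2
  have hcU : ∀ Q ∈ K, Qᶜ ∉ K := by
    intro Q hQ
    rcases hdi Q (hK.sub hQ) with h | h
    · exact h.2
    · exact absurd hQ h.1
  -- the cuts outside K below a cut form a chain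
  have hchain : ∀ A ∈ C, ∀ Q ∈ C, ∀ Q' ∈ C, Q ∉ K → Q' ∉ K → Q ⊆ A → Q' ⊆ A →
      Q ⊆ Q' ∨ Q' ⊆ Q := by
    intro A hA Q hQ Q' hQ' hQK hQK' hs hs'
    rcases hG.nest Q hQ Q' hQ' with h | h | h | h
    · exact Or.inl h
    · exact absurd (hK.down _ (hcK Q' hQ' hQK') Q hQ h) hQK
    · exact (huniv A hA Q Q' hs hs' h).elim
    · exact Or.inr (Set.compl_subset_compl.mp h)
  -- existence at the next level
  have hex1 : ∀ Q ∈ C, Q ∉ K → ∃ W ∈ LL C Q 1, W ∉ K := by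
    intro Q hQ hQK
    have hQc := hcK Q hQ hQK
    obtain ⟨φ, hφ⟩ := hK.irr _ hQc _ hQc
    have hZ : φ.symm '' Qᶜ ∈ K := hK.inv φ.symm _ hQc
    have hsub : Qᶜ ⊂ φ.symm '' Qᶜ := by
      have h1 : φ.symm '' (φ '' Qᶜ) ⊂ φ.symm '' Qᶜ :=
        φ.symm.injective.image_strictMono hφ
      have h2 : φ.symm '' (φ '' Qᶜ) = Qᶜ := by
        rw [← Set.image_comp]
        have : (φ.symm : V → V) ∘ (φ : V → V) = id := by
          funext z
          exact φ.symm_apply_apply z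
        rw [this, Set.image_id]
      rwa [h2] at h1
    set Z := φ.symm '' Qᶜ with hZdef
    have hZC : Zᶜ ∈ C := hG.compl Z (hK.sub hZ)
    have hZU : Zᶜ ∉ K := hcU Z hZ
    have hZQ : Zᶜ ⊂ Q := by
      have := compl_lt_compl_iff_lt.mpr (show Qᶜ < Z from hsub)
      rw [compl_compl] at this
      exact this
    obtain ⟨hfin, hpos⟩ := l1 Q hQ Zᶜ hZC hZQ.subset
    have h2 : 2 ≤ (btw C Zᶜ Q).ncard := by
      have hs : ({Zᶜ, Q} : Set (Set V)) ⊆ btw C Zᶜ Q := by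
        intro X hX
        rcases hX with rfl | hX
        · exact ⟨hZC, subset_rfl, hZQ.subset⟩
        · rw [Set.mem_singleton_iff] at hX
          subst hX
          exact ⟨hQ, hZQ.subset, subset_rfl⟩
      have := Set.ncard_le_ncard hs hfin
      rwa [Set.ncard_pair hZQ.ne] at this
    obtain ⟨m, hm⟩ : ∃ m, (btw C Zᶜ Q).ncard = 1 + m + 1 :=
      ⟨(btw C Zᶜ Q).ncard - 2, by omega⟩
    have hmem : Zᶜ ∈ LL C Q (1 + m) := ⟨hZC, hZQ.subset, hm⟩
    obtain ⟨X, hX, hZX, -⟩ := l6 Q hQ 1 m _ hmem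
    exact ⟨X, hX, hup _ hZC hZU X hX.1 hZX.2.1⟩
  have huq : ∀ A ∈ C, ∀ n, ∀ Q ∈ LL C A n, ∀ Q' ∈ LL C A n, Q ∉ K → Q' ∉ K → Q' = Q := by
    intro A hA n Q hQ Q' hQ' hQK hQK'
    rcases hchain A hA Q hQ.1 Q' hQ'.1 hQK hQK' hQ.2.1 hQ'.2.1 with h | h
    · exact hinc A hA n Q hQ Q' hQ' h
    · exact (hinc A hA n Q' hQ' Q hQ h).symm
  -- the two cuts between neighbouring levels
  have htwo : ∀ Q ∈ C, ∀ X ∈ LL C Q 1, X ≠ Q ∧ ∀ Y ∈ C, X ⊆ Y → Y ⊆ Q → Y = X ∨ Y = Q := by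
    intro Q hQ X hX
    have hc : (btw C X Q).ncard = 2 := hX.2.2
    have hXm : X ∈ btw C X Q := ⟨hX.1, subset_rfl, hX.2.1⟩
    have hQm : Q ∈ btw C X Q := ⟨hQ, hX.2.1, subset_rfl⟩
    have hXQ : X ≠ Q := by
      intro e
      have h0 := l3 Q hQ
      have h1 : Q ∈ LL C Q 0 := by rw [h0]; rfl
      have h2 : (btw C Q Q).ncard = 0 + 1 := h1.2.2
      rw [e] at hc
      omega
    refine ⟨hXQ, ?_⟩
    intro Y hY h1 h2
    obtain ⟨a, b, hab, he⟩ := Set.ncard_eq_two.mp hc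
    have hYm : Y ∈ btw C X Q := ⟨hY, h1, h2⟩
    rw [he] at hXm hQm hYm
    simp only [Set.mem_insert_iff, Set.mem_singleton_iff] at hXm hQm hYm
    rcases hXm with e1 | e1 <;> rcases hQm with e2 | e2
    · exact absurd (e1.trans e2.symm) hXQ
    · rcases hYm with e3 | e3
      · exact Or.inl (e3.trans e1.symm)
      · exact Or.inr (e3.trans e2.symm)
    · rcases hYm with e3 | e3
      · exact Or.inr (e3.trans e2.symm)
      · exact Or.inl (e3.trans e1.symm)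
    · exact absurd (e1.trans e2.symm) hXQ
  -- the parent
  classical
  let P : Set V → Set V := fun Q => if h : Q ∈ C ∧ Q ∉ K then (hex1 Q h.1 h.2).chooseᶜ else Q
  have hP : ∀ Q ∈ C, Q ∉ K → (P Q)ᶜ ∈ LL C Q 1 ∧ (P Q)ᶜ ∉ K := by
    intro Q hQ hQK
    have e : P Q = (hex1 Q hQ hQK).chooseᶜ := dif_pos ⟨hQ, hQK⟩
    rw [e, compl_compl]
    exact (hex1 Q hQ hQK).choose_spec
  refine ⟨P, ?_, ?_, ?_⟩
  · intro Q hQ hQK
    obtain ⟨hW1, hW2⟩ := hP Q hQ hQK
    have hPK : P Q ∈ K := by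
      have := hcK _ hW1.1 hW2
      rwa [compl_compl] at this
    refine ⟨hPK, hW1, ?_⟩
    intro X hX
    by_cases hXW : X = (P Q)ᶜ
    · exact Or.inl hXW
    right
    have hXK : X ∈ K := by
      by_contra hXK
      exact hXW (huq Q hQ 1 _ hW1 X hX hW2 hXK)
    refine ⟨hXK, ?_⟩
    set W := (P Q)ᶜ with hWdef
    have hPW : P Q = Wᶜ := by rw [hWdef, compl_compl]
    rw [hPW] at hPK ⊢
    have hXsub : X ⊆ Wᶜ := by
      rcases hG.nest X hX.1 W hW1.1 with h | h | h | h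
      · exact absurd (hinc Q hQ 1 X hX W hW1 h).symm hXW
      · exact h
      · exact (huniv Q hQ X W hX.2.1 hW1.2.1 h).elim
      · exact absurd (hinc Q hQ 1 W hW1 X hX (Set.compl_subset_compl.mp h)) hXW
    have hne1 : X ≠ Wᶜ := by
      intro e
      have h1 : Wᶜ ⊆ X := by rw [e]
      exact huniv Q hQ W X hW1.2.1 hX.2.1 h1
    have hWC : Wᶜ ∈ C := hG.compl W hW1.1
    refine ⟨hX.1, hXsub, ?_⟩
    have he : btw C X Wᶜ = {X, Wᶜ} := by
      ext Y
      constructor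
      · rintro ⟨hY, h1, h2⟩
        simp only [Set.mem_insert_iff, Set.mem_singleton_iff]
        obtain ⟨x, hx⟩ := hne X hX.1
        obtain ⟨w, hw⟩ := hne W hW1.1
        have hWY : W ⊆ Yᶜ := fun z hz hzY => h2 hzY hz
        rcases hG.nest Y hY Q hQ with h | h | h | h
        · rcases (htwo Q hQ X hX).2 Y hY h1 h with e | e
          · exact Or.inl e
          · exfalso
            rw [e] at hWY
            exact hWY hw (hW1.2.1 hw)
        · exact absurd (hX.2.1 hx) (h (h1 hx))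
        · rcases (htwo Q hQ W hW1).2 Yᶜ (hG.compl Y hY) hWY h with e | e
          · right
            rw [← e, compl_compl]
          · exfalso
            have : x ∈ Yᶜ := by rw [e]; exact hX.2.1 hx
            exact this (h1 hx)
        · exfalso
          have hQY : Q ⊆ Y := Set.compl_subset_compl.mp h
          exact hWY hw (hQY (hW1.2.1 hw))
      · rintro (rfl | hY)
        · exact ⟨hX.1, subset_rfl, hXsub⟩
        · rw [Set.mem_singleton_iff] at hY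
          subst hY
          exact ⟨hWC, hXsub, subset_rfl⟩
    rw [he, Set.ncard_pair hne1]
  · intro φ Q hQ hQK
    have hinvU : ∀ X : Set V, X ∉ K → φ '' X ∉ K := by
      intro X hX hX'
      have h1 := hK.inv φ.symm _ hX'
      have h2 : φ.symm '' (φ '' X) = X := by
        rw [← Set.image_comp]
        have : (φ.symm : V → V) ∘ (φ : V → V) = id := by
          funext z
          exact φ.symm_apply_apply z
        rw [this, Set.image_id]
      rw [h2] at h1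
      exact hX h1
    obtain ⟨hW1, hW2⟩ := hP Q hQ hQK
    have hφQ : φ '' Q ∈ C := hG.inv φ Q hQ
    have hφQK : φ '' Q ∉ K := hinvU Q hQK
    obtain ⟨hW1', hW2'⟩ := hP (φ '' Q) hφQ hφQK
    obtain ⟨-, -, t3, -⟩ := hTRA V G C d L D R k hG φ
    have h3 := t3 Q 1 _ hW1
    have h4 := huq (φ '' Q) hφQ 1 _ h3 _ hW1' (hinvU _ hW2) hW2'
    rw [Set.image_compl_eq φ.bijective] at h4
    exact compl_injective h4
  · intro A hA hAK n
    have hexn : ∀ n, ∃ Q, Q ∈ LL C A n ∧ Q ∉ K := by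
      intro n
      induction n with
      | zero => exact ⟨A, by rw [l3 A hA]; rfl, hAK⟩
      | succ n ih =>
        obtain ⟨Q, hQ, hQK⟩ := ih
        obtain ⟨W, hW, hWK⟩ := hex1 Q hQ.1 hQK
        exact ⟨W, l5 A hA n 1 Q hQ W hW, hWK⟩
    obtain ⟨Q, hQ, hQK⟩ := hexn n
    exact ⟨Q, ⟨hQ, hQK⟩, fun Y hY => huq A hA n Q hQ Y hY.1 hQK hY.2⟩

end Pool.L2B
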