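import Pool.Agent.Work.MP_23451d_me.Interface

/-!
# PER: the Schur bound persists slightly above `p` (MP_23451d_pr)
-/

set_option autoImplicit false

namespace Pool.L2B

open MeasureTheory SimpleGraph
open scoped ENNReal

namespace PerAux

theorem h_nbr {V : Type} {G : SimpleGraph V} {C : Set (Set V)} {d L D R k : ℕ}
    (hG : Geo0 G C d L D R k) (hSEP : Stmt_SEP) {r : ℝ≥0∞} (hr : r ≠ 0) (hr1 : r ≤ 1) (o a b : V)
    (hab : G.Adj a b) :
    r ^ (sep C b o).ncard ≤ (r⁻¹) ^ L * r ^ (sep C a o).ncard := by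
  have htri := (hSEP V G C d L D R k hG).2.2.1 a b o
  have hl := (hG.lf a b hab).2
  have hle : (sep C a o).ncard ≤ L + (sep C b o).ncard := by omega
  have h1 : r ^ (L + (sep C b o).ncard) ≤ r ^ (sep C a o).ncard :=
    pow_le_pow_right_of_le_one' hr1 hle
  have hrt : r ≠ ⊤ := ne_top_of_le_ne_top ENNReal.one_ne_top hr1
  calc r ^ (sep C b o).ncard = (r⁻¹) ^ L * r ^ (L + (sep C b o).ncard) := by
        rw [pow_add, ← mul_assoc, ← mul_pow, ENNReal.inv_mul_cancel hr hrt, one_pow, one_mul]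
    _ ≤ (r⁻¹) ^ L * r ^ (sep C a o).ncard := by gcongr

theorem tsum_edges {V : Type} {G H : SimpleGraph V} (hHG : H ≤ G) {d : ℕ}
    (hdeg : ∀ v, (G.neighborSet v).Finite ∧ (G.neighborSet v).ncard ≤ d) (F : V → ℝ≥0∞) :
    ∑' e : {e : V × V // H.Adj e.1 e.2}, F e.1.1 ≤ d * ∑' a, F a := by
  have hinj : Function.Injective (fun e : {e : V × V // H.Adj e.1 e.2} =>
      (⟨e.1.1, ⟨e.1.2, hHG e.2⟩⟩ : Σ a : V, G.neighborSet a)) := by
    rintro ⟨⟨a, b⟩, h⟩ ⟨⟨a', b'⟩, h'⟩ hh
    simp only [Sigma.mk.injEq] at hh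
    obtain ⟨h1, h2⟩ := hh
    subst h1
    have h3 := congrArg Subtype.val (eq_of_heq h2)
    simp only at h3
    subst h3
    rfl
  calc ∑' e : {e : V × V // H.Adj e.1 e.2}, F e.1.1
      ≤ ∑' s : (Σ a : V, G.neighborSet a), F s.1 :=
        ENNReal.tsum_comp_le_tsum_of_injective hinj (fun s => F s.1)
    _ = ∑' a, ∑' _ : G.neighborSet a, F a :=
        ENNReal.tsum_sigma' (fun s : (Σ a : V, G.neighborSet a) => F s.1)
    _ ≤ ∑' a, (d : ℝ≥0∞) * F a := by
        refine ENNReal.tsum_le_tsum (fun a => ?_)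
        rw [ENNReal.tsum_set_const]
        have h1 : (((G.neighborSet a).encard : ℕ∞) : ℝ≥0∞) ≤ (d : ℝ≥0∞) := by
          rw [← (hdeg a).1.cast_ncard_eq]
          simp only [ENat.toENNReal_coe]
          exact_mod_cast (hdeg a).2
        gcongr
    _ = d * ∑' a, F a := ENNReal.tsum_mul_left

end PerAux

theorem stmt_PER (hTAU : Stmt_TAU) (hLIM : Stmt_LIM) (hSPR : Stmt_SPR) (hSEP : Stmt_SEP) :
    Stmt_PER := by
  intro V _ G C d L D R k hG r c hr hr1 hc p p' hp hpp' hp'1 hsmall o hS x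
  classical
  have hrt : r ≠ ⊤ := ne_top_of_le_ne_top ENNReal.one_ne_top hr1
  obtain ⟨h, hh⟩ : ∃ h : V → ℝ≥0∞, h = fun y => r ^ (sep C y o).ncard := ⟨_, rfl⟩
  have hv : ∀ y, r ^ (sep C y o).ncard = h y := fun y => by rw [hh]
  simp only [hv] at hS ⊢
  have hpos : ∀ y, h y ≠ 0 := fun y => by rw [hh]; exact pow_ne_zero _ hr
  have hfin : ∀ y, h y ≠ ⊤ := fun y => by rw [hh]; exact ENNReal.pow_ne_top hrt
  have hnb : ∀ a b, G.Adj a b → h b ≤ (r⁻¹) ^ L * h a := fun a b hab => by
    rw [hh]; exact PerAux.h_nbr hG hSEP hr hr1 o a b hab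
  obtain ⟨δ, hδ⟩ : ∃ δ : ℝ≥0∞, δ = ENNReal.ofReal ((p' - p) / (1 - p)) := ⟨_, rfl⟩
  rw [← hδ] at hsmall
  have hmono : ∀ (G₁ G₂ : SimpleGraph V) (s : ℝ) (u v : V), G₁ ≤ G₂ →
      tau G₁ s u v ≤ tau G₂ s u v := fun G₁ G₂ s u v hle =>
    (hTAU V G₁ G₂ s s u v).2.2.2.2.1 hle
  have hone : ∀ (G₁ : SimpleGraph V) (s : ℝ) (u v : V), tau G₁ s u v ≤ 1 := fun G₁ s u v =>
    (hTAU V G₁ G₁ s s u v).1
  have key : ∀ Λ : Finset V, ∀ x ∈ Λ,
      ∑ y ∈ Λ, tau (within G (Λ : Set V)) p' x y * h y ≤ 2 * c * h x := by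
    intro Λ
    have hΛG : within G (Λ : Set V) ≤ G := fun a b hab => hab.1
    obtain ⟨T, hT⟩ : ∃ T : V → ℝ≥0∞,
      T = fun x => ∑ y ∈ Λ, tau (within G (Λ : Set V)) p' x y * h y := ⟨_, rfl⟩
    have hTv : ∀ x, ∑ y ∈ Λ, tau (within G (Λ : Set V)) p' x y * h y = T x := fun x => by rw [hT]
    obtain ⟨M, hM⟩ : ∃ M : ℝ≥0∞, M = Λ.sup (fun x => T x / h x) := ⟨_, rfl⟩
    have hTfin : ∀ x, T x ≠ ⊤ := fun x => by
      rw [hT]
      refine ENNReal.sum_ne_top.2 (fun y _ => ?_)
      exact ENNReal.mul_ne_top (ne_top_of_le_ne_top ENNReal.one_ne_top (hone _ _ _ _)) (hfin y)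
    have hMfin : M ≠ ⊤ := by
      rw [hM]
      refine ((Finset.sup_lt_iff (bot_lt_top)).2 (fun x _ => ?_)).ne
      exact ENNReal.div_lt_top (hTfin x) (hpos x)
    have hTM : ∀ x ∈ Λ, T x ≤ M * h x := by
      intro x hx
      have h1 : T x / h x ≤ M := by
        rw [hM]
        exact Finset.le_sup (f := fun x => T x / h x) hx
      exact (ENNReal.div_le_iff (hpos x) (hfin x)).1 h1
    have hstep : ∀ x ∈ Λ, T x ≤ (c + M / 2) * h x := by
      intro x hx
      have hA : ∑ y ∈ Λ, tau (within G (Λ : Set V)) p x y * h y ≤ c * h x :=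
        calc ∑ y ∈ Λ, tau (within G (Λ : Set V)) p x y * h y
            ≤ ∑ y ∈ Λ, tau G p x y * h y :=
              Finset.sum_le_sum (fun y _ => mul_le_mul' (hmono _ _ _ _ _ hΛG) le_rfl)
          _ ≤ ∑' y, tau G p x y * h y := ENNReal.sum_le_tsum _
          _ ≤ c * h x := hS x
      have hA' : ∑' a, tau (within G (Λ : Set V)) p x a * h a ≤ c * h x :=
        (ENNReal.tsum_le_tsum (fun y => mul_le_mul' (hmono _ _ _ _ _ hΛG) le_rfl)).trans (hS x)
      have hB : ∑ y ∈ Λ, (∑' e : {e : V × V // (within G (Λ : Set V)).Adj e.1 e.2},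
          tau (within G (Λ : Set V)) p x e.1.1 * δ * tau (within G (Λ : Set V)) p' e.1.2 y) * h y
          = ∑' e : {e : V × V // (within G (Λ : Set V)).Adj e.1 e.2},
            tau (within G (Λ : Set V)) p x e.1.1 * δ * T e.1.2 := by
        rw [hT]
        simp only [← ENNReal.tsum_mul_right]
        rw [← Summable.tsum_finsetSum (fun _ _ => ENNReal.summable)]
        refine tsum_congr (fun e => ?_)
        rw [Finset.mul_sum]
        exact Finset.sum_congr rfl (fun y _ => by ring)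
      have hC : ∑' e : {e : V × V // (within G (Λ : Set V)).Adj e.1 e.2},
            tau (within G (Λ : Set V)) p x e.1.1 * δ * T e.1.2 ≤
          (δ * M * (r⁻¹) ^ L) * (d * (c * h x)) := by
        calc ∑' e : {e : V × V // (within G (Λ : Set V)).Adj e.1 e.2},
            tau (within G (Λ : Set V)) p x e.1.1 * δ * T e.1.2
            ≤ ∑' e : {e : V × V // (within G (Λ : Set V)).Adj e.1 e.2},
              (δ * M * (r⁻¹) ^ L) * (tau (within G (Λ : Set V)) p x e.1.1 * h e.1.1) := by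
              refine ENNReal.tsum_le_tsum (fun e => ?_)
              have h2 : e.1.2 ∈ Λ := by exact_mod_cast e.2.2.2
              have h3 : T e.1.2 ≤ M * ((r⁻¹) ^ L * h e.1.1) :=
                (hTM _ h2).trans (mul_le_mul' le_rfl (hnb _ _ e.2.1))
              calc tau (within G (Λ : Set V)) p x e.1.1 * δ * T e.1.2
                  ≤ tau (within G (Λ : Set V)) p x e.1.1 * δ * (M * ((r⁻¹) ^ L * h e.1.1)) :=
                    mul_le_mul' le_rfl h3
                _ = _ := by ring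
          _ = (δ * M * (r⁻¹) ^ L) * ∑' e : {e : V × V // (within G (Λ : Set V)).Adj e.1 e.2},
              (tau (within G (Λ : Set V)) p x e.1.1 * h e.1.1) := ENNReal.tsum_mul_left
          _ ≤ (δ * M * (r⁻¹) ^ L) * (d * ∑' a, (tau (within G (Λ : Set V)) p x a * h a)) :=
              mul_le_mul' le_rfl (PerAux.tsum_edges hΛG hG.deg
                (fun a => tau (within G (Λ : Set V)) p x a * h a))
          _ ≤ (δ * M * (r⁻¹) ^ L) * (d * (c * h x)) :=
              mul_le_mul' le_rfl (mul_le_mul' le_rfl hA')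
      have hD : (δ * M * (r⁻¹) ^ L) * (d * (c * h x)) ≤ M / 2 * h x := by
        calc (δ * M * (r⁻¹) ^ L) * (d * (c * h x)) = (δ * c * d * (r⁻¹) ^ L) * (M * h x) := by ring
          _ ≤ (1 / 2) * (M * h x) := mul_le_mul' hsmall le_rfl
          _ = M / 2 * h x := by rw [div_eq_mul_inv, div_eq_mul_inv]; ring
      calc T x = ∑ y ∈ Λ, tau (within G (Λ : Set V)) p' x y * h y := (hTv x).symm
        _ ≤ ∑ y ∈ Λ, (tau (within G (Λ : Set V)) p x y +
            ∑' e : {e : V × V // (within G (Λ : Set V)).Adj e.1 e.2},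
              tau (within G (Λ : Set V)) p x e.1.1 * δ *
                tau (within G (Λ : Set V)) p' e.1.2 y) * h y := by
            refine Finset.sum_le_sum (fun y _ => mul_le_mul' ?_ le_rfl)
            rw [hδ]
            exact hSPR V G (Λ : Set V) (Finset.finite_toSet Λ) p p' hp hpp' hp'1 x y
        _ = ∑ y ∈ Λ, tau (within G (Λ : Set V)) p x y * h y +
            ∑ y ∈ Λ, (∑' e : {e : V × V // (within G (Λ : Set V)).Adj e.1 e.2},
              tau (within G (Λ : Set V)) p x e.1.1 * δ *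
                tau (within G (Λ : Set V)) p' e.1.2 y) * h y := by
            rw [← Finset.sum_add_distrib]
            exact Finset.sum_congr rfl (fun y _ => add_mul _ _ _)
        _ ≤ c * h x + M / 2 * h x := add_le_add hA (by rw [hB]; exact hC.trans hD)
        _ = (c + M / 2) * h x := by ring
    have hMle : M ≤ 2 * c := by
      have h1 : M ≤ c + M / 2 := by
        conv_lhs => rw [hM]
        refine Finset.sup_le (fun x hx => ?_)
        exact ENNReal.div_le_of_le_mul (hstep x hx)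
      have h2 : M / 2 + M / 2 ≤ c + M / 2 := by rw [ENNReal.add_halves]; exact h1
      have hM2 : M / 2 ≠ ⊤ := ne_top_of_le_ne_top hMfin ENNReal.half_le_self
      have h3 : M / 2 ≤ c := (ENNReal.add_le_add_iff_right hM2).1 h2
      calc M = M / 2 + M / 2 := (ENNReal.add_halves M).symm
        _ ≤ c + c := add_le_add h3 h3
        _ = 2 * c := by ring
    intro x hx
    rw [hTv x]
    exact (hTM x hx).trans (mul_le_mul' hMle le_rfl)
  rw [ENNReal.tsum_eq_iSup_sum]
  refine iSup_le (fun F => ?_)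
  have hmonoΛ : ∀ (y : V) (Λ Λ' : Finset V), Λ ≤ Λ' →
      tau (within G (Λ : Set V)) p' x y ≤ tau (within G (Λ' : Set V)) p' x y := by
    intro y Λ Λ' hle
    refine hmono _ _ _ _ _ (fun a b hab => ⟨hab.1, ?_, ?_⟩)
    · exact_mod_cast hle (by exact_mod_cast hab.2.1)
    · exact_mod_cast hle (by exact_mod_cast hab.2.2)
  calc ∑ y ∈ F, tau G p' x y * h y
      = ∑ y ∈ F, ⨆ Λ : Finset V, tau (within G (Λ : Set V)) p' x y * h y := by
        refine Finset.sum_congr rfl (fun y _ => ?_)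
        rw [hLIM V G p' x y, ENNReal.iSup_mul]
    _ = ⨆ Λ : Finset V, ∑ y ∈ F, tau (within G (Λ : Set V)) p' x y * h y :=
        ENNReal.finsetSum_iSup_of_monotone (fun y Λ Λ' hle =>
          mul_le_mul' (hmonoΛ y Λ Λ' hle) le_rfl)
    _ ≤ 2 * c * h x := by
        refine iSup_le (fun Λ => ?_)
        have hsub1 : Λ ≤ insert x (Λ ∪ F) :=
          (Finset.subset_union_left).trans (Finset.subset_insert _ _)
        have hsub2 : F ⊆ insert x (Λ ∪ F) :=
          (Finset.subset_union_right).trans (Finset.subset_insert _ _)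
        calc ∑ y ∈ F, tau (within G (Λ : Set V)) p' x y * h y
            ≤ ∑ y ∈ F, tau (within G ((insert x (Λ ∪ F) : Finset V) : Set V)) p' x y * h y :=
              Finset.sum_le_sum (fun y _ => mul_le_mul' (hmonoΛ y _ _ hsub1) le_rfl)
          _ ≤ ∑ y ∈ insert x (Λ ∪ F),
              tau (within G ((insert x (Λ ∪ F) : Finset V) : Set V)) p' x y * h y :=
              Finset.sum_le_sum_of_subset hsub2
          _ ≤ 2 * c * h x := key _ x (Finset.mem_insert_self _ _)

end Pool.L2B
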