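import Pool.Agent.Work.MP_23451d_me.Interface

/-! # Block SEP (helper85) -/

set_option autoImplicit false

namespace Pool.L2B

open SimpleGraph

theorem stmt_SEP : Stmt_SEP := by
  intro V G C d L D R k hG
  have htri : ∀ x y z, sep C x z ⊆ sep C x y ∪ sep C y z := by
    rintro x y z A ⟨hA, hx, hz⟩
    by_cases hy : y ∈ A
    · right; exact ⟨hA, hy, hz⟩
    · left; exact ⟨hA, hx, hy⟩
  have hself : ∀ x, sep C x x = ∅ := by
    intro x
    rw [Set.eq_empty_iff_forall_notMem]
    rintro A ⟨-, h1, h2⟩
    exact h2 h1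
  have hwalk : ∀ x y (w : G.Walk x y), (sep C x y).Finite ∧ (sep C x y).ncard ≤ L * w.length := by
    intro x y w
    induction w with
    | nil => rw [hself]; simp
    | cons h p ih =>
      rename_i u v w
      obtain ⟨f1, c1⟩ := hG.lf _ _ h
      obtain ⟨f2, c2⟩ := ih
      refine ⟨(f1.union f2).subset (htri u v w), ?_⟩
      have h3 := Set.ncard_le_ncard (htri u v w) (f1.union f2)
      have h4 := Set.ncard_union_le (sep C u v) (sep C v w)
      rw [SimpleGraph.Walk.length_cons]
      have h5 : L * (p.length + 1) = L * p.length + L := by ring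
      omega
  have hfin : ∀ x y, (sep C x y).Finite := by
    intro x y
    obtain ⟨w⟩ := hG.conn.preconnected x y
    exact (hwalk x y w).1
  have hcompl : ∀ x y, sep C y x = compl '' sep C x y := by
    intro x y
    ext A
    constructor
    · rintro ⟨hA, hy, hx⟩
      exact ⟨Aᶜ, ⟨hG.compl A hA, hx, fun h => h hy⟩, compl_compl A⟩
    · rintro ⟨B, ⟨hB, hx, hy⟩, rfl⟩
      exact ⟨hG.compl B hB, hy, fun h => h hx⟩
  refine ⟨hfin, ?_, ?_, ?_, ?_⟩
  · intro x y
    rw [hcompl x y]
    exact (Set.ncard_image_of_injective _ compl_injective).symm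
  · intro x y z
    have h3 := Set.ncard_le_ncard (htri x y z) ((hfin x y).union (hfin y z))
    have h4 := Set.ncard_union_le (sep C x y) (sep C y z)
    omega
  · intro x y
    obtain ⟨w, hw⟩ := hG.conn.exists_walk_length_eq_dist x y
    rw [← hw]
    exact (hwalk x y w).2
  · rintro x y A ⟨hA, hxA, hyA⟩ B ⟨hB, hxB, hyB⟩
    rcases hG.nest A hA B hB with h | h | h | h
    · left; exact h
    · exact absurd hxB (h hxA)
    · exact absurd (h hyA) hyB
    · right; exact Set.compl_subset_compl.1 h

end Pool.L2B
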