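import Pool.Agent.Work.MP_23451d_me.Interface

/-!
# SHA: sharpness of the phase transition for quasi-transitive graphs
-/

set_option autoImplicit false

namespace Pool.L2B

open MeasureTheory SimpleGraph
open scoped ENNReal

/-- an automorphism induces an isomorphism of the induced subgraphs -/
def shaIso {V : Type} {G : SimpleGraph V} (φ : G ≃g G) (S : Set V) :
    within G S ≃g within G (φ '' S) where
  toEquiv := φ.toEquiv
  map_rel_iff' := by
    intro a b
    change (G.Adj (φ a) (φ b) ∧ φ a ∈ φ '' S ∧ φ b ∈ φ '' S) ↔ (G.Adj a b ∧ a ∈ S ∧ b ∈ S)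
    rw [φ.map_adj_iff, φ.injective.mem_set_image, φ.injective.mem_set_image]

/-- an automorphism maps the boundary of `S` to the boundary of the image -/
noncomputable def shaEquiv {V : Type} {G : SimpleGraph V} (φ : G ≃g G) (S : Set V) :
    bdE G S ≃ bdE G (φ '' S) where
  toFun e := ⟨(φ e.1.1, φ e.1.2), by
    refine ⟨Set.mem_image_of_mem _ e.2.1, ?_, (φ.map_adj_iff).mpr e.2.2.2⟩
    change φ e.1.2 ∉ φ '' S
    rw [φ.injective.mem_set_image]
    exact e.2.2.1⟩
  invFun e := ⟨(φ.symm e.1.1, φ.symm e.1.2), by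
    refine ⟨?_, ?_, ?_⟩
    · obtain ⟨a', ha', h⟩ := e.2.1
      change φ.symm e.1.1 ∈ S
      rw [← h, φ.symm_apply_apply]
      exact ha'
    · intro hb
      apply e.2.2.1
      exact ⟨φ.symm e.1.2, hb, φ.apply_symm_apply _⟩
    · exact (φ.symm.map_adj_iff).mpr e.2.2.2⟩
  left_inv e := by
    apply Subtype.ext
    exact Prod.ext (φ.symm_apply_apply _) (φ.symm_apply_apply _)
  right_inv e := by
    apply Subtype.ext
    exact Prod.ext (φ.apply_symm_apply _) (φ.apply_symm_apply _)

theorem sha_phi (hINV : Stmt_INV) {V : Type} [Countable V] {G : SimpleGraph V} (φ : G ≃g G) (p : ℝ)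
    (S : Set V) (x : V) : phi G p (φ '' S) (φ x) = phi G p S x := by
  unfold phi
  rw [← (shaEquiv φ S).tsum_eq]
  apply tsum_congr
  intro e
  have h := hINV V (within G S) (within G (φ '' S)) (shaIso φ S) p x e.1.1
  change ENNReal.ofReal p * tau (within G (φ '' S)) p ((shaIso φ S) x) ((shaIso φ S) e.1.1) = _
  rw [h]

theorem stmt_SHA (hINV : Stmt_INV) (hDCTL : Stmt_DCTL) (hCHI : Stmt_CHI) : Stmt_SHA := by
  intro V _ G hc hlf hqt p hp0 hp x
  classical
  have hne : {p : ℝ | 0 ≤ p ∧ p ≤ 1 ∧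
      ∀ o : V, mu V {ω | Set.Infinite {v | Conn G p ω o v}} = 0}.Nonempty := by
    rw [Set.nonempty_iff_ne_empty]
    intro h
    unfold pc at hp
    rw [h, Real.sSup_empty] at hp
    linarith
  obtain ⟨p₁, ⟨hp₁0, hp₁1, hp₁⟩, hpp₁⟩ := exists_lt_of_lt_csSup hne hp
  have hmono : ∀ o : V, mu V {ω | Set.Infinite {v | Conn G ((p + p₁) / 2) ω o v}} = 0 := by
    intro o
    refine measure_mono_null ?_ (hp₁ o)
    intro ω hω
    refine Set.Infinite.mono ?_ hω
    rintro v ⟨w, hw⟩
    exact ⟨w, fun e he => (hw e he).trans (by linarith)⟩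
  have hS : ∀ v : V, ∃ S : Finset V, v ∈ S ∧ phi G p (S : Set V) v < 1 := by
    intro v
    by_contra hcon
    push Not at hcon
    exact hDCTL V G hc hlf p ((p + p₁) / 2) hp0 (by linarith) (by linarith) v hcon (hmono v)
  choose S hS1 hS2 using hS
  obtain ⟨F, hF⟩ := hqt
  have hη : F.sup (fun u => phi G p (S u : Set V) u) < 1 := by
    rw [Finset.sup_lt_iff (by simp)]
    intro u _
    exact hS2 u
  have hfin : ∀ v : V, ∃ T : Finset V, v ∈ T ∧ T.card ≤ F.sup (fun u => (S u).card) ∧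
      phi G p (T : Set V) v ≤ F.sup (fun u => phi G p (S u : Set V) u) := by
    intro v
    obtain ⟨φ, u, hu, rfl⟩ := hF v
    refine ⟨(S u).image φ, Finset.mem_image_of_mem _ (hS1 u), ?_, ?_⟩
    · exact Finset.card_image_le.trans (Finset.le_sup (f := fun u => (S u).card) hu)
    · rw [Finset.coe_image, sha_phi hINV]
      exact Finset.le_sup (f := fun u => phi G p (S u : Set V) u) hu
  have hfinal := hCHI V G p hp0 (by linarith) hlf _ _ hη hfin x
  refine ne_top_of_le_ne_top ?_ hfinal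
  refine ENNReal.div_ne_top (ENNReal.natCast_ne_top _) ?_
  exact (tsub_pos_of_lt hη).ne'

end Pool.L2B
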