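import Pool.Agent.Work.MP_23451d_me.Interface

set_option autoImplicit false

namespace Pool.L2B

open MeasureTheory SimpleGraph
open scoped ENNReal

theorem SPR_within_le {V : Type} (G : SimpleGraph V) (S : Set V) : within G S ≤ G := by
  intro a b h
  exact h.1

theorem SPR_fin {V : Type} (G : SimpleGraph V) (Λ : Set V) (hΛ : Λ.Finite) (p : ℝ)
    (ω : Sym2 V → unitInterval) (x : V) : {z | Conn (within G Λ) p ω x z}.Finite := by
  refine (hΛ.union (Set.finite_singleton x)).subset ?_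
  rintro z ⟨w, -⟩
  cases hw : w.reverse with
  | nil => right; rfl
  | cons h _ => left; exact h.2.1

theorem SPR_key (hLAB : Stmt_LAB) (hSIG : Stmt_SIG) (hCME : Stmt_CME) (hTAU : Stmt_TAU)
    (hEXP : Stmt_EXP) (V : Type) [Countable V] (H : SimpleGraph V) (p p' : ℝ) (hp : 0 ≤ p)
    (hpp : p ≤ p') (hp' : p' < 1) (x y a b : V) (hab : H.Adj a b) (S : Set V) (ha : a ∈ S)
    (hb : b ∉ S) :
    mu V ({ω | {z | Conn H p ω x z} = S} ∩ {ω | ((ω s(a, b) : unitInterval) : ℝ) < p'} ∩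
        {ω | Conn (within H Sᶜ) p' ω b y}) ≤
      mu V {ω | {z | Conn H p ω x z} = S} * ENNReal.ofReal ((p' - p) / (1 - p)) *
        tau H p' b y := by
  obtain ⟨-, h2⟩ := hEXP V H p x S
  obtain ⟨A, hA, hEA⟩ := h2 a ha b hb hab
  obtain ⟨s1, s2, s3⟩ := hSIG V
  obtain ⟨l1, l2⟩ := hLAB V s(a, b) p
  obtain ⟨l1', l2'⟩ := hLAB V s(a, b) p'
  have l2 := l2 hp (by linarith)
  have l2' := l2' (by linarith) (by linarith)
  have hK := hCME V (within H Sᶜ) p' b y
  set K : Set (Sym2 V → unitInterval) := {ω | Conn (within H Sᶜ) p' ω b y} with hKdef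
  set L : Set (Sym2 V → unitInterval) := {ω | ((ω s(a, b) : unitInterval) : ℝ) < p} with hL
  set L' : Set (Sym2 V → unitInterval) := {ω | ((ω s(a, b) : unitInterval) : ℝ) < p'} with hL'
  have hLc : {ω : Sym2 V → unitInterval | p ≤ ((ω s(a, b) : unitInterval) : ℝ)} = Lᶜ := by
    ext ω
    simp only [hL, Set.mem_compl_iff, Set.mem_ofPred_eq, not_lt]
  rw [hLc] at hEA
  rw [hEA]
  have hLcm : MeasurableSet[sig {s(a, b)}] Lᶜ := MeasurableSet.compl l1
  have hMm : MeasurableSet[sig {s(a, b)}] (Lᶜ ∩ L') := MeasurableSet.inter hLcm l1'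
  -- the three factors
  have hLm : MeasurableSet L := s1 _ _ l1
  have hLm' : MeasurableSet L' := s1 _ _ l1'
  have hμL : mu V Lᶜ = ENNReal.ofReal (1 - p) := by
    rw [prob_compl_eq_one_sub hLm, l2, ← ENNReal.ofReal_one, ← ENNReal.ofReal_sub _ hp]
  have hμM : mu V (Lᶜ ∩ L') = ENNReal.ofReal (p' - p) := by
    have e1 : Lᶜ ∩ L' = L' \ L := by
      ext ω
      simp only [Set.mem_inter_iff, Set.mem_compl_iff, Set.mem_sdiff]
      tauto
    have e2 : L ⊆ L' := by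
      intro ω hω
      simp only [hL, hL', Set.mem_ofPred_eq] at hω ⊢
      linarith
    rw [e1, measure_sdiff e2 hLm.nullMeasurableSet (by rw [l2]; exact ENNReal.ofReal_ne_top), l2,
      l2', ← ENNReal.ofReal_sub _ hp]
  have d1 : Disjoint ({e | e ∈ H.edgeSet ∧ ∃ v ∈ S, v ∈ e} \ {s(a, b)}) ({s(a, b)} : Set (Sym2 V)) :=
    Set.disjoint_sdiff_left
  have hAL : mu V (A ∩ Lᶜ) = mu V A * ENNReal.ofReal (1 - p) := by
    rw [s3 _ _ d1 _ _ hA hLcm, hμL]
  have hAM : mu V (A ∩ (Lᶜ ∩ L')) = mu V A * ENNReal.ofReal (p' - p) := by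
    rw [s3 _ _ d1 _ _ hA hMm, hμM]
  have hAM' : MeasurableSet[sig ({e | e ∈ H.edgeSet ∧ ∃ v ∈ S, v ∈ e} ∪ {s(a, b)})]
      (A ∩ (Lᶜ ∩ L')) := by
    refine MeasurableSet.inter ?_ ?_
    · exact s2 _ _ (Set.sdiff_subset.trans Set.subset_union_left) _ hA
    · exact s2 _ _ Set.subset_union_right _ hMm
  have d2 : Disjoint ({e | e ∈ H.edgeSet ∧ ∃ v ∈ S, v ∈ e} ∪ {s(a, b)})
      (within H Sᶜ).edgeSet := by
    rw [Set.disjoint_left]
    intro e he he'
    have hno : ∀ v ∈ e, v ∉ S := by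
      induction e with
      | h c d =>
        rw [mem_edgeSet] at he'
        intro v hv
        rw [Sym2.mem_iff] at hv
        rcases hv with rfl | rfl
        · exact he'.2.1
        · exact he'.2.2
    rcases he with ⟨-, v, hv, hve⟩ | he
    · exact hno v hve hv
    · rw [Set.mem_singleton_iff] at he
      subst he
      exact hno a (Sym2.mem_mk_left a b) ha
  have e3 : A ∩ Lᶜ ∩ L' ∩ K = (A ∩ (Lᶜ ∩ L')) ∩ K := by
    rw [Set.inter_assoc A]
  rw [e3, s3 _ _ d2 _ _ hAM' hK, hAM, hAL]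
  have e4 : ENNReal.ofReal (1 - p) * ENNReal.ofReal ((p' - p) / (1 - p)) =
      ENNReal.ofReal (p' - p) := by
    rw [← ENNReal.ofReal_mul (by linarith), mul_div_cancel₀]
    linarith
  have e5 : mu V A * ENNReal.ofReal (1 - p) * ENNReal.ofReal ((p' - p) / (1 - p)) * tau H p' b y =
      mu V A * ENNReal.ofReal (p' - p) * tau H p' b y := by
    rw [mul_assoc (mu V A), e4]
  rw [e5]
  refine mul_le_mul_right ?_ _
  obtain ⟨-, -, -, -, t5, -⟩ := hTAU V (within H Sᶜ) H p' p' b y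
  exact t5 (SPR_within_le H Sᶜ)

theorem stmt_SPR (hLAB : Stmt_LAB) (hSIG : Stmt_SIG) (hCME : Stmt_CME) (hTAU : Stmt_TAU)
    (hLEX : Stmt_LEX) (hEXP : Stmt_EXP) : Stmt_SPR := by
  classical
  intro V _ G Λ hΛ p p' hp hpp hp' x y
  obtain ⟨H, hH⟩ : ∃ H, H = within G Λ := ⟨_, rfl⟩
  rw [← hH]
  obtain ⟨s1, s2, s3⟩ := hSIG V
  -- the events
  obtain ⟨E, hE⟩ : ∃ E : Finset V → Set (Sym2 V → unitInterval),
    E = fun S : Finset V => {ω | {z | Conn H p ω x z} = (S : Set V)} := ⟨_, rfl⟩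
  have hEm : ∀ S, MeasurableSet (E S) := by
    intro S
    rw [hE]
    exact s1 _ _ (hEXP V H p x (S : Set V)).1
  have hcov : {ω | Conn H p' ω x y} ⊆ {ω | Conn H p ω x y} ∪
      ⋃ e : {e : V × V // H.Adj e.1 e.2}, ⋃ S : {S : Finset V // e.1.1 ∈ S ∧ e.1.2 ∉ S},
        (E S.1 ∩ {ω | ((ω s(e.1.1, e.1.2) : unitInterval) : ℝ) < p'} ∩
          {ω | Conn (within H (S.1 : Set V)ᶜ) p' ω e.1.2 y}) := by
    rintro ω ⟨w, hw⟩
    by_cases hy : Conn H p ω x y
    · left; exact hy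
    · right
      have hfin : {z | Conn H p ω x z}.Finite := by
        rw [hH]; exact SPR_fin G Λ hΛ p ω x
      have hx : x ∈ {z | Conn H p ω x z} := ⟨Walk.nil, by simp⟩
      obtain ⟨⟨a, ha, b, hb, hab, hmem, w', hw'⟩, -⟩ :=
        hLEX V H {z | Conn H p ω x z} x y w hx hy
      rw [Set.mem_iUnion]
      refine ⟨⟨(a, b), hab⟩, ?_⟩
      rw [Set.mem_iUnion]
      refine ⟨⟨hfin.toFinset, by rw [Set.Finite.mem_toFinset]; exact ha,
        by rw [Set.Finite.mem_toFinset]; exact hb⟩, ⟨?_, ?_⟩, ?_⟩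
      · rw [hE]
        simp only [Set.mem_ofPred_eq, Set.Finite.coe_toFinset]
      · exact hw _ hmem
      · have e1 : ((hfin.toFinset : Finset V) : Set V) = {z | Conn H p ω x z} :=
          hfin.coe_toFinset
        simp only [Set.mem_ofPred_eq]
        rw [e1]
        exact ⟨w', fun e he => hw _ (hw' e he)⟩
  have hsum : ∀ e : {e : V × V // H.Adj e.1 e.2},
      ∑' S : {S : Finset V // e.1.1 ∈ S ∧ e.1.2 ∉ S}, mu V (E S.1) ≤ tau H p x e.1.1 := by
    intro e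
    rw [← measure_iUnion]
    · refine measure_mono ?_
      intro ω hω
      rw [Set.mem_iUnion] at hω
      obtain ⟨S, hS⟩ := hω
      rw [hE] at hS
      have h1 : e.1.1 ∈ ((S.1 : Finset V) : Set V) := S.2.1
      simp only [Set.mem_ofPred_eq] at hS
      rw [← hS] at h1
      exact h1
    · intro S T hST
      rw [Function.onFun, Set.disjoint_left]
      intro ω h1 h2
      rw [hE] at h1 h2
      simp only [Set.mem_ofPred_eq] at h1 h2
      apply hST
      apply Subtype.ext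
      rw [← Finset.coe_inj, ← h1, ← h2]
    · intro S
      exact hEm S.1
  calc tau H p' x y ≤ mu V ({ω | Conn H p ω x y} ∪
      ⋃ e : {e : V × V // H.Adj e.1 e.2}, ⋃ S : {S : Finset V // e.1.1 ∈ S ∧ e.1.2 ∉ S},
        (E S.1 ∩ {ω | ((ω s(e.1.1, e.1.2) : unitInterval) : ℝ) < p'} ∩
          {ω | Conn (within H (S.1 : Set V)ᶜ) p' ω e.1.2 y})) := measure_mono hcov
    _ ≤ tau H p x y + mu V (⋃ e : {e : V × V // H.Adj e.1 e.2},
        ⋃ S : {S : Finset V // e.1.1 ∈ S ∧ e.1.2 ∉ S},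
        (E S.1 ∩ {ω | ((ω s(e.1.1, e.1.2) : unitInterval) : ℝ) < p'} ∩
          {ω | Conn (within H (S.1 : Set V)ᶜ) p' ω e.1.2 y})) := measure_union_le _ _
    _ ≤ tau H p x y + ∑' e : {e : V × V // H.Adj e.1 e.2},
          ∑' S : {S : Finset V // e.1.1 ∈ S ∧ e.1.2 ∉ S},
          mu V (E S.1 ∩ {ω | ((ω s(e.1.1, e.1.2) : unitInterval) : ℝ) < p'} ∩
          {ω | Conn (within H (S.1 : Set V)ᶜ) p' ω e.1.2 y}) := by
        refine add_le_add le_rfl ((measure_iUnion_le _).trans ?_)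
        exact ENNReal.tsum_le_tsum fun e => measure_iUnion_le _
    _ ≤ tau H p x y + ∑' e : {e : V × V // H.Adj e.1 e.2},
          ∑' S : {S : Finset V // e.1.1 ∈ S ∧ e.1.2 ∉ S},
          mu V (E S.1) * (ENNReal.ofReal ((p' - p) / (1 - p)) * tau H p' e.1.2 y) := by
        refine add_le_add le_rfl ?_
        refine ENNReal.tsum_le_tsum fun e => ENNReal.tsum_le_tsum fun S => ?_
        rw [← mul_assoc, hE]
        exact SPR_key hLAB hSIG hCME hTAU hEXP V H p p' hp hpp hp' x y e.1.1 e.1.2 e.2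
          (S.1 : Set V) S.2.1 S.2.2
    _ ≤ _ := by
        refine add_le_add le_rfl (ENNReal.tsum_le_tsum fun e => ?_)
        rw [ENNReal.tsum_mul_right, ← mul_assoc]
        exact mul_le_mul_left (mul_le_mul_left (hsum e) _) _

end Pool.L2B
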