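import Pool.Agent.Work.MP_23451d_me.Interface

set_option autoImplicit false

namespace Pool.L2B

open SimpleGraph

theorem stmt_SUBM : Stmt_SUBM := by
  intro V G A B hA hB
  have hc : bdE G Aᶜ = Prod.swap '' bdE G A := by
    ext ⟨x, y⟩
    simp only [bdE, Set.mem_ofPred_eq, Set.mem_image, Prod.exists, Prod.swap_prod_mk,
      Prod.mk.injEq, Set.mem_compl_iff, not_not]
    constructor
    · rintro ⟨h1, h2, h3⟩
      exact ⟨y, x, ⟨h2, h1, h3.symm⟩, rfl, rfl⟩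
    · rintro ⟨a, b, ⟨h1, h2, h3⟩, rfl, rfl⟩
      exact ⟨h2, h1, h3.symm⟩
  have h1 : bdE G (A ∩ B) ∪ bdE G (A ∪ B) ⊆ bdE G A ∪ bdE G B := by
    rintro ⟨x, y⟩ (⟨⟨ha, hb⟩, hn, hadj⟩ | ⟨ha, hn, hadj⟩)
    · by_cases hy : y ∈ A
      · exact Or.inr ⟨hb, fun h => hn ⟨hy, h⟩, hadj⟩
      · exact Or.inl ⟨ha, hy, hadj⟩
    · rcases ha with ha | ha
      · exact Or.inl ⟨ha, fun h => hn (Or.inl h), hadj⟩
      · exact Or.inr ⟨ha, fun h => hn (Or.inr h), hadj⟩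
  have h2 : bdE G (A ∩ B) ∩ bdE G (A ∪ B) ⊆ bdE G A ∩ bdE G B := by
    rintro ⟨x, y⟩ ⟨⟨⟨ha, hb⟩, hn, hadj⟩, ⟨-, hn', -⟩⟩
    exact ⟨⟨ha, fun h => hn' (Or.inl h), hadj⟩, ⟨hb, fun h => hn' (Or.inr h), hadj⟩⟩
  have hf1 : (bdE G (A ∩ B)).Finite := (hA.union hB).subset (Set.subset_union_left.trans h1)
  have hf2 : (bdE G (A ∪ B)).Finite := (hA.union hB).subset (Set.subset_union_right.trans h1)
  refine ⟨?_, ?_, hf1, hf2, ?_⟩
  · rw [hc]; exact hA.image _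
  · rw [hc]; exact Set.ncard_image_of_injective _ Prod.swap_injective
  · rw [← Set.ncard_union_add_ncard_inter _ _ hf1 hf2, ← Set.ncard_union_add_ncard_inter _ _ hA hB]
    exact add_le_add (Set.ncard_le_ncard h1 (hA.union hB))
      (Set.ncard_le_ncard h2 (hA.subset Set.inter_subset_left))

end Pool.L2B
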