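import Pool.Agent.Work.MP_23451d_me.Interface

set_option autoImplicit false

namespace Pool.L2B

open MeasureTheory SimpleGraph
open scoped ENNReal

theorem tra_dist_le {V : Type} {G : SimpleGraph V} (hG : G.Connected) (φ : G ≃g G) (x y : V) :
    G.dist (φ x) (φ y) ≤ G.dist x y := by
  obtain ⟨w, hw⟩ := hG.exists_walk_length_eq_dist x y
  rw [← hw, ← SimpleGraph.Walk.length_map φ.toHom w]
  exact SimpleGraph.dist_le _

theorem tra_dist {V : Type} {G : SimpleGraph V} (hG : G.Connected) (φ : G ≃g G) (x y : V) :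
    G.dist (φ x) (φ y) = G.dist x y := by
  refine le_antisymm (tra_dist_le hG φ x y) ?_
  have h := tra_dist_le hG φ.symm (φ x) (φ y)
  rwa [φ.symm_apply_apply, φ.symm_apply_apply] at h

theorem tra_bd {V : Type} {G : SimpleGraph V} (φ : G ≃g G) (A : Set V) (e : V × V)
    (he : e ∈ bdE G A) : (φ e.1, φ e.2) ∈ bdE G (φ '' A) := by
  refine ⟨⟨e.1, he.1, rfl⟩, ?_, φ.map_adj_iff.2 he.2.2⟩
  rintro ⟨z, hz, hz'⟩
  have : z = e.2 := φ.injective hz'
  rw [this] at hz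
  exact he.2.1 hz

theorem tra_image_symm {V : Type} {G : SimpleGraph V} (φ : G ≃g G) (X : Set V) :
    φ '' (φ.symm '' X) = X := by
  ext z
  constructor
  · rintro ⟨_, ⟨y, hy, rfl⟩, rfl⟩
    rw [φ.apply_symm_apply]
    exact hy
  · intro hz
    exact ⟨φ.symm z, ⟨z, hz, rfl⟩, φ.apply_symm_apply z⟩

theorem tra_btw {V : Type} {G : SimpleGraph V} {C : Set (Set V)}
    (hinv : ∀ (φ : G ≃g G), ∀ A ∈ C, φ '' A ∈ C) (φ : G ≃g G) (B A : Set V) :
    btw C (φ '' B) (φ '' A) = (fun X => φ '' X) '' btw C B A := by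
  ext X
  constructor
  · rintro ⟨hX, h1, h2⟩
    refine ⟨φ.symm '' X, ⟨hinv φ.symm X hX, ?_, ?_⟩, tra_image_symm φ X⟩
    · intro b hb
      exact ⟨φ b, h1 ⟨b, hb, rfl⟩, φ.symm_apply_apply b⟩
    · rintro _ ⟨z, hz, rfl⟩
      obtain ⟨a, ha, rfl⟩ := h2 hz
      rw [φ.symm_apply_apply]
      exact ha
  · rintro ⟨Y, ⟨hY, h1, h2⟩, rfl⟩
    exact ⟨hinv φ Y hY, Set.image_mono h1, Set.image_mono h2⟩

theorem tra_sep {V : Type} {G : SimpleGraph V} {C : Set (Set V)}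
    (hinv : ∀ (φ : G ≃g G), ∀ A ∈ C, φ '' A ∈ C) (φ : G ≃g G) (x y : V) :
    sep C (φ x) (φ y) = (fun X => φ '' X) '' sep C x y := by
  ext X
  constructor
  · rintro ⟨hX, h1, h2⟩
    refine ⟨φ.symm '' X, ⟨hinv φ.symm X hX, ⟨φ x, h1, φ.symm_apply_apply x⟩, ?_⟩,
      tra_image_symm φ X⟩
    rintro ⟨z, hz, hz'⟩
    apply h2
    rw [← hz', φ.apply_symm_apply]
    exact hz
  · rintro ⟨Y, ⟨hY, h1, h2⟩, rfl⟩
    refine ⟨hinv φ Y hY, ⟨x, h1, rfl⟩, ?_⟩
    rintro ⟨z, hz, hz'⟩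
    have : z = y := φ.injective hz'
    rw [this] at hz
    exact h2 hz

theorem tra_base {V : Type} [Nonempty V] {G : SimpleGraph V} {A : Set V} (h : (bdE G A).Nonempty) :
    ∃ u, (base G A, u) ∈ bdE G A := by
  obtain ⟨e, he⟩ := h
  exact Classical.epsilon_spec (p := fun v => ∃ u, (v, u) ∈ bdE G A) ⟨e.1, e.2, he⟩

theorem stmt_TRA : Stmt_TRA := by
  intro V _ G C d L D R k hC φ
  have hinj : Function.Injective (fun X : Set V => φ '' X) :=
    Set.image_injective.2 φ.injective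
  refine ⟨tra_dist hC.conn φ, tra_bd φ, ?_, ?_, ?_⟩
  · rintro A n B ⟨hB, hBA, hn⟩
    refine ⟨hC.inv φ B hB, Set.image_mono hBA, ?_⟩
    rw [tra_btw hC.inv φ B A, Set.ncard_image_of_injective _ hinj, hn]
  · intro x y
    rw [tra_sep hC.inv φ x y, Set.ncard_image_of_injective _ hinj]
  · intro A hA
    obtain ⟨u, hu⟩ := tra_base (hC.bd A hA).2.1
    obtain ⟨u', hu'⟩ := tra_base (hC.bd (φ '' A) (hC.inv φ A hA)).2.1
    exact hC.diam (φ '' A) (hC.inv φ A hA) _ hu' _ (tra_bd φ A _ hu)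

end Pool.L2B
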