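import Pool.Agent.Work.MP_23451d_me.Interface

set_option autoImplicit false

namespace Pool.L2B

open MeasureTheory SimpleGraph
open scoped ENNReal

theorem uni_base {V : Type} [Nonempty V] (hTRA : Stmt_TRA) {G : SimpleGraph V} {C : Set (Set V)}
    {d L D R k : ℕ} (hC : Geo0 G C d L D R k) (φ : G ≃g G) {A B : Set V} (hA : A ∈ C)
    (hB : B ∈ C) :
    G.dist (base G (φ '' A)) (base G (φ '' B)) ≤ D + (G.dist (base G A) (base G B) + D) := by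
  have h1 := (hTRA V G C d L D R k hC φ).2.2.2.2 A hA
  have h2 := (hTRA V G C d L D R k hC φ).2.2.2.2 B hB
  have h3 := (hTRA V G C d L D R k hC φ).1 (base G A) (base G B)
  have h4 := hC.conn.dist_triangle (u := base G (φ '' A)) (v := φ (base G A))
    (w := base G (φ '' B))
  have h5 := hC.conn.dist_triangle (u := φ (base G A)) (v := φ (base G B))
    (w := base G (φ '' B))
  rw [SimpleGraph.dist_comm] at h2
  omega

theorem uni_pair {V : Type} [Nonempty V] (hLEV : Stmt_LEV) (hTRA : Stmt_TRA) {G : SimpleGraph V}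
    {C : Set (Set V)} {d L D R k : ℕ} (hC : Geo0 G C d L D R k) {K : Set (Set V)}
    (hK : Cls G C K) (A' B' : Set V) :
    ∃ D' s : ℕ, ∀ A ∈ K, ∀ B ∈ K, (∃ ψ : G ≃g G, A = ψ '' A') → (∃ χ : G ≃g G, B = χ '' B') →
      ∃ (φ : G ≃g G) (n : ℕ), 1 ≤ n ∧ n ≤ s ∧ φ '' B ∈ LL C A n ∧
        G.dist (base G A) (base G (φ '' B)) ≤ D' := by
  have hback : ∀ X ∈ K, ∀ X' : Set V, (∃ ψ : G ≃g G, X = ψ '' X') → X' ∈ K := by
    rintro X hX X' ⟨ψ, rfl⟩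
    have h := hK.inv ψ.symm _ hX
    have e : ψ.symm '' (ψ '' X') = X' := by
      ext z
      constructor
      · rintro ⟨_, ⟨y, hy, rfl⟩, rfl⟩
        rw [ψ.symm_apply_apply]
        exact hy
      · intro hz
        exact ⟨ψ z, ⟨z, hz, rfl⟩, ψ.symm_apply_apply z⟩
    rwa [e] at h
  by_cases hA' : A' ∈ K
  · by_cases hB' : B' ∈ K
    · obtain ⟨φ', hφ'⟩ := hK.irr A' hA' B' hB'
      have hA'C := hK.sub hA'
      have hB'C := hC.inv φ' B' (hK.sub hB')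
      obtain ⟨hfin, -⟩ := (hLEV V G C d L D R k hC).1 A' hA'C (φ' '' B') hB'C hφ'.subset
      have h2 : 2 ≤ (btw C (φ' '' B') A').ncard := by
        have h3 : ({φ' '' B', A'} : Set (Set V)) ⊆ btw C (φ' '' B') A' := by
          rintro X (rfl | rfl)
          · exact ⟨hB'C, subset_rfl, hφ'.subset⟩
          · exact ⟨hA'C, hφ'.subset, subset_rfl⟩
        rw [← Set.ncard_pair hφ'.ne]
        exact Set.ncard_le_ncard h3 hfin
      refine ⟨D + (G.dist (base G A') (base G (φ' '' B')) + D),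
        (btw C (φ' '' B') A').ncard, ?_⟩
      rintro A hA B hB ⟨ψ, rfl⟩ ⟨χ, rfl⟩
      have e : ((χ.symm.trans φ').trans ψ) '' (χ '' B') = ψ '' (φ' '' B') := by
        ext z
        constructor
        · rintro ⟨_, ⟨y, hy, rfl⟩, rfl⟩
          refine ⟨φ' y, ⟨y, hy, rfl⟩, ?_⟩
          show ψ (φ' y) = ψ (φ' (χ.symm (χ y)))
          rw [χ.symm_apply_apply]
        · rintro ⟨_, ⟨y, hy, rfl⟩, rfl⟩
          refine ⟨χ y, ⟨y, hy, rfl⟩, ?_⟩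
          show ψ (φ' (χ.symm (χ y))) = ψ (φ' y)
          rw [χ.symm_apply_apply]
      refine ⟨(χ.symm.trans φ').trans ψ, (btw C (φ' '' B') A').ncard - 1, by omega, by omega,
        ?_, ?_⟩
      · rw [e]
        refine (hTRA V G C d L D R k hC ψ).2.2.1 A' _ (φ' '' B') ⟨hB'C, hφ'.subset, by omega⟩
      · rw [e]
        exact uni_base hTRA hC ψ hA'C hB'C
    · exact ⟨0, 0, fun A _ B hB _ h => absurd (hback B hB B' h) hB'⟩
  · exact ⟨0, 0, fun A hA B _ h _ => absurd (hback A hA A' h) hA'⟩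

theorem stmt_UNI (hLEV : Stmt_LEV) (hTRA : Stmt_TRA) : Stmt_UNI := by
  intro V _ G C d L D R k hC
  obtain ⟨A₀, hA₀, hone⟩ := hC.one
  have hA₀c : A₀ᶜ ∈ C := hC.compl A₀ hA₀
  constructor
  · obtain ⟨B₁, hB₁⟩ := (hLEV V G C d L D R k hC).2.2.2.1 A₀ hA₀ 1
    obtain ⟨B₂, hB₂⟩ := (hLEV V G C d L D R k hC).2.2.2.1 A₀ᶜ hA₀c 1
    refine ⟨D + (G.dist (base G A₀) (base G B₁) + D) +
      (D + (G.dist (base G A₀ᶜ) (base G B₂) + D)), ?_⟩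
    intro A hA
    obtain ⟨φ, hφ⟩ := hone A hA
    rcases hφ with rfl | rfl
    · refine ⟨φ '' B₁, (hTRA V G C d L D R k hC φ).2.2.1 A₀ 1 B₁ hB₁, ?_⟩
      have := uni_base hTRA hC φ hA₀ hB₁.1
      omega
    · refine ⟨φ '' B₂, (hTRA V G C d L D R k hC φ).2.2.1 A₀ᶜ 1 B₂ hB₂, ?_⟩
      have := uni_base hTRA hC φ hA₀c hB₂.1
      omega
  · intro K hK
    obtain ⟨D₁, s₁, h₁⟩ := uni_pair hLEV hTRA hC hK A₀ A₀
    obtain ⟨D₂, s₂, h₂⟩ := uni_pair hLEV hTRA hC hK A₀ A₀ᶜ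
    obtain ⟨D₃, s₃, h₃⟩ := uni_pair hLEV hTRA hC hK A₀ᶜ A₀
    obtain ⟨D₄, s₄, h₄⟩ := uni_pair hLEV hTRA hC hK A₀ᶜ A₀ᶜ
    refine ⟨D₁ + D₂ + D₃ + D₄, s₁ + s₂ + s₃ + s₄, ?_⟩
    intro A hA B hB
    obtain ⟨ψ, hψ⟩ := hone A (hK.sub hA)
    obtain ⟨χ, hχ⟩ := hone B (hK.sub hB)
    rcases hψ with hψ | hψ <;> rcases hχ with hχ | hχ
    · obtain ⟨φ, n, a, b, c, e⟩ := h₁ A hA B hB ⟨ψ, hψ⟩ ⟨χ, hχ⟩
      exact ⟨φ, n, a, by omega, c, by omega⟩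
    · obtain ⟨φ, n, a, b, c, e⟩ := h₂ A hA B hB ⟨ψ, hψ⟩ ⟨χ, hχ⟩
      exact ⟨φ, n, a, by omega, c, by omega⟩
    · obtain ⟨φ, n, a, b, c, e⟩ := h₃ A hA B hB ⟨ψ, hψ⟩ ⟨χ, hχ⟩
      exact ⟨φ, n, a, by omega, c, by omega⟩
    · obtain ⟨φ, n, a, b, c, e⟩ := h₄ A hA B hB ⟨ψ, hψ⟩ ⟨χ, hχ⟩
      exact ⟨φ, n, a, by omega, c, by omega⟩

end Pool.L2B
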