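import Pool.Agent.Work.MP_23451d_me.Main
import Pool.Agent.Work.MP_23451d_me.BAL
import Pool.Agent.Work.MP_23451d_me.BAS
import Pool.Agent.Work.MP_23451d_me.BEY
import Pool.Agent.Work.MP_23451d_me.BON
import Pool.Agent.Work.MP_23451d_me.BRA
import Pool.Agent.Work.MP_23451d_me.CHI
import Pool.Agent.Work.MP_23451d_me.CME
import Pool.Agent.Work.MP_23451d_me.CNT
import Pool.Agent.Work.MP_23451d_me.CONX
import Pool.Agent.Work.MP_23451d_me.CRF
import Pool.Agent.Work.MP_23451d_me.CUT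
import Pool.Agent.Work.MP_23451d_me.DCTI
import Pool.Agent.Work.MP_23451d_me.DCTL
import Pool.Agent.Work.MP_23451d_me.DEC
import Pool.Agent.Work.MP_23451d_me.DIS
import Pool.Agent.Work.MP_23451d_me.DUN
import Pool.Agent.Work.MP_23451d_me.EXO
import Pool.Agent.Work.MP_23451d_me.EXP
import Pool.Agent.Work.MP_23451d_me.FINB
import Pool.Agent.Work.MP_23451d_me.HAR
import Pool.Agent.Work.MP_23451d_me.INV
import Pool.Agent.Work.MP_23451d_me.KBND
import Pool.Agent.Work.MP_23451d_me.KER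
import Pool.Agent.Work.MP_23451d_me.KFIN
import Pool.Agent.Work.MP_23451d_me.KPC
import Pool.Agent.Work.MP_23451d_me.KSCH
import Pool.Agent.Work.MP_23451d_me.KSUM
import Pool.Agent.Work.MP_23451d_me.KUD
import Pool.Agent.Work.MP_23451d_me.KUP
import Pool.Agent.Work.MP_23451d_me.KVS
import Pool.Agent.Work.MP_23451d_me.LAB
import Pool.Agent.Work.MP_23451d_me.LEV
import Pool.Agent.Work.MP_23451d_me.LEX
import Pool.Agent.Work.MP_23451d_me.LIM
import Pool.Agent.Work.MP_23451d_me.NAR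
import Pool.Agent.Work.MP_23451d_me.OPT
import Pool.Agent.Work.MP_23451d_me.PAR
import Pool.Agent.Work.MP_23451d_me.PER
import Pool.Agent.Work.MP_23451d_me.SCH
import Pool.Agent.Work.MP_23451d_me.SEP
import Pool.Agent.Work.MP_23451d_me.SHA
import Pool.Agent.Work.MP_23451d_me.SIG
import Pool.Agent.Work.MP_23451d_me.SPR
import Pool.Agent.Work.MP_23451d_me.SUBM
import Pool.Agent.Work.MP_23451d_me.TAU
import Pool.Agent.Work.MP_23451d_me.TRA
import Pool.Agent.Work.MP_23451d_me.TYP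
import Pool.Agent.Work.MP_23451d_me.UNI

/-!
# The main theorem without hypotheses (MP_23451d_pr)
-/

set_option autoImplicit false

namespace Pool.L2B

theorem final : Stmt_MAIN := by
  -- percolation
  have hLAB := stmt_LAB
  have hSIG := stmt_SIG
  have hCME := stmt_CME
  have hLEX := stmt_LEX
  have hTAU := stmt_TAU hLAB
  have hINV := stmt_INV hCME hSIG
  have hLIM := stmt_LIM
  have hHAR := stmt_HAR hTAU hLIM
  have hEXP := stmt_EXP hLAB hSIG hCME hLEX
  have hCUT := stmt_CUT hLAB hSIG hCME hTAU hLIM hLEX hEXP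
  have hSPR := stmt_SPR hLAB hSIG hCME hTAU hLEX hEXP
  have hDEC := stmt_DEC hLAB hSIG
  have hEXO := stmt_EXO hLAB hSIG hCME hLEX
  have hDCTI := stmt_DCTI hLAB hSIG hCME hEXO stmt_BON
  have hDCTL := stmt_DCTL hTAU hSIG hCME hDCTI
  have hCHI := stmt_CHI hTAU hCUT
  have hSHA := stmt_SHA hINV hDCTL hCHI
  -- cuts
  have hSUBM := stmt_SUBM
  have hFINB := stmt_FINB
  have hNAR := stmt_NAR hSUBM
  have hCRF := stmt_CRF hFINB hNAR
  have hOPT := stmt_OPT hSUBM hCRF
  have hDUN := stmt_DUN hFINB hNAR hOPT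
  have hCON := stmt_CON
  have hBAL := stmt_BAL
  have hSEP := stmt_SEP
  have hBEY := stmt_BEY hBAL
  have hLEV := stmt_LEV hSEP hBEY
  have hBRA := stmt_BRA hBAL hLEV
  have hTYP := stmt_TYP hBEY
  have hDIS := stmt_DIS hSEP
  have hTRA := stmt_TRA
  have hUNI := stmt_UNI hLEV hTRA
  have hPAR := stmt_PAR hLEV hTRA
  have hKUD := stmt_KUD hLEV hTRA hPAR
  -- kernels
  have hBAS := stmt_BAS
  have hKSUM := stmt_KSUM hLEV
  have hKFIN := stmt_KFIN hBAS
  have hKBND := stmt_KBND hLEV hTRA hUNI hBAS hKSUM hKFIN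
  have hKUP := stmt_KUP hSEP hBAS hKUD hKBND
  have hKVS := stmt_KVS hBAL hSEP hLEV hBAS
  have hKSCH := stmt_KSCH hSEP
  have hKPC := stmt_KPC hTRA hBAS
  have hKER := stmt_KER hTAU hINV hHAR hCUT hDEC hDIS
  have hPER := stmt_PER hTAU hLIM hSPR hSEP
  exact main hTAU hCHI hSHA hDUN hCON hBRA hTYP hKBND hKUP hKVS hKSCH hKPC hKER hPER stmt_SCH
    stmt_CNT

end Pool.L2B
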