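import Pool.Agent.Work.MP_23451d_me.Defs

/-!
# Block statements: percolation on graphs with more than one end (MP_23451d_pr)

Block X: file `X.lean`, `theorem stmt_X (hY : Stmt_Y) .. : Stmt_X` (dependencies as hypotheses).
Proofs on paper: BLUEPRINT.md.
-/

set_option autoImplicit false

namespace Pool.L2B

open MeasureTheory SimpleGraph
open scoped ENNReal

/-! ## Part A: percolation -/

/-- LAB: one label -/
def Stmt_LAB : Prop :=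
  ∀ (V : Type) (e : Sym2 V) (p : ℝ),
    MeasurableSet[sig {e}] {ω : Sym2 V → unitInterval | ((ω e : unitInterval) : ℝ) < p} ∧
    (0 ≤ p → p ≤ 1 →
      mu V {ω : Sym2 V → unitInterval | ((ω e : unitInterval) : ℝ) < p} = ENNReal.ofReal p)

/-- SIG: sigma algebras of disjoint sets of labels are independent -/
def Stmt_SIG : Prop :=
  ∀ (V : Type),
    (∀ I : Set (Sym2 V), sig I ≤ (MeasurableSpace.pi : MeasurableSpace (Sym2 V → unitInterval))) ∧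
    (∀ I J : Set (Sym2 V), I ⊆ J → sig I ≤ sig J) ∧
    (∀ I J : Set (Sym2 V), Disjoint I J → ∀ A B : Set (Sym2 V → unitInterval),
      MeasurableSet[sig I] A → MeasurableSet[sig J] B → mu V (A ∩ B) = mu V A * mu V B)

/-- CME: connection events are measurable with respect to the labels of the edges -/
def Stmt_CME : Prop :=
  ∀ (V : Type) [Countable V] (G : SimpleGraph V) (p : ℝ) (u v : V),
    MeasurableSet[sig G.edgeSet] {ω | Conn G p ω u v}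

/-- TAU: elementary properties of the two-point function (from LAB) -/
def Stmt_TAU : Prop :=
  ∀ (V : Type) [Countable V] (G G' : SimpleGraph V) (p p' : ℝ) (u v : V),
    tau G p u v ≤ 1 ∧ tau G p u u = 1 ∧ tau G p u v = tau G p v u ∧
    (p ≤ p' → tau G p u v ≤ tau G p' u v) ∧ (G ≤ G' → tau G p u v ≤ tau G' p u v) ∧
    (0 ≤ p → p ≤ 1 → G.Adj u v → ENNReal.ofReal p ≤ tau G p u v)

/-- INV: invariance under isomorphisms (from CME, SIG) -/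
def Stmt_INV : Prop :=
  ∀ (V : Type) [Countable V] (G G' : SimpleGraph V) (φ : G ≃g G') (p : ℝ) (u v : V),
    tau G' p (φ u) (φ v) = tau G p u v

/-- HAR: inequality of Harris for connections (from LAB, SIG, CME, TAU, LIM) -/
def Stmt_HAR : Prop :=
  ∀ (V : Type) [Countable V] (G : SimpleGraph V) (p : ℝ) (x y z : V),
    tau G p x y * tau G p y z ≤ tau G p x z

/-- LIM: finite volume limit (from CME, SIG) -/
def Stmt_LIM : Prop :=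
  ∀ (V : Type) [Countable V] (G : SimpleGraph V) (p : ℝ) (x y : V),
    tau G p x y = ⨆ Λ : Finset V, tau (within G (Λ : Set V)) p x y

/-- LEX: the last exit and the first exit of a walk from a set -/
def Stmt_LEX : Prop :=
  ∀ (V : Type) (G : SimpleGraph V) (S : Set V) (x y : V) (w : G.Walk x y), x ∈ S → y ∉ S →
    (∃ a ∈ S, ∃ b, b ∉ S ∧ G.Adj a b ∧ s(a, b) ∈ w.edges ∧
      ∃ w' : (within G Sᶜ).Walk b y, ∀ e ∈ w'.edges, e ∈ w.edges) ∧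
    (∃ a ∈ S, ∃ b, b ∉ S ∧ G.Adj a b ∧ s(a, b) ∈ w.edges ∧
      ∃ w' : (within G S).Walk x a, ∀ e ∈ w'.edges, e ∈ w.edges)

/-- EXP: exploration of the cluster of `x` (from LAB, SIG, CME, LEX) -/
def Stmt_EXP : Prop :=
  ∀ (V : Type) [Countable V] (G : SimpleGraph V) (p : ℝ) (x : V) (S : Set V),
    MeasurableSet[sig {e | e ∈ G.edgeSet ∧ ∃ v ∈ S, v ∈ e}] {ω | {z | Conn G p ω x z} = S} ∧
    ∀ a ∈ S, ∀ b, b ∉ S → G.Adj a b → ∃ A : Set (Sym2 V → unitInterval),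
      MeasurableSet[sig ({e | e ∈ G.edgeSet ∧ ∃ v ∈ S, v ∈ e} \ {s(a, b)})] A ∧
      {ω | {z | Conn G p ω x z} = S} = A ∩ {ω | p ≤ ((ω s(a, b) : unitInterval) : ℝ)}

/-- CUT: the exploration inequality (from LAB, SIG, CME, TAU, LIM, LEX, EXP) -/
def Stmt_CUT : Prop :=
  ∀ (V : Type) [Countable V] (G : SimpleGraph V) (p : ℝ), 0 ≤ p → p ≤ 1 →
    ∀ (H : Set V), ∀ x ∈ H, ∀ y ∉ H,
      tau G p x y ≤ ∑' e : bdE G H,
        tau (within G H) p x e.1.1 * ENNReal.ofReal p * tau G p e.1.2 y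

/-- SPR: sprinkling in a finite volume (from LAB, SIG, CME, TAU, LEX, EXP) -/
def Stmt_SPR : Prop :=
  ∀ (V : Type) [Countable V] (G : SimpleGraph V) (Λ : Set V), Λ.Finite →
    ∀ (p p' : ℝ), 0 ≤ p → p ≤ p' → p' < 1 → ∀ x y : V,
      tau (within G Λ) p' x y ≤ tau (within G Λ) p x y +
        ∑' e : {e : V × V // (within G Λ).Adj e.1 e.2},
          tau (within G Λ) p x e.1.1 * ENNReal.ofReal ((p' - p) / (1 - p)) *
            tau (within G Λ) p' e.1.2 y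

/-- DEC: disjoint separating sets of at most `k` edges (from LAB, SIG) -/
def Stmt_DEC : Prop :=
  ∀ (V : Type) [Countable V] (G : SimpleGraph V) (p : ℝ) (x y : V) (n k : ℕ)
    (E : Fin n → Finset (Sym2 V)), 0 ≤ p → p ≤ 1 → (∀ i, (E i).card ≤ k) →
    (∀ i j, i ≠ j → Disjoint (E i) (E j)) →
    (∀ w : G.Walk x y, ∀ i, ∃ e ∈ w.edges, e ∈ E i) →
    tau G p x y ≤ (ENNReal.ofReal (1 - (1 - p) ^ k)) ^ n

/-- EXO: exploration from outside (from LAB, SIG, CME, LEX) -/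
def Stmt_EXO : Prop :=
  ∀ (V : Type) [Countable V] (G : SimpleGraph V) (Λ S : Finset V) (p : ℝ), S ⊆ Λ →
    ((∀ a ∈ S, ∀ b, G.Adj a b → b ∈ Λ) → ∃ A : Set (Sym2 V → unitInterval),
      MeasurableSet[sig (within G ((Λ : Set V) \ (S : Set V))).edgeSet] A ∧
      {ω | ∀ z ∈ Λ, (z ∈ S ↔ ¬ Reach G (Λ : Set V) p ω z)} =
        A ∩ {ω | ∀ e ∈ bdE G (S : Set V), p ≤ ((ω s(e.1, e.2) : unitInterval) : ℝ)}) ∧
    (¬ (∀ a ∈ S, ∀ b, G.Adj a b → b ∈ Λ) →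
      {ω : Sym2 V → unitInterval | ∀ z ∈ Λ, (z ∈ S ↔ ¬ Reach G (Λ : Set V) p ω z)} = ∅)

/-- BON: Bonferroni's inequality -/
def Stmt_BON : Prop :=
  ∀ (Ω : Type) [MeasurableSpace Ω] (μ : Measure Ω) [IsFiniteMeasure μ] (ι : Type) [DecidableEq ι]
    (s : Finset ι) (F : ι → Set Ω), (∀ i ∈ s, MeasurableSet (F i)) →
    ∑ i ∈ s, (μ (F i)).toReal - ∑ i ∈ s, ∑ j ∈ s.erase i, (μ (F i ∩ F j)).toReal ≤
      (μ (⋃ i ∈ s, F i)).toReal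

/-- DCTI: the increment inequality of Duminil-Copin and Tassion (from LAB, SIG, CME, EXO, BON) -/
def Stmt_DCTI : Prop :=
  ∀ (V : Type) [Countable V] (G : SimpleGraph V) (Λ : Finset V) (x : V), x ∈ Λ →
    ∀ (p ε : ℝ), 0 ≤ p → 0 < ε → p + ε < 1 →
    (∀ S : Finset V, x ∈ S → S ⊆ Λ → (∀ a ∈ S, ∀ b, G.Adj a b → b ∈ Λ) →
      1 ≤ phi G p (S : Set V) x) →
    1 - (mu V {ω | Reach G (Λ : Set V) (p + ε) ω x}).toReal ≤
      (1 - (mu V {ω | Reach G (Λ : Set V) p ω x}).toReal) *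
        (1 - ε + (Λ.card : ℝ) ^ 4 * (ε / (1 - p)) ^ 2)

/-- DCTL: if `φ_p (S, x) ≥ 1` for all finite `S` then there is percolation above `p` (from TAU, LEX, DCTI) -/
def Stmt_DCTL : Prop :=
  ∀ (V : Type) [Countable V] (G : SimpleGraph V), G.Connected →
    (∀ v, (G.neighborSet v).Finite) → ∀ (p p₁ : ℝ), 0 ≤ p → p < p₁ → p₁ < 1 → ∀ x : V,
    (∀ S : Finset V, x ∈ S → 1 ≤ phi G p (S : Set V) x) →
    mu V {ω | Set.Infinite {v | Conn G p₁ ω x v}} ≠ 0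

/-- CHI: finite susceptibility from the finite volume criterion (from TAU, CUT) -/
def Stmt_CHI : Prop :=
  ∀ (V : Type) [Countable V] (G : SimpleGraph V) (p : ℝ), 0 ≤ p → p ≤ 1 →
    (∀ v, (G.neighborSet v).Finite) → ∀ (M : ℕ) (η : ℝ≥0∞), η < 1 →
    (∀ x : V, ∃ S : Finset V, x ∈ S ∧ S.card ≤ M ∧ phi G p (S : Set V) x ≤ η) →
    ∀ x : V, ∑' y, tau G p x y ≤ (M : ℝ≥0∞) / (1 - η)

/-- the critical probability, as in the frozen statement -/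
noncomputable def pc {V : Type} (G : SimpleGraph V) : ℝ :=
  sSup {p : ℝ | 0 ≤ p ∧ p ≤ 1 ∧ ∀ o : V, mu V {ω | Set.Infinite {v | Conn G p ω o v}} = 0}

/-- quasi-transitivity, as in the frozen statement -/
def QT {V : Type} (G : SimpleGraph V) : Prop :=
  ∃ F : Finset V, ∀ v : V, ∃ φ : G ≃g G, ∃ u ∈ F, φ u = v

/-- SHA: sharpness (from TAU, INV, DCTL, CHI) -/
def Stmt_SHA : Prop :=
  ∀ (V : Type) [Countable V] (G : SimpleGraph V), G.Connected →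
    (∀ v, (G.neighborSet v).Finite) → QT G → ∀ p : ℝ, 0 ≤ p → p < pc G →
    ∀ x : V, ∑' y, tau G p x y ≠ ⊤

/-! ## Part B: nested cuts -/

/-- FINB: finitely many bonds of bounded size through an edge -/
def Stmt_FINB : Prop :=
  ∀ (V : Type) (G : SimpleGraph V), G.Connected → ∀ (k : ℕ) (u v : V), G.Adj u v →
    {A : Set V | u ∈ A ∧ v ∉ A ∧ (bdE G A).Finite ∧ (bdE G A).ncard ≤ k ∧
      (∀ a ∈ A, ∀ b ∈ A, (within G A).Reachable a b) ∧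
      (∀ a ∈ Aᶜ, ∀ b ∈ Aᶜ, (within G Aᶜ).Reachable a b)}.Finite

/-- `A` is a cut with finite edge boundary and two infinite sides -/
def IsCut {V : Type} (G : SimpleGraph V) (A : Set V) : Prop :=
  A.Infinite ∧ Aᶜ.Infinite ∧ (bdE G A).Finite

/-- `A` is a narrow cut: a cut with the smallest possible number `k` of boundary edges -/
def Narrow {V : Type} (G : SimpleGraph V) (k : ℕ) (A : Set V) : Prop :=
  IsCut G A ∧ (bdE G A).ncard = k ∧ ∀ B, IsCut G B → k ≤ (bdE G B).ncard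

/-- `A` and `B` cross: they are not nested -/
def Cross {V : Type} (A B : Set V) : Prop :=
  (A ∩ B).Nonempty ∧ (A ∩ Bᶜ).Nonempty ∧ (Aᶜ ∩ B).Nonempty ∧ (Aᶜ ∩ Bᶜ).Nonempty

/-- SUBM: submodularity of the boundary -/
def Stmt_SUBM : Prop :=
  ∀ (V : Type) (G : SimpleGraph V) (A B : Set V), (bdE G A).Finite → (bdE G B).Finite →
    (bdE G Aᶜ).Finite ∧ (bdE G Aᶜ).ncard = (bdE G A).ncard ∧ (bdE G (A ∩ B)).Finite ∧
    (bdE G (A ∪ B)).Finite ∧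
    (bdE G (A ∩ B)).ncard + (bdE G (A ∪ B)).ncard ≤ (bdE G A).ncard + (bdE G B).ncard

/-- NAR: narrow cuts have connected sides (from SUBM) -/
def Stmt_NAR : Prop :=
  ∀ (V : Type) (G : SimpleGraph V), G.Connected → ∀ (k : ℕ) (A : Set V), Narrow G k A →
    Narrow G k Aᶜ ∧ (bdE G A).Nonempty ∧ ∀ a ∈ A, ∀ b ∈ A, (within G A).Reachable a b

/-- CRF: a narrow cut crosses finitely many narrow cuts (from FINB, NAR) -/
def Stmt_CRF : Prop :=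
  ∀ (V : Type) (G : SimpleGraph V), G.Connected → ∀ (k : ℕ) (A : Set V), Narrow G k A →
    {B | Narrow G k B ∧ Cross A B}.Finite

/-- OPT: two narrow cuts with the smallest number of crossings do not cross (from SUBM, CRF) -/
def Stmt_OPT : Prop :=
  ∀ (V : Type) (G : SimpleGraph V), G.Connected → ∀ (k : ℕ) (A B : Set V), Narrow G k A →
    Narrow G k B →
    (∀ X, Narrow G k X → {Y | Narrow G k Y ∧ Cross A Y}.ncard ≤ {Y | Narrow G k Y ∧ Cross X Y}.ncard) →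
    (∀ X, Narrow G k X → {Y | Narrow G k Y ∧ Cross B Y}.ncard ≤ {Y | Narrow G k Y ∧ Cross X Y}.ncard) →
    ¬ Cross A B

/-- DUN: the theorem of Dunwoody (from FINB, SUBM, NAR, OPT) -/
def Stmt_DUN : Prop :=
  ∀ (V : Type) (G : SimpleGraph V), G.Connected →
    (∃ A : Set V, A.Infinite ∧ Aᶜ.Infinite ∧ (bdE G A).Finite) →
    ∃ (C : Set (Set V)) (k : ℕ), C.Nonempty ∧ (∀ A ∈ C, Aᶜ ∈ C) ∧
      (∀ φ : G ≃g G, ∀ A ∈ C, φ '' A ∈ C) ∧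
      (∃ A₀ ∈ C, ∀ A ∈ C, ∃ φ : G ≃g G, A = φ '' A₀ ∨ A = φ '' A₀ᶜ) ∧
      (∀ A ∈ C, A.Infinite ∧ (bdE G A).Finite ∧ (bdE G A).Nonempty ∧ (bdE G A).ncard ≤ k) ∧
      (∀ A ∈ C, ∀ B ∈ C, A ⊆ B ∨ A ⊆ Bᶜ ∨ Aᶜ ⊆ B ∨ Aᶜ ⊆ Bᶜ) ∧
      (∀ u v, G.Adj u v → (sep C u v).Finite)

/-- CON: all constants (from the conclusion of DUN) -/
def Stmt_CON : Prop :=
  ∀ (V : Type) (G : SimpleGraph V), G.Connected → (∀ v, (G.neighborSet v).Finite) → QT G →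
    ∀ (C : Set (Set V)) (k : ℕ), C.Nonempty → (∀ A ∈ C, Aᶜ ∈ C) →
      (∀ φ : G ≃g G, ∀ A ∈ C, φ '' A ∈ C) →
      (∃ A₀ ∈ C, ∀ A ∈ C, ∃ φ : G ≃g G, A = φ '' A₀ ∨ A = φ '' A₀ᶜ) →
      (∀ A ∈ C, A.Infinite ∧ (bdE G A).Finite ∧ (bdE G A).Nonempty ∧ (bdE G A).ncard ≤ k) →
      (∀ A ∈ C, ∀ B ∈ C, A ⊆ B ∨ A ⊆ Bᶜ ∨ Aᶜ ⊆ B ∨ Aᶜ ⊆ Bᶜ) →
      (∀ u v, G.Adj u v → (sep C u v).Finite) →
      ∃ d L D R : ℕ, Geo0 G C d L D R k

/-- BAL: balls -/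
def Stmt_BAL : Prop :=
  ∀ (V : Type) (G : SimpleGraph V) (d : ℕ), G.Connected →
    (∀ v, (G.neighborSet v).Finite ∧ (G.neighborSet v).ncard ≤ d) → ∀ (x : V) (n : ℕ),
    {y | G.dist x y ≤ n}.Finite ∧ {y | G.dist x y ≤ n}.ncard ≤ (d + 1) ^ n

/-- SEP: the cuts which separate two vertices -/
def Stmt_SEP : Prop :=
  ∀ (V : Type) (G : SimpleGraph V) (C : Set (Set V)) (d L D R k : ℕ), Geo0 G C d L D R k →
    (∀ x y, (sep C x y).Finite) ∧ (∀ x y, (sep C x y).ncard = (sep C y x).ncard) ∧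
    (∀ x y z, (sep C x z).ncard ≤ (sep C x y).ncard + (sep C y z).ncard) ∧
    (∀ x y, (sep C x y).ncard ≤ L * G.dist x y) ∧
    (∀ x y, ∀ A ∈ sep C x y, ∀ B ∈ sep C x y, A ⊆ B ∨ B ⊆ A)

/-- BEY: below every cut there is a smaller cut (from BAL) -/
def Stmt_BEY : Prop :=
  ∀ (V : Type) (G : SimpleGraph V) (C : Set (Set V)) (d L D R k : ℕ), Geo0 G C d L D R k →
    ∀ A ∈ C, ∃ B ∈ C, B ⊂ A

/-- LEV: levels (from SEP, BEY) -/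
def Stmt_LEV : Prop :=
  ∀ (V : Type) (G : SimpleGraph V) (C : Set (Set V)) (d L D R k : ℕ), Geo0 G C d L D R k →
    (∀ A ∈ C, ∀ B ∈ C, B ⊆ A → (btw C B A).Finite ∧ 1 ≤ (btw C B A).ncard) ∧
    (∀ A ∈ C, ∀ B ∈ C, B ⊆ A → ∀ X ∈ btw C B A, ∀ Y ∈ btw C B A, X ⊆ Y ∨ Y ⊆ X) ∧
    (∀ A ∈ C, LL C A 0 = {A}) ∧
    (∀ A ∈ C, ∀ n, (LL C A n).Nonempty) ∧
    (∀ A ∈ C, ∀ n m, ∀ X ∈ LL C A n, ∀ B ∈ LL C X m, B ∈ LL C A (n + m)) ∧
    (∀ A ∈ C, ∀ n m, ∀ B ∈ LL C A (n + m), ∃ X ∈ LL C A n, B ∈ LL C X m ∧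
      ∀ Y ∈ LL C A n, B ⊆ Y → Y = X)

/-- BRA: a nonamenable graph has branching cuts (from BAL, LEV) -/
def Stmt_BRA : Prop :=
  ∀ (V : Type) (G : SimpleGraph V) (C : Set (Set V)) (d L D R k : ℕ), Geo0 G C d L D R k →
    (∃ c : ℝ, 0 < c ∧ ∀ K : Finset V, K.Nonempty →
      c * (K.card : ℝ) ≤ ((bdE G (K : Set V)).ncard : ℝ)) →
    Geo G C d L D R k

/-- TYP: the two kinds of families of cuts (from BEY) -/
def Stmt_TYP : Prop :=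
  ∀ (V : Type) (G : SimpleGraph V) (C : Set (Set V)) (d L D R k : ℕ), Geo G C d L D R k →
    Cls G C C ∨ ∃ K : Set (Set V), Cls G C K ∧ ∀ A ∈ C, (A ∈ K ∧ Aᶜ ∉ K) ∨ (A ∉ K ∧ Aᶜ ∈ K)

/-- DIS: disjoint edge boundaries along a chain of separating cuts (from SEP) -/
def Stmt_DIS : Prop :=
  ∀ (V : Type) (G : SimpleGraph V) (C : Set (Set V)) (d L D R k : ℕ), Geo0 G C d L D R k →
    ∀ x y : V, ∃ E : Fin ((sep C x y).ncard / L) → Finset (Sym2 V),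
      (∀ i, (E i).card ≤ k) ∧ (∀ i j, i ≠ j → Disjoint (E i) (E j)) ∧
      (∀ w : G.Walk x y, ∀ i, ∃ e ∈ w.edges, e ∈ E i)

/-- TRA: transport by automorphisms -/
def Stmt_TRA : Prop :=
  ∀ (V : Type) [Nonempty V] (G : SimpleGraph V) (C : Set (Set V)) (d L D R k : ℕ),
    Geo0 G C d L D R k → ∀ φ : G ≃g G,
    (∀ x y, G.dist (φ x) (φ y) = G.dist x y) ∧
    (∀ A, ∀ e ∈ bdE G A, (φ e.1, φ e.2) ∈ bdE G (φ '' A)) ∧
    (∀ A n, ∀ B ∈ LL C A n, φ '' B ∈ LL C (φ '' A) n) ∧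
    (∀ x y, (sep C (φ x) (φ y)).ncard = (sep C x y).ncard) ∧
    (∀ A ∈ C, G.dist (base G (φ '' A)) (φ (base G A)) ≤ D)

/-- UNI: uniform constants for the cuts at a bounded level (from LEV, TRA) -/
def Stmt_UNI : Prop :=
  ∀ (V : Type) [Nonempty V] (G : SimpleGraph V) (C : Set (Set V)) (d L D R k : ℕ),
    Geo0 G C d L D R k →
    (∃ D' : ℕ, ∀ A ∈ C, ∃ B ∈ LL C A 1, G.dist (base G A) (base G B) ≤ D') ∧
    ∀ K : Set (Set V), Cls G C K → ∃ D' s : ℕ, ∀ A ∈ K, ∀ B ∈ K, ∃ (φ : G ≃g G) (n : ℕ),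
      1 ≤ n ∧ n ≤ s ∧ φ '' B ∈ LL C A n ∧ G.dist (base G A) (base G (φ '' B)) ≤ D'

/-! ## Part C: uniform bounds for abstract kernels -/

/-- BAS: the base vertices -/
def Stmt_BAS : Prop :=
  ∀ (V : Type) [Nonempty V] (G : SimpleGraph V) (C : Set (Set V)) (d L D R k : ℕ),
    Geo0 G C d L D R k → ∀ (p₀ θ : ℝ≥0∞) (τ : V → V → ℝ≥0∞), Kern G C L p₀ θ τ →
    (∀ x y, p₀ ^ G.dist x y ≤ τ x y) ∧
    (∀ A ∈ C, base G A ∈ A) ∧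
    (∀ A ∈ C, ∀ e ∈ bdE G A, p₀ ^ D ≤ τ (base G A) e.1) ∧
    (∀ (φ : G ≃g G), ∀ A ∈ C, ∀ B ∈ C,
      p₀ ^ (2 * D) * τ (base G A) (base G B) ≤ τ (base G (φ '' A)) (base G (φ '' B))) ∧
    (∀ y : V, {A | A ∈ C ∧ base G A = y}.ncard ≤ d * L ∧ {A | A ∈ C ∧ base G A = y}.Finite)

/-- KSUM: supermultiplicativity (from LEV) -/
def Stmt_KSUM : Prop :=
  ∀ (V : Type) [Nonempty V] (G : SimpleGraph V) (C : Set (Set V)) (d L D R k : ℕ),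
    Geo0 G C d L D R k → ∀ (p₀ θ : ℝ≥0∞) (τ : V → V → ℝ≥0∞), Kern G C L p₀ θ τ →
    ∀ A ∈ C, ∀ (n m : ℕ) (x : ℝ≥0∞), (∀ B ∈ LL C A n, x ≤ an G C τ B m) →
      an G C τ A n * x ≤ an G C τ A (n + m)

/-- KFIN: the sum over all levels is finite (from BAS) -/
def Stmt_KFIN : Prop :=
  ∀ (V : Type) [Nonempty V] (G : SimpleGraph V) (C : Set (Set V)) (d L D R k : ℕ),
    Geo0 G C d L D R k → ∀ (p₀ θ : ℝ≥0∞) (τ : V → V → ℝ≥0∞), Kern G C L p₀ θ τ →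
    ∀ A ∈ C, ∑' n, an G C τ A n ≠ ⊤

/-- KBND: uniform bound inside an irreducible class (from LEV, TRA, UNI, BAS, KSUM, KFIN) -/
def Stmt_KBND : Prop :=
  ∀ (V : Type) [Nonempty V] (G : SimpleGraph V) (C : Set (Set V)) (d L D R k : ℕ),
    Geo0 G C d L D R k → ∀ K : Set (Set V), Cls G C K → ∀ (p₀ : ℝ≥0∞), p₀ ≠ 0 →
    ∃ c : ℝ≥0∞, c ≠ ⊤ ∧ ∀ (θ : ℝ≥0∞) (τ : V → V → ℝ≥0∞), Kern G C L p₀ θ τ →
      ∀ A ∈ K, ∀ n, an G C τ A n ≤ c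

/-- PAR: the parent of a cut in the case of a fixed end (from LEV, TRA) -/
def Stmt_PAR : Prop :=
  ∀ (V : Type) (G : SimpleGraph V) (C : Set (Set V)) (d L D R k : ℕ), Geo0 G C d L D R k →
    ∀ K : Set (Set V), Cls G C K → (∀ A ∈ C, (A ∈ K ∧ Aᶜ ∉ K) ∨ (A ∉ K ∧ Aᶜ ∈ K)) →
    ∃ P : Set V → Set V,
      (∀ Q ∈ C, Q ∉ K → P Q ∈ K ∧ (P Q)ᶜ ∈ LL C Q 1 ∧
        ∀ X ∈ LL C Q 1, X = (P Q)ᶜ ∨ (X ∈ K ∧ X ∈ LL C (P Q) 1)) ∧
      (∀ (φ : G ≃g G), ∀ Q ∈ C, Q ∉ K → P (φ '' Q) = φ '' P Q) ∧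
      (∀ A ∈ C, A ∉ K → ∀ n, ∃! Q, Q ∈ LL C A n ∧ Q ∉ K)

/-- KUD: the cuts below a cut `A ∉ K` in the case of a fixed end (from LEV, TRA, PAR) -/
def Stmt_KUD : Prop :=
  ∀ (V : Type) [Nonempty V] (G : SimpleGraph V) (C : Set (Set V)) (d L D R k : ℕ),
    Geo0 G C d L D R k →
    ∀ K : Set (Set V), Cls G C K → (∀ A ∈ C, (A ∈ K ∧ Aᶜ ∉ K) ∨ (A ∉ K ∧ Aᶜ ∈ K)) →
    ∃ D' : ℕ, ∀ A ∈ C, A ∉ K → ∃ Q P : ℕ → Set V, Q 0 = A ∧
      (∀ i, Q i ∈ LL C A i ∧ Q (i + 1) ⊆ Q i) ∧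
      (∀ i, P i ∈ K ∧ G.dist (base G (Q i)) (base G (P i)) ≤ D') ∧
      ∀ n, ∀ B ∈ LL C A n, B = Q n ∨ ∃ i < n, B ⊆ Q i ∧ B ∈ LL C (P i) (n - i)

/-- KUP: uniform bound for the other class in the case of a fixed end (from SEP, BAS, KUD, KBND) -/
def Stmt_KUP : Prop :=
  ∀ (V : Type) [Nonempty V] (G : SimpleGraph V) (C : Set (Set V)) (d L D R k : ℕ),
    Geo0 G C d L D R k →
    ∀ K : Set (Set V), Cls G C K → (∀ A ∈ C, (A ∈ K ∧ Aᶜ ∉ K) ∨ (A ∉ K ∧ Aᶜ ∈ K)) →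
    ∀ (p₀ θ : ℝ≥0∞), p₀ ≠ 0 → θ < 1 →
    ∃ c : ℝ≥0∞, c ≠ ⊤ ∧ ∀ (τ : V → V → ℝ≥0∞), Kern G C L p₀ θ τ →
      ∀ A ∈ C, A ∉ K → ∀ n, an G C τ A n ≤ c

/-- KVS: weighted sums over vertices (from BAL, SEP, LEV, BAS and the bound of `an`) -/
def Stmt_KVS : Prop :=
  ∀ (V : Type) [Nonempty V] (G : SimpleGraph V) (C : Set (Set V)) (d L D R k : ℕ),
    Geo0 G C d L D R k → ∀ (p₀ r c : ℝ≥0∞), p₀ ≠ 0 → r < 1 → c ≠ ⊤ →
    ∃ c' : ℝ≥0∞, c' ≠ ⊤ ∧ ∀ (θ : ℝ≥0∞) (τ : V → V → ℝ≥0∞), Kern G C L p₀ θ τ →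
      (∀ A ∈ C, ∀ n, an G C τ A n ≤ c) → ∀ x : V, ∑' y, τ x y * r ^ (sep C y x).ncard ≤ c'

/-- KSCH: the weighted Schur bound (from SEP, BAS and the bound of KVS) -/
def Stmt_KSCH : Prop :=
  ∀ (V : Type) [Nonempty V] (G : SimpleGraph V) (C : Set (Set V)) (d L D R k : ℕ),
    Geo0 G C d L D R k → ∀ (p₀ θ r c : ℝ≥0∞), p₀ ≠ 0 → r < 1 → θ < r ^ L → c ≠ ⊤ →
    ∃ c' : ℝ≥0∞, c' ≠ ⊤ ∧ ∀ (τ : V → V → ℝ≥0∞), Kern G C L p₀ θ τ →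
      (∀ x : V, ∑' y, τ x y * r ^ (sep C y x).ncard ≤ c) →
      ∀ o x : V, ∑' y, τ x y * r ^ (sep C y o).ncard ≤ c' * r ^ (sep C x o).ncard

/-- KPC: divergence near `p = 1` (from TRA, BAS) -/
def Stmt_KPC : Prop :=
  ∀ (V : Type) [Nonempty V] (G : SimpleGraph V) (C : Set (Set V)) (d L D R k : ℕ),
    Geo G C d L D R k → ∃ η : ℝ, 0 < η ∧ η < 1 ∧
    ∀ (θ : ℝ≥0∞) (τ : V → V → ℝ≥0∞), ¬ Kern G C L (ENNReal.ofReal η) θ τ

/-! ## Part D: assembly -/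

/-- KER: the two-point function below `p_c` is a kernel (from TAU, INV, HAR, CUT, DEC, DIS) -/
def Stmt_KER : Prop :=
  ∀ (V : Type) [Countable V] (G : SimpleGraph V) (C : Set (Set V)) (d L D R k : ℕ),
    Geo0 G C d L D R k → ∀ (p₀ p p₁ : ℝ), 0 < p₀ → p₀ ≤ p → p ≤ p₁ → p₁ ≤ 1 →
    (∀ x : V, ∑' y, tau G p x y ≠ ⊤) →
    Kern G C L (ENNReal.ofReal p₀) (ENNReal.ofReal (1 - (1 - p₁) ^ k)) (tau G p)

/-- PER: the Schur bound persists slightly above `p` (from TAU, LIM, SPR, SEP) -/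
def Stmt_PER : Prop :=
  ∀ (V : Type) [Countable V] (G : SimpleGraph V) (C : Set (Set V)) (d L D R k : ℕ),
    Geo0 G C d L D R k → ∀ (r c : ℝ≥0∞), r ≠ 0 → r ≤ 1 → c ≠ ⊤ → ∀ (p p' : ℝ), 0 ≤ p → p ≤ p' →
    p' < 1 → ENNReal.ofReal ((p' - p) / (1 - p)) * c * d * (r⁻¹) ^ L ≤ 1 / 2 →
    ∀ o : V, (∀ x : V, ∑' y, tau G p x y * r ^ (sep C y o).ncard ≤ c * r ^ (sep C x o).ncard) →
    ∀ x : V, ∑' y, tau G p' x y * r ^ (sep C y o).ncard ≤ 2 * c * r ^ (sep C x o).ncard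

/-- SCH: the Schur test -/
def Stmt_SCH : Prop :=
  ∀ (V : Type) (t : V → V → ℝ≥0∞), (∀ x y, t x y = t y x) →
    ∀ (q : ℝ), 1 < q → ∀ (h : V → ℝ), (∀ x, 0 < h x) → ∀ c : ℝ≥0∞, c ≠ ⊤ →
    (∀ x, ∑' y, t x y * ENNReal.ofReal (h y ^ q) ≤ c * ENNReal.ofReal (h x ^ q)) →
    (∀ x, ∑' y, t x y * ENNReal.ofReal (h y ^ (q / (q - 1))) ≤
      c * ENNReal.ofReal (h x ^ (q / (q - 1)))) →
    ∃ C : ℝ, ∀ (S T : Finset V) (f : V → ℝ),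
      ∑ u ∈ T, |∑ v ∈ S, (t u v).toReal * f v| ^ q ≤ C * ∑ v ∈ S, |f v| ^ q

/-- CNT: a connected locally finite graph is countable -/
def Stmt_CNT : Prop :=
  ∀ (V : Type) (G : SimpleGraph V), G.Connected → (∀ v, (G.neighborSet v).Finite) → Countable V

/-- **MAIN**: the frozen statement for graphs with more than one end -/
def Stmt_MAIN : Prop :=
  ∀ (V : Type) (G : SimpleGraph V),
    G.Connected →
    (∀ v : V, (G.neighborSet v).Finite) →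
    (∃ F : Finset V, ∀ v : V, ∃ φ : G ≃g G, ∃ u ∈ F, φ u = v) →
    (∃ c : ℝ, 0 < c ∧ ∀ K : Finset V, K.Nonempty →
        c * (K.card : ℝ) ≤
          ((Set.ncard {x : V × V | x.1 ∈ K ∧ x.2 ∉ K ∧ G.Adj x.1 x.2} : ℕ) : ℝ)) →
    (∃ A : Set V, A.Infinite ∧ Aᶜ.Infinite ∧
        {x : V × V | x.1 ∈ A ∧ x.2 ∉ A ∧ G.Adj x.1 x.2}.Finite) →
    ∀ q : ℝ, 1 < q →
      sSup {p : ℝ | 0 ≤ p ∧ p ≤ 1 ∧ ∀ o : V,
          Measure.infinitePi (fun _ : Sym2 V => (volume : Measure unitInterval))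
            {ω : Sym2 V → unitInterval |
              Set.Infinite {v : V | ∃ w : G.Walk o v, ∀ e ∈ w.edges, ((ω e : unitInterval) : ℝ) < p}} = 0}
      < sSup {p : ℝ | 0 ≤ p ∧ p ≤ 1 ∧ ∃ C : ℝ, ∀ (S T : Finset V) (f : V → ℝ),
          ∑ u ∈ T, |∑ v ∈ S,
              (Measure.infinitePi (fun _ : Sym2 V => (volume : Measure unitInterval))
                {ω : Sym2 V → unitInterval |
                  ∃ w : G.Walk u v, ∀ e ∈ w.edges, ((ω e : unitInterval) : ℝ) < p}).toReal * f v| ^ q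
            ≤ C * ∑ v ∈ S, |f v| ^ q}

end Pool.L2B
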