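import Pool.Agent.Work.MP_23451d_me.Interface

/-!
# Block KER (MP_23451d_pr): the two-point function below `p_c` is a kernel
-/

set_option autoImplicit false

namespace Pool.L2B

open MeasureTheory SimpleGraph
open scoped ENNReal

theorem stmt_KER (hTAU : Stmt_TAU) (hINV : Stmt_INV) (hHAR : Stmt_HAR) (hCUT : Stmt_CUT)
    (hDEC : Stmt_DEC) (hDIS : Stmt_DIS) : Stmt_KER := by
  intro V _ G C d L D R k hG p₀ p p₁ hp0 hp0p hpp1 hp1 hfin
  have hp : 0 ≤ p := le_trans hp0.le hp0p
  have hple : p ≤ 1 := le_trans hpp1 hp1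
  refine ⟨?_, ?_, ?_, ?_, ?_, ?_, ?_, ?_, hfin⟩
  · intro x
    exact (hTAU V G G p p x x).2.1
  · intro x y
    exact (hTAU V G G p p x y).1
  · intro x y
    exact (hTAU V G G p p x y).2.2.1
  · intro x y z
    exact hHAR V G p x y z
  · intro φ x y
    exact hINV V G G φ p x y
  · intro x y hxy
    exact le_trans (ENNReal.ofReal_le_ofReal hp0p)
      ((hTAU V G G p p x y).2.2.2.2.2 hp hple hxy)
  · intro A _ x hx y hy
    refine le_trans (hCUT V G p hp hple A x hx y hy) ?_
    refine ENNReal.tsum_le_tsum fun e => ?_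
    have h1 : ENNReal.ofReal p ≤ 1 := by
      rw [← ENNReal.ofReal_one]
      exact ENNReal.ofReal_le_ofReal hple
    have h2 : within G A ≤ G := fun a b h => h.1
    have h3 : tau (within G A) p x e.1.1 ≤ tau G p x e.1.1 :=
      (hTAU V (within G A) G p p x e.1.1).2.2.2.2.1 h2
    calc tau (within G A) p x e.1.1 * ENNReal.ofReal p * tau G p e.1.2 y
        ≤ tau G p x e.1.1 * 1 * tau G p e.1.2 y := by gcongr
      _ = tau G p x e.1.1 * tau G p e.1.2 y := by rw [mul_one]
  · intro x y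
    obtain ⟨E, hE1, hE2, hE3⟩ := hDIS V G C d L D R k hG x y
    refine le_trans (hDEC V G p x y _ k E hp hple hE1 hE2 hE3) ?_
    refine pow_le_pow_left' (ENNReal.ofReal_le_ofReal ?_) _
    have h4 : (1 - p₁) ^ k ≤ (1 - p) ^ k :=
      pow_le_pow_left₀ (by linarith) (by linarith) k
    linarith

end Pool.L2B
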