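import Pool.Agent.Work.MP_23451d_me.Interface

/-!
# Assembly: the main theorem from the blocks (MP_23451d_pr)
-/

set_option autoImplicit false

namespace Pool.L2B

open MeasureTheory SimpleGraph
open scoped ENNReal

theorem exists_rho (q : ℝ) (L : ℕ) (t : ℝ) (ht : t < 1) :
    ∃ ρ : ℝ, 0 < ρ ∧ ρ < 1 ∧ t < (ρ ^ q) ^ L ∧ t < (ρ ^ (q / (q - 1))) ^ L := by
  have h1 : Filter.Tendsto (fun ρ : ℝ => (ρ ^ q) ^ L) (nhds 1) (nhds ((1 ^ q) ^ L)) :=
    ((Real.continuousAt_rpow_const 1 q (Or.inl one_ne_zero)).pow L)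
  have h2 : Filter.Tendsto (fun ρ : ℝ => (ρ ^ (q / (q - 1))) ^ L) (nhds 1)
      (nhds ((1 ^ (q / (q - 1))) ^ L)) :=
    ((Real.continuousAt_rpow_const 1 (q / (q - 1)) (Or.inl one_ne_zero)).pow L)
  rw [Real.one_rpow, one_pow] at h1 h2
  have e1 : ∀ᶠ ρ in nhds (1 : ℝ), t < (ρ ^ q) ^ L := h1.eventually (lt_mem_nhds ht)
  have e2 : ∀ᶠ ρ in nhds (1 : ℝ), t < (ρ ^ (q / (q - 1))) ^ L := h2.eventually (lt_mem_nhds ht)
  have e3 : ∀ᶠ ρ in nhds (1 : ℝ), 0 < ρ := lt_mem_nhds one_pos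
  have e := (e1.and (e2.and e3)).filter_mono (nhdsWithin_le_nhds (s := Set.Iio (1 : ℝ)))
  obtain ⟨ρ, ⟨a1, a2, a3⟩, a4⟩ := (e.and self_mem_nhdsWithin).exists
  exact ⟨ρ, a3, a4, a1, a2⟩

theorem exists_eps (W : ℝ≥0∞) (hW : W ≠ ⊤) : ∃ ε : ℝ, 0 < ε ∧ ENNReal.ofReal ε * W ≤ 1 / 2 := by
  refine ⟨1 / (2 * (W.toReal + 1)), by positivity, ?_⟩
  have h0 : 0 ≤ W.toReal := ENNReal.toReal_nonneg
  have h2 : ENNReal.ofReal (1 / (2 * (W.toReal + 1))) * W =
      ENNReal.ofReal (1 / (2 * (W.toReal + 1))) * ENNReal.ofReal W.toReal := by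
    rw [ENNReal.ofReal_toReal hW]
  rw [h2, ← ENNReal.ofReal_mul (by positivity)]
  have h1 : (1 : ℝ≥0∞) / 2 = ENNReal.ofReal (1 / 2) := by
    rw [ENNReal.ofReal_div_of_pos two_pos]
    simp
  rw [h1]
  apply ENNReal.ofReal_le_ofReal
  rw [div_mul_eq_mul_div, one_mul, div_le_div_iff₀ (by positivity) two_pos]
  linarith

/-- uniform bound for all cuts -/
theorem bound_all (hTYP : Stmt_TYP) (hKBND : Stmt_KBND) (hKUP : Stmt_KUP)
    (V : Type) [Nonempty V] (G : SimpleGraph V) (C : Set (Set V)) (d L D R k : ℕ)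
    (hG : Geo G C d L D R k) (p₀ θ : ℝ≥0∞) (hp : p₀ ≠ 0) (hθ : θ < 1) :
    ∃ c : ℝ≥0∞, c ≠ ⊤ ∧ ∀ (τ : V → V → ℝ≥0∞), Kern G C L p₀ θ τ →
      ∀ A ∈ C, ∀ n, an G C τ A n ≤ c := by
  rcases hTYP V G C d L D R k hG with h | ⟨K, hK, hKd⟩
  · obtain ⟨c, hc, h1⟩ := hKBND V G C d L D R k hG.toGeo0 C h p₀ hp
    exact ⟨c, hc, fun τ hτ => h1 θ τ hτ⟩
  · obtain ⟨c, hc, h1⟩ := hKBND V G C d L D R k hG.toGeo0 K hK p₀ hp
    obtain ⟨c', hc', h2⟩ := hKUP V G C d L D R k hG.toGeo0 K hK hKd p₀ θ hp hθ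
    refine ⟨max c c', max_ne_top hc hc', fun τ hτ A hA n => ?_⟩
    rcases hKd A hA with ⟨ha, _⟩ | ⟨ha, _⟩
    · exact (h1 θ τ hτ A ha n).trans (le_max_left _ _)
    · exact (h2 τ hτ A hA ha n).trans (le_max_right _ _)

/-- uniform Schur bound -/
theorem schur_all (hTYP : Stmt_TYP) (hKBND : Stmt_KBND) (hKUP : Stmt_KUP) (hKVS : Stmt_KVS)
    (hKSCH : Stmt_KSCH)
    (V : Type) [Nonempty V] (G : SimpleGraph V) (C : Set (Set V)) (d L D R k : ℕ)
    (hG : Geo G C d L D R k) (p₀ θ r : ℝ≥0∞) (hp : p₀ ≠ 0) (hθ : θ < 1) (hr : r < 1)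
    (hθr : θ < r ^ L) :
    ∃ c : ℝ≥0∞, c ≠ ⊤ ∧ ∀ (τ : V → V → ℝ≥0∞), Kern G C L p₀ θ τ →
      ∀ o x : V, ∑' y, τ x y * r ^ (sep C y o).ncard ≤ c * r ^ (sep C x o).ncard := by
  obtain ⟨c, hc, h1⟩ := bound_all hTYP hKBND hKUP V G C d L D R k hG p₀ θ hp hθ
  obtain ⟨c', hc', h2⟩ := hKVS V G C d L D R k hG.toGeo0 p₀ r c hp hr hc
  obtain ⟨c'', hc'', h3⟩ := hKSCH V G C d L D R k hG.toGeo0 p₀ θ r c' hp hr hθr hc'
  exact ⟨c'', hc'', fun τ hτ => h3 τ hτ (h2 θ τ hτ (h1 τ hτ))⟩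

theorem main (hTAU : Stmt_TAU) (hCHI : Stmt_CHI) (hSHA : Stmt_SHA) (hDUN : Stmt_DUN)
    (hCON : Stmt_CON) (hBRA : Stmt_BRA) (hTYP : Stmt_TYP) (hKBND : Stmt_KBND) (hKUP : Stmt_KUP)
    (hKVS : Stmt_KVS) (hKSCH : Stmt_KSCH) (hKPC : Stmt_KPC) (hKER : Stmt_KER) (hPER : Stmt_PER)
    (hSCH : Stmt_SCH) (hCNT : Stmt_CNT) : Stmt_MAIN := by
  intro V G hconn hlf hqt hch hends q hq
  have hcount : Countable V := hCNT V G hconn hlf
  have hne : Nonempty V := hconn.nonempty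
  obtain ⟨C, k, c1, c2, c3, c4, c5, c6, c7⟩ := hDUN V G hconn hends
  obtain ⟨d, L, D, R, hG0⟩ := hCON V G hconn hlf hqt C k c1 c2 c3 c4 c5 c6 c7
  have hG : Geo G C d L D R k := hBRA V G C d L D R k hG0 hch
  obtain ⟨o⟩ := hne
  have hne : Nonempty V := ⟨o⟩
  change pc G < sSup {p : ℝ | 0 ≤ p ∧ p ≤ 1 ∧ ∃ C : ℝ, ∀ (S T : Finset V) (f : V → ℝ),
      ∑ u ∈ T, |∑ v ∈ S, (tau G p u v).toReal * f v| ^ q ≤ C * ∑ v ∈ S, |f v| ^ q}
  -- it is enough to find one good parameter above `pc`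
  have hgood : ∀ p : ℝ, pc G < p → 0 ≤ p → p ≤ 1 → (∃ C : ℝ, ∀ (S T : Finset V) (f : V → ℝ),
      ∑ u ∈ T, |∑ v ∈ S, (tau G p u v).toReal * f v| ^ q ≤ C * ∑ v ∈ S, |f v| ^ q) →
      pc G < sSup {p : ℝ | 0 ≤ p ∧ p ≤ 1 ∧ ∃ C : ℝ, ∀ (S T : Finset V) (f : V → ℝ),
      ∑ u ∈ T, |∑ v ∈ S, (tau G p u v).toReal * f v| ^ q ≤ C * ∑ v ∈ S, |f v| ^ q} := by
    intro p h1 h2 h3 h4
    exact lt_of_lt_of_le h1 (le_csSup ⟨1, fun x hx => hx.2.1⟩ ⟨h2, h3, h4⟩)
  have hsymm : ∀ p : ℝ, ∀ x y : V, tau G p x y = tau G p y x := fun p x y =>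
    (hTAU V G G p p x y).2.2.1
  -- `pc < 1`
  obtain ⟨η, hη0, hη1, hη⟩ := hKPC V G C d L D R k hG
  have hpc1 : pc G ≤ η := by
    by_contra hcon
    push Not at hcon
    have h1 := hSHA V G hconn hlf hqt η hη0.le hcon
    exact hη _ _ (hKER V G C d L D R k hG0 η η 1 hη0 le_rfl hη1.le le_rfl h1)
  set p₀ : ℝ := 1 / (4 * ((d : ℝ) + 1)) with hp₀
  have hd0 : (0 : ℝ) ≤ d := Nat.cast_nonneg d
  have hp₀pos : 0 < p₀ := by rw [hp₀]; positivity
  have hp₀le : p₀ ≤ 1 / 4 := by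
    rw [hp₀]
    apply one_div_le_one_div_of_le (by norm_num)
    linarith
  rcases lt_or_ge (pc G) (2 * p₀) with hcase | hcase
  · -- small `pc`
    refine hgood (2 * p₀) hcase (by linarith) (by linarith) ?_
    have hx : ∀ x : V, ∑' y, tau G (2 * p₀) x y ≤ ((1 : ℕ) : ℝ≥0∞) / (1 - 1 / 2) := by
      refine hCHI V G (2 * p₀) (by linarith) (by linarith) hlf 1 (1 / 2) ?_ ?_
      · rw [one_div]
        exact ENNReal.inv_lt_one.mpr (by norm_num)
      intro x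
      refine ⟨{x}, Finset.mem_singleton_self x, by simp, ?_⟩
      unfold phi
      have hinj : Function.Injective (fun e : bdE G (({x} : Finset V) : Set V) =>
          (⟨e.1.2, by
            have h := e.2.2.2
            have h1 : e.1.1 = x := by simpa using e.2.1
            rw [h1] at h
            exact h⟩ : G.neighborSet x)) := by
        intro a b hab
        have ha : a.1.1 = x := by simpa using a.2.1
        have hb : b.1.1 = x := by simpa using b.2.1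
        have h2 : a.1.2 = b.1.2 := congrArg Subtype.val hab
        exact Subtype.ext (Prod.ext (ha.trans hb.symm) h2)
      calc ∑' e : bdE G (({x} : Finset V) : Set V),
            ENNReal.ofReal (2 * p₀) * tau (within G (({x} : Finset V) : Set V)) (2 * p₀) x e.1.1
          ≤ ∑' e : bdE G (({x} : Finset V) : Set V), ENNReal.ofReal (2 * p₀) := by
            refine ENNReal.tsum_le_tsum fun e => ?_
            calc _ ≤ ENNReal.ofReal (2 * p₀) * 1 := by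
                  gcongr
                  exact (hTAU V _ G (2 * p₀) (2 * p₀) x e.1.1).1
              _ = _ := mul_one _
        _ = ∑' e : bdE G (({x} : Finset V) : Set V), (fun _ : G.neighborSet x =>
              ENNReal.ofReal (2 * p₀)) ⟨e.1.2, by
            have h := e.2.2.2
            have h1 : e.1.1 = x := by simpa using e.2.1
            rw [h1] at h
            exact h⟩ := rfl
        _ ≤ ∑' _ : G.neighborSet x, ENNReal.ofReal (2 * p₀) :=
            ENNReal.tsum_comp_le_tsum_of_injective hinj _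
        _ = ((G.neighborSet x).ncard : ℝ≥0∞) * ENNReal.ofReal (2 * p₀) := by
            have hfin : Finite (G.neighborSet x) := (hlf x)
            rw [ENNReal.tsum_const, ENat.card_coe_set_eq, (hlf x).cast_ncard_eq.symm]
            rfl
        _ ≤ (d : ℝ≥0∞) * ENNReal.ofReal (2 * p₀) := by
            gcongr
            exact (hG0.deg x).2
        _ ≤ 1 / 2 := by
            have h1 : (1 : ℝ≥0∞) / 2 = ENNReal.ofReal (1 / 2) := by
              rw [ENNReal.ofReal_div_of_pos two_pos]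
              simp
            rw [h1, ← ENNReal.ofReal_natCast, ← ENNReal.ofReal_mul hd0]
            apply ENNReal.ofReal_le_ofReal
            rw [hp₀, ← mul_assoc, mul_one_div, div_le_div_iff₀ (by positivity) two_pos]
            linarith
    have hx2 : ∀ x : V, ∑' y, tau G (2 * p₀) x y ≤ 2 := by
      intro x
      refine (hx x).trans (le_of_eq ?_)
      rw [Nat.cast_one]
      simp
    refine hSCH V (tau G (2 * p₀)) (hsymm _) q hq (fun _ => 1) (fun _ => one_pos) 2 (by norm_num) ?_ ?_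
    · intro x
      simp only [Real.one_rpow, ENNReal.ofReal_one, mul_one]
      exact hx2 x
    · intro x
      simp only [Real.one_rpow, ENNReal.ofReal_one, mul_one]
      exact hx2 x
  · -- large `pc`
    have hpc_lt : pc G < 1 := lt_of_le_of_lt hpc1 hη1
    have hpc0 : p₀ < pc G := by linarith
    set t : ℝ := 1 - (1 - pc G) ^ k with ht
    have ht1 : t < 1 := by
      have : 0 < (1 - pc G) ^ k := pow_pos (by linarith) k
      linarith
    obtain ⟨ρ, hρ0, hρ1, hρq, hρq'⟩ := exists_rho q L t ht1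
    have hq'0 : 0 < q / (q - 1) := div_pos (by linarith) (by linarith)
    have hθ1 : ENNReal.ofReal t < 1 := by
      rw [← ENNReal.ofReal_one]
      exact (ENNReal.ofReal_lt_ofReal_iff one_pos).mpr ht1
    -- the bound for one exponent
    have key : ∀ s : ℝ, 0 < s → t < (ρ ^ s) ^ L → ∃ c : ℝ≥0∞, c ≠ ⊤ ∧
        ∀ p : ℝ, p₀ ≤ p → p < pc G → ∀ x : V,
          ∑' y, tau G p x y * (ENNReal.ofReal (ρ ^ s)) ^ (sep C y o).ncard ≤
            c * (ENNReal.ofReal (ρ ^ s)) ^ (sep C x o).ncard := by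
      intro s hs hts
      obtain ⟨c, hc, h1⟩ := schur_all hTYP hKBND hKUP hKVS hKSCH V G C d L D R k hG
        (ENNReal.ofReal p₀) (ENNReal.ofReal t) (ENNReal.ofReal (ρ ^ s))
        (by simpa using hp₀pos) hθ1
        (by
          rw [← ENNReal.ofReal_one]
          exact (ENNReal.ofReal_lt_ofReal_iff one_pos).mpr (Real.rpow_lt_one hρ0.le hρ1 hs))
        (by
          rw [← ENNReal.ofReal_pow (Real.rpow_nonneg hρ0.le s)]
          exact (ENNReal.ofReal_lt_ofReal_iff (pow_pos (Real.rpow_pos_of_pos hρ0 s) L)).mpr hts)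
      refine ⟨c, hc, fun p hp hp' x => ?_⟩
      have hkern := hKER V G C d L D R k hG0 p₀ p (pc G) hp₀pos hp hp'.le hpc_lt.le
        (hSHA V G hconn hlf hqt p (hp₀pos.le.trans hp) hp')
      exact h1 (tau G p) hkern o x
    obtain ⟨c₁, hc₁, k₁⟩ := key q (by linarith) hρq
    obtain ⟨c₂, hc₂, k₂⟩ := key (q / (q - 1)) hq'0 hρq'
    -- the small window
    have hW : ∀ (c : ℝ≥0∞), c ≠ ⊤ → ∀ s : ℝ,
        c * d * ((ENNReal.ofReal (ρ ^ s))⁻¹) ^ L ≠ ⊤ := by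
      intro c hc s
      refine ENNReal.mul_ne_top (ENNReal.mul_ne_top hc (ENNReal.natCast_ne_top d)) ?_
      refine ENNReal.pow_ne_top (ENNReal.inv_ne_top.mpr ?_)
      have := Real.rpow_pos_of_pos hρ0 s
      simpa using this
    obtain ⟨ε₁, hε₁, w₁⟩ := exists_eps _ (hW c₁ hc₁ q)
    obtain ⟨ε₂, hε₂, w₂⟩ := exists_eps _ (hW c₂ hc₂ (q / (q - 1)))
    set ε : ℝ := min ε₁ ε₂ with hε
    have hεpos : 0 < ε := lt_min hε₁ hε₂
    have h1pc : 0 < 1 - pc G := by linarith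
    obtain ⟨δ, hδ0, hδ1, hδ2, hδ3⟩ : ∃ δ : ℝ, 0 < δ ∧ δ ≤ pc G - p₀ ∧ δ < 1 - pc G ∧
        2 * δ ≤ ε * (1 - pc G) := by
      refine ⟨min (pc G - p₀) (min ((1 - pc G) / 2) (ε * (1 - pc G) / 2)), ?_, min_le_left _ _, ?_, ?_⟩
      · refine lt_min (by linarith) (lt_min (by linarith) (by positivity))
      · exact lt_of_le_of_lt ((min_le_right _ _).trans (min_le_left _ _)) (by linarith)
      · have := (min_le_right (pc G - p₀) (min ((1 - pc G) / 2) (ε * (1 - pc G) / 2))).trans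
          (min_le_right _ _)
        linarith
    have hp1 : p₀ ≤ pc G - δ := by linarith
    have hp2 : pc G - δ < pc G := by linarith
    have hp0' : 0 ≤ pc G - δ := hp₀pos.le.trans hp1
    have hfrac : (pc G + δ - (pc G - δ)) / (1 - (pc G - δ)) ≤ ε := by
      rw [div_le_iff₀ (by linarith)]
      have : ε * (1 - pc G) ≤ ε * (1 - (pc G - δ)) := by
        apply mul_le_mul_of_nonneg_left _ hεpos.le
        linarith
      linarith
    have hwin : ∀ (c : ℝ≥0∞) (s ε' : ℝ), ε ≤ ε' →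
        ENNReal.ofReal ε' * (c * d * ((ENNReal.ofReal (ρ ^ s))⁻¹) ^ L) ≤ 1 / 2 →
        ENNReal.ofReal ((pc G + δ - (pc G - δ)) / (1 - (pc G - δ))) * c * d *
          ((ENNReal.ofReal (ρ ^ s))⁻¹) ^ L ≤ 1 / 2 := by
      intro c s ε' h1 h2
      refine le_trans ?_ h2
      rw [mul_assoc, mul_assoc, ← mul_assoc c]
      gcongr
      exact hfrac.trans h1
    have hpow : ∀ (s : ℝ) (n : ℕ), ENNReal.ofReal ((ρ ^ n) ^ s) = (ENNReal.ofReal (ρ ^ s)) ^ n := by
      intro s n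
      rw [← ENNReal.ofReal_pow (Real.rpow_nonneg hρ0.le s), ← Real.rpow_natCast, ← Real.rpow_mul hρ0.le,
        mul_comm, Real.rpow_mul hρ0.le, Real.rpow_natCast]
    have per : ∀ s : ℝ, 0 < s → ∀ c : ℝ≥0∞, c ≠ ⊤ →
        ENNReal.ofReal ((pc G + δ - (pc G - δ)) / (1 - (pc G - δ))) * c * d *
          ((ENNReal.ofReal (ρ ^ s))⁻¹) ^ L ≤ 1 / 2 →
        (∀ p : ℝ, p₀ ≤ p → p < pc G → ∀ x : V,
          ∑' y, tau G p x y * (ENNReal.ofReal (ρ ^ s)) ^ (sep C y o).ncard ≤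
            c * (ENNReal.ofReal (ρ ^ s)) ^ (sep C x o).ncard) →
        ∀ x : V, ∑' y, tau G (pc G + δ) x y * ENNReal.ofReal ((ρ ^ (sep C y o).ncard) ^ s) ≤
          2 * c * ENNReal.ofReal ((ρ ^ (sep C x o).ncard) ^ s) := by
      intro s hs c hc hw hk x
      simp only [hpow]
      refine hPER V G C d L D R k hG0 (ENNReal.ofReal (ρ ^ s)) c ?_ ?_ hc (pc G - δ) (pc G + δ) hp0'
        (by linarith) (by linarith) hw o (hk _ hp1 hp2) x
      · have := Real.rpow_pos_of_pos hρ0 s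
        simpa using this
      · rw [← ENNReal.ofReal_one]
        exact ENNReal.ofReal_le_ofReal (Real.rpow_lt_one hρ0.le hρ1 hs).le
    refine hgood (pc G + δ) (by linarith) (by linarith) (by linarith) ?_
    refine hSCH V (tau G (pc G + δ)) (hsymm _) q hq (fun x => ρ ^ (sep C x o).ncard)
      (fun x => pow_pos hρ0 _) (2 * max c₁ c₂)
      (ENNReal.mul_ne_top (by norm_num) (max_ne_top hc₁ hc₂)) ?_ ?_
    · intro x
      refine (per q (by linarith) c₁ hc₁ (hwin c₁ q ε₁ (min_le_left _ _) w₁) k₁ x).trans ?_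
      gcongr
      exact le_max_left _ _
    · intro x
      refine (per (q / (q - 1)) hq'0 c₂ hc₂ (hwin c₂ _ ε₂ (min_le_right _ _) w₂) k₂ x).trans ?_
      gcongr
      exact le_max_right _ _

end Pool.L2B
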