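import Pool.Agent.Work.MP_23451d_me.Interface

set_option autoImplicit false

namespace Pool.L2B

open SimpleGraph

/-- a set which is neither empty nor everything has a nonempty boundary -/
theorem h73_bdE_nonempty {V : Type} {G : SimpleGraph V} (hG : G.Connected) {A : Set V} {a b : V}
    (ha : a ∈ A) (hb : b ∉ A) : (bdE G A).Nonempty := by
  obtain ⟨P⟩ := hG.preconnected a b
  obtain ⟨d, -, hd1, hd2⟩ := P.exists_boundary_dart A ha hb
  exact ⟨(d.fst, d.snd), hd1, hd2, d.adj⟩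

theorem stmt_NAR (hSUBM : Stmt_SUBM) : Stmt_NAR := by
  intro V G hG k A hA
  obtain ⟨⟨hinf, hinf', hfin⟩, hk, hmin⟩ := hA
  have hS := hSUBM V G A A hfin hfin
  obtain ⟨a₀, ha₀⟩ := hinf.nonempty
  obtain ⟨b₀, hb₀⟩ := hinf'.nonempty
  refine ⟨⟨⟨hinf', by rwa [compl_compl], hS.1⟩, by rw [hS.2.1, hk], hmin⟩,
    h73_bdE_nonempty hG ha₀ hb₀, ?_⟩
  obtain ⟨K, hK⟩ : ∃ K : V → Set V, ∀ a b, b ∈ K a ↔ b ∈ A ∧ (within G A).Reachable a b :=
    ⟨fun a => {b | b ∈ A ∧ (within G A).Reachable a b}, fun a b => Iff.rfl⟩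
  have hKb : ∀ a, bdE G (K a) ⊆ bdE G A := by
    rintro a ⟨x, y⟩ ⟨hx, hy, hxy⟩
    change x ∈ K a at hx
    change y ∉ K a at hy
    change G.Adj x y at hxy
    rw [hK] at hx
    refine ⟨hx.1, fun hyA => hy ?_, hxy⟩
    rw [hK]
    have hadj : (within G A).Adj x y := ⟨hxy, hx.1, hyA⟩
    exact ⟨hyA, hx.2.trans hadj.reachable⟩
  have hKn : ∀ a ∈ A, (bdE G (K a)).Nonempty := by
    intro a ha
    refine h73_bdE_nonempty hG (a := a) (b := b₀) ((hK a a).2 ⟨ha, Reachable.refl _⟩) ?_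
    rw [hK]
    exact fun h => hb₀ h.1
  have hcov : A ⊆ ⋃ e ∈ bdE G A, K e.1 := by
    intro a ha
    obtain ⟨e, he⟩ := hKn a ha
    have he' := hKb a he
    simp only [Set.mem_iUnion]
    refine ⟨e, he', ?_⟩
    have h1 : e.1 ∈ K a := he.1
    rw [hK] at h1 ⊢
    exact ⟨ha, h1.2.symm⟩
  obtain ⟨e, he, heinf⟩ : ∃ e ∈ bdE G A, (K e.1).Infinite := by
    by_contra hcon
    push Not at hcon
    apply hinf
    refine Set.Finite.subset (Set.Finite.biUnion hfin (fun e he => ?_)) hcov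
    exact hcon e he
  have hcut : IsCut G (K e.1) := by
    refine ⟨heinf, hinf'.mono ?_, hfin.subset (hKb _)⟩
    intro x hx h
    rw [hK] at h
    exact hx h.1
  have heq : bdE G (K e.1) = bdE G A :=
    Set.eq_of_subset_of_ncard_le (hKb _) (by rw [hk]; exact hmin _ hcut) hfin
  have hall : ∀ a ∈ A, (within G A).Reachable e.1 a := by
    intro a ha
    obtain ⟨f, hf⟩ := hKn a ha
    have h1 : f ∈ bdE G (K e.1) := by rw [heq]; exact hKb a hf
    have h2 : f.1 ∈ K e.1 := h1.1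
    have h3 : f.1 ∈ K a := hf.1
    rw [hK] at h2 h3
    exact h2.2.trans h3.2.symm
  intro a ha b hb
  exact (hall a ha).symm.trans (hall b hb)

end Pool.L2B
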