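import Pool.Agent.Work.MP_23451d_me.Interface

/-!
# TYP: the two kinds of families of cuts
-/

set_option autoImplicit false

namespace Pool.L2B

open MeasureTheory SimpleGraph
open scoped ENNReal

theorem typ_img_trans {V : Type} {G : SimpleGraph V} (φ χ : G ≃g G) (X : Set V) :
    (φ.trans χ) '' X = χ '' (φ '' X) := by
  rw [← Set.image_comp]
  rfl

theorem typ_img_symm {V : Type} {G : SimpleGraph V} (φ : G ≃g G) (X : Set V) :
    φ.symm '' (φ '' X) = X := by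
  rw [← Set.image_comp]
  have h : (φ.symm ∘ φ : V → V) = id := by
    funext v
    exact φ.symm_apply_apply v
  rw [h, Set.image_id]

theorem typ_img_ss {V : Type} {G : SimpleGraph V} (φ : G ≃g G) {X Y : Set V} (h : X ⊂ Y) :
    φ '' X ⊂ φ '' Y := by
  refine ⟨Set.image_mono h.1, fun h2 => h.2 ?_⟩
  have h3 := Set.image_mono (f := φ.symm) h2
  rwa [typ_img_symm, typ_img_symm] at h3

theorem typ_img_compl {V : Type} {G : SimpleGraph V} (φ : G ≃g G) (X : Set V) :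
    φ '' Xᶜ = (φ '' X)ᶜ :=
  Set.image_compl_eq φ.bijective

theorem typ_core {V : Type} {G : SimpleGraph V} {C : Set (Set V)} (R : Bool → Set V)
    (hR : ∀ s, (R s)ᶜ = R (!s)) (hRC : ∀ s, R s ∈ C)
    (hone : ∀ A ∈ C, ∃ (φ : G ≃g G) (s : Bool), A = φ '' R s)
    (hcompl : ∀ A ∈ C, Aᶜ ∈ C)
    (hinv : ∀ (φ : G ≃g G), ∀ A ∈ C, φ '' A ∈ C)
    (hbey : ∀ A ∈ C, ∃ B ∈ C, B ⊂ A) :
    Cls G C C ∨ ∃ K : Set (Set V), Cls G C K ∧ ∀ A ∈ C, (A ∈ K ∧ Aᶜ ∉ K) ∨ (A ∉ K ∧ Aᶜ ∈ K) := by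
  have h2 : ∀ s, ∃ t, ∃ φ : G ≃g G, φ '' R t ⊂ R s := by
    intro s
    obtain ⟨B, hB, hBs⟩ := hbey (R s) (hRC s)
    obtain ⟨φ, t, rfl⟩ := hone B hB
    exact ⟨t, φ, hBs⟩
  have h3 : ∀ s t u, (∃ φ : G ≃g G, φ '' R t ⊂ R s) → (∃ φ : G ≃g G, φ '' R u ⊂ R t) →
      ∃ φ : G ≃g G, φ '' R u ⊂ R s := by
    rintro s t u ⟨φ, hφ⟩ ⟨χ, hχ⟩
    refine ⟨χ.trans φ, ?_⟩
    rw [typ_img_trans]
    exact (typ_img_ss φ hχ).trans hφ
  have h4 : ∀ s t, (∃ φ : G ≃g G, φ '' R t ⊂ R s) → ∀ ψ χ : G ≃g G,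
      ∃ φ : G ≃g G, φ '' (χ '' R t) ⊂ ψ '' R s := by
    rintro s t ⟨φ, hφ⟩ ψ χ
    refine ⟨χ.symm.trans (φ.trans ψ), ?_⟩
    rw [typ_img_trans, typ_img_symm, typ_img_trans]
    exact typ_img_ss ψ hφ
  have h5 : ∀ s t (ψ χ : G ≃g G), χ '' R t ⊂ ψ '' R s → ∃ φ : G ≃g G, φ '' R t ⊂ R s := by
    intro s t ψ χ h
    refine ⟨χ.trans ψ.symm, ?_⟩
    rw [typ_img_trans]
    have h6 := typ_img_ss ψ.symm h
    rwa [typ_img_symm] at h6
  by_cases hall : ∀ s, ∃ φ : G ≃g G, φ '' R (!s) ⊂ R s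
  · left
    have h7 : ∀ s t, ∃ φ : G ≃g G, φ '' R t ⊂ R s := by
      intro s t
      by_cases hst : t = !s
      · rw [hst]
        exact hall s
      · have hts : t = s := by
          cases s <;> cases t <;> simp_all
        rw [hts]
        have h8 := hall (!s)
        rw [Bool.not_not] at h8
        exact h3 _ _ _ (hall s) h8
    refine ⟨subset_refl C, ⟨_, hRC true⟩, fun A _ B hB _ => hB, hinv, ?_⟩
    intro A hA B hB
    obtain ⟨ψ, s, rfl⟩ := hone A hA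
    obtain ⟨χ, t, rfl⟩ := hone B hB
    exact h4 s t (h7 s t) ψ χ
  · right
    rw [not_forall] at hall
    obtain ⟨s, hs⟩ := hall
    have hss : ∃ φ : G ≃g G, φ '' R s ⊂ R s := by
      obtain ⟨t, ht⟩ := h2 s
      by_cases hst : t = !s
      · rw [hst] at ht
        exact absurd ht hs
      · have hts : t = s := by
          cases s <;> cases t <;> simp_all
        rwa [hts] at ht
    have hdisj : ∀ ψ χ : G ≃g G, ψ '' R (!s) ≠ χ '' R s := by
      intro ψ χ h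
      apply hs
      obtain ⟨φ, hφ⟩ := h4 s s hss (RelIso.refl _) χ
      rw [← h, ← typ_img_trans] at hφ
      exact h5 s (!s) (RelIso.refl _) _ hφ
    refine ⟨{A | ∃ φ : G ≃g G, A = φ '' R s}, ⟨?_, ⟨R s, RelIso.refl _, ?_⟩, ?_, ?_, ?_⟩, ?_⟩
    · rintro A ⟨φ, rfl⟩
      exact hinv φ _ (hRC s)
    · exact (Set.image_id (R s)).symm
    · rintro A ⟨ψ, rfl⟩ B hB hBA
      by_cases hne : B = ψ '' R s
      · exact ⟨ψ, hne⟩
      · have hlt : B ⊂ ψ '' R s := hBA.ssubset_of_ne hne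
        obtain ⟨χ, t, rfl⟩ := hone B hB
        by_cases hst : t = !s
        · rw [hst] at hlt
          exact absurd (h5 s (!s) ψ χ hlt) hs
        · have hts : t = s := by
            cases s <;> cases t <;> simp_all
          rw [hts]
          exact ⟨χ, rfl⟩
    · rintro φ A ⟨ψ, rfl⟩
      exact ⟨ψ.trans φ, (typ_img_trans ψ φ _).symm⟩
    · rintro A ⟨ψ, rfl⟩ B ⟨χ, rfl⟩
      exact h4 s s hss ψ χ
    · intro A hA
      obtain ⟨φ, t, rfl⟩ := hone A hA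
      by_cases hst : t = !s
      · right
        rw [hst]
        refine ⟨?_, φ, ?_⟩
        · rintro ⟨χ, hχ⟩
          exact hdisj φ χ hχ
        · rw [← typ_img_compl, hR, Bool.not_not]
      · have hts : t = s := by
          cases s <;> cases t <;> simp_all
        left
        rw [hts]
        refine ⟨⟨φ, rfl⟩, ?_⟩
        rintro ⟨χ, hχ⟩
        rw [← typ_img_compl, hR] at hχ
        exact hdisj φ χ hχ

theorem stmt_TYP (hBEY : Stmt_BEY) : Stmt_TYP := by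
  intro V G C d L D R k hG
  have hG0 := hG.toGeo0
  obtain ⟨A₀, hA₀, hone⟩ := hG0.one
  refine typ_core (G := G) (fun s : Bool => if s then A₀ else A₀ᶜ) ?_ ?_ ?_ hG0.compl hG0.inv
    (hBEY V G C d L D R k hG0)
  · intro s
    cases s
    · simp
    · simp
  · intro s
    cases s
    · simpa using hG0.compl A₀ hA₀
    · simpa using hA₀
  · intro A hA
    obtain ⟨φ, h | h⟩ := hone A hA
    · exact ⟨φ, true, by simpa using h⟩
    · exact ⟨φ, false, by simpa using h⟩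

end Pool.L2B
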